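import Pool.Agent.VD.Rk

/-!
# VD / Disc: discrepancy of functions of small rank against a quadratic character
-/

set_option autoImplicit false

namespace Pool.Agent.VD

open Finset

section matrix

variable {X Y : Type} [Fintype X] [Fintype Y]

theorem disc_euc (d : ℕ) (τ m : Fin d → Y → ℝ) :
    (∑ i, ∑ y, τ i y * m i y) ^ 2 ≤ (∑ i, ∑ y, τ i y ^ 2) * ∑ i, ∑ y, m i y ^ 2 := by
  have h := Finset.sum_mul_sq_le_sq_mul_sq (univ : Finset (Fin d × Y)) (fun p => τ p.1 p.2)
    (fun p => m p.1 p.2)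
  rw [Fintype.sum_prod_type, Fintype.sum_prod_type, Fintype.sum_prod_type] at h
  exact h

omit [Fintype Y] in
/-- orthonormal decomposition of a matrix of small rank -/
theorem disc_orth (T : X → Y → ℝ) (W : ℕ) (u : Fin W → X → ℝ) (v : Fin W → Y → ℝ)
    (hT : ∀ x y, T x y = ∑ k, u k x * v k y) :
    ∃ (d : ℕ) (β : Fin d → X → ℝ) (τ : Fin d → Y → ℝ), d ≤ W ∧ (∀ i, ∑ x, β i x ^ 2 = 1) ∧
      (∀ x y, T x y = ∑ i, τ i y * β i x) ∧ ∀ y, ∑ i, τ i y ^ 2 = ∑ x, T x y ^ 2 := by
  classical
  let U : Submodule ℝ (EuclideanSpace ℝ X) :=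
    Submodule.span ℝ (Set.range fun k : Fin W => (WithLp.toLp 2 (u k) : EuclideanSpace ℝ X))
  have hmem : ∀ y, (WithLp.toLp 2 (fun x => T x y) : EuclideanSpace ℝ X) ∈ U := by
    intro y
    have h1 : (WithLp.toLp 2 (fun x => T x y) : EuclideanSpace ℝ X) =
        ∑ k, v k y • (WithLp.toLp 2 (u k) : EuclideanSpace ℝ X) := by
      ext x
      simp only [WithLp.ofLp_sum, WithLp.ofLp_smul, Finset.sum_apply, Pi.smul_apply, smul_eq_mul]
      rw [hT]
      exact Finset.sum_congr rfl fun k _ => mul_comm _ _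
    rw [h1]
    exact Submodule.sum_mem _ fun k _ => Submodule.smul_mem _ _ (Submodule.subset_span ⟨k, rfl⟩)
  let b := stdOrthonormalBasis ℝ U
  have hd : Module.finrank ℝ U ≤ W := by
    have h1 := finrank_range_le_card (R := ℝ)
      (fun k : Fin W => (WithLp.toLp 2 (u k) : EuclideanSpace ℝ X))
    rw [Fintype.card_fin] at h1
    exact h1
  refine ⟨Module.finrank ℝ U, fun i x => (b i : EuclideanSpace ℝ X) x,
    fun i y => b.repr ⟨_, hmem y⟩ i, hd, ?_, ?_, ?_⟩
  · intro i
    have h1 : ‖(b i : EuclideanSpace ℝ X)‖ = 1 := b.orthonormal.1 i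
    have h2 := EuclideanSpace.real_norm_sq_eq (b i : EuclideanSpace ℝ X)
    rw [h1] at h2
    rw [← h2]
    norm_num
  · intro x y
    have h1 := congrArg (fun z : U => (z : EuclideanSpace ℝ X) x) (b.sum_repr ⟨_, hmem y⟩)
    simp only [Submodule.coe_sum, Submodule.coe_smul, WithLp.ofLp_sum, WithLp.ofLp_smul,
      Finset.sum_apply, Pi.smul_apply, smul_eq_mul] at h1
    exact h1.symm
  · intro y
    have h1 := b.repr.norm_map ⟨_, hmem y⟩
    have h2 := EuclideanSpace.real_norm_sq_eq (b.repr ⟨_, hmem y⟩)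
    have h3 := EuclideanSpace.real_norm_sq_eq
      (WithLp.toLp 2 (fun x => T x y) : EuclideanSpace ℝ X)
    rw [← h2, h1]
    exact h3

/-- the discrepancy of a matrix of rank `W` -/
theorem disc_rank (M T : X → Y → ℝ) (L : ℝ) (hL : 0 ≤ L)
    (hM : ∀ e : X → ℝ, ∑ y, (∑ x, e x * M x y) ^ 2 ≤ L * ∑ x, e x ^ 2)
    (W : ℕ) (u : Fin W → X → ℝ) (v : Fin W → Y → ℝ) (hT : ∀ x y, T x y = ∑ k, u k x * v k y) :
    (∑ x, ∑ y, M x y * T x y) ^ 2 ≤ W * L * ∑ x, ∑ y, T x y ^ 2 := by
  obtain ⟨d, β, τ, hd, h1, h2, h3⟩ := disc_orth T W u v hT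
  have h4 : ∑ x, ∑ y, M x y * T x y = ∑ i, ∑ y, τ i y * ∑ x, β i x * M x y := by
    have h5 : ∀ x, ∑ y, M x y * T x y = ∑ i, ∑ y, τ i y * (β i x * M x y) := by
      intro x
      rw [Finset.sum_comm]
      refine Finset.sum_congr rfl fun y _ => ?_
      rw [h2, Finset.mul_sum]
      exact Finset.sum_congr rfl fun i _ => by ring
    rw [Finset.sum_congr rfl fun x _ => h5 x, Finset.sum_comm]
    refine Finset.sum_congr rfl fun i _ => ?_
    rw [Finset.sum_comm]
    refine Finset.sum_congr rfl fun y _ => ?_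
    rw [Finset.mul_sum]
  have h5 : ∑ i, ∑ y, τ i y ^ 2 = ∑ x, ∑ y, T x y ^ 2 := by
    rw [Finset.sum_comm, Finset.sum_congr rfl fun y _ => h3 y, Finset.sum_comm]
  have h6 : ∑ i, ∑ y, (∑ x, β i x * M x y) ^ 2 ≤ W * L := by
    calc ∑ i, ∑ y, (∑ x, β i x * M x y) ^ 2 ≤ ∑ _i : Fin d, L :=
          Finset.sum_le_sum fun i _ => (hM (β i)).trans (by rw [h1 i, mul_one])
      _ = d * L := by rw [Finset.sum_const, card_univ, Fintype.card_fin, nsmul_eq_mul]
      _ ≤ W * L := mul_le_mul_of_nonneg_right (by exact_mod_cast hd) hL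
  rw [h4]
  refine (disc_euc d τ _).trans ?_
  rw [h5, mul_comm]
  exact mul_le_mul_of_nonneg_right h6
    (Finset.sum_nonneg fun x _ => Finset.sum_nonneg fun y _ => sq_nonneg _)

/-- the Schur test for the Gram matrix -/
theorem disc_schur (M : X → Y → ℝ) (κ : ℝ) (hK : ∀ x, ∑ x', |∑ y, M x y * M x' y| ≤ κ)
    (e : X → ℝ) : ∑ y, (∑ x, e x * M x y) ^ 2 ≤ κ * ∑ x, e x ^ 2 := by
  have h1 : ∑ y, (∑ x, e x * M x y) ^ 2 =
      ∑ x, ∑ x', e x * e x' * ∑ y, M x y * M x' y := by
    have h2 : ∀ y, (∑ x, e x * M x y) ^ 2 = ∑ x, ∑ x', e x * e x' * (M x y * M x' y) := by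
      intro y
      rw [sq, Finset.sum_mul_sum]
      exact Finset.sum_congr rfl fun x _ => Finset.sum_congr rfl fun x' _ => by ring
    rw [Finset.sum_congr rfl fun y _ => h2 y, Finset.sum_comm]
    refine Finset.sum_congr rfl fun x _ => ?_
    rw [Finset.sum_comm]
    refine Finset.sum_congr rfl fun x' _ => ?_
    rw [Finset.mul_sum]
  have h2 : ∀ x x', e x * e x' * ∑ y, M x y * M x' y ≤
      (e x ^ 2 / 2) * |∑ y, M x y * M x' y| + (e x' ^ 2 / 2) * |∑ y, M x' y * M x y| := by
    intro x x'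
    have h3 : ∑ y, M x' y * M x y = ∑ y, M x y * M x' y :=
      Finset.sum_congr rfl fun y _ => mul_comm _ _
    rw [h3, ← add_mul]
    refine (le_abs_self _).trans ?_
    rw [abs_mul]
    refine mul_le_mul_of_nonneg_right ?_ (abs_nonneg _)
    rw [abs_le]
    constructor <;> nlinarith [sq_nonneg (e x - e x'), sq_nonneg (e x + e x')]
  have h3 : ∑ x, ∑ x', (e x ^ 2 / 2) * |∑ y, M x y * M x' y| ≤ κ / 2 * ∑ x, e x ^ 2 := by
    rw [Finset.mul_sum]
    refine Finset.sum_le_sum fun x _ => ?_
    rw [← Finset.mul_sum]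
    have := mul_le_mul_of_nonneg_left (hK x) (div_nonneg (sq_nonneg (e x)) zero_le_two)
    linarith
  rw [h1]
  calc ∑ x, ∑ x', e x * e x' * ∑ y, M x y * M x' y ≤
      ∑ x, ∑ x', ((e x ^ 2 / 2) * |∑ y, M x y * M x' y| +
        (e x' ^ 2 / 2) * |∑ y, M x' y * M x y|) :=
        Finset.sum_le_sum fun x _ => Finset.sum_le_sum fun x' _ => h2 x x'
    _ = ∑ x, ∑ x', (e x ^ 2 / 2) * |∑ y, M x y * M x' y| +
        ∑ x, ∑ x', (e x' ^ 2 / 2) * |∑ y, M x' y * M x y| := by
        rw [← Finset.sum_add_distrib]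
        exact Finset.sum_congr rfl fun x _ => Finset.sum_add_distrib
    _ = ∑ x, ∑ x', (e x ^ 2 / 2) * |∑ y, M x y * M x' y| +
        ∑ x, ∑ x', (e x ^ 2 / 2) * |∑ y, M x y * M x' y| := by
        congr 1
        rw [Finset.sum_comm]
    _ ≤ κ / 2 * ∑ x, e x ^ 2 + κ / 2 * ∑ x, e x ^ 2 := add_le_add h3 h3
    _ = κ * ∑ x, e x ^ 2 := by ring

end matrix

/-- the sign of a bit -/
def chi (b : Bool) : ℝ := if b then -1 else 1

theorem chi_sq (b : Bool) : chi b * chi b = 1 := by
  cases b <;> norm_num [chi]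

theorem abs_chi (b : Bool) : |chi b| = 1 := by
  cases b <;> norm_num [chi]

/-- the quadratic character of a graph -/
def sgn {n : ℕ} (E : Finset (Fin n × Fin n)) (x : Cube n) : ℝ := ∏ e ∈ E, chi (x e.1 && x e.2)

theorem abs_sgn {n : ℕ} (E : Finset (Fin n × Fin n)) (x : Cube n) : |sgn E x| = 1 := by
  unfold sgn
  rw [Finset.abs_prod]
  exact Finset.prod_eq_one fun e _ => abs_chi _

section cube

variable {n : ℕ}

theorem sum_piecewise (A : Finset (Fin n)) (F : Cube n → ℝ) :
    ∑ x, ∑ y, F (A.piecewise x y) = 2 ^ n * ∑ z, F z := by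
  have hinv : Function.Involutive fun p : Cube n × Cube n =>
      (A.piecewise p.1 p.2, A.piecewise p.2 p.1) := by
    rintro ⟨x, y⟩
    refine Prod.ext ?_ ?_
    · funext i
      by_cases h : i ∈ A
      · simp only [Finset.piecewise_eq_of_mem _ _ _ h]
      · simp only [Finset.piecewise_eq_of_notMem _ _ _ h]
    · funext i
      by_cases h : i ∈ A
      · simp only [Finset.piecewise_eq_of_mem _ _ _ h]
      · simp only [Finset.piecewise_eq_of_notMem _ _ _ h]
  have h1 := Equiv.sum_comp hinv.toPerm (fun p : Cube n × Cube n => F p.1)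
  rw [Fintype.sum_prod_type, Fintype.sum_prod_type] at h1
  have h2 : ∑ x : Cube n, ∑ _y : Cube n, F x = 2 ^ n * ∑ z, F z := by
    rw [Finset.mul_sum]
    refine Finset.sum_congr rfl fun x _ => ?_
    rw [Finset.sum_const, card_univ, nsmul_eq_mul, Fintype.card_fun, Fintype.card_fin,
      Fintype.card_bool]
    push_cast
    rfl
  rw [← h2]
  exact h1

/-- flipping a coordinate -/
def flip (b : Fin n) (y : Cube n) : Cube n := Function.update y b (!y b)

theorem flip_flip (b : Fin n) (y : Cube n) : flip b (flip b y) = y := by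
  funext i
  unfold flip
  by_cases h : i = b
  · subst h
    simp
  · simp [Function.update_of_ne h]

theorem flip_self (b : Fin n) (y : Cube n) : flip b y b = !y b := by
  unfold flip; simp

theorem flip_ne (b : Fin n) (y : Cube n) {i : Fin n} (h : i ≠ b) : flip b y i = y i := by
  unfold flip; simp [Function.update_of_ne h]

/-- the change of a factor of the character under a flip at `b` -/
def hfac (A : Finset (Fin n)) (b : Fin n) (x x' : Cube n) (e : Fin n × Fin n) : ℝ :=
  if e.1 = b then (if e.2 ∈ A then chi (x e.2) * chi (x' e.2) else 1)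
  else if e.2 = b then (if e.1 ∈ A then chi (x e.1) * chi (x' e.1) else 1) else 1

theorem chi_flip (p q : Bool) : chi (!p && q) = chi (p && q) * chi q := by
  cases p <;> cases q <;> norm_num [chi]

theorem chi_flip' (p q : Bool) : chi (q && !p) = chi (q && p) * chi q := by
  cases p <;> cases q <;> norm_num [chi]

theorem disc_flip {E : Finset (Fin n × Fin n)} (hE : ∀ e ∈ E, e.1 ≠ e.2) (A : Finset (Fin n))
    {b : Fin n} (hb : b ∉ A) (x x' y : Cube n) :
    sgn E (A.piecewise x (flip b y)) * sgn E (A.piecewise x' (flip b y)) =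
      (sgn E (A.piecewise x y) * sgn E (A.piecewise x' y)) * ∏ e ∈ E, hfac A b x x' e := by
  unfold sgn
  rw [← Finset.prod_mul_distrib, ← Finset.prod_mul_distrib, ← Finset.prod_mul_distrib]
  refine Finset.prod_congr rfl fun e he => ?_
  have hne := hE e he
  have key : ∀ (z : Cube n) (i : Fin n), i ≠ b →
      A.piecewise z (flip b y) i = A.piecewise z y i := by
    intro z i hi
    by_cases h : i ∈ A
    · rw [Finset.piecewise_eq_of_mem _ _ _ h, Finset.piecewise_eq_of_mem _ _ _ h]
    · rw [Finset.piecewise_eq_of_notMem _ _ _ h, Finset.piecewise_eq_of_notMem _ _ _ h,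
        flip_ne b y hi]
  have keyb : ∀ z : Cube n, A.piecewise z (flip b y) b = !A.piecewise z y b := by
    intro z
    rw [Finset.piecewise_eq_of_notMem _ _ _ hb, Finset.piecewise_eq_of_notMem _ _ _ hb,
      flip_self]
  have hout : ∀ i : Fin n, chi (A.piecewise x y i) * chi (A.piecewise x' y i) =
      if i ∈ A then chi (x i) * chi (x' i) else 1 := by
    intro i
    by_cases h : i ∈ A
    · rw [if_pos h, Finset.piecewise_eq_of_mem _ _ _ h, Finset.piecewise_eq_of_mem _ _ _ h]
    · rw [if_neg h, Finset.piecewise_eq_of_notMem _ _ _ h, Finset.piecewise_eq_of_notMem _ _ _ h,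
        chi_sq]
  unfold hfac
  by_cases h1 : e.1 = b
  · rw [if_pos h1, ← hout e.2, h1, keyb, keyb, key x e.2 (fun h => hne (h1.trans h.symm)),
      key x' e.2 (fun h => hne (h1.trans h.symm)), chi_flip, chi_flip]
    ring
  · rw [if_neg h1, key x e.1 h1, key x' e.1 h1]
    by_cases h2 : e.2 = b
    · rw [if_pos h2, ← hout e.1, h2, keyb, keyb, chi_flip', chi_flip']
      ring
    · rw [if_neg h2, key x e.2 h2, key x' e.2 h2, mul_one]

theorem hfac_abs (A : Finset (Fin n)) (b : Fin n) (x x' : Cube n) (e : Fin n × Fin n) :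
    hfac A b x x' e * hfac A b x x' e = 1 := by
  unfold hfac
  split_ifs
  · rw [mul_mul_mul_comm, chi_sq, chi_sq, one_mul]
  · rw [one_mul]
  · rw [mul_mul_mul_comm, chi_sq, chi_sq, one_mul]
  · rw [one_mul]
  · rw [one_mul]

theorem disc_kernel {E : Finset (Fin n × Fin n)} (hE : ∀ e ∈ E, e.1 ≠ e.2) (A : Finset (Fin n))
    {b : Fin n} (hb : b ∉ A) (x x' : Cube n)
    (hK : ∑ y, sgn E (A.piecewise x y) * sgn E (A.piecewise x' y) ≠ 0) :
    ∏ e ∈ E, hfac A b x x' e = 1 := by
  have hsq : (∏ e ∈ E, hfac A b x x' e) * (∏ e ∈ E, hfac A b x x' e) = 1 := by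
    rw [← Finset.prod_mul_distrib]
    exact Finset.prod_eq_one fun e _ => hfac_abs A b x x' e
  rcases mul_self_eq_one_iff.1 hsq with h | h
  · exact h
  · exfalso
    have hinv : Function.Involutive (flip b : Cube n → Cube n) := flip_flip b
    have h1 : ∑ y, sgn E (A.piecewise x (flip b y)) * sgn E (A.piecewise x' (flip b y)) =
        ∑ y, sgn E (A.piecewise x y) * sgn E (A.piecewise x' y) :=
      Equiv.sum_comp hinv.toPerm (fun y => sgn E (A.piecewise x y) * sgn E (A.piecewise x' y))
    have h2 : ∀ y, sgn E (A.piecewise x (flip b y)) * sgn E (A.piecewise x' (flip b y))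
        = -(sgn E (A.piecewise x y) * sgn E (A.piecewise x' y)) := by
      intro y
      have h3 := disc_flip hE A hb x x' y
      rw [h, mul_neg_one] at h3
      exact h3
    rw [Finset.sum_congr rfl fun y _ => h2 y, Finset.sum_neg_distrib] at h1
    exact hK (by linarith)

/-- `J` is a matching of edges of `E` across `A`, induced in `E` -/
structure Mat (E J : Finset (Fin n × Fin n)) (A : Finset (Fin n)) : Prop where
  sub : J ⊆ E
  cross : ∀ e ∈ J, (e.1 ∈ A ∧ e.2 ∉ A) ∨ (e.1 ∉ A ∧ e.2 ∈ A)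
  ind : ∀ e ∈ J, ∀ e' ∈ J, e ≠ e' → ∀ u v, (u = e.1 ∨ u = e.2) → (v = e'.1 ∨ v = e'.2) →
    u ≠ v ∧ (u, v) ∉ E ∧ (v, u) ∉ E

/-- the end of an edge in `A` -/
def endA (A : Finset (Fin n)) (e : Fin n × Fin n) : Fin n := if e.1 ∈ A then e.1 else e.2

/-- the end of an edge outside `A` -/
def endB (A : Finset (Fin n)) (e : Fin n × Fin n) : Fin n := if e.1 ∈ A then e.2 else e.1

theorem endA_or (A : Finset (Fin n)) (e : Fin n × Fin n) : endA A e = e.1 ∨ endA A e = e.2 := by
  unfold endA
  split_ifs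
  · exact Or.inl rfl
  · exact Or.inr rfl

theorem endB_or (A : Finset (Fin n)) (e : Fin n × Fin n) : endB A e = e.1 ∨ endB A e = e.2 := by
  unfold endB
  split_ifs
  · exact Or.inr rfl
  · exact Or.inl rfl

theorem endA_mem {E J : Finset (Fin n × Fin n)} {A : Finset (Fin n)} (h : Mat E J A)
    {e : Fin n × Fin n} (he : e ∈ J) : endA A e ∈ A := by
  unfold endA
  rcases h.cross e he with h1 | h1
  · rw [if_pos h1.1]; exact h1.1
  · rw [if_neg h1.1]; exact h1.2

theorem endB_notMem {E J : Finset (Fin n × Fin n)} {A : Finset (Fin n)} (h : Mat E J A)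
    {e : Fin n × Fin n} (he : e ∈ J) : endB A e ∉ A := by
  unfold endB
  rcases h.cross e he with h1 | h1
  · rw [if_pos h1.1]; exact h1.2
  · rw [if_neg h1.1]; exact h1.1

/-- two columns with nonzero entries in the row `x` of the Gram matrix which agree outside the
`A`-ends of the matching are equal -/
theorem disc_inj {E J : Finset (Fin n × Fin n)} {A : Finset (Fin n)}
    (hE : ∀ e ∈ E, e.1 ≠ e.2) (hor : ∀ e ∈ E, (e.2, e.1) ∉ E) (hJ : Mat E J A)
    (x x' x'' : Cube n) (h1 : ∑ y, sgn E (A.piecewise x y) * sgn E (A.piecewise x' y) ≠ 0)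
    (h2 : ∑ y, sgn E (A.piecewise x y) * sgn E (A.piecewise x'' y) ≠ 0)
    (h : ∀ i, i ∉ J.image (endA A) → x' i = x'' i) : x' = x'' := by
  funext i
  by_cases hi : i ∈ J.image (endA A)
  · obtain ⟨e0, he0, rfl⟩ := mem_image.1 hi
    have hb := endB_notMem hJ he0
    have k1 := disc_kernel hE A hb x x' h1
    have k2 := disc_kernel hE A hb x x'' h2
    have k3 : ∏ e ∈ E, hfac A (endB A e0) x x' e * hfac A (endB A e0) x x'' e = 1 := by
      rw [Finset.prod_mul_distrib, k1, k2, one_mul]
    have hchi : ∀ p q r : Bool, (chi p * chi q) * (chi p * chi r) = chi q * chi r := by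
      intro p q r
      rw [mul_mul_mul_comm, chi_sq, one_mul]
    have heE := hJ.sub he0
    -- the other edges at the end `endB A e0`
    have hoth : ∀ e ∈ E, e ≠ e0 → ∀ a, ((e.1 = endB A e0 ∧ a = e.2) ∨ (e.2 = endB A e0 ∧ a = e.1))
        → a ∉ J.image (endA A) := by
      intro e he hne a ha hmem
      obtain ⟨e1, he1, rfl⟩ := mem_image.1 hmem
      by_cases h10 : e1 = e0
      · subst h10
        rcases ha with ⟨ha1, ha2⟩ | ⟨ha1, ha2⟩
        · -- `e = (endB, endA)`
          by_cases h11 : e1.1 ∈ A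
          · have hB : endB A e1 = e1.2 := by unfold endB; rw [if_pos h11]
            have hA : endA A e1 = e1.1 := by unfold endA; rw [if_pos h11]
            rw [hB] at ha1
            rw [hA] at ha2
            apply hor e1 heE
            rw [← ha1, ha2]
            exact he
          · have hB : endB A e1 = e1.1 := by unfold endB; rw [if_neg h11]
            have hA : endA A e1 = e1.2 := by unfold endA; rw [if_neg h11]
            rw [hB] at ha1
            rw [hA] at ha2
            exact hne (Prod.ext ha1 ha2.symm)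
        · by_cases h11 : e1.1 ∈ A
          · have hB : endB A e1 = e1.2 := by unfold endB; rw [if_pos h11]
            have hA : endA A e1 = e1.1 := by unfold endA; rw [if_pos h11]
            rw [hB] at ha1
            rw [hA] at ha2
            exact hne (Prod.ext ha2.symm ha1)
          · have hB : endB A e1 = e1.1 := by unfold endB; rw [if_neg h11]
            have hA : endA A e1 = e1.2 := by unfold endA; rw [if_neg h11]
            rw [hB] at ha1
            rw [hA] at ha2
            apply hor e1 heE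
            rw [← ha1, ha2]
            exact he
      · obtain ⟨-, h12, h13⟩ := hJ.ind e1 he1 e0 he0 h10 _ _ (endA_or A e1) (endB_or A e0)
        rcases ha with ⟨ha1, ha2⟩ | ⟨ha1, ha2⟩
        · apply h13
          rw [← ha1, ha2]
          exact he
        · apply h12
          rw [← ha1, ha2]
          exact he
    rw [Finset.prod_eq_single e0] at k3
    · have k4 : hfac A (endB A e0) x x' e0 * hfac A (endB A e0) x x'' e0 =
          chi (x' (endA A e0)) * chi (x'' (endA A e0)) := by
        unfold hfac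
        by_cases h11 : e0.1 ∈ A
        · have hB : endB A e0 = e0.2 := by unfold endB; rw [if_pos h11]
          have hA : endA A e0 = e0.1 := by unfold endA; rw [if_pos h11]
          rw [hB, hA, if_neg (hE e0 heE), if_neg (hE e0 heE), if_pos rfl, if_pos rfl, if_pos h11,
            if_pos h11, hchi]
        · have hB : endB A e0 = e0.1 := by unfold endB; rw [if_neg h11]
          have hA : endA A e0 = e0.2 := by unfold endA; rw [if_neg h11]
          have h12 : e0.2 ∈ A := by
            rcases hJ.cross e0 he0 with h13 | h13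
            · exact absurd h13.1 h11
            · exact h13.2
          rw [hB, hA, if_pos rfl, if_pos rfl, if_pos h12, if_pos h12, hchi]
      rw [k4] at k3
      revert k3
      cases x' (endA A e0) <;> cases x'' (endA A e0) <;> norm_num [chi]
    · intro e he hne
      unfold hfac
      by_cases h11 : e.1 = endB A e0
      · rw [if_pos h11, if_pos h11]
        by_cases h12 : e.2 ∈ A
        · rw [if_pos h12, if_pos h12, hchi, h e.2 (hoth e he hne e.2 (Or.inl ⟨h11, rfl⟩)), chi_sq]
        · rw [if_neg h12, if_neg h12, one_mul]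
      · rw [if_neg h11, if_neg h11]
        by_cases h13 : e.2 = endB A e0
        · rw [if_pos h13, if_pos h13]
          by_cases h12 : e.1 ∈ A
          · rw [if_pos h12, if_pos h12, hchi, h e.1 (hoth e he hne e.1 (Or.inr ⟨h13, rfl⟩)),
              chi_sq]
          · rw [if_neg h12, if_neg h12, one_mul]
        · rw [if_neg h13, if_neg h13, one_mul]
    · intro hn
      exact absurd heE hn
  · exact h i hi

theorem disc_count {E J : Finset (Fin n × Fin n)} {A : Finset (Fin n)}
    (hE : ∀ e ∈ E, e.1 ≠ e.2) (hor : ∀ e ∈ E, (e.2, e.1) ∉ E) (hJ : Mat E J A) (x : Cube n) :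
    (univ.filter fun x' : Cube n =>
      ∑ y, sgn E (A.piecewise x y) * sgn E (A.piecewise x' y) ≠ 0).card * 2 ^ J.card ≤ 2 ^ n := by
  classical
  have hc : (J.image (endA A)).card = J.card := by
    refine card_image_of_injOn ?_
    intro e he e' he' hee
    by_contra hne
    exact (hJ.ind e he e' he' hne _ _ (endA_or A e) (endA_or A e')).1 hee
  let R : Type := {i : Fin n // i ∉ J.image (endA A)}
  have hR : Fintype.card R + J.card = n := by
    have h1 : Fintype.card R = (univ \ J.image (endA A)).card := by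
      rw [Fintype.card_subtype]
      congr 1
      ext i
      simp
    have h2 := card_sdiff_add_card_eq_card (subset_univ (J.image (endA A)))
    rw [card_univ, Fintype.card_fin] at h2
    omega
  have h1 : (univ.filter fun x' : Cube n =>
      ∑ y, sgn E (A.piecewise x y) * sgn E (A.piecewise x' y) ≠ 0).card ≤
      (univ : Finset (R → Bool)).card := by
    refine card_le_card_of_injOn (fun x' i => x' i.1) (fun _ _ => mem_coe.2 (mem_univ _)) ?_
    intro x' hx' x'' hx'' hh
    rw [mem_coe, mem_filter] at hx' hx''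
    refine disc_inj hE hor hJ x x' x'' hx'.2 hx''.2 ?_
    intro i hi
    exact congrFun hh ⟨i, hi⟩
  rw [card_univ, Fintype.card_fun, Fintype.card_bool] at h1
  calc _ ≤ 2 ^ Fintype.card R * 2 ^ J.card := Nat.mul_le_mul_right _ h1
    _ = 2 ^ n := by rw [← pow_add, hR]

/-- **discrepancy**: functions of small rank are almost orthogonal to the character -/
theorem thm_Disc (E J : Finset (Fin n × Fin n)) (A : Finset (Fin n)) (hE : ∀ e ∈ E, e.1 ≠ e.2)
    (hor : ∀ e ∈ E, (e.2, e.1) ∉ E) (hJ : Mat E J A) (W : ℕ) (B : ℝ) (T : Cube n → ℝ)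
    (hT : RkLe A W T) (hB : ∀ x, |T x| ≤ B) :
    (∑ x, sgn E x * T x) ^ 2 * 2 ^ J.card ≤ W * B ^ 2 * 4 ^ n := by
  classical
  obtain ⟨u, v, hu, hv, huv⟩ := hT
  have hM : ∀ x : Cube n, ∑ x' : Cube n,
      |∑ y, sgn E (A.piecewise x y) * sgn E (A.piecewise x' y)| ≤ 4 ^ n / 2 ^ J.card := by
    intro x
    rw [← Finset.sum_filter_add_sum_filter_not univ
      (fun x' : Cube n => ∑ y, sgn E (A.piecewise x y) * sgn E (A.piecewise x' y) ≠ 0)]
    have h1 : ∑ x' ∈ univ.filter (fun x' : Cube n =>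
        ¬ ∑ y, sgn E (A.piecewise x y) * sgn E (A.piecewise x' y) ≠ 0),
        |∑ y, sgn E (A.piecewise x y) * sgn E (A.piecewise x' y)| = 0 := by
      refine Finset.sum_eq_zero fun x' hx' => ?_
      rw [mem_filter, not_not] at hx'
      rw [hx'.2, abs_zero]
    rw [h1, add_zero, le_div_iff₀ (by positivity)]
    have h2 : ∀ x' : Cube n, |∑ y, sgn E (A.piecewise x y) * sgn E (A.piecewise x' y)| ≤
        2 ^ n := by
      intro x'
      refine (Finset.abs_sum_le_sum_abs _ _).trans ?_
      have h3 : ∀ y : Cube n, |sgn E (A.piecewise x y) * sgn E (A.piecewise x' y)| = 1 := by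
        intro y
        rw [abs_mul, abs_sgn, abs_sgn, one_mul]
      rw [Finset.sum_congr rfl fun y _ => h3 y, Finset.sum_const, card_univ, Fintype.card_fun,
        Fintype.card_fin, Fintype.card_bool, nsmul_eq_mul, mul_one]
      push_cast
      exact le_rfl
    have h3 := Finset.sum_le_card_nsmul (univ.filter fun x' : Cube n =>
      ∑ y, sgn E (A.piecewise x y) * sgn E (A.piecewise x' y) ≠ 0)
      (fun x' => |∑ y, sgn E (A.piecewise x y) * sgn E (A.piecewise x' y)|) (2 ^ n)
      (fun x' _ => h2 x')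
    rw [nsmul_eq_mul] at h3
    have h4 : (((univ.filter fun x' : Cube n =>
      ∑ y, sgn E (A.piecewise x y) * sgn E (A.piecewise x' y) ≠ 0).card : ℕ) : ℝ) *
        2 ^ J.card ≤ 2 ^ n := by exact_mod_cast disc_count hE hor hJ x
    calc _ ≤ (((univ.filter fun x' : Cube n =>
          ∑ y, sgn E (A.piecewise x y) * sgn E (A.piecewise x' y) ≠ 0).card : ℕ) : ℝ) * 2 ^ n *
          2 ^ J.card := mul_le_mul_of_nonneg_right h3 (by positivity)
      _ = (((univ.filter fun x' : Cube n =>
          ∑ y, sgn E (A.piecewise x y) * sgn E (A.piecewise x' y) ≠ 0).card : ℕ) : ℝ) *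
          2 ^ J.card * 2 ^ n := by ring
      _ ≤ 2 ^ n * 2 ^ n := mul_le_mul_of_nonneg_right h4 (by positivity)
      _ = 4 ^ n := by rw [← mul_pow]; norm_num
  have h5 := disc_rank (fun x y : Cube n => sgn E (A.piecewise x y))
    (fun x y : Cube n => T (A.piecewise x y)) (4 ^ n / 2 ^ J.card) (by positivity)
    (disc_schur _ _ hM) W u v (by
      intro x y
      rw [huv]
      refine Finset.sum_congr rfl fun k _ => ?_
      congr 1
      · exact hu k _ _ fun i hi => Finset.piecewise_eq_of_mem _ _ _ hi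
      · exact hv k _ _ fun i hi => Finset.piecewise_eq_of_notMem _ _ _ (mem_compl.1 hi))
  rw [sum_piecewise A (fun z => sgn E z * T z), sum_piecewise A (fun z => T z ^ 2)] at h5
  have h6 : ∑ z : Cube n, T z ^ 2 ≤ 2 ^ n * B ^ 2 := by
    have h7 := Finset.sum_le_card_nsmul (univ : Finset (Cube n)) (fun z => T z ^ 2) (B ^ 2)
      (fun z _ => sq_le_sq' (by linarith [abs_le.1 (hB z)]) (by linarith [abs_le.1 (hB z)]))
    rw [card_univ, Fintype.card_fun, Fintype.card_fin, Fintype.card_bool, nsmul_eq_mul] at h7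
    push_cast at h7
    exact h7
  have h8 : (2 ^ n * ∑ z, sgn E z * T z) ^ 2 ≤ W * (4 ^ n / 2 ^ J.card) * (2 ^ n * (2 ^ n * B ^ 2)) :=
    h5.trans (mul_le_mul_of_nonneg_left (mul_le_mul_of_nonneg_left h6 (by positivity))
      (by positivity))
  have h9 : ((2 : ℝ) ^ n) ^ 2 = 4 ^ n := by rw [← pow_mul, mul_comm n 2, pow_mul]; norm_num
  have h10 : (4 : ℝ) ^ n * ((∑ z, sgn E z * T z) ^ 2 * 2 ^ J.card) ≤
      4 ^ n * (W * B ^ 2 * 4 ^ n) := by
    have h11 := mul_le_mul_of_nonneg_right h8 (show (0 : ℝ) ≤ 2 ^ J.card by positivity)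
    have h12 : (W : ℝ) * (4 ^ n / 2 ^ J.card) * (2 ^ n * (2 ^ n * B ^ 2)) * 2 ^ J.card =
        4 ^ n * (W * B ^ 2 * 4 ^ n) := by
      have h13 : (2 : ℝ) ^ J.card ≠ 0 := by positivity
      rw [← h9]
      field_simp
    rw [h12, mul_pow, h9] at h11
    linarith
  exact le_of_mul_le_mul_left h10 (by positivity)

end cube

end Pool.Agent.VD
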