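import Pool.Agent.VD.AExp

/-!
# VD, arithmetic circuits: the expansion of a stable gate
-/

set_option autoImplicit false

namespace Pool.Agent.VD

open Finset Matrix
open scoped Classical

namespace Arith

variable {n : ℕ} {ε : ℝ} {W s : ℕ} (P : Arith n ε W s)

/-- products of small gates with disjoint scopes have rank one across a balanced set -/
theorem rk_prod (hε0 : 0 < ε) (hε : ε ≤ 1 / 3) (hn : 2 ≤ n) (hW : 1 ≤ W) (S : Finset (Fin n))
    (hS : (1 - ε) * n < S.card) (t : Finset (Fin s)) (ht : ∀ j ∈ t, P.S' j ⊆ S)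
    (hs : ∀ j ∈ t, ¬ P.Large j)
    (hd : ∀ j ∈ t, ∀ k ∈ t, j ≠ k → Disjoint (P.S' j) (P.S' k)) :
    ∃ A ⊆ S, Bal ε A ∧ RkLe A W fun x => ∏ j ∈ t, P.f j x := by
  obtain ⟨A, hA, hb, hsat⟩ := exists_bal hε0 hε hn S hS t P.S' ht
    (fun j hj => P.S'_small hε (hs j hj)) hd
  refine ⟨A, hA, hb, RkLe.one_of hW
    (a := fun x => ∏ j ∈ t.filter fun j => P.S' j ⊆ A, P.f j x)
    (b := fun x => ∏ j ∈ t.filter fun j => ¬ P.S' j ⊆ A, P.f j x) ?_ ?_ ?_⟩
  · intro x y hxy
    refine Finset.prod_congr rfl fun j hj => ?_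
    rw [Finset.mem_filter] at hj
    exact P.dep' j x y fun v hv => hxy v (hj.2 hv)
  · intro x y hxy
    refine Finset.prod_congr rfl fun j hj => ?_
    rw [Finset.mem_filter] at hj
    refine P.dep' j x y fun v hv => hxy v ?_
    rw [Finset.mem_compl]
    intro hv'
    exact Finset.disjoint_left.1 ((hsat j hj.1).resolve_left hj.2) hv hv'
  · intro x
    rw [Finset.prod_filter_mul_prod_filter_not]

/-- the terms of the leaves and of the product gates without large inputs -/
theorem term_gate (hε0 : 0 < ε) (hε : ε ≤ 1 / 3) (hn : 2 ≤ n) (hW : 1 ≤ W) (r : Fin s)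
    {i : Fin s} (hi : P.Large i) (hk : P.kind i ≠ .sum)
    (hex : P.kind i = .prod → ¬ ∃ j ∈ P.L i, P.Large j) :
    ∃ A : Finset (Fin n), Bal ε A ∧ RkLe A W fun x => P.D x r i * P.f i x := by
  rcases hkk : P.kind i with _ | _ | _
  · obtain ⟨A, hA, hb, hr⟩ := P.leaf i hi hkk
    exact ⟨A, hb, hr.mul_dep (P.dep_D hA)⟩
  · have hex' := hex hkk
    push Not at hex'
    obtain ⟨A, hA, hb, hr⟩ := P.rk_prod hε0 hε hn hW (P.S i) hi.1 (P.L i)
      (fun j hj => (P.S'_sub j).trans (P.input i j hj).2) hex'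
      (fun j hj k hk' hne => Finset.disjoint_of_subset_left (P.S'_sub _)
        (Finset.disjoint_of_subset_right (P.S'_sub _) (P.disj i hi hkk j hj k hk' hne)))
    refine ⟨A, hb, ?_⟩
    have h2 : (fun x => P.D x r i * P.f i x) =
        fun x => (P.D x r i) * (∏ j ∈ P.L i, P.f j x) := by
      funext x
      rw [P.prod i hi hkk x]
    rw [h2]
    exact hr.mul_dep (P.dep_D hA)
  · exact absurd hkk hk

/-- the terms of the small inputs of the sum gates -/
theorem term_input (hε0 : 0 < ε) (hε : ε ≤ 1 / 3) (hn : 2 ≤ n) (hW : 1 ≤ W) (r : Fin s)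
    {i : Fin s} (hi : P.Large i) {j : Fin s} (hj : j ∈ P.L i) (hL : ¬ P.Large j) :
    ∃ A : Finset (Fin n), Bal ε A ∧ RkLe A W fun x => P.D x r i * (P.w i j * P.f j x) := by
  obtain ⟨A, hA, hb, hr⟩ := P.rk_prod hε0 hε hn hW (P.S i) hi.1 {j}
    (fun k hk => by
      rw [Finset.mem_singleton] at hk
      rw [hk]
      exact (P.S'_sub j).trans (P.input i j hj).2)
    (fun k hk => by
      rw [Finset.mem_singleton] at hk
      rw [hk]
      exact hL)
    (fun k hk l hl hne => by
      rw [Finset.mem_singleton] at hk hl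
      exact absurd (hk.trans hl.symm) hne)
  refine ⟨A, hb, ?_⟩
  have h2 : (fun x => P.D x r i * (P.w i j * P.f j x)) =
      fun x => (P.D x r i * P.w i j) * (∏ k ∈ {j}, P.f k x) := by
    funext x
    rw [Finset.prod_singleton]
    ring
  rw [h2]
  refine hr.mul_dep ?_
  intro x y hxy
  have h3 : P.D x r i = P.D y r i := P.dep_D hA x y hxy
  simp only [h3]

/-- the expansion of a large stable gate -/
theorem upper (hε0 : 0 < ε) (hε : ε ≤ 1 / 3) (hn : 2 ≤ n) (hW : 1 ≤ W) (K : ℝ)
    (r : Fin s) (hr : P.Large r) (hK : P.Stable r K) :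
    ∃ (T : Fin P.size → Cube n → ℝ) (A : Fin P.size → Finset (Fin n)),
      (∀ i, Bal ε (A i)) ∧ (∀ i, ∑ x, T i x ^ 2 ≤ K ^ 2 * 2 ^ n) ∧
      (∀ i, RkLe (A i) W (T i)) ∧ ∀ x, P.f r x = ∑ i, T i x := by
  have hn1 : 1 ≤ n := by omega
  have huniv : (1 - ε) * n < (Finset.univ : Finset (Fin n)).card := by
    rw [Finset.card_univ, Fintype.card_fin]
    have : (2 : ℝ) ≤ n := by exact_mod_cast hn
    nlinarith
  have h0 : ∃ A : Finset (Fin n), Bal ε A := by
    obtain ⟨A, -, h⟩ := exists_bal' hε0 hε hn _ huniv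
    exact ⟨A, h⟩
  have hB0 : (0 : ℝ) ≤ K ^ 2 * 2 ^ n := by positivity
  refine pad2 hB0 (ι := Fin s ⊕ (Σ i : Fin s, {j // j ∈ P.L i})) (N := P.size) ?_
    (Sum.elim (fun i x => if P.Large i ∧ P.kind i ≠ .sum ∧
          (P.kind i = .prod → ¬ ∃ j ∈ P.L i, P.Large j) then P.D x r i * P.f i x else 0)
      (fun p x => if P.Large p.1 ∧ P.kind p.1 = .sum ∧ ¬ P.Large p.2.1 then
          P.D x r p.1 * (P.w p.1 p.2.1 * P.f p.2.1 x) else 0))
    h0 ?_ _ ?_
  · rw [Fintype.card_sum, Fintype.card_sigma, Fintype.card_fin]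
    unfold size
    simp
  · rintro (i | ⟨i, j, hj⟩)
    · by_cases h : P.Large i ∧ P.kind i ≠ .sum ∧
          (P.kind i = .prod → ¬ ∃ j ∈ P.L i, P.Large j)
      · simp only [Sum.elim_inl]
        have hp : P.Place (i, none) := by
          refine ⟨h.1, fun _ => ?_, fun j hj => absurd hj (by simp)⟩
          rcases hk : P.kind i with _ | _ | _
          · exact Or.inl rfl
          · exact Or.inr ⟨rfl, fun j hj hL => h.2.2 hk ⟨j, hj, hL⟩⟩
          · exact absurd hk h.2.1
        refine ⟨?_, ?_⟩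
        · obtain ⟨u, hu, hb⟩ := hK (i, none) hp
          refine le_trans (le_of_eq (Finset.sum_congr rfl fun x _ => ?_)) hb
          rw [if_pos h, (hu x).eff hε hn1 hp r]
          rfl
        · obtain ⟨A, hA1, hA2⟩ := P.term_gate hε0 hε hn hW r h.1 h.2.1 h.2.2
          refine ⟨A, hA1, ?_⟩
          simp only [if_pos h]
          exact hA2
      · simp only [Sum.elim_inl, if_neg h]
        refine ⟨by simpa using hB0, ?_⟩
        obtain ⟨A, hA⟩ := h0
        exact ⟨A, hA, fun _ _ => 0, fun _ _ => 0, fun _ _ _ _ => rfl, fun _ _ _ _ => rfl,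
          fun x => by simp⟩
    · by_cases h : P.Large i ∧ P.kind i = .sum ∧ ¬ P.Large j
      · simp only [Sum.elim_inr]
        have hp : P.Place (i, some j) := by
          refine ⟨h.1, fun hn => absurd hn (by simp), fun k hk => ?_⟩
          have : j = k := Option.some.inj hk
          rw [← this]
          exact ⟨h.2.1, hj, h.2.2⟩
        refine ⟨?_, ?_⟩
        · obtain ⟨u, hu, hb⟩ := hK (i, some j) hp
          refine le_trans (le_of_eq (Finset.sum_congr rfl fun x _ => ?_)) hb
          rw [if_pos h, (hu x).eff hε hn1 hp r]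
          rfl
        · obtain ⟨A, hA1, hA2⟩ := P.term_input hε0 hε hn hW r h.1 hj h.2.2
          refine ⟨A, hA1, ?_⟩
          simp only [if_pos h]
          exact hA2
      · simp only [Sum.elim_inr, if_neg h]
        refine ⟨by simpa using hB0, ?_⟩
        obtain ⟨A, hA⟩ := h0
        exact ⟨A, hA, fun _ _ => 0, fun _ _ => 0, fun _ _ _ _ => rfl, fun _ _ _ _ => rfl,
          fun x => by simp⟩
  · intro x
    have h1 := P.expand hε hn1 x r
    rw [Fintype.sum_sum_type, Fintype.sum_sigma, ← Finset.sum_add_distrib]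
    refine h1.trans (Finset.sum_congr rfl fun i _ => ?_)
    simp only [Sum.elim_inl, Sum.elim_inr]
    by_cases hi : P.Large i
    · rcases hk : P.kind i with _ | _ | _
      · have hcc : P.cc x i = P.f i x := by
          unfold cc
          rw [if_pos hi, hk]
        rw [if_pos ⟨hi, by simp, fun h => absurd h (by simp)⟩, hcc,
          Finset.sum_eq_zero, add_zero]
        intro j _
        rw [if_neg (fun h => absurd h.2.1 (by simp))]
      · have hcc : P.cc x i = if ∃ j ∈ P.L i, P.Large j then 0 else P.f i x := by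
          unfold cc
          rw [if_pos hi, hk]
        rw [hcc, Finset.sum_eq_zero, add_zero]
        · by_cases hex : ∃ j ∈ P.L i, P.Large j
          · rw [if_pos hex, if_neg (fun h => h.2.2 rfl hex), mul_zero]
          · rw [if_neg hex, if_pos ⟨hi, by simp, fun _ => hex⟩]
        · intro j _
          rw [if_neg (fun h => absurd h.2.1 (by simp))]
      · have hcc : P.cc x i = ∑ j ∈ P.L i, if P.Large j then 0 else P.w i j * P.f j x := by
          unfold cc
          rw [if_pos hi, hk]
        rw [hcc, if_neg (fun h => h.2.1 rfl), zero_add, Finset.mul_sum,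
          ← Finset.sum_coe_sort]
        refine Finset.sum_congr rfl fun j _ => ?_
        by_cases hj : P.Large j.1
        · rw [if_pos hj, mul_zero, if_neg (fun h => h.2.2 hj)]
        · rw [if_neg hj, if_pos ⟨hi, rfl, hj⟩]
    · have hne : r ≠ i := fun e => hi (by rw [← e]; exact hr)
      rw [P.D_small x hi hne, zero_mul, if_neg (fun h => hi h.1), Finset.sum_eq_zero, add_zero]
      intro j _
      rw [if_neg (fun h => hi h.1)]

/-- a small gate can be replaced by one term with values in `[0, 1]` -/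
theorem small_term (hε0 : 0 < ε) (hε : ε ≤ 1 / 3) (hn : 2 ≤ n) (hW : 1 ≤ W) {r : Fin s}
    (hr : ¬ P.Large r) :
    ∃ A : Finset (Fin n), Bal ε A ∧ RkLe A W fun x => max 0 (min 1 (P.f r x)) := by
  have huniv : (1 - ε) * n < (Finset.univ : Finset (Fin n)).card := by
    rw [Finset.card_univ, Fintype.card_fin]
    have : (2 : ℝ) ≤ n := by exact_mod_cast hn
    nlinarith
  obtain ⟨A, -, hb, hsat⟩ := exists_bal hε0 hε hn Finset.univ huniv {r} P.S'
    (fun _ _ => Finset.subset_univ _)
    (fun k hk => by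
      rw [Finset.mem_singleton] at hk
      rw [hk]
      exact P.S'_small hε hr)
    (fun k hk l hl hne => by
      rw [Finset.mem_singleton] at hk hl
      exact absurd (hk.trans hl.symm) hne)
  refine ⟨A, hb, ?_⟩
  rcases hsat r (Finset.mem_singleton_self r) with h | h
  · refine RkLe.one_of hW (a := fun x => max 0 (min 1 (P.f r x))) (b := fun _ => 1)
      (fun x y hxy => ?_) (fun _ _ _ => rfl) (fun x => by rw [mul_one])
    simp only
    rw [P.dep' r x y fun v hv => hxy v (h hv)]
  · refine RkLe.one_of hW (a := fun _ => 1) (b := fun x => max 0 (min 1 (P.f r x)))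
      (fun _ _ _ => rfl) (fun x y hxy => ?_) (fun x => by rw [one_mul])
    simp only
    rw [P.dep' r x y fun v hv => hxy v (by
      rw [Finset.mem_compl]
      intro hv'
      exact Finset.disjoint_left.1 h hv hv')]

end Arith

end Pool.Agent.VD
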