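import Pool.Agent.VD.NFlt

/-!
# VD, frozen negations: patterns bound the derivatives
-/

set_option autoImplicit false

namespace Pool.Agent.VD

open Finset Matrix
open scoped Classical

/-- patterns of frozen negations on paths, for any sets of inputs -/
inductive Pat {s : ℕ} (L : Fin s → Finset (Fin s × Bool)) (X : Finset (Fin s)) (r : Fin s) :
    Fin s → Finset (Fin s) → Prop
  | refl : Pat L X r r ∅
  | step (i : Fin s) (Y : Finset (Fin s)) (l : Fin s × Bool) : Pat L X r i Y → l ∈ L i →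
      Pat L X r l.1 (if l.2 = false ∧ l.1 ∈ X then insert l.1 Y else Y)

theorem Pat.mono {s : ℕ} {L L' : Fin s → Finset (Fin s × Bool)} {X : Finset (Fin s)} {r : Fin s}
    (h : ∀ i, L i ⊆ L' i) {j : Fin s} {Y : Finset (Fin s)} (hP : Pat L X r j Y) :
    Pat L' X r j Y := by
  induction hP with
  | refl => exact Pat.refl
  | step i Y l _ hl ih => exact Pat.step i Y l ih (h i hl)

theorem Pat.comp {s : ℕ} {L : Fin s → Finset (Fin s × Bool)} {X : Finset (Fin s)} {r a : Fin s}
    {Z : Finset (Fin s)} (h : Pat L X r a Z) {j : Fin s} {Y : Finset (Fin s)}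
    (hP : Pat L X a j Y) : Pat L X r j (Z ∪ Y) := by
  induction hP with
  | refl =>
    rw [Finset.union_empty]
    exact h
  | step i Y l _ hl ih =>
    have h1 := Pat.step i (Z ∪ Y) l ih hl
    by_cases hc : l.2 = false ∧ l.1 ∈ X
    · rw [if_pos hc] at h1 ⊢
      rw [Finset.union_insert]
      exact h1
    · rw [if_neg hc] at h1 ⊢
      exact h1

theorem Pat.lt {s : ℕ} {L : Fin s → Finset (Fin s × Bool)} {X : Finset (Fin s)} {r : Fin s}
    (h : ∀ i, ∀ l ∈ L i, l.1 < i) {j : Fin s} {Y : Finset (Fin s)} (hP : Pat L X r j Y) :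
    j ≤ r ∧ ∀ a ∈ Y, a < r := by
  induction hP with
  | refl => exact ⟨le_refl _, fun a ha => absurd ha (Finset.notMem_empty a)⟩
  | step i Y l _ hl ih =>
    have h1 : l.1 < r := lt_of_lt_of_le (h i l hl) ih.1
    refine ⟨h1.le, fun a ha => ?_⟩
    by_cases hc : l.2 = false ∧ l.1 ∈ X
    · rw [if_pos hc, Finset.mem_insert] at ha
      rcases ha with ha | ha
      · rw [ha]
        exact h1
      · exact ih.2 a ha
    · rw [if_neg hc] at ha
      exact ih.2 a ha

/-- the set of patterns -/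
noncomputable def pats {s : ℕ} (L : Fin s → Finset (Fin s × Bool)) (X : Finset (Fin s))
    (r j : Fin s) : Finset (Finset (Fin s)) :=
  Finset.univ.filter fun Y => Pat L X r j Y

/-- the recursion for the number of patterns -/
theorem pats_card {s : ℕ} {L : Fin s → Finset (Fin s × Bool)} {X : Finset (Fin s)}
    (h : ∀ i, ∀ l ∈ L i, l.1 < i) (r j : Fin s) (b : Prop) (hb : b → Pat L X r j ∅)
    (A : Finset (Fin s)) (hA : ∀ a ∈ A, Pat L X r a {a}) :
    (if b then 1 else 0) + ∑ a ∈ A, (pats L X a j).card ≤ (pats L X r j).card := by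
  have h1 : ∑ a ∈ A, (pats L X a j).card =
      ((A.sigma fun a => pats L X a j).image fun q => insert q.1 q.2).card := by
    rw [Finset.card_image_of_injOn, Finset.card_sigma]
    rintro ⟨a, Y⟩ ha ⟨a', Y'⟩ ha' he
    simp only [Finset.coe_sigma, Set.mem_sigma_iff, Finset.mem_coe, pats, Finset.mem_filter,
      Finset.mem_univ, true_and] at ha ha'
    simp only at he
    have l1 := (Pat.lt h ha.2).2
    have l2 := (Pat.lt h ha'.2).2
    have e : a = a' := by
      have m1 : a ∈ insert a' Y' := by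
        rw [← he]
        exact Finset.mem_insert_self _ _
      have m2 : a' ∈ insert a Y := by
        rw [he]
        exact Finset.mem_insert_self _ _
      rcases Finset.mem_insert.1 m1 with m1 | m1
      · exact m1
      · rcases Finset.mem_insert.1 m2 with m2 | m2
        · exact m2.symm
        · exact absurd (l1 a' m2) (not_lt.2 (l2 a m1).le)
    subst e
    have n1 : a ∉ Y := fun m => lt_irrefl _ (l1 a m)
    have n2 : a ∉ Y' := fun m => lt_irrefl _ (l2 a m)
    have e2 : Y = Y' := by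
      rw [← Finset.erase_insert n1, he, Finset.erase_insert n2]
    rw [e2]
  have h2 : (if b then 1 else 0) = (if b then ({∅} : Finset (Finset (Fin s))) else ∅).card := by
    split <;> simp
  rw [h1, h2, ← Finset.card_union_of_disjoint]
  · refine Finset.card_le_card fun Y hY => ?_
    rw [Finset.mem_union] at hY
    unfold pats
    rw [Finset.mem_filter]
    refine ⟨Finset.mem_univ _, ?_⟩
    rcases hY with hY | hY
    · by_cases hb' : b
      · rw [if_pos hb', Finset.mem_singleton] at hY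
        rw [hY]
        exact hb hb'
      · rw [if_neg hb'] at hY
        exact absurd hY (Finset.notMem_empty _)
    · obtain ⟨⟨a, Z⟩, hq, he⟩ := Finset.mem_image.1 hY
      rw [Finset.mem_sigma] at hq
      have hZ : Pat L X a j Z := by
        have := hq.2
        unfold pats at this
        rw [Finset.mem_filter] at this
        exact this.2
      have := (hA a hq.1).comp hZ
      rw [← he]
      rw [Finset.singleton_union] at this
      exact this
  · rw [Finset.disjoint_left]
    intro Y h3 h4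
    obtain ⟨⟨a, Z⟩, hq, he⟩ := Finset.mem_image.1 h4
    by_cases hb' : b
    · rw [if_pos hb', Finset.mem_singleton] at h3
      rw [h3] at he
      exact absurd he (Finset.insert_ne_empty _ _)
    · rw [if_neg hb'] at h3
      exact absurd h3 (Finset.notMem_empty _)

namespace Prog

variable {n : ℕ} {ε : ℝ} {W s : ℕ} (P : Prog n ε W s) (X : Finset (Fin s))

/-- the inputs whose other inputs are true if the gate is a product -/
noncomputable def Lo (x : Cube n) (i : Fin s) : Finset (Fin s × Bool) :=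
  if P.Large i then
    (P.L i).filter fun l => P.kind i = .prod → ∀ l' ∈ P.L i, l' ≠ l → P.f l'.1 x = l'.2
  else ∅

theorem mem_Lo {x : Cube n} {i : Fin s} {l : Fin s × Bool} : l ∈ P.Lo x i ↔
    P.Large i ∧ l ∈ P.L i ∧
      (P.kind i = .prod → ∀ l' ∈ P.L i, l' ≠ l → P.f l'.1 x = l'.2) := by
  unfold Lo
  by_cases h : P.Large i
  · rw [if_pos h, Finset.mem_filter]
    exact ⟨fun h1 => ⟨h, h1⟩, fun h1 => h1.2⟩
  · rw [if_neg h]
    exact ⟨fun h1 => absurd h1 (Finset.notMem_empty _), fun h1 => absurd h1.1 h⟩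

theorem wt_ne {x : Cube n} {i : Fin s} {l : Fin s × Bool} (h : P.wt x i l ≠ 0)
    (hk : P.kind i = .prod) : ∀ l' ∈ P.L i, l' ≠ l → P.f l'.1 x = l'.2 := by
  intro l' hl' hne
  unfold wt at h
  rw [hk] at h
  simp only at h
  have h1 := right_ne_zero_of_mul h
  rw [Finset.prod_ne_zero_iff] at h1
  have h2 := h1 l' (Finset.mem_erase.2 ⟨hne, hl'⟩)
  rw [P.F_eq, lv_rv] at h2
  by_contra h3
  rw [if_neg h3] at h2
  exact h2 rfl

theorem M0_Lo (x : Cube n) {i k : Fin s} (h : P.M0 X x i k ≠ 0) :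
    ∃ l ∈ P.Lo x i, l.1 = k ∧ ¬ Frz X l := by
  have hL := (P.M0_ne X x h).1
  unfold M0 at h
  by_cases h1 : P.Large i ∧ P.Large k
  · rw [if_pos h1] at h
    obtain ⟨l, hl, hl'⟩ := Finset.exists_ne_zero_of_sum_ne_zero h
    by_cases h2 : l.1 = k ∧ ¬ Frz X l
    · rw [if_pos h2] at hl'
      exact ⟨l, P.mem_Lo.2 ⟨hL, hl, P.wt_ne hl'⟩, h2⟩
    · rw [if_neg h2] at hl'
      exact absurd rfl hl'
  · rw [if_neg h1] at h
    exact absurd rfl h

theorem MX_Lo (x : Cube n) {i k : Fin s} (h : P.MX X x i k ≠ 0) :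
    P.Large k ∧ (k, false) ∈ P.Lo x i ∧ k ∈ X := by
  obtain ⟨hL, hLk, -, hkX⟩ := P.MX_ne X x h
  refine ⟨hLk, ?_, hkX⟩
  unfold MX at h
  rw [if_pos ⟨hL, hLk⟩] at h
  obtain ⟨l, hl, hl'⟩ := Finset.exists_ne_zero_of_sum_ne_zero h
  by_cases h2 : l.1 = k ∧ Frz X l
  · rw [if_pos h2] at hl'
    obtain ⟨h3, h4, -⟩ := h2
    have e : l = (k, false) := Prod.ext h3 h4
    rw [e] at hl hl'
    exact P.mem_Lo.2 ⟨hL, hl, P.wt_ne hl'⟩
  · rw [if_neg h2] at hl'
    exact absurd rfl hl'

theorem D0_pat (x : Cube n) (r j : Fin s) (h : P.D0 X x r j ≠ 0) :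
    Pat (P.Lo x) X r j ∅ := by
  induction j using WellFoundedGT.induction with
  | ind j ih =>
    by_cases hr : r = j
    · rw [← hr]
      exact Pat.refl
    · rw [P.D0_bwd, if_neg hr, zero_add] at h
      obtain ⟨k, -, hk⟩ := Finset.exists_ne_zero_of_sum_ne_zero h
      have h1 := left_ne_zero_of_mul hk
      have h2 := right_ne_zero_of_mul hk
      obtain ⟨l, hl, hlj, hf⟩ := P.M0_Lo X x h2
      have h3 := Pat.step k ∅ l (ih k (P.M0_lt X x h2).1 h1) hl
      rw [if_neg (show ¬ (l.2 = false ∧ l.1 ∈ X) from hf), hlj] at h3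
      exact h3

theorem GX_pat (x : Cube n) (r a : Fin s) (h : P.GX X x r a ≠ 0) :
    P.Large a ∧ a ∈ X ∧ Pat (P.Lo x) X r a {a} := by
  obtain ⟨-, i, h1, h2⟩ := P.GX_ne X x h
  obtain ⟨hL, hl, ha⟩ := P.MX_Lo X x h2
  have h3 := Pat.step i ∅ (a, false) (P.D0_pat X x r i h1) hl
  rw [if_pos ⟨rfl, ha⟩] at h3
  exact ⟨hL, ha, h3⟩

/-- patterns bound the derivatives -/
theorem abs_D_pats (hε : ε ≤ 1 / 3) (hn : 1 ≤ n)
    (h1 : ∀ j, P.Large j → ∃ x₀, P.HarmX X (j, true) x₀)
    (h2 : ∀ a, P.Large a → a ∈ X → ∃ x₀, P.HarmX X (a, false) x₀) (x : Cube n) (j : Fin s)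
    (hj : P.Large j) (r : Fin s) : |P.D x r j| ≤ (pats (P.Lo x) X r j).card := by
  induction r using WellFoundedLT.induction with
  | ind r ih =>
    have hlt : ∀ i, ∀ l ∈ P.Lo x i, l.1 < i := fun i l hl =>
      (P.input i l (P.mem_Lo.1 hl).2.1).1
    set A := Finset.univ.filter fun a => P.GX X x r a ≠ 0 with hA
    have h3 := pats_card hlt r j (P.D0 X x r j ≠ 0) (P.D0_pat X x r j) A (fun a ha => by
      rw [hA, Finset.mem_filter] at ha
      exact (P.GX_pat X x r a ha.2).2.2)
    refine le_trans ?_ (Nat.cast_le.2 h3)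
    rw [P.D_split X x r j]
    push_cast
    refine (abs_add_le _ _).trans (add_le_add ?_ ?_)
    · obtain ⟨x₀, hx₀⟩ := h1 j hj
      by_cases h0 : P.D0 X x r j = 0
      · rw [h0]
        simp
      · rw [if_pos h0]
        exact P.abs_D0 X hε hn hj hx₀ x r
    · have h4 : ∑ a, P.GX X x r a * P.D x a j = ∑ a ∈ A, P.GX X x r a * P.D x a j := by
        rw [hA, Finset.sum_filter]
        refine Finset.sum_congr rfl fun a _ => ?_
        by_cases h0 : P.GX X x r a = 0
        · rw [h0, zero_mul, if_neg (fun h => h rfl)]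
        · rw [if_pos h0]
      rw [h4]
      refine (Finset.abs_sum_le_sum_abs _ _).trans (Finset.sum_le_sum fun a ha => ?_)
      rw [hA, Finset.mem_filter] at ha
      obtain ⟨hL, haX, -⟩ := P.GX_pat X x r a ha.2
      obtain ⟨x₀, hx₀⟩ := h2 a hL haX
      rw [abs_mul]
      calc |P.GX X x r a| * |P.D x a j| ≤ 1 * |P.D x a j| :=
            mul_le_mul_of_nonneg_right (P.abs_GX X hε hn hL hx₀ x r) (abs_nonneg _)
        _ = |P.D x a j| := one_mul _
        _ ≤ _ := ih a (P.GX_ne X x ha.2).1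

end Prog

end Pool.Agent.VD
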