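import Pool.Agent.VD.Upp
import Pool.Agent.VD.NPat

/-!
# VD, frozen negations: the expansion from bounds for the derivatives
-/

set_option autoImplicit false

namespace Pool.Agent.VD

open Finset Matrix
open scoped Classical

theorem pad2 {n : ℕ} {ε : ℝ} {W N : ℕ} {B : ℝ} (hB : 0 ≤ B) {ι : Type} [Fintype ι] (hc : Fintype.card ι ≤ N)
    (T : ι → Cube n → ℝ) (h0 : ∃ A : Finset (Fin n), Bal ε A)
    (hT : ∀ i, (∑ x, T i x ^ 2 ≤ B) ∧ ∃ A : Finset (Fin n), Bal ε A ∧ RkLe A W (T i))
    (g : Cube n → ℝ) (hg : ∀ x, g x = ∑ i, T i x) :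
    ∃ (T' : Fin N → Cube n → ℝ) (A : Fin N → Finset (Fin n)),
      (∀ i, Bal ε (A i)) ∧ (∀ i, ∑ x, T' i x ^ 2 ≤ B) ∧ (∀ i, RkLe (A i) W (T' i)) ∧
      ∀ x, g x = ∑ i, T' i x := by
  obtain ⟨A₀, hA₀⟩ := h0
  have e := (Fintype.equivFin ι).symm
  choose A hA1 hA2 using fun i => (hT i).2
  refine ⟨fun k => if h : (k : ℕ) < Fintype.card ι then T (e ⟨k, h⟩) else fun _ => 0,
    fun k => if h : (k : ℕ) < Fintype.card ι then A (e ⟨k, h⟩) else A₀,
    fun k => ?_, fun k => ?_, fun k => ?_, fun x => ?_⟩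
  · by_cases h : (k : ℕ) < Fintype.card ι
    · simp only [h, dif_pos]
      exact hA1 _
    · simp only [h, dif_neg, not_false_eq_true]
      exact hA₀
  · by_cases h : (k : ℕ) < Fintype.card ι
    · simp only [h, dif_pos]
      exact (hT _).1
    · simp only [h, dif_neg, not_false_eq_true]
      simpa using hB
  · by_cases h : (k : ℕ) < Fintype.card ι
    · simp only [h, dif_pos]
      exact hA2 _
    · simp only [h, dif_neg, not_false_eq_true]
      refine ⟨fun _ _ => 0, fun _ _ => 0, fun _ _ _ _ => rfl, fun _ _ _ _ => rfl, fun x => ?_⟩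
      simp
  · rw [hg x, ← e.sum_comp]
    obtain ⟨m, rfl⟩ := Nat.exists_eq_add_of_le hc
    rw [Fin.sum_univ_add]
    simp

theorem upper_of_D {ε : ℝ} (hε0 : 0 < ε) (hε : ε ≤ 1 / 3) {n W s : ℕ} (hn : 2 ≤ n) (hW : 1 ≤ W)
    (P : Prog n ε W s) (K : ℝ) (hK : 1 ≤ K) (r : Fin s)
    (hDB : ∀ i, P.Large i → ∑ x, P.D x r i ^ 2 ≤ K ^ 2 * 2 ^ n) :
    ∃ (T : Fin P.size → Cube n → ℝ) (A : Fin P.size → Finset (Fin n)),
      (∀ i, Bal ε (A i)) ∧ (∀ i, ∑ x, T i x ^ 2 ≤ K ^ 2 * 2 ^ n) ∧
      (∀ i, RkLe (A i) W (T i)) ∧ ∀ x, (if P.f r x then (1 : ℝ) else 0) = ∑ i, T i x := by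
  have hn1 : 1 ≤ n := by omega
  have huniv : (1 - ε) * n < (Finset.univ : Finset (Fin n)).card := by
    rw [Finset.card_univ, Fintype.card_fin]
    have : (2 : ℝ) ≤ n := by exact_mod_cast hn
    nlinarith
  have h0 : ∃ A : Finset (Fin n), Bal ε A := by
    obtain ⟨A, -, h⟩ := exists_bal' hε0 hε hn _ huniv
    exact ⟨A, h⟩
  have hB0 : (0 : ℝ) ≤ K ^ 2 * 2 ^ n := by positivity
  have hterm : ∀ (i : Fin s) (g : Cube n → ℝ), P.Large i → (∀ x, |g x| ≤ 1) →
      ∑ x, (P.D x r i * g x) ^ 2 ≤ K ^ 2 * 2 ^ n := by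
    intro i g hi hg
    refine (Finset.sum_le_sum fun x _ => ?_).trans (hDB i hi)
    rw [mul_pow]
    have h1 : g x ^ 2 ≤ 1 := by
      rw [← sq_abs]
      exact pow_le_one₀ (abs_nonneg _) (hg x)
    nlinarith [sq_nonneg (P.D x r i)]
  by_cases hr : P.Large r
  · refine pad2 hB0 (ι := Fin s ⊕ (Σ i : Fin s, {l // l ∈ P.L i})) (N := P.size) ?_
      (Sum.elim (fun i x => if P.Large i ∧ P.kind i ≠ .sum then P.D x r i * P.cc x i else 0)
        (fun p x => if P.Large p.1 ∧ P.kind p.1 = .sum then P.D x r p.1 * P.cst x p.2.1 else 0))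
      h0 ?_ _ ?_
    · rw [Fintype.card_sum, Fintype.card_sigma, Fintype.card_fin]
      unfold Prog.size
      simp
    · rintro (i | ⟨i, l, hl⟩)
      · by_cases h : P.Large i ∧ P.kind i ≠ .sum
        · simp only [Sum.elim_inl, h, if_true, ne_eq, not_false_eq_true, and_self]
          obtain ⟨h1, h2⟩ := P.term_gate hε0 hε hn hW r h.1 h.2
          exact ⟨hterm i _ h.1 h1, h2⟩
        · simp only [Sum.elim_inl, h, if_false]
          refine ⟨by simpa using hB0, ?_⟩
          obtain ⟨A, hA⟩ := h0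
          exact ⟨A, hA, fun _ _ => 0, fun _ _ => 0, fun _ _ _ _ => rfl, fun _ _ _ _ => rfl,
            fun x => by simp⟩
      · by_cases h : P.Large i ∧ P.kind i = .sum
        · simp only [Sum.elim_inr, h, if_true, and_self]
          exact ⟨hterm i _ h.1 fun x => P.abs_cst x l, P.term_lit hε0 hε hn hW r h.1 hl⟩
        · simp only [Sum.elim_inr, h, if_false]
          refine ⟨by simpa using hB0, ?_⟩
          obtain ⟨A, hA⟩ := h0
          exact ⟨A, hA, fun _ _ => 0, fun _ _ => 0, fun _ _ _ _ => rfl, fun _ _ _ _ => rfl,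
            fun x => by simp⟩
    · intro x
      have h1 := P.F_expand hε hn1 x r
      rw [Fintype.sum_sum_type, Fintype.sum_sigma, ← Finset.sum_add_distrib]
      refine h1.trans (Finset.sum_congr rfl fun i _ => ?_)
      simp only [Sum.elim_inl, Sum.elim_inr]
      by_cases hi : P.Large i
      · by_cases hk : P.kind i = .sum
        · rw [if_neg (fun h => h.2 hk), zero_add]
          have h2 : P.cc x i = ∑ l ∈ P.L i, P.cst x l := by
            unfold Prog.cc
            rw [if_pos hi, hk]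
          rw [h2, Finset.mul_sum, ← Finset.sum_coe_sort]
          refine Finset.sum_congr rfl fun l _ => ?_
          rw [if_pos ⟨hi, hk⟩]
        · rw [if_pos ⟨hi, hk⟩, Finset.sum_eq_zero, add_zero]
          intro l _
          rw [if_neg (fun h => hk h.2)]
      · have hne : r ≠ i := fun e => hi (by rw [← e]; exact hr)
        rw [P.D_small x hi hne, zero_mul, if_neg (fun h => hi h.1), Finset.sum_eq_zero, add_zero]
        intro l _
        rw [if_neg (fun h => hi h.1)]
  · obtain ⟨A, -, hb, hrk⟩ := P.rk_prod hε0 hε hn hW Finset.univ huniv {(r, true)}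
      (fun _ _ => Finset.subset_univ _)
      (fun l hl => by
        rw [Finset.mem_singleton] at hl
        rw [hl]
        exact hr)
      (fun l' hl' l'' hl'' hne => by
        rw [Finset.mem_singleton] at hl' hl''
        exact absurd (hl'.trans hl''.symm) hne)
    refine pad2 hB0 (ι := Unit) (N := P.size) ?_ (fun _ x => if P.f r x then (1 : ℝ) else 0) h0 ?_ _ ?_
    · rw [Fintype.card_unit]
      unfold Prog.size
      have := r.pos
      omega
    · intro _
      refine ⟨?_, A, hb, ?_⟩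
      · have h3 := Finset.sum_le_card_nsmul (Finset.univ : Finset (Cube n))
          (fun x => (if P.f r x then (1 : ℝ) else 0) ^ 2) 1 (fun x _ => by split <;> norm_num)
        rw [Finset.card_univ, Fintype.card_fun, Fintype.card_fin, Fintype.card_bool,
          nsmul_eq_mul, mul_one] at h3
        push_cast at h3
        refine h3.trans ?_
        have h4 : (1 : ℝ) ≤ K ^ 2 := one_le_pow₀ hK
        exact le_mul_of_one_le_left (by positivity) h4
      · have h2 : (fun x => if P.f r x then (1 : ℝ) else 0) =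
            fun x => (∏ l' ∈ {((r, true) : Fin s × Bool)}, Prog.lv (P.F x) l') := by
          funext x
          rw [Finset.prod_singleton]
          rfl
        rw [h2]
        exact hrk
    · intro x
      simp

end Pool.Agent.VD
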