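import Pool.Agent.VD.NDef
import Pool.Agent.VD.NUpp

/-!
# VD, circuits as programs: constant gates become small
-/

set_option autoImplicit false

namespace Pool.Agent.VD

open Finset
open scoped Classical

/-- the kind -/
def GateKind.conv : GateKind → Kind
  | .leaf => .leaf
  | .prod => .prod
  | .sum => .sum

theorem GateKind.conv_leaf {k : GateKind} (h : k.conv = .leaf) : k = .leaf := by
  cases k
  · rfl
  · exact absurd h (by simp [conv])
  · exact absurd h (by simp [conv])

theorem GateKind.conv_prod {k : GateKind} (h : k.conv = .prod) : k = .prod := by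
  cases k
  · exact absurd h (by simp [conv])
  · rfl
  · exact absurd h (by simp [conv])

theorem GateKind.conv_sum {k : GateKind} (h : k.conv = .sum) : k = .sum := by
  cases k
  · exact absurd h (by simp [conv])
  · exact absurd h (by simp [conv])
  · rfl

namespace Circuit

variable {n : ℕ} {ε : ℝ} {W s : ℕ} (P : Circuit n ε W s)

/-- the gate is not constant -/
def NC (i : Fin s) : Prop := ∃ x y, P.f i x ≠ P.f i y

/-- the scopes with empty scopes for the constant gates -/
noncomputable def S' (i : Fin s) : Finset (Fin n) := if P.NC i then P.S i else ∅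

/-- the inputs without the inputs of the constant gates -/
noncomputable def L' (i : Fin s) : Finset (Fin s × Bool) := if P.NC i then P.L i else ∅

theorem S'_sub (i : Fin s) : P.S' i ⊆ P.S i := by
  unfold S'
  split
  · exact Finset.Subset.refl _
  · exact Finset.empty_subset _

theorem L'_sub (i : Fin s) : P.L' i ⊆ P.L i := by
  unfold L'
  split
  · exact Finset.Subset.refl _
  · exact Finset.empty_subset _

theorem large' (hε : ε ≤ 1 / 3) {i : Fin s} (h : (1 - ε) * n < (P.S' i).card) :
    IsLarge ε (P.S i) (P.f i) ∧ P.S' i = P.S i ∧ P.L' i = P.L i := by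
  have h1 : P.NC i := by
    by_contra h2
    unfold S' at h
    rw [if_neg h2, Finset.card_empty, Nat.cast_zero] at h
    have : (0 : ℝ) ≤ (1 - ε) * n := mul_nonneg (by linarith) (Nat.cast_nonneg _)
    linarith
  have h2 : P.S' i = P.S i := if_pos h1
  refine ⟨⟨?_, h1⟩, h2, if_pos h1⟩
  rw [← h2]
  exact h

/-- the program of a circuit -/
noncomputable def toProg (hε : ε ≤ 1 / 3) : Prog n ε W s where
  kind := fun i => (P.kind i).conv
  S := P.S'
  f := P.f
  L := P.L'
  dep := by
    intro i x y h
    by_cases h1 : P.NC i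
    · refine P.dep i x y fun v hv => h v ?_
      unfold S'
      rw [if_pos h1]
      exact hv
    · by_contra h2
      exact h1 ⟨x, y, h2⟩
  input := by
    intro i l hl
    by_cases h1 : P.NC i
    · unfold L' at hl
      rw [if_pos h1] at hl
      refine ⟨(P.input i l hl).1, (P.S'_sub l.1).trans ?_⟩
      unfold S'
      rw [if_pos h1]
      exact (P.input i l hl).2
    · unfold L' at hl
      rw [if_neg h1] at hl
      exact absurd hl (Finset.notMem_empty _)
  leaf := by
    intro i hi hk
    obtain ⟨h1, h2, -⟩ := P.large' hε hi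
    rw [h2]
    exact P.leaf i h1 (GateKind.conv_leaf hk)
  prod := by
    intro i hi hk
    obtain ⟨h1, -, h3⟩ := P.large' hε hi
    rw [h3]
    exact P.prod i h1 (GateKind.conv_prod hk)
  disj := by
    intro i hi hk l hl l' hl' hne
    obtain ⟨h1, -, h3⟩ := P.large' hε hi
    rw [h3] at hl hl'
    exact Finset.disjoint_of_subset_left (P.S'_sub _) (Finset.disjoint_of_subset_right (P.S'_sub _)
      (P.disj i h1 (GateKind.conv_prod hk) l hl l' hl' hne))
  sum := by
    intro i hi hk
    obtain ⟨h1, -, h3⟩ := P.large' hε hi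
    rw [h3]
    exact P.sum i h1 (GateKind.conv_sum hk)
  det := by
    intro i hi hk
    obtain ⟨h1, -, h3⟩ := P.large' hε hi
    rw [h3]
    exact P.det i h1 (GateKind.conv_sum hk)

theorem toProg_large (hε : ε ≤ 1 / 3) (i : Fin s) : (P.toProg hε).Large i ↔ P.Large i := by
  constructor
  · intro h
    exact (P.large' hε h).1
  · intro h
    have h2 : P.S' i = P.S i := if_pos h.2
    show (1 - ε) * n < (P.S' i).card
    rw [h2]
    exact h.1

theorem toProg_L (hε : ε ≤ 1 / 3) {i : Fin s} (h : P.Large i) : (P.toProg hε).L i = P.L i :=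
  if_pos h.2

theorem toProg_size (hε : ε ≤ 1 / 3) : (P.toProg hε).size ≤ P.size := by
  unfold Prog.size size
  exact Nat.add_le_add_left (Finset.sum_le_sum fun i _ => Finset.card_le_card (P.L'_sub i)) _

theorem neg_of_pat (hε : ε ≤ 1 / 3) (X : Finset (Fin s)) (x : Cube n) (r : Fin s) {j : Fin s}
    {Y : Finset (Fin s)} (h : Pat ((P.toProg hε).Lo x) X r j Y) : P.Neg X x r j Y := by
  induction h with
  | refl => exact Neg.refl
  | step i Y l _ hl ih =>
    obtain ⟨h1, h2, h3⟩ := (P.toProg hε).mem_Lo.1 hl
    have hL := (P.toProg_large hε i).1 h1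
    rw [P.toProg_L hε hL] at h2 h3
    refine Neg.step i Y l ih hL h2 fun hk => h3 ?_
    show (P.kind i).conv = .prod
    rw [hk]
    rfl

theorem pats_le (hε : ε ≤ 1 / 3) (X : Finset (Fin s)) (x : Cube n) (r j : Fin s) :
    (pats ((P.toProg hε).Lo x) X r j).card ≤ P.patterns X x r j := by
  unfold pats patterns
  refine Finset.card_le_card fun Y hY => ?_
  rw [Finset.mem_filter] at hY ⊢
  exact ⟨hY.1, P.neg_of_pat hε X x r hY.2⟩

/-- harmless kinds of faults from places which are not critical -/
theorem harm_of_not_critical (hε : ε ≤ 1 / 3) (X : Finset (Fin s)) (p : Fin s × Bool)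
    (hL : P.Large p.1) (hX : p.2 = false → p.1 ∈ X) (hc : ¬ P.Critical X p) :
    ∃ x₀, (P.toProg hε).HarmX X p x₀ := by
  unfold Critical at hc
  push Not at hc
  obtain ⟨x₀, hx₀⟩ := hc hL hX
  refine ⟨x₀, fun x hx hx' u hu i hi hk l hl l' hl' h1 h2 => ?_⟩
  by_contra hne
  have hi' := (P.toProg_large hε i).1 hi
  rw [P.toProg_L hε hi'] at hl hl'
  rw [P.toProg_L hε hL] at hx'
  refine hx₀ x hx hx' u (fun i => ⟨(hu i).1, fun hp => ?_⟩) i hi' (GateKind.conv_sum hk) l hl l'
    hl' hne h1 h2
  obtain ⟨h3, h4, h5⟩ := (hu i).2 hp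
  refine ⟨fun h => h3 ?_, fun hL hk => ?_, fun hL hk => ?_⟩
  · rcases h with h | h
    · exact Or.inl fun h6 => h ((P.toProg_large hε i).1 h6)
    · refine Or.inr ?_
      show (P.kind i).conv = .leaf
      rw [h]
      rfl
  · have h6 := h4 ((P.toProg_large hε i).2 hL) (by
      show (P.kind i).conv = .prod
      rw [hk]
      rfl)
    rw [P.toProg_L hε hL] at h6
    exact h6
  · have h6 := h5 ((P.toProg_large hε i).2 hL) (by
      show (P.kind i).conv = .sum
      rw [hk]
      rfl)
    rw [P.toProg_L hε hL] at h6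
    exact h6

/-- no place is critical if all negations are frozen -/
theorem not_critical (X : Finset (Fin s))
    (hX : ∀ i j, P.Large i → P.Large j → (j, false) ∈ P.L i → j ∈ X) (p : Fin s × Bool) :
    ¬ P.Critical X p := by
  rintro ⟨hL, hpX, hc⟩
  obtain ⟨y, hy⟩ : ∃ y, P.f p.1 y = p.2 := by
    obtain ⟨x, y, hxy⟩ := hL.2
    by_cases h : P.f p.1 x = p.2
    · exact ⟨x, h⟩
    · refine ⟨y, ?_⟩
      cases h1 : P.f p.1 x <;> cases h2 : P.f p.1 y <;> cases h3 : p.2 <;>
        simp [h1, h2, h3] at h hxy ⊢
  obtain ⟨x, hx, -, u, hu, i, hi, hik, l, hl, l', hl', hne, ht, ht'⟩ := hc y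
  rw [hy] at hx
  have hsm : ∀ k, ¬ P.Large k → u k = P.f k x := by
    intro k hk
    have hkj : p ≠ (k, true) := fun e => hk (by rw [e] at hL; exact hL)
    exact ((hu k).2 hkj).1 (Or.inl hk)
  -- true literals are really true
  have key : ∀ i, P.Large i → (∀ k < i, u k = true → P.f k x = true) →
      ∀ l ∈ P.L i, P.Lit X x p u l → P.f l.1 x = l.2 := by
    intro i hi hlow l hl ht
    unfold Lit at ht
    by_cases hf : l.2 = false ∧ l.1 ∈ X
    · rw [if_pos hf] at ht
      by_cases hlp : l = p
      · exfalso
        have h1 : P.f l.1 x = l.2 := by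
          rw [hlp]
          exact hx
        exact (ht.1 h1) hlp
      · exact ht.2 hlp
    · rw [if_neg hf] at ht
      rcases l with ⟨k, b⟩
      simp only at ht hf ⊢
      cases b
      · have hk : ¬ P.Large k := fun h => hf ⟨rfl, hX i k hi h hl⟩
        rw [← hsm k hk]
        exact ht
      · exact hlow k (P.input i _ hl).1 ht
  have hle : ∀ i, u i = true → P.f i x = true := by
    intro i
    induction i using WellFoundedLT.induction with
    | ind i ih =>
      intro hui
      by_cases hp : p = (i, true)
      · rw [hp] at hx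
        exact hx
      · obtain ⟨h1, h2, h3⟩ := (hu i).2 hp
        by_cases hk : ¬ P.Large i ∨ P.kind i = .leaf
        · rw [← h1 hk]
          exact hui
        · push Not at hk
          obtain ⟨hi, hk⟩ := hk
          rcases hkk : P.kind i with _ | _ | _
          · exact absurd hkk hk
          · rw [P.prod i hi hkk]
            intro l hl
            exact key i hi ih l hl ((h2 hi hkk).1 hui l hl)
          · rw [P.sum i hi hkk]
            obtain ⟨l, hl, hl'⟩ := (h3 hi hkk).1 hui
            exact ⟨l, hl, key i hi ih l hl hl'⟩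
  exact hne (P.det i hi hik x l hl l' hl' (key i hi (fun k _ => hle k) l hl ht)
    (key i hi (fun k _ => hle k) l' hl' ht'))

end Circuit

end Pool.Agent.VD
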