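import Pool.Agent.VD.Main

/-!
# VD, the hard formulas, with quadratic means
-/

set_option autoImplicit false

namespace Pool.Agent.VD

open Finset

variable {n : ℕ}

/-- **discrepancy**: functions of small rank are almost orthogonal to the character -/
theorem thm_Disc2 (E J : Finset (Fin n × Fin n)) (A : Finset (Fin n)) (hE : ∀ e ∈ E, e.1 ≠ e.2)
    (hor : ∀ e ∈ E, (e.2, e.1) ∉ E) (hJ : Mat E J A) (W : ℕ) (B : ℝ) (T : Cube n → ℝ)
    (hT : RkLe A W T) (hB : ∑ x, T x ^ 2 ≤ B ^ 2 * 2 ^ n) :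
    (∑ x, sgn E x * T x) ^ 2 * 2 ^ J.card ≤ W * B ^ 2 * 4 ^ n := by
  classical
  obtain ⟨u, v, hu, hv, huv⟩ := hT
  have hM : ∀ x : Cube n, ∑ x' : Cube n,
      |∑ y, sgn E (A.piecewise x y) * sgn E (A.piecewise x' y)| ≤ 4 ^ n / 2 ^ J.card := by
    intro x
    rw [← Finset.sum_filter_add_sum_filter_not univ
      (fun x' : Cube n => ∑ y, sgn E (A.piecewise x y) * sgn E (A.piecewise x' y) ≠ 0)]
    have h1 : ∑ x' ∈ univ.filter (fun x' : Cube n =>
        ¬ ∑ y, sgn E (A.piecewise x y) * sgn E (A.piecewise x' y) ≠ 0),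
        |∑ y, sgn E (A.piecewise x y) * sgn E (A.piecewise x' y)| = 0 := by
      refine Finset.sum_eq_zero fun x' hx' => ?_
      rw [mem_filter, not_not] at hx'
      rw [hx'.2, abs_zero]
    rw [h1, add_zero, le_div_iff₀ (by positivity)]
    have h2 : ∀ x' : Cube n, |∑ y, sgn E (A.piecewise x y) * sgn E (A.piecewise x' y)| ≤
        2 ^ n := by
      intro x'
      refine (Finset.abs_sum_le_sum_abs _ _).trans ?_
      have h3 : ∀ y : Cube n, |sgn E (A.piecewise x y) * sgn E (A.piecewise x' y)| = 1 := by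
        intro y
        rw [abs_mul, abs_sgn, abs_sgn, one_mul]
      rw [Finset.sum_congr rfl fun y _ => h3 y, Finset.sum_const, card_univ, Fintype.card_fun,
        Fintype.card_fin, Fintype.card_bool, nsmul_eq_mul, mul_one]
      push_cast
      exact le_rfl
    have h3 := Finset.sum_le_card_nsmul (univ.filter fun x' : Cube n =>
      ∑ y, sgn E (A.piecewise x y) * sgn E (A.piecewise x' y) ≠ 0)
      (fun x' => |∑ y, sgn E (A.piecewise x y) * sgn E (A.piecewise x' y)|) (2 ^ n)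
      (fun x' _ => h2 x')
    rw [nsmul_eq_mul] at h3
    have h4 : (((univ.filter fun x' : Cube n =>
      ∑ y, sgn E (A.piecewise x y) * sgn E (A.piecewise x' y) ≠ 0).card : ℕ) : ℝ) *
        2 ^ J.card ≤ 2 ^ n := by exact_mod_cast disc_count hE hor hJ x
    calc _ ≤ (((univ.filter fun x' : Cube n =>
          ∑ y, sgn E (A.piecewise x y) * sgn E (A.piecewise x' y) ≠ 0).card : ℕ) : ℝ) * 2 ^ n *
          2 ^ J.card := mul_le_mul_of_nonneg_right h3 (by positivity)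
      _ = (((univ.filter fun x' : Cube n =>
          ∑ y, sgn E (A.piecewise x y) * sgn E (A.piecewise x' y) ≠ 0).card : ℕ) : ℝ) *
          2 ^ J.card * 2 ^ n := by ring
      _ ≤ 2 ^ n * 2 ^ n := mul_le_mul_of_nonneg_right h4 (by positivity)
      _ = 4 ^ n := by rw [← mul_pow]; norm_num
  have h5 := disc_rank (fun x y : Cube n => sgn E (A.piecewise x y))
    (fun x y : Cube n => T (A.piecewise x y)) (4 ^ n / 2 ^ J.card) (by positivity)
    (disc_schur _ _ hM) W u v (by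
      intro x y
      rw [huv]
      refine Finset.sum_congr rfl fun k _ => ?_
      congr 1
      · exact hu k _ _ fun i hi => Finset.piecewise_eq_of_mem _ _ _ hi
      · exact hv k _ _ fun i hi => Finset.piecewise_eq_of_notMem _ _ _ (mem_compl.1 hi))
  rw [sum_piecewise A (fun z => sgn E z * T z), sum_piecewise A (fun z => T z ^ 2)] at h5
  have h6 : ∑ z : Cube n, T z ^ 2 ≤ 2 ^ n * B ^ 2 := by
    rw [mul_comm]
    exact hB
  have h8 : (2 ^ n * ∑ z, sgn E z * T z) ^ 2 ≤ W * (4 ^ n / 2 ^ J.card) * (2 ^ n * (2 ^ n * B ^ 2)) :=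
    h5.trans (mul_le_mul_of_nonneg_left (mul_le_mul_of_nonneg_left h6 (by positivity))
      (by positivity))
  have h9 : ((2 : ℝ) ^ n) ^ 2 = 4 ^ n := by rw [← pow_mul, mul_comm n 2, pow_mul]; norm_num
  have h10 : (4 : ℝ) ^ n * ((∑ z, sgn E z * T z) ^ 2 * 2 ^ J.card) ≤
      4 ^ n * (W * B ^ 2 * 4 ^ n) := by
    have h11 := mul_le_mul_of_nonneg_right h8 (show (0 : ℝ) ≤ 2 ^ J.card by positivity)
    have h12 : (W : ℝ) * (4 ^ n / 2 ^ J.card) * (2 ^ n * (2 ^ n * B ^ 2)) * 2 ^ J.card =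
        4 ^ n * (W * B ^ 2 * 4 ^ n) := by
      have h13 : (2 : ℝ) ^ J.card ≠ 0 := by positivity
      rw [← h9]
      field_simp
    rw [h12, mul_pow, h9] at h11
    linarith
  exact le_of_mul_le_mul_left h10 (by positivity)

/-- the correlation of a good approximation with the character -/
theorem main_corr2 (φ : CNF n) (E : Finset (Fin n × Fin n)) (ω : ℝ) (hω : |ω| = 1)
    (hφ : ∀ x, Sat φ x → sgn E x = ω) (f : Cube n → ℝ)
    (h : 2 * ∑ x, |f x - if Sat φ x then 1 else 0| ≤ models φ) :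
    (models φ : ℝ) / 2 ≤ |∑ x, sgn E x * f x| := by
  classical
  have h1 : ∀ x, ((if Sat φ x then 1 else 0 : ℝ) - |f x - if Sat φ x then 1 else 0|) ≤
      ω * (sgn E x * f x) := by
    intro x
    have habs : |ω * sgn E x| = 1 := by rw [abs_mul, hω, abs_sgn, one_mul]
    have hωω : ω * ω = 1 := by rw [← abs_mul_abs_self, hω, one_mul]
    have h2 : |ω * sgn E x * (f x - if Sat φ x then 1 else 0)| =
        |f x - if Sat φ x then 1 else 0| := by rw [abs_mul, habs, one_mul]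
    have h3 := neg_abs_le (ω * sgn E x * (f x - if Sat φ x then 1 else 0))
    rw [h2] at h3
    have h4 : ω * sgn E x * (if Sat φ x then (1 : ℝ) else 0) = if Sat φ x then 1 else 0 := by
      by_cases hs : Sat φ x
      · rw [if_pos hs, hφ x hs, hωω, mul_one]
      · rw [if_neg hs, mul_zero]
    have h5 : ω * (sgn E x * f x) = ω * sgn E x * (f x - if Sat φ x then 1 else 0) +
        ω * sgn E x * (if Sat φ x then (1 : ℝ) else 0) := by ring
    rw [h5, h4]
    linarith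
  have h2 := Finset.sum_le_sum fun x (_ : x ∈ (univ : Finset (Cube n))) => h1 x
  rw [Finset.sum_sub_distrib, ← Finset.sum_filter, Finset.sum_const, nsmul_eq_mul, mul_one,
    ← Finset.mul_sum] at h2
  have h3 : ω * ∑ x, sgn E x * f x ≤ |∑ x, sgn E x * f x| := by
    refine (le_abs_self _).trans ?_
    rw [abs_mul, hω, one_mul]
  have h5 : ((univ.filter fun x => Sat φ x).card : ℝ) = models φ := rfl
  rw [h5] at h2
  linarith

/-- the correlation of one term -/
theorem main_term2 (E J : Finset (Fin n × Fin n)) (A : Finset (Fin n)) (hE : ∀ e ∈ E, e.1 ≠ e.2)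
    (hor : ∀ e ∈ E, (e.2, e.1) ∉ E) (hJ : Mat E J A) (c : ℝ) (hc : c * n ≤ (J.card : ℝ))
    (W : ℕ) (B : ℝ) (hB0 : 0 ≤ B) (T : Cube n → ℝ) (hT : RkLe A W T)
    (hB : ∑ x, T x ^ 2 ≤ B ^ 2 * 2 ^ n) :
    |∑ x, sgn E x * T x| ≤ W * B * (2 : ℝ) ^ (n - c * n / 2 : ℝ) := by
  have h1 := thm_Disc2 E J A hE hor hJ W B T hT hB
  have h2 : (2 : ℝ) ^ (c * n) ≤ (2 : ℝ) ^ J.card := by
    rw [← Real.rpow_natCast]
    exact Real.rpow_le_rpow_of_exponent_le (by norm_num) hc
  have h3 : (∑ x, sgn E x * T x) ^ 2 * (2 : ℝ) ^ (c * n) ≤ W * B ^ 2 * 4 ^ n :=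
    (mul_le_mul_of_nonneg_left h2 (sq_nonneg _)).trans h1
  have h4 : ((2 : ℝ) ^ (n - c * n / 2 : ℝ)) ^ 2 * (2 : ℝ) ^ (c * n) = 4 ^ n := by
    rw [← Real.rpow_natCast ((2 : ℝ) ^ (n - c * n / 2 : ℝ)) 2, ← Real.rpow_mul (by norm_num),
      ← Real.rpow_add (by norm_num)]
    have h5 : (n - c * n / 2 : ℝ) * ((2 : ℕ) : ℝ) + c * n = ((2 * n : ℕ) : ℝ) := by
      push_cast; ring
    rw [h5, Real.rpow_natCast, pow_mul]
    norm_num
  have hpos : (0 : ℝ) < (2 : ℝ) ^ (c * n) := Real.rpow_pos_of_pos (by norm_num) _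
  have h5 : (W : ℝ) * B ^ 2 ≤ (W * B) ^ 2 := by
    rw [mul_pow]
    refine mul_le_mul_of_nonneg_right ?_ (sq_nonneg _)
    have : W ≤ W ^ 2 := Nat.le_self_pow (by norm_num) W
    exact_mod_cast this
  have h6 : (∑ x, sgn E x * T x) ^ 2 ≤ (W * B * (2 : ℝ) ^ (n - c * n / 2 : ℝ)) ^ 2 := by
    refine le_of_mul_le_mul_right ?_ hpos
    refine h3.trans ?_
    rw [mul_pow (W * B) _ 2, mul_assoc ((W * B) ^ 2), h4]
    exact mul_le_mul_of_nonneg_right h5 (by positivity)
  have h7 : 0 ≤ W * B * (2 : ℝ) ^ (n - c * n / 2 : ℝ) := by positivity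
  exact abs_le_of_sq_le_sq h6 h7

/-- **The hard formulas**: sums of few functions of small rank across balanced sets and of small
norm are far from some CNF formula of linear size. -/
def St_Hard2 : Prop :=
  ∀ ε : ℝ, 0 < ε → ε ≤ 1 / 3 → ∃ c : ℝ, 0 < c ∧ ∃ C n₀ : ℕ, ∀ n : ℕ, ∃ φ : CNF n,
    φ.length ≤ C * n ∧ (∀ K ∈ φ, K.length ≤ C) ∧ 0 < models φ ∧
    (n < n₀ → ∀ x, Sat φ x) ∧
    ∀ (f : Cube n → ℝ), 2 * ∑ x, |f x - if Sat φ x then 1 else 0| ≤ models φ →
      ∀ (N W : ℕ) (B : Fin N → ℝ) (T : Fin N → Cube n → ℝ) (A : Fin N → Finset (Fin n)),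
        (∀ i, 0 ≤ B i) → (∀ i, Bal ε (A i)) → (∀ i, ∑ x, T i x ^ 2 ≤ B i ^ 2 * 2 ^ n) →
        (∀ i, RkLe (A i) W (T i)) → (∀ x, f x = ∑ i, T i x) → n₀ ≤ n →
        (2 : ℝ) ^ (c * n) ≤ W * ∑ i, B i

theorem thm_Hard2 : St_Hard2 := by
  classical
  obtain ⟨Δ, hG⟩ := thm_Gra
  intro ε hε hε3
  obtain ⟨c, hc, n₁, hG⟩ := hG ε hε hε3
  set D : ℕ := ⌈8 * Δ / c⌉₊ + 1 with hD
  have hDpos : 0 < D := by omega
  have hDle : 8 * Δ / c ≤ (D : ℝ) := by
    rw [hD]
    push_cast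
    exact (Nat.le_ceil _).trans (by linarith)
  refine ⟨c / 4, by positivity, (Δ + 1) * 2 ^ (2 * D) + 2 * D, n₁ + ⌈16 / c⌉₊ + 1, fun n => ?_⟩
  by_cases hn : n₁ + ⌈16 / c⌉₊ + 1 ≤ n
  · obtain ⟨E, hE, hor, hEc, hJ⟩ := hG n (by omega)
    obtain ⟨φ, h1, h2, h3, ω, hω, h4⟩ := thm_Cnf E D hDpos
    have hmod : 0 < models φ := by
      rcases Nat.eq_zero_or_pos (models φ) with h0 | h0
      · rw [h0, Nat.mul_zero] at h3
        have h5 : 0 < 2 ^ n := Nat.two_pow_pos n
        omega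
      · exact h0
    refine ⟨φ, ?_, ?_, hmod, fun hn' => absurd hn (not_le.2 hn'), ?_⟩
    · have h5 : E.card / D ≤ E.card := Nat.div_le_self _ _
      have h6 : E.card / D + 1 ≤ (Δ + 1) * n := by
        rw [Nat.add_mul, Nat.one_mul]; omega
      calc φ.length ≤ (E.card / D + 1) * 2 ^ (2 * D) := h1
        _ ≤ ((Δ + 1) * n) * 2 ^ (2 * D) := Nat.mul_le_mul_right _ h6
        _ = ((Δ + 1) * 2 ^ (2 * D)) * n := by ring
        _ ≤ ((Δ + 1) * 2 ^ (2 * D) + 2 * D) * n := Nat.mul_le_mul_right _ (Nat.le_add_right _ _)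
    · intro K hK
      exact (h2 K hK).trans (Nat.le_add_left _ _)
    · intro f hfφ N W B T A hB hA hTB hrk hfT _
      have hcorr := main_corr2 φ E ω hω h4 f hfφ
      have hn16 : (16 : ℝ) ≤ c * n := by
        have h5 : 16 / c ≤ (n : ℝ) := by
          have h6 : ((⌈16 / c⌉₊ : ℕ) : ℝ) ≤ n := by exact_mod_cast (by omega : ⌈16 / c⌉₊ ≤ n)
          exact (Nat.le_ceil _).trans h6
        rw [div_le_iff₀ hc] at h5
        linarith
      -- the number of groups
      have hR : ((E.card / D + 1 : ℕ) : ℝ) + 1 ≤ c * n / 4 := by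
        have h5 : ((E.card / D : ℕ) : ℝ) ≤ (E.card : ℝ) / D := Nat.cast_div_le
        have h6 : (E.card : ℝ) / D ≤ c * n / 8 := by
          rw [div_le_iff₀ (by exact_mod_cast hDpos)]
          have h7 : (E.card : ℝ) ≤ Δ * n := by exact_mod_cast hEc
          rw [div_le_iff₀ hc] at hDle
          have h8 := mul_le_mul_of_nonneg_right hDle (Nat.cast_nonneg (α := ℝ) n)
          linarith
        push_cast
        linarith
      -- the upper bound
      have hup : |∑ x, sgn E x * f x| ≤ W * (∑ i, B i) * (2 : ℝ) ^ (n - c * n / 2 : ℝ) := by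
        have h5 : ∑ x, sgn E x * f x = ∑ i, ∑ x, sgn E x * T i x := by
          rw [Finset.sum_comm]
          refine Finset.sum_congr rfl fun x _ => ?_
          rw [hfT, Finset.mul_sum]
        rw [h5]
        refine (Finset.abs_sum_le_sum_abs _ _).trans ?_
        have h6 : ∀ i ∈ (univ : Finset (Fin N)), |∑ x, sgn E x * T i x| ≤
            W * B i * (2 : ℝ) ^ (n - c * n / 2 : ℝ) := by
          intro i _
          obtain ⟨J, hJ1, hJ2⟩ := hJ (A i) (hA i)
          exact main_term2 E J (A i) hE hor hJ1 c hJ2 W (B i) (hB i) (T i) (hrk i) (hTB i)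
        refine (Finset.sum_le_sum h6).trans (le_of_eq ?_)
        rw [← Finset.sum_mul, ← Finset.mul_sum]
      -- the lower bound
      have hlow : (2 : ℝ) ^ (n : ℝ) ≤ (2 : ℝ) ^ ((E.card / D + 1 : ℕ) : ℝ) * models φ := by
        rw [Real.rpow_natCast, Real.rpow_natCast]
        exact_mod_cast h3
      have h5 : (2 : ℝ) ^ (n : ℝ) ≤ (2 : ℝ) ^ (((E.card / D + 1 : ℕ) : ℝ) + 1) *
          (W * (∑ i, B i) * (2 : ℝ) ^ (n - c * n / 2 : ℝ)) := by
        have h6 : (models φ : ℝ) ≤ 2 * (W * (∑ i, B i) * (2 : ℝ) ^ (n - c * n / 2 : ℝ)) := by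
          have := hcorr.trans hup
          linarith
        have h7 := mul_le_mul_of_nonneg_left h6
          (Real.rpow_pos_of_pos (show (0 : ℝ) < 2 by norm_num) ((E.card / D + 1 : ℕ) : ℝ)).le
        rw [Real.rpow_add (by norm_num), Real.rpow_one]
        refine hlow.trans (h7.trans (le_of_eq ?_))
        ring
      have h6 : (2 : ℝ) ^ (((E.card / D + 1 : ℕ) : ℝ) + 1) ≤ (2 : ℝ) ^ (c * n / 4) :=
        Real.rpow_le_rpow_of_exponent_le (by norm_num) hR
      have h7 : (2 : ℝ) ^ (n : ℝ) ≤ (2 : ℝ) ^ (c * n / 4) *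
          (W * (∑ i, B i) * (2 : ℝ) ^ (n - c * n / 2 : ℝ)) :=
        h5.trans (mul_le_mul_of_nonneg_right h6 (mul_nonneg (mul_nonneg (Nat.cast_nonneg _)
          (Finset.sum_nonneg fun i _ => hB i)) (Real.rpow_pos_of_pos (by norm_num) _).le))
      have h8 : (2 : ℝ) ^ (n : ℝ) = (2 : ℝ) ^ (c / 4 * n) *
          ((2 : ℝ) ^ (c * n / 4) * (2 : ℝ) ^ (n - c * n / 2 : ℝ)) := by
        rw [← Real.rpow_add (by norm_num), ← Real.rpow_add (by norm_num)]
        congr 1
        ring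
      have h9 : (0 : ℝ) < (2 : ℝ) ^ (c * n / 4) * (2 : ℝ) ^ (n - c * n / 2 : ℝ) :=
        mul_pos (Real.rpow_pos_of_pos (by norm_num) _) (Real.rpow_pos_of_pos (by norm_num) _)
      refine le_of_mul_le_mul_right ?_ h9
      rw [← h8]
      refine h7.trans (le_of_eq ?_)
      ring
  · refine ⟨[], Nat.zero_le _, ?_, ?_, ?_, ?_⟩
    · intro K hK
      exact absurd hK List.not_mem_nil
    · unfold models
      rw [Finset.card_pos]
      refine ⟨fun _ => true, mem_filter.2 ⟨mem_univ _, ?_⟩⟩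
      intro K hK
      exact absurd hK List.not_mem_nil
    · intro _ x K hK
      exact absurd hK List.not_mem_nil
    · intro f hfφ N W B T A hB hA hTB hrk hfT hn'
      exact absurd hn' hn

end Pool.Agent.VD
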