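import Pool.Agent.VD.ADef
import Pool.Agent.VD.NCnv
import Pool.Agent.VD.NHard

/-!
# VD, arithmetic circuits: deterministic circuits with negation gates
-/

set_option autoImplicit false

namespace Pool.Agent.VD

open Finset
open scoped Classical

namespace Arith

variable {n : ℕ} {ε : ℝ} {W s : ℕ} (P : Arith n ε W s)

variable {P} in
theorem IsNot.mem {i j : Fin s} (h : P.IsNot i j) : j ∈ P.L i := by
  obtain ⟨-, -, k, hL, -⟩ := h
  rw [hL]
  exact Finset.mem_insert_self _ _

variable {P} in
theorem IsNot.eq {i j : Fin s} (h : P.IsNot i j) (x : Cube n) : P.f i x = 1 - P.f j x := by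
  obtain ⟨hi, hk, k, hL, h1, h2, h3⟩ := h
  have hne : j ≠ k := by
    rintro rfl
    rw [h2] at h3
    norm_num at h3
  rw [P.sum i hi hk x, hL, Finset.sum_pair hne, h2, h3, h1 x]
  ring

/-- the inputs as literals -/
noncomputable def lits (i : Fin s) : Finset (Fin s × Bool) :=
  if h : ∃ j, P.IsNot i j then {(Classical.choose h, false)} else
    (P.L i).image fun j => (j, true)

theorem lits_not {i : Fin s} {l : Fin s × Bool} (hl : l ∈ P.lits i) (h : l.2 = false) :
    P.IsNot i l.1 ∧ P.lits i = {l} := by
  unfold lits at hl ⊢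
  by_cases h1 : ∃ j, P.IsNot i j
  · rw [dif_pos h1, Finset.mem_singleton] at hl
    rw [dif_pos h1, hl]
    exact ⟨Classical.choose_spec h1, rfl⟩
  · rw [dif_neg h1, Finset.mem_image] at hl
    obtain ⟨j, -, hj⟩ := hl
    rw [← hj] at h
    exact absurd h (by simp)

theorem lits_mem {i : Fin s} {l : Fin s × Bool} (hl : l ∈ P.lits i) : l.1 ∈ P.L i := by
  by_cases h : l.2 = false
  · exact (P.lits_not hl h).1.mem
  · unfold lits at hl
    by_cases h1 : ∃ j, P.IsNot i j
    · rw [dif_pos h1, Finset.mem_singleton] at hl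
      exact absurd (by rw [hl]) h
    · rw [dif_neg h1, Finset.mem_image] at hl
      obtain ⟨j, hj, hj'⟩ := hl
      rw [← hj']
      exact hj

/-- a literal is determined by its gate -/
theorem lits_inj {i : Fin s} {l l' : Fin s × Bool} (hl : l ∈ P.lits i) (hl' : l' ∈ P.lits i)
    (h : l.1 = l'.1) : l = l' := by
  unfold lits at hl hl'
  by_cases h1 : ∃ j, P.IsNot i j
  · rw [dif_pos h1, Finset.mem_singleton] at hl hl'
    rw [hl, hl']
  · rw [dif_neg h1, Finset.mem_image] at hl hl'
    obtain ⟨j, -, hj⟩ := hl
    obtain ⟨k, -, hk⟩ := hl'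
    rw [← hj, ← hk] at h ⊢
    simp only at h
    rw [h]

theorem lits_card (i : Fin s) : (P.lits i).card ≤ (P.L i).card := by
  unfold lits
  by_cases h1 : ∃ j, P.IsNot i j
  · rw [dif_pos h1, Finset.card_singleton]
    exact Finset.card_pos.2 ⟨_, (Classical.choose_spec h1).mem⟩
  · rw [dif_neg h1]
    exact Finset.card_image_le

theorem lits_pos {i : Fin s} (h1 : ¬ ∃ j, P.IsNot i j) :
    P.lits i = (P.L i).image fun j => (j, true) := dif_neg h1

/-- the Boolean function -/
noncomputable def bf (i : Fin s) (x : Cube n) : Bool := decide (P.f i x = 1)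

theorem bf_true {i : Fin s} {x : Cube n} : P.bf i x = true ↔ P.f i x = 1 := by
  unfold bf
  exact decide_eq_true_iff

variable {P}

theorem IsDD.bf_false (h : P.IsDD) {i : Fin s} {x : Cube n} :
    P.bf i x = false ↔ P.f i x = 0 := by
  unfold bf
  rw [decide_eq_false_iff_not]
  rcases h.1 i x with h1 | h1 <;> rw [h1] <;> norm_num

theorem IsDD.ite_bf (h : P.IsDD) (i : Fin s) (x : Cube n) :
    (if P.bf i x then (1 : ℝ) else 0) = P.f i x := by
  rcases h.1 i x with h1 | h1
  · rw [h.bf_false.2 h1, h1]
    simp
  · rw [P.bf_true.2 h1, h1]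
    simp

theorem IsDD.large (h : P.IsDD) (i : Fin s) :
    IsLarge ε (P.S i) (P.bf i) ↔ P.Large i := by
  refine and_congr_right fun _ => ?_
  constructor
  · rintro ⟨x, y, hxy⟩
    refine ⟨x, y, fun e => hxy ?_⟩
    unfold bf
    rw [e]
  · rintro ⟨x, y, hxy⟩
    refine ⟨x, y, fun e => hxy ?_⟩
    rw [← h.ite_bf i x, ← h.ite_bf i y, e]

/-- the Boolean circuit -/
noncomputable def toC (P : Arith n ε W s) (h : P.IsDD) : Circuit n ε W s where
  kind := P.kind
  S := P.S
  f := P.bf
  L := P.lits
  dep := by
    intro i x y hxy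
    unfold bf
    rw [P.dep i x y hxy]
  input := fun i l hl => P.input i _ (P.lits_mem hl)
  leaf := by
    intro i hi hk
    have h1 : (fun x => if P.bf i x then (1 : ℝ) else 0) = P.f i := by
      funext x
      exact h.ite_bf i x
    rw [h1]
    exact P.leaf i ((h.large i).1 hi) hk
  prod := by
    intro i hi hk x
    have hi' := (h.large i).1 hi
    have hn : ¬ ∃ j, P.IsNot i j := by
      rintro ⟨j, hj⟩
      rw [hj.2.1] at hk
      exact absurd hk (by simp)
    rw [P.lits_pos hn, P.bf_true, P.prod i hi' hk x]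
    constructor
    · intro h1 l hl
      rw [Finset.mem_image] at hl
      obtain ⟨j, hj, rfl⟩ := hl
      simp only
      rw [P.bf_true]
      rcases h.1 j x with h2 | h2
      · rw [Finset.prod_eq_zero hj h2] at h1
        norm_num at h1
      · exact h2
    · intro h1
      refine Finset.prod_eq_one fun j hj => ?_
      exact P.bf_true.1 (h1 (j, true) (Finset.mem_image_of_mem _ hj))
  disj := by
    intro i hi hk l hl l' hl' hne
    refine P.disj i ((h.large i).1 hi) hk l.1 (P.lits_mem hl) l'.1 (P.lits_mem hl') fun e => ?_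
    exact hne (P.lits_inj hl hl' e)
  sum := by
    intro i hi hk x
    have hi' := (h.large i).1 hi
    by_cases hn : ∃ j, P.IsNot i j
    · have h1 : P.lits i = {(Classical.choose hn, false)} := dif_pos hn
      have h2 := (Classical.choose_spec hn).eq x
      rw [h1, P.bf_true, h2]
      simp only [Finset.mem_singleton, exists_eq_left]
      rw [h.bf_false]
      constructor
      · intro h3
        linarith
      · intro h3
        linarith
    · have hw : ∀ j ∈ P.L i, P.w i j = 1 := (h.2 i hi' hk).resolve_right hn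
      rw [P.lits_pos hn, P.bf_true, P.sum i hi' hk x,
        Finset.sum_congr rfl fun j hj => by rw [hw j hj, one_mul]]
      constructor
      · intro h1
        by_contra h2
        push Not at h2
        rw [Finset.sum_eq_zero] at h1
        · norm_num at h1
        · intro j hj
          have := h2 (j, true) (Finset.mem_image_of_mem _ hj)
          rcases h.1 j x with h3 | h3
          · exact h3
          · exact absurd (P.bf_true.2 h3) this
      · rintro ⟨l, hl, hl'⟩
        rw [Finset.mem_image] at hl
        obtain ⟨j, hj, rfl⟩ := hl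
        simp only at hl'
        rw [P.bf_true] at hl'
        have h1 : 1 ≤ ∑ j ∈ P.L i, P.f j x := by
          rw [← hl']
          refine Finset.single_le_sum (f := fun j => P.f j x) (fun k _ => ?_) hj
          rcases h.1 k x with h3 | h3 <;> rw [h3] <;> norm_num
        have h2 : ∑ j ∈ P.L i, P.f j x = P.f i x :=
          ((P.sum i hi' hk x).trans
            (Finset.sum_congr rfl fun j hj => by rw [hw j hj, one_mul])).symm
        rcases h.1 i x with h3 | h3
        · rw [h2, h3] at h1
          norm_num at h1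
        · rw [h2, h3]
  det := by
    intro i hi hk x l hl l' hl' h1 h2
    have hi' := (h.large i).1 hi
    by_cases hn : ∃ j, P.IsNot i j
    · have h3 : P.lits i = {(Classical.choose hn, false)} := dif_pos hn
      rw [h3, Finset.mem_singleton] at hl hl'
      rw [hl, hl']
    · have hw : ∀ j ∈ P.L i, P.w i j = 1 := (h.2 i hi' hk).resolve_right hn
      rw [P.lits_pos hn, Finset.mem_image] at hl hl'
      obtain ⟨j, hj, rfl⟩ := hl
      obtain ⟨k, hk', rfl⟩ := hl'
      simp only at h1 h2
      rw [P.bf_true] at h1 h2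
      by_contra hne
      have hjk : j ≠ k := fun e => hne (by rw [e])
      have h4 : ∑ j ∈ P.L i, P.f j x = P.f i x :=
        ((P.sum i hi' hk x).trans
          (Finset.sum_congr rfl fun j hj => by rw [hw j hj, one_mul])).symm
      have h5 : P.f j x + P.f k x ≤ ∑ j ∈ P.L i, P.f j x := by
        rw [← Finset.sum_pair (f := fun j => P.f j x) hjk]
        refine Finset.sum_le_sum_of_subset_of_nonneg ?_ fun a _ _ => ?_
        · intro a ha
          rw [Finset.mem_insert, Finset.mem_singleton] at ha
          rcases ha with ha | ha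
          · rw [ha]
            exact hj
          · rw [ha]
            exact hk'
        · rcases h.1 a x with h3 | h3 <;> rw [h3] <;> norm_num
      rw [h4, h1, h2] at h5
      rcases h.1 i x with h3 | h3 <;> rw [h3] at h5 <;> norm_num at h5

theorem toC_large (h : P.IsDD) (i : Fin s) : (P.toC h).Large i ↔ P.Large i := h.large i

theorem toC_size (h : P.IsDD) : (P.toC h).size ≤ P.size := by
  unfold Circuit.size size
  exact Nat.add_le_add_left (Finset.sum_le_sum fun i _ => P.lits_card i) _

/-! ### the number of patterns -/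

variable (P) in
/-- the negated gates -/
noncomputable def negs : Finset (Fin s) :=
  (Finset.univ.filter fun i => ∃ j, P.IsNot i j).image fun i =>
    if h : ∃ j, P.IsNot i j then Classical.choose h else i

variable (P) in
theorem negs_card : P.negs.card ≤ P.nots := Finset.card_image_le

theorem neg_sub (h : P.IsDD) (x : Cube n) (r : Fin s) {j : Fin s} {Y : Finset (Fin s)}
    (hN : (P.toC h).Neg Finset.univ x r j Y) : Y ⊆ P.negs := by
  induction hN with
  | refl => exact Finset.empty_subset _
  | step i Y l _ _ hl _ ih =>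
    by_cases hc : l.2 = false ∧ l.1 ∈ (Finset.univ : Finset (Fin s))
    · rw [if_pos hc]
      refine Finset.insert_subset ?_ ih
      have hl' : l ∈ P.lits i := hl
      obtain ⟨h1, -⟩ := P.lits_not hl' hc.1
      unfold negs
      rw [Finset.mem_image]
      refine ⟨i, by
        rw [Finset.mem_filter]
        exact ⟨Finset.mem_univ _, l.1, h1⟩, ?_⟩
      have hex : ∃ j, P.IsNot i j := ⟨l.1, h1⟩
      rw [dif_pos hex]
      have h3 : P.lits i = {(Classical.choose hex, false)} := dif_pos hex
      rw [h3, Finset.mem_singleton] at hl'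
      rw [hl']
    · rw [if_neg hc]
      exact ih

theorem neg_card (h : P.IsDD) (x : Cube n) (r : Fin s) {ht : Fin s → ℕ}
    (hh : ∀ i j, P.Large i → P.Large j → j ∈ P.L i → ht j ≤ ht i ∧ (P.IsNot i j → ht j < ht i))
    {j : Fin s} {Y : Finset (Fin s)}
    (hN : (P.toC h).Neg Finset.univ x r j Y) : P.Large j → Y.card + ht j ≤ ht r := by
  induction hN with
  | refl =>
    intro _
    rw [Finset.card_empty, Nat.zero_add]
  | step i Y l _ hi hl _ ih =>
    intro hj
    have hi' := (toC_large h i).1 hi
    have h1 := ih hi'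
    have hl' : l ∈ P.lits i := hl
    obtain ⟨h2, h3⟩ := hh i l.1 hi' hj (P.lits_mem hl')
    by_cases hc : l.2 = false ∧ l.1 ∈ (Finset.univ : Finset (Fin s))
    · rw [if_pos hc]
      have h4 := h3 (P.lits_not hl' hc.1).1
      have h5 := Finset.card_insert_le l.1 Y
      omega
    · rw [if_neg hc]
      omega

theorem card_le_choose (N : Finset (Fin s)) (t : ℕ) :
    (N.powerset.filter fun Y => Y.card ≤ t).card ≤
      ∑ i ∈ Finset.range (t + 1), N.card.choose i := by
  have h1 : (N.powerset.filter fun Y => Y.card ≤ t) ⊆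
      (Finset.range (t + 1)).biUnion fun i => N.powersetCard i := by
    intro Y hY
    rw [Finset.mem_filter, Finset.mem_powerset] at hY
    rw [Finset.mem_biUnion]
    exact ⟨Y.card, Finset.mem_range.2 (Nat.lt_succ_of_le hY.2),
      Finset.mem_powersetCard.2 ⟨hY.1, rfl⟩⟩
  refine (Finset.card_le_card h1).trans (Finset.card_biUnion_le.trans (le_of_eq ?_))
  exact Finset.sum_congr rfl fun i _ => Finset.card_powersetCard i N

theorem patterns_nested (h : P.IsDD) (r : Fin s) (t : ℕ) (hN : P.Nested r t) (x : Cube n)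
    (j : Fin s) (hj : P.Large j) :
    (P.toC h).patterns Finset.univ x r j ≤ ∑ i ∈ Finset.range (t + 1), P.nots.choose i := by
  obtain ⟨ht, hr, hh⟩ := hN
  have h1 : (P.toC h).patterns Finset.univ x r j ≤
      (P.negs.powerset.filter fun Y => Y.card ≤ t).card := by
    unfold Circuit.patterns
    refine Finset.card_le_card fun Y hY => ?_
    rw [Finset.mem_filter] at hY ⊢
    refine ⟨Finset.mem_powerset.2 (neg_sub h x r hY.2), ?_⟩
    have := neg_card h x r hh hY.2 hj
    omega
  refine h1.trans ((card_le_choose _ t).trans ?_)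
  exact Finset.sum_le_sum fun i _ => Nat.choose_le_choose i (P.negs_card)

theorem neg_le (C : Circuit n ε W s) (X : Finset (Fin s)) (x : Cube n) (r : Fin s) {j : Fin s}
    {Y : Finset (Fin s)} (hN : C.Neg X x r j Y) : j ≤ r ∧ (j = r → Y = ∅) := by
  induction hN with
  | refl => exact ⟨le_refl _, fun _ => rfl⟩
  | step i Y l _ _ hl _ ih =>
    have h1 := (C.input i l hl).1
    exact ⟨h1.le.trans ih.1, fun e => absurd (lt_of_lt_of_le h1 ih.1) (by rw [e]; exact lt_irrefl _)⟩

theorem neg_inv (C : Circuit n ε W s) (X : Finset (Fin s)) (x : Cube n) (r : Fin s) {j : Fin s}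
    {Y : Finset (Fin s)} (hN : C.Neg X x r j Y) :
    j = r ∨ ∃ i Y' l, C.Neg X x r i Y' ∧ C.Large i ∧ l ∈ C.L i ∧ l.1 = j ∧
      Y = if l.2 = false ∧ l.1 ∈ X then insert l.1 Y' else Y' := by
  cases hN with
  | refl => exact Or.inl rfl
  | step i Y' l h1 h2 h3 _ => exact Or.inr ⟨i, Y', l, h1, h2, h3, rfl, rfl⟩

theorem neg_unique (h : P.IsDD) (hT : P.Tree) (x : Cube n) (r : Fin s) {j : Fin s}
    {Y : Finset (Fin s)} (hN : (P.toC h).Neg Finset.univ x r j Y) :
    P.Large j → ∀ Y', (P.toC h).Neg Finset.univ x r j Y' → Y = Y' := by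
  induction hN with
  | refl =>
    intro _ Y' hY'
    exact ((neg_le _ _ x r hY').2 rfl).symm
  | step i Y l hY hi hl hop ih =>
    intro hj Y' hY'
    have hi' := (toC_large h i).1 hi
    rcases neg_inv _ _ x r hY' with h1 | ⟨k, Z, l', h1, h2, h3, h4, h5⟩
    · exfalso
      have h2 := ((P.toC h).input i l hl).1
      have h3 := (neg_le _ _ x r hY).1
      rw [h1] at h2
      exact absurd (lt_of_lt_of_le h2 h3) (lt_irrefl _)
    · have hk' := (toC_large h k).1 h2
      have hl1 : l ∈ P.lits i := hl
      have hl2 : l' ∈ P.lits k := h3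
      have hik : i = k := hT i k l.1 hi' hk' hj (P.lits_mem hl1) (by
        rw [← h4]
        exact P.lits_mem hl2)
      subst hik
      have hll : l' = l := P.lits_inj hl2 hl1 h4
      subst hll
      rw [h5, ih hi' Z h1]

theorem patterns_tree (h : P.IsDD) (r : Fin s) (hT : P.Tree) (x : Cube n)
    (j : Fin s) (hj : P.Large j) :
    (P.toC h).patterns Finset.univ x r j ≤ 1 := by
  unfold Circuit.patterns
  rw [Finset.card_le_one]
  intro Y hY Y' hY'
  rw [Finset.mem_filter] at hY hY'
  exact neg_unique h hT x r hY.2 hj Y' hY'.2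

end Arith

end Pool.Agent.VD
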