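import Pool.Agent.VD.ATerm
import Pool.Agent.VD.ADD

/-!
# VD, arithmetic circuits: deterministic circuits with few nested negations are stable
-/

set_option autoImplicit false

namespace Pool.Agent.VD

open Finset Matrix
open scoped Classical

namespace Arith

variable {n : ℕ} {ε : ℝ} {W s : ℕ} {P : Arith n ε W s}

theorem large_not_const {i : Fin s} {c : ℝ} (hi : P.Large i) (h : ∀ x, P.f i x = c) : False := by
  obtain ⟨-, x, y, hxy⟩ := hi
  exact hxy ((h x).trans (h y).symm)

/-- a sum with coefficients one is not a negation -/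
theorem not_isNot_pos (h : P.IsDD) {i : Fin s} (hw : ∀ j ∈ P.L i, P.w i j = 1) :
    ¬ ∃ j, P.IsNot i j := by
  rintro ⟨j, hN⟩
  have hi := hN.1
  have hk := hN.2.1
  have hj := hN.mem
  have hn := hN.eq
  refine large_not_const hi (c := 1) fun x => ?_
  have h1 : P.f j x ≤ P.f i x := by
    rw [P.sum i hi hk x]
    refine le_trans (le_of_eq (by rw [hw j hj, one_mul]))
      (Finset.single_le_sum (f := fun j => P.w i j * P.f j x) (fun k hk' => ?_) hj)
    rw [hw k hk', one_mul]
    rcases h.1 k x with h3 | h3 <;> rw [h3] <;> norm_num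
  rw [hn x] at h1 ⊢
  rcases h.1 j x with h3 | h3
  · rw [h3]
    norm_num
  · rw [h3] at h1
    norm_num at h1

theorem isNot_unique {i j k : Fin s} (hL : P.L i = {j, k}) (h1 : ∀ x, P.f k x = 1)
    {j' : Fin s} (hj' : P.IsNot i j') : j' = j := by
  have hi := hj'.1
  have hj := hj'.mem
  have hn := hj'.eq
  rw [hL, Finset.mem_insert, Finset.mem_singleton] at hj
  rcases hj with hj | hj
  · exact hj
  · exfalso
    refine large_not_const hi (c := 0) fun x => ?_
    rw [hn x, hj, h1 x]
    ring

theorem toC_F (h : P.IsDD) (hε : ε ≤ 1 / 3) (x : Cube n) (j : Fin s) :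
    ((P.toC h).toProg hε).F x j = P.f j x := h.ite_bf j x

theorem sum_lits_pos (hε : ε ≤ 1 / 3) (h : P.IsDD) {i : Fin s} (hn : ¬ ∃ j, P.IsNot i j)
    (x : Cube n) (k : Fin s) :
    (∑ l ∈ P.lits i, if l.1 = k then ((P.toC h).toProg hε).wt x i l else 0) =
      if k ∈ P.L i then ((P.toC h).toProg hε).wt x i (k, true) else 0 := by
  rw [P.lits_pos hn, Finset.sum_image fun a _ b _ e => (Prod.ext_iff.1 e).1]
  simp only
  rw [Finset.sum_ite_eq']

/-- the two linear systems agree -/
theorem H_eq (hε : ε ≤ 1 / 3) (h : P.IsDD) (x : Cube n) :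
    P.H x = ((P.toC h).toProg hε).M x := by
  funext i k
  unfold H Prog.M
  by_cases hi : P.Large i
  · have hi' := (toC_large h i).2 hi
    have hip := ((P.toC h).toProg_large hε i).2 hi'
    by_cases hkL : P.Large k
    · have hkp := ((P.toC h).toProg_large hε k).2 ((toC_large h k).2 hkL)
      have e0 : (P.Large i ∧ P.Large k ∧ k ∈ P.L i) ↔ k ∈ P.L i := by
        simp only [hi, hkL, true_and]
      have e2 : ((P.toC h).toProg hε).Large i ∧ ((P.toC h).toProg hε).Large k :=
        ⟨hip, hkp⟩
      rw [if_congr e0 rfl rfl, if_pos e2, (P.toC h).toProg_L hε hi']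
      show _ = ∑ l ∈ P.lits i, _
      rcases hkk : P.kind i with _ | _ | _
      · -- leaf
        have : ∀ l, ((P.toC h).toProg hε).wt x i l = 0 := by
          intro l
          unfold Prog.wt
          have : ((P.toC h).toProg hε).kind i = .leaf := by
            show (P.kind i).conv = .leaf
            rw [hkk]
            rfl
          rw [this]
        simp only [this, ite_self, Finset.sum_const_zero]
      · -- product
        have hn : ¬ ∃ j, P.IsNot i j := by
          rintro ⟨j, hj⟩
          rw [hj.2.1] at hkk
          exact absurd hkk (by simp)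
        rw [sum_lits_pos hε h hn]
        by_cases hkm : k ∈ P.L i
        · rw [if_pos hkm, if_pos hkm]
          unfold Prog.wt
          have : ((P.toC h).toProg hε).kind i = .prod := by
            show (P.kind i).conv = .prod
            rw [hkk]
            rfl
          rw [this, (P.toC h).toProg_L hε hi']
          simp only
          show _ = Prog.sg true * ∏ l' ∈ (P.lits i).erase (k, true), _
          rw [P.lits_pos hn]
          have e1 : ((P.L i).image fun j => ((j, true) : Fin s × Bool)).erase (k, true) =
              ((P.L i).erase k).image fun j => (j, true) := by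
            ext ⟨a, b⟩
            simp only [Finset.mem_erase, Finset.mem_image, Prod.mk.injEq, ne_eq]
            constructor
            · rintro ⟨h1, c, hc, rfl, rfl⟩
              exact ⟨c, ⟨fun e => h1 ⟨e, rfl⟩, hc⟩, rfl, rfl⟩
            · rintro ⟨c, ⟨h1, hc⟩, rfl, rfl⟩
              exact ⟨fun e => h1 e.1, c, hc, rfl, rfl⟩
          rw [e1, Finset.prod_image fun a _ b _ e => (Prod.ext_iff.1 e).1]
          unfold Prog.sg
          rw [if_pos rfl, one_mul]
          refine Finset.prod_congr rfl fun j _ => ?_
          unfold Prog.lv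
          rw [if_pos rfl, toC_F]
        · rw [if_neg hkm, if_neg hkm]
      · -- sum
        have hkd : ((P.toC h).toProg hε).kind i = .sum := by
          show (P.kind i).conv = .sum
          rw [hkk]
          rfl
        rcases h.2 i hi hkk with hw | ⟨j, hN⟩
        · rw [sum_lits_pos hε h (not_isNot_pos h hw)]
          by_cases hkm : k ∈ P.L i
          · rw [if_pos hkm, if_pos hkm]
            unfold Prog.wt
            rw [hkd]
            simp only
            rw [hw k hkm]
            rfl
          · rw [if_neg hkm, if_neg hkm]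
        · have hex : ∃ j, P.IsNot i j := ⟨j, hN⟩
          obtain ⟨-, -, c, hL, h1, h2, h3⟩ := hN
          have hl : P.lits i = {(j, false)} := by
            have h4 : P.lits i = {(Classical.choose hex, false)} := dif_pos hex
            rw [h4, isNot_unique hL h1 (Classical.choose_spec hex)]
          rw [hl, Finset.sum_singleton]
          have hkc : k ≠ c := fun e => large_not_const hkL (by rw [e]; exact h1)
          simp only
          by_cases hkj : k = j
          · have hkm : k ∈ P.L i := by
              rw [hL, hkj]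
              exact Finset.mem_insert_self _ _
            rw [if_pos hkm, if_pos hkj.symm]
            unfold Prog.wt
            rw [hkd]
            simp only
            rw [hkj, h2]
            unfold Prog.sg
            simp
          · have hkm : k ∉ P.L i := by
              rw [hL, Finset.mem_insert, Finset.mem_singleton]
              push Not
              exact ⟨hkj, hkc⟩
            rw [if_neg hkm, if_neg (fun e => hkj e.symm)]
    · rw [if_neg (fun h1 => hkL h1.2.1), if_neg (fun h1 =>
        hkL ((toC_large h k).1 (((P.toC h).toProg_large hε k).1 h1.2)))]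
  · rw [if_neg (fun h1 => hi h1.1), if_neg (fun h1 =>
      hi ((toC_large h i).1 (((P.toC h).toProg_large hε i).1 h1.1)))]

theorem D_eq (hε : ε ≤ 1 / 3) (h : P.IsDD) (x : Cube n) :
    P.D x = ((P.toC h).toProg hε).D x := by
  unfold D Prog.D
  rw [H_eq hε h x]

theorem abs_D_le_patterns (hε : ε ≤ 1 / 3) (hn : 1 ≤ n) (h : P.IsDD) (x : Cube n)
    (r i : Fin s) (hi : P.Large i) :
    |P.D x r i| ≤ (P.toC h).patterns Finset.univ x r i := by
  rw [D_eq hε h x]
  have hcr : ∀ p, ¬ (P.toC h).Critical Finset.univ p :=
    (P.toC h).not_critical Finset.univ fun _ j _ _ _ => Finset.mem_univ j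
  have hip := ((P.toC h).toProg_large hε i).2 ((toC_large h i).2 hi)
  refine (((P.toC h).toProg hε).abs_D_pats Finset.univ hε hn (fun j hj => ?_)
    (fun a ha haX => ?_) x i hip r).trans ?_
  · exact (P.toC h).harm_of_not_critical hε Finset.univ (j, true)
      (((P.toC h).toProg_large hε j).1 hj) (fun h => absurd h (by simp)) (hcr _)
  · exact (P.toC h).harm_of_not_critical hε Finset.univ (a, false)
      (((P.toC h).toProg_large hε a).1 ha) (fun _ => haX) (hcr _)
  · exact_mod_cast (P.toC h).pats_le hε Finset.univ x r i

variable (P) in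
/-- resets exist -/
theorem exists_reset (x : Cube n) (p : Fin s × Option (Fin s)) : ∃ u, P.Reset x p u := by
  let F : (i : Fin s) → (∀ j, j < i → ℝ) → ℝ := fun i g =>
    if p = (i, none) then 0 else
    if ¬ P.Large i ∨ P.kind i = .leaf then P.f i x else
    if P.kind i = .prod then ∏ j ∈ (P.L i).attach, g j.1 (P.input i j.1 j.2).1
    else ∑ j ∈ (P.L i).attach, if p = (i, some j.1) then 0 else
      P.w i j.1 * g j.1 (P.input i j.1 j.2).1
  let u : Fin s → ℝ := WellFounded.fix (wellFounded_lt (α := Fin s)) F
  have hu : ∀ i, u i = F i fun j _ => u j := fun i => WellFounded.fix_eq _ F i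
  refine ⟨u, fun i => ⟨fun hp => ?_, fun hp => ⟨fun h => ?_, fun hL hk => ?_, fun hL hk => ?_⟩⟩⟩
  · rw [hu]
    exact if_pos hp
  · rw [hu]
    show (if p = (i, none) then 0 else _) = _
    rw [if_neg hp, if_pos h]
  · rw [hu]
    show (if p = (i, none) then 0 else _) = _
    rw [if_neg hp, if_neg (by
      rintro (h | h)
      · exact h hL
      · rw [hk] at h
        exact absurd h (by simp)), if_pos hk]
    exact Finset.prod_attach (P.L i) u
  · rw [hu]
    show (if p = (i, none) then 0 else _) = _
    rw [if_neg hp, if_neg (by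
      rintro (h | h)
      · exact h hL
      · rw [hk] at h
        exact absurd h (by simp)), if_neg (by rw [hk]; simp)]
    exact Finset.sum_attach (P.L i) fun j => if p = (i, some j) then 0 else P.w i j * u j

/-- the lost value is at most one -/
theorem abs_lost (h : P.IsDD) (x : Cube n) {p : Fin s × Option (Fin s)} (hp : P.Place p) :
    |P.lost x p| ≤ 1 := by
  have hf : ∀ j, |P.f j x| ≤ 1 := by
    intro j
    rcases h.1 j x with h3 | h3 <;> rw [h3] <;> norm_num
  obtain ⟨i, o⟩ := p
  rcases o with _ | j
  · exact hf i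
  · obtain ⟨hk, hj, -⟩ := hp.2.2 j rfl
    simp only at hk hj
    show |P.w i j * P.f j x| ≤ 1
    rw [abs_mul]
    have hw : |P.w i j| = 1 := by
      rcases h.2 i hp.1 hk with h1 | ⟨a, -, -, b, hL, -, h2, h3⟩
      · rw [h1 j hj, abs_one]
      · rw [hL, Finset.mem_insert, Finset.mem_singleton] at hj
        rcases hj with hj | hj
        · rw [hj, h2, abs_neg, abs_one]
        · rw [hj, h3, abs_one]
    rw [hw, one_mul]
    exact hf j

/-- circuits with few patterns are stable -/
theorem stable_of_patterns (hε : ε ≤ 1 / 3) (h : P.IsDD) (r : Fin s) (K : ℝ)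
    (hK : ∀ j, P.Large j → ∀ x, ((P.toC h).patterns Finset.univ x r j : ℝ) ≤ K) :
    P.Stable r K := by
  intro p hp
  rcases Nat.eq_zero_or_pos n with hn | hn
  · exfalso
    subst hn
    have h1 := hp.1.1
    have h2 : (P.S p.1).card ≤ 0 := by
      have := Finset.card_le_univ (P.S p.1)
      rwa [Fintype.card_fin] at this
    have h3 : ((P.S p.1).card : ℝ) ≤ 0 := by exact_mod_cast h2
    simp only [Nat.cast_zero, mul_zero] at h1
    linarith
  choose u hu using fun x => P.exists_reset x p
  refine ⟨u, hu, ?_⟩
  have h5 : ∀ x, (P.f r x - u x r) ^ 2 ≤ K ^ 2 := by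
    intro x
    rw [(hu x).eff hε hn hp r]
    have h6 : |P.D x r p.1 * P.lost x p| ≤ K := by
      rw [abs_mul]
      calc |P.D x r p.1| * |P.lost x p| ≤ |P.D x r p.1| * 1 :=
            mul_le_mul_of_nonneg_left (abs_lost h x hp) (abs_nonneg _)
        _ = |P.D x r p.1| := mul_one _
        _ ≤ K := (abs_D_le_patterns hε hn h x r p.1 hp.1).trans (hK p.1 hp.1 x)
    rw [← sq_abs]
    exact pow_le_pow_left₀ (abs_nonneg _) h6 2
  refine (Finset.sum_le_card_nsmul _ _ _ fun x _ => h5 x).trans (le_of_eq ?_)
  rw [Finset.card_univ, Fintype.card_fun, Fintype.card_fin, Fintype.card_bool, nsmul_eq_mul]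
  push_cast
  ring

/-- **Deterministic circuits with few nested negations are stable.** -/
theorem IsDD.stable_nested (hε : ε ≤ 1 / 3) (h : P.IsDD) (r : Fin s) (t : ℕ)
    (hN : P.Nested r t) :
    P.Stable r (∑ i ∈ Finset.range (t + 1), P.nots.choose i : ℕ) :=
  stable_of_patterns hε h r _ fun j hj x => by
    exact_mod_cast patterns_nested h r t hN x j hj

/-- **Deterministic trees with negations are stable.** -/
theorem IsDD.stable_tree (hε : ε ≤ 1 / 3) (h : P.IsDD) (r : Fin s) (hT : P.Tree) :
    P.Stable r 1 :=
  stable_of_patterns hε h r _ fun j hj x => by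
    exact_mod_cast patterns_tree h r hT x j hj

end Arith

end Pool.Agent.VD
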