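import Mathlib

/-!
# The kinds of gates
-/

set_option autoImplicit false

namespace Pool.Agent.VD

/-- The three kinds of large gates. -/
inductive GateKind
  | leaf
  | prod
  | sum

end Pool.Agent.VD
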