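import Pool.Agent.VD.Rk
import Pool.Agent.VD.GK

/-!
# Arithmetic circuits with decomposable products: stability, deterministic circuits with negation

Real functions on the cube, products of gates with disjoint scopes and real linear combinations;
the effect of resetting one place to zero; circuits of `0`-`1`-valued gates with negation gates.
`Cube`, `Dep`, `RkLe`, `Bal` are in `Rk.lean`, `GateKind` is in `GK.lean`.
-/

set_option autoImplicit false

namespace Pool.Agent.VD

/-- An arithmetic circuit with `s` gates over `n` variables. A gate is large if its scope has more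
than `(1 - ε) n` variables and its function is not constant; a small gate (one which is not large)
may be any real function of the variables in its scope. -/
structure Arith (n : ℕ) (ε : ℝ) (W s : ℕ) where
  /-- the kind of a large gate -/
  kind : Fin s → GateKind
  /-- the scope of a gate -/
  S : Fin s → Finset (Fin n)
  /-- the function of a gate -/
  f : Fin s → Cube n → ℝ
  /-- the inputs of a gate -/
  L : Fin s → Finset (Fin s)
  /-- the coefficients of the inputs of the sum gates -/
  w : Fin s → Fin s → ℝ
  /-- the function of a gate depends only on its scope -/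
  dep : ∀ i, Dep (S i) (f i)
  /-- the inputs are earlier gates with smaller scopes -/
  input : ∀ i, ∀ j ∈ L i, j < i ∧ S j ⊆ S i
  /-- a large leaf has real rank at most `W` across some balanced set of variables -/
  leaf : ∀ i, (1 - ε) * n < (S i).card ∧ (∃ x y, f i x ≠ f i y) → kind i = .leaf →
    ∃ A ⊆ S i, Bal ε A ∧ RkLe A W (f i)
  /-- a large product gate is the product of its inputs -/
  prod : ∀ i, (1 - ε) * n < (S i).card ∧ (∃ x y, f i x ≠ f i y) → kind i = .prod →
    ∀ x, f i x = ∏ j ∈ L i, f j x
  /-- the inputs of a large product gate have disjoint scopes -/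
  disj : ∀ i, (1 - ε) * n < (S i).card ∧ (∃ x y, f i x ≠ f i y) → kind i = .prod →
    ∀ j ∈ L i, ∀ k ∈ L i, j ≠ k → Disjoint (S j) (S k)
  /-- a large sum gate is a linear combination of its inputs -/
  sum : ∀ i, (1 - ε) * n < (S i).card ∧ (∃ x y, f i x ≠ f i y) → kind i = .sum →
    ∀ x, f i x = ∑ j ∈ L i, w i j * f j x

namespace Arith

variable {n : ℕ} {ε : ℝ} {W s : ℕ} (P : Arith n ε W s)

/-- The gate `i` is large. -/
def Large (i : Fin s) : Prop := (1 - ε) * n < (P.S i).card ∧ ∃ x y, P.f i x ≠ P.f i y

/-- The size: the number of gates plus the number of inputs of gates. -/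
def size : ℕ := s + ∑ i, (P.L i).card

/-- The places where small functions enter the large part of the circuit: a large leaf or a large
product of small gates `(i, none)`, or a small summand `(i, some j)` of a large sum gate. -/
def Place (p : Fin s × Option (Fin s)) : Prop :=
  P.Large p.1 ∧
  (p.2 = none → P.kind p.1 = .leaf ∨ P.kind p.1 = .prod ∧ ∀ j ∈ P.L p.1, ¬ P.Large j) ∧
  (∀ j, p.2 = some j → P.kind p.1 = .sum ∧ j ∈ P.L p.1 ∧ ¬ P.Large j)

/-- `u` is the computation of the circuit at `x` in which the value at the place `p` is reset to
`0`, and all other large gates are evaluated correctly from the values of their inputs. -/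
def Reset (x : Cube n) (p : Fin s × Option (Fin s)) (u : Fin s → ℝ) : Prop :=
  ∀ i, (p = (i, none) → u i = 0) ∧ (p ≠ (i, none) →
    (¬ P.Large i ∨ P.kind i = .leaf → u i = P.f i x) ∧
    (P.Large i → P.kind i = .prod → u i = ∏ j ∈ P.L i, u j) ∧
    (P.Large i → P.kind i = .sum →
      u i = ∑ j ∈ P.L i, if p = (i, some j) then 0 else P.w i j * u j))

/-- The gate `r` is `K`-stable: a reset of any place changes its value by at most `K` in root mean
square over all points of the cube. -/
def Stable (r : Fin s) (K : ℝ) : Prop :=
  ∀ p, P.Place p → ∃ u : Cube n → Fin s → ℝ, (∀ x, P.Reset x p (u x)) ∧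
    ∑ x, (P.f r x - u x r) ^ 2 ≤ K ^ 2 * 2 ^ n

/-- The large sum gate `i` is the negation `1 - j` of its input `j`: its only other input is a gate
with the constant value `1`. -/
def IsNot (i j : Fin s) : Prop :=
  P.Large i ∧ P.kind i = .sum ∧
    ∃ k, P.L i = {j, k} ∧ (∀ x, P.f k x = 1) ∧ P.w i j = -1 ∧ P.w i k = 1

/-- Deterministic decomposable circuits with negation: all gates have only the values `0` and `1`,
and every large sum gate is the sum of its inputs (so at most one of them is `1`) or the negation
of an input. -/
def IsDD : Prop :=
  (∀ i x, P.f i x = 0 ∨ P.f i x = 1) ∧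
  ∀ i, P.Large i → P.kind i = .sum → (∀ j ∈ P.L i, P.w i j = 1) ∨ ∃ j, P.IsNot i j

/-- On every path of large gates down from `r` there are at most `t` negation gates (with large
inputs): there is a height which decreases at these gates. -/
def Nested (r : Fin s) (t : ℕ) : Prop :=
  ∃ h : Fin s → ℕ, h r ≤ t ∧ ∀ i j, P.Large i → P.Large j → j ∈ P.L i →
    h j ≤ h i ∧ (P.IsNot i j → h j < h i)

/-- Every large gate is an input of at most one large gate. -/
def Tree : Prop :=
  ∀ i k j, P.Large i → P.Large k → P.Large j → j ∈ P.L i → j ∈ P.L k → i = k

open Classical in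
/-- The number of large negation gates. -/
noncomputable def nots : ℕ := (Finset.univ.filter fun i => ∃ j, P.IsNot i j).card

end Arith

end Pool.Agent.VD
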