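import Pool.Agent.VD.ADst

/-!
# VD, arithmetic circuits: final assembly
-/

set_option autoImplicit false

namespace Pool.Agent.VD

open Finset
open scoped Classical

/-- the property of the hard formulas -/
def HardF (ε c : ℝ) (n₀ n : ℕ) (φ : CNF n) : Prop :=
  ∀ (f : Cube n → ℝ), 2 * ∑ x, |f x - if Sat φ x then 1 else 0| ≤ models φ →
    ∀ (N W : ℕ) (B : Fin N → ℝ) (T : Fin N → Cube n → ℝ) (A : Fin N → Finset (Fin n)),
      (∀ i, 0 ≤ B i) → (∀ i, Bal ε (A i)) → (∀ i, ∑ x, T i x ^ 2 ≤ B i ^ 2 * 2 ^ n) →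
      (∀ i, RkLe (A i) W (T i)) → (∀ x, f x = ∑ i, T i x) → n₀ ≤ n →
      (2 : ℝ) ^ (c * n) ≤ W * ∑ i, B i

/-- the bound for stable gates -/
theorem stable_bound {ε c : ℝ} (hε0 : 0 < ε) (hε : ε ≤ 1 / 3) {n₀ n : ℕ} {φ : CNF n}
    (hφ : HardF ε c n₀ n φ) (hn0 : n₀ ≤ n) (hn2 : 2 ≤ n) {W s : ℕ} (P : Arith n ε W s)
    (r : Fin s) (hW : 1 ≤ W)
    (hfar : 2 * ∑ x, |P.f r x - if Sat φ x then 1 else 0| ≤ models φ)
    (K : ℝ) (hK : 1 ≤ K) (hS : P.Stable r K) :
    (2 : ℝ) ^ (c * n) ≤ P.size * W * K := by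
  by_cases hr : P.Large r
  · obtain ⟨T, A, hA, hT, hR, hsum⟩ := P.upper hε0 hε hn2 hW K r hr hS
    have h5 := hφ (P.f r) hfar P.size W (fun _ => K) T A (fun _ => by linarith) hA hT hR hsum
      hn0
    rw [Finset.sum_const, Finset.card_univ, Fintype.card_fin, nsmul_eq_mul] at h5
    calc (2 : ℝ) ^ (c * n) ≤ (W : ℝ) * ((P.size : ℝ) * K) := h5
      _ = P.size * W * K := by ring
  · obtain ⟨A, hA, hR⟩ := P.small_term hε0 hε hn2 hW hr
    have h5 := hφ (fun x => max 0 (min 1 (P.f r x))) (by
        refine le_trans ?_ hfar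
        refine mul_le_mul_of_nonneg_left (Finset.sum_le_sum fun x _ => ?_) (by norm_num)
        by_cases hs : Sat φ x
        · rw [if_pos hs]
          rcases le_total 1 (P.f r x) with h | h
          · rw [min_eq_left h, max_eq_right (by norm_num)]
            simp
          · rw [min_eq_right h]
            rcases le_total 0 (P.f r x) with h' | h'
            · rw [max_eq_right h']
            · rw [max_eq_left h', abs_of_nonpos (by norm_num : (0 : ℝ) - 1 ≤ 0),
                abs_of_nonpos (by linarith)]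
              linarith
        · rw [if_neg hs]
          rcases le_total 1 (P.f r x) with h | h
          · rw [min_eq_left h, max_eq_right (by norm_num),
              abs_of_nonneg (by norm_num : (0 : ℝ) ≤ 1 - 0), abs_of_nonneg (by linarith)]
            linarith
          · rw [min_eq_right h]
            rcases le_total 0 (P.f r x) with h' | h'
            · rw [max_eq_right h']
            · rw [max_eq_left h']
              simp)
      1 W (fun _ => 1) (fun _ x => max 0 (min 1 (P.f r x))) (fun _ => A) (fun _ => by norm_num)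
      (fun _ => hA) (fun _ => by
        refine (Finset.sum_le_card_nsmul _ _ 1 fun x _ => ?_).trans (le_of_eq ?_)
        · refine pow_le_one₀ (le_max_left _ _) (max_le (by norm_num) (min_le_left _ _))
        · rw [Finset.card_univ, Fintype.card_fun, Fintype.card_fin, Fintype.card_bool,
            nsmul_eq_mul]
          push_cast
          ring) (fun _ => hR) (fun x => by simp) hn0
    have hsz : (1 : ℝ) ≤ P.size := by
      have : 1 ≤ P.size := by
        unfold Arith.size
        have := r.pos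
        omega
      exact_mod_cast this
    have hW' : (1 : ℝ) ≤ W := by exact_mod_cast hW
    simp only [Finset.sum_const, Finset.card_univ, Fintype.card_fin, one_smul, mul_one] at h5
    refine h5.trans ?_
    have h6 : (1 : ℝ) ≤ P.size * K := by nlinarith
    nlinarith

/-- **The theorem** (`result`). For every `ε` in `(0, 1 / 3]` there are `c > 0` and `C` such that
for every `n` there is a satisfiable CNF formula `φ` with `n` variables and at most `C n` clauses
of at most `C` literals with the following property. Let the gate `r` of an arithmetic circuit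
approximate `φ` with an error of at most `#φ / 2` in the sum over all points. If `r` is `K`-stable
then `2 ^ (c n) ≤ 2 size W K`. Deterministic decomposable circuits with `m` large negation gates,
at most `t` of them on a path, are `K`-stable for `K = C(m,0) + ... + C(m,t)`, and deterministic
decomposable trees are `1`-stable. -/
def St_AR : Prop :=
  ∀ ε : ℝ, 0 < ε → ε ≤ 1 / 3 →
    (∃ (c : ℝ) (C : ℕ), 0 < c ∧ ∀ n : ℕ, ∃ φ : CNF n,
      φ.length ≤ C * n ∧ (∀ K ∈ φ, K.length ≤ C) ∧ 0 < models φ ∧
      ∀ (W s : ℕ) (P : Arith n ε W s) (r : Fin s) (K : ℝ), 1 ≤ W → 1 ≤ K →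
        2 * ∑ x, |P.f r x - if Sat φ x then 1 else 0| ≤ models φ → P.Stable r K →
        (2 : ℝ) ^ (c * n) ≤ 2 * P.size * W * K) ∧
    ∀ (n W s : ℕ) (P : Arith n ε W s) (r : Fin s), P.IsDD →
      (∀ t : ℕ, P.Nested r t →
        P.Stable r (∑ i ∈ Finset.range (t + 1), P.nots.choose i : ℕ)) ∧
      (P.Tree → P.Stable r 1)

theorem thm_AR : St_AR := by
  intro ε hε0 hε
  refine ⟨?_, fun n W s P r hD => ⟨fun t hN => hD.stable_nested hε r t hN, fun hT =>
    hD.stable_tree hε r hT⟩⟩
  obtain ⟨c, hc, C, n₀, h⟩ := thm_Hard2 ε hε0 hε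
  set m : ℕ := max n₀ 2 with hm
  have hm2 : (2 : ℝ) ≤ m := by
    have : 2 ≤ m := le_max_right _ _
    exact_mod_cast this
  refine ⟨min c (1 / m), C, lt_min hc (by positivity), fun n => ?_⟩
  obtain ⟨φ, h1, h2, h3, -, h4⟩ := h n
  refine ⟨φ, h1, h2, h3, fun W s P r K hW hK hfar hS => ?_⟩
  have hsz : (1 : ℝ) ≤ P.size := by
    have : 1 ≤ P.size := by
      unfold Arith.size
      have := r.pos
      omega
    exact_mod_cast this
  have hW' : (1 : ℝ) ≤ W := by exact_mod_cast hW
  have hprod : (1 : ℝ) ≤ P.size * W * K := by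
    have h5 : (1 : ℝ) ≤ P.size * W := by nlinarith
    nlinarith
  by_cases hn : m ≤ n
  · have hn2 : 2 ≤ n := (le_max_right _ _).trans hn
    have hn0 : n₀ ≤ n := (le_max_left _ _).trans hn
    have h6 : (2 : ℝ) ^ (min c (1 / (m : ℝ)) * n) ≤ (2 : ℝ) ^ (c * n) :=
      Real.rpow_le_rpow_of_exponent_le (by norm_num)
        (mul_le_mul_of_nonneg_right (min_le_left _ _) (Nat.cast_nonneg _))
    refine h6.trans ((stable_bound hε0 hε h4 hn0 hn2 P r hW hfar K hK hS).trans ?_)
    nlinarith
  · have hn' : (n : ℝ) ≤ m := by exact_mod_cast (not_le.1 hn).le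
    have h6 : min c (1 / (m : ℝ)) * n ≤ 1 := by
      have h7 : min c (1 / (m : ℝ)) * n ≤ 1 / m * m :=
        mul_le_mul (min_le_right _ _) hn' (Nat.cast_nonneg _) (by positivity)
      have h8 : 1 / (m : ℝ) * m = 1 := by
        rw [one_div, inv_mul_cancel₀]
        linarith
      linarith
    have h7 : (2 : ℝ) ^ (min c (1 / (m : ℝ)) * n) ≤ (2 : ℝ) ^ (1 : ℝ) :=
      Real.rpow_le_rpow_of_exponent_le (by norm_num) h6
    rw [Real.rpow_one] at h7
    refine h7.trans ?_
    nlinarith

end Pool.Agent.VD
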