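import Pool.Agent.VD.PR
import Pool.Agent.NG.Rel

/-!
# VD, assembly of the separation
-/

set_option autoImplicit false

namespace Pool.Agent.VD

open Finset

theorem card_Vt (m : ℕ) : Fintype.card (Vt m) = 8 * m := by
  simp only [Fintype.card_sum, Fintype.card_prod, Fintype.card_fin]
  ring

section

variable {m : ℕ} (σ : Fin 3 → Equiv.Perm (Fin m))

theorem pe_ne_qe (e : Ed m) : pe e ≠ qe σ e := by
  obtain ⟨t, c, i⟩ := e
  unfold pe qe
  fin_cases t <;> simp

theorem pe_eq_inl {e : Ed m} {i : Fin m} : pe e = Sum.inl (Sum.inl i) ↔ e.1 = 0 ∧ e.2.2 = i := by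
  unfold pe
  by_cases h0 : e.1 = 0
  · simp [h0]
  · by_cases h1 : e.1 = 1
    · simp [h1]
    · simp [h0, h1]

theorem qe_eq_inl {e : Ed m} {i : Fin m} : ¬ qe σ e = Sum.inl (Sum.inl i) := by
  unfold qe
  split_ifs <;> simp

theorem pe_eq_inr {e : Ed m} {i : Fin m} : ¬ pe e = Sum.inl (Sum.inr i) := by
  unfold pe
  split_ifs <;> simp

theorem fin3_two {t : Fin 3} (h0 : ¬ t = 0) (h1 : ¬ t = 1) : t = 2 := by
  revert h0 h1
  fin_cases t <;> decide

theorem qe_eq_inr {e : Ed m} {i : Fin m} :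
    qe σ e = Sum.inl (Sum.inr i) ↔ e.1 = 2 ∧ σ e.2.1 e.2.2 = i := by
  unfold qe
  by_cases h0 : e.1 = 0
  · simp [h0]
  · by_cases h1 : e.1 = 1
    · simp [h1]
    · simp [fin3_two h0 h1]

theorem pe_eq_a {e : Ed m} {w : Fin 3 × Fin m} :
    pe e = Sum.inr (Sum.inl w) ↔ e = (1, w) := by
  unfold pe
  rw [Prod.ext_iff]
  by_cases h0 : e.1 = 0
  · simp [h0]
  · by_cases h1 : e.1 = 1
    · simp [h1]
    · simp [h0, h1]

theorem qe_eq_a {e : Ed m} {w : Fin 3 × Fin m} :
    qe σ e = Sum.inr (Sum.inl w) ↔ e = (0, w) := by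
  unfold qe
  rw [Prod.ext_iff]
  by_cases h0 : e.1 = 0
  · simp [h0]
  · by_cases h1 : e.1 = 1
    · simp [h1]
    · simp [h0, h1]

theorem pe_eq_b {e : Ed m} {w : Fin 3 × Fin m} :
    pe e = Sum.inr (Sum.inr w) ↔ e = (2, w) := by
  unfold pe
  rw [Prod.ext_iff]
  by_cases h0 : e.1 = 0
  · simp [h0]
  · by_cases h1 : e.1 = 1
    · simp [h1]
    · simp [fin3_two h0 h1]

theorem qe_eq_b {e : Ed m} {w : Fin 3 × Fin m} :
    qe σ e = Sum.inr (Sum.inr w) ↔ e = (1, w) := by
  unfold qe
  rw [Prod.ext_iff]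
  by_cases h0 : e.1 = 0
  · simp [h0]
  · by_cases h1 : e.1 = 1
    · simp [h1]
    · simp [h0, h1]

theorem simple_graph {e e' : Ed m} (hne : e ≠ e') :
    ¬ ((pe e' = pe e ∨ pe e' = qe σ e) ∧ (qe σ e' = pe e ∨ qe σ e' = qe σ e)) := by
  rintro ⟨h1, h2⟩
  -- every edge has an inner vertex; two edges with a common inner vertex are neighbours
  rcases hp : pe e' with (i | i) | (w | w)
  · rw [hp] at h1
    have h3 : pe e = Sum.inl (Sum.inl i) := by
      rcases h1 with h | h
      · exact h.symm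
      · exact absurd h.symm (qe_eq_inl σ)
    have h4 := (pe_eq_inl).1 hp
    have h5 := (pe_eq_inl).1 h3
    have h6 : qe σ e' = Sum.inr (Sum.inl e'.2) := (qe_eq_a σ).2 (Prod.ext h4.1 rfl)
    rw [h6] at h2
    rcases h2 with h | h
    · rw [h3] at h
      exact absurd h (by simp)
    · have h7 := (qe_eq_a σ).1 h.symm
      refine hne (Prod.ext (h5.1.trans h4.1.symm) ?_)
      rw [h7]
  · exact absurd hp (pe_eq_inr)
  · have h4 := (pe_eq_a).1 hp
    have h6 : qe σ e' = Sum.inr (Sum.inr w) := by rw [qe_eq_b]; exact h4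
    rw [hp] at h1
    rw [h6] at h2
    rcases h1 with h | h
    · exact hne (((pe_eq_a).1 h.symm).trans h4.symm)
    · have h7 := (qe_eq_a σ).1 h.symm
      rcases h2 with h8 | h8
      · have := (pe_eq_b).1 h8.symm
        rw [h7] at this
        simp at this
      · exact hne (((qe_eq_b σ).1 h8.symm).trans h4.symm)
  · have h4 := (pe_eq_b).1 hp
    rw [hp] at h1
    rcases h1 with h | h
    · exact hne (((pe_eq_b).1 h.symm).trans h4.symm)
    · have h7 := (qe_eq_b σ).1 h.symm
      have h6 : qe σ e' = Sum.inl (Sum.inr (σ w.1 w.2)) := by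
        rw [qe_eq_inr, h4]
        exact ⟨rfl, rfl⟩
      rw [h6] at h2
      rcases h2 with h8 | h8
      · exact pe_eq_inr h8.symm
      · have := ((qe_eq_inr σ).1 h8.symm).1
        rw [h7] at this
        simp at this

theorem degree_le (v : Vt m) : (univ.filter fun e => pe e = v ∨ qe σ e = v).card ≤ 3 := by
  have h3 : (univ : Finset (Fin 3)).card = 3 := by simp
  refine le_trans ?_ h3.le
  rcases v with (i | i) | (w | w)
  · refine card_le_card_of_injOn (fun e => e.2.1) (fun _ _ => mem_univ _) ?_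
    intro e he e' he' h
    rw [coe_filter, Set.mem_ofPred_eq] at he he'
    have h1 := (pe_eq_inl).1 (he.2.resolve_right (qe_eq_inl σ))
    have h2 := (pe_eq_inl).1 (he'.2.resolve_right (qe_eq_inl σ))
    exact Prod.ext (h1.1.trans h2.1.symm) (Prod.ext h (h1.2.trans h2.2.symm))
  · refine card_le_card_of_injOn (fun e => e.2.1) (fun _ _ => mem_univ _) ?_
    intro e he e' he' h
    rw [coe_filter, Set.mem_ofPred_eq] at he he'
    have h1 := (qe_eq_inr σ).1 (he.2.resolve_left pe_eq_inr)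
    have h2 := (qe_eq_inr σ).1 (he'.2.resolve_left pe_eq_inr)
    have h' : e.2.1 = e'.2.1 := h
    refine Prod.ext (h1.1.trans h2.1.symm) (Prod.ext h ?_)
    have h4 := h1.2.trans h2.2.symm
    rw [h'] at h4
    exact (σ e'.2.1).injective h4
  · refine card_le_card_of_injOn (fun e => e.1) (fun _ _ => mem_univ _) ?_
    intro e he e' he' h
    rw [coe_filter, Set.mem_ofPred_eq] at he he'
    have h1 : e.2 = w := by
      rcases he.2 with h | h
      · rw [pe_eq_a.1 h]
      · rw [(qe_eq_a σ).1 h]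
    have h2 : e'.2 = w := by
      rcases he'.2 with h | h
      · rw [pe_eq_a.1 h]
      · rw [(qe_eq_a σ).1 h]
    exact Prod.ext h (h1.trans h2.symm)
  · refine card_le_card_of_injOn (fun e => e.1) (fun _ _ => mem_univ _) ?_
    intro e he e' he' h
    rw [coe_filter, Set.mem_ofPred_eq] at he he'
    have h1 : e.2 = w := by
      rcases he.2 with h | h
      · rw [pe_eq_b.1 h]
      · rw [(qe_eq_b σ).1 h]
    have h2 : e'.2 = w := by
      rcases he'.2 with h | h
      · rw [pe_eq_b.1 h]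
      · rw [(qe_eq_b σ).1 h]
    exact Prod.ext h (h1.trans h2.symm)

end

theorem thm_Sep (hLB : St_LB) (hEX : St_EX) (hFN : St_FN) : St_Sep := by
  classical
  obtain ⟨r, m₁, hE⟩ := hEX
  obtain ⟨c, k₀, hc, hL⟩ := hLB r
  refine ⟨c, max (max m₁ k₀) 2, hc, fun m hm ε hε0 hε => ?_⟩
  have hm1 : m₁ ≤ m := (le_max_left _ _).trans ((le_max_left _ _).trans hm)
  have hmk : k₀ ≤ m := (le_max_right _ _).trans ((le_max_left _ _).trans hm)
  have hm2 : 2 ≤ m := (le_max_right _ _).trans hm
  obtain ⟨σ, hσ⟩ := hE m hm1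
  obtain ⟨sc, g, h1, h2, h3, h4, h5, h6, h7⟩ := hFN m σ (by omega)
  let e : Vt m ≃ Fin (8 * m) := Fintype.equivFinOfCardEq (card_Vt m)
  have hcomp : ∀ x : Vt m → Bool, (fun v => x (e.symm (e v))) = x := fun x => by
    funext v
    rw [Equiv.symm_apply_apply]
  obtain ⟨P, o, hV, hsz, hsm, hf⟩ := thm_PR (8 * m) (3 * m) m ε hε0 (by omega) (by omega)
    (fun k i => (sc k i).map e.toEmbedding) (fun k i x => g k i fun v => x (e v))
    (fun k i x y hxy => h1 k i _ _ fun v hv => hxy (e v) (mem_map.2 ⟨v, hv, rfl⟩))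
    (fun k i => by
      rw [card_map]
      have h8 : ((sc k i).card : ℝ) ≤ 8 := by exact_mod_cast h2 k i
      have h9 : (2 : ℝ) ≤ m := by exact_mod_cast hm2
      push_cast
      nlinarith)
    (fun k i i' hne => (disjoint_map _).2 (h3 k i i' hne))
    (fun x k k' => h4 _ k k')
    (fun k => by
      obtain ⟨x, hx⟩ := h5 k
      refine ⟨fun w => x (e.symm w), fun i => ?_⟩
      simp only [hcomp x]
      exact hx i)
    (by
      obtain ⟨x, hx⟩ := h6
      refine ⟨fun w => x (e.symm w), fun k => ?_⟩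
      simp only [hcomp x]
      exact hx k)
  refine ⟨_, P, o, hV, ?_, fun j hj => ?_, fun G hG hleaf hev => ?_⟩
  · rw [hsz]
    nlinarith
  · obtain ⟨k, i, hki⟩ := hsm j hj
    rw [hki, card_map]
    exact h2 k i
  · have h8 := hL (Vt m) (Ed m) pe (qe σ) Prod.fst (by rw [card_Vt]; omega) (pe_ne_qe σ)
      (fun a b hab => simple_graph σ hab) (degree_le σ)
      (fun S hS1 hS2 => by
        rw [card_Vt] at hS1 hS2 ⊢
        exact hσ S hS1 (by omega))
      (G.rel e.symm fun _ => none) (NG.Circuit.rel_isDNNF hG _ _)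
      (fun i hi T' f' hf' => by
        obtain ⟨T, f, hT, rfl, -⟩ := NG.Circuit.rel_gate_leaf hf'
        rw [card_map, card_Vt]
        exact hleaf i hi T f hT)
      (fun x => by
        rw [NG.Circuit.rel_eval, hev, ← h7 x, hf]
        have : (fun v => (fun w => (none : Option Bool).getD (x (e.symm w))) (e v)) = x :=
          hcomp x
        simp only [Option.getD_none] at this ⊢
        rw [this])
    rw [card_Vt] at h8
    exact h8

end Pool.Agent.VD
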