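import Pool.Agent.VD.St

/-!
# VD, balanced unions of blocks, and functions of small rank
-/

set_option autoImplicit false

namespace Pool.Agent.VD

open Finset
open scoped Classical

/-- a balanced set which does not cut any of the given disjoint blocks -/
theorem exists_bal {n : ℕ} {ε : ℝ} (hε0 : 0 < ε) (hε : ε ≤ 1 / 3) (hn : 2 ≤ n) {ι : Type}
    (S : Finset (Fin n)) (hS : (1 - ε) * n < S.card) (t : Finset ι) (T : ι → Finset (Fin n))
    (hT : ∀ k ∈ t, T k ⊆ S) (hc : ∀ k ∈ t, ((T k).card : ℝ) ≤ (1 - ε) * n)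
    (hd : ∀ k ∈ t, ∀ k' ∈ t, k ≠ k' → Disjoint (T k) (T k')) :
    ∃ A ⊆ S, Bal ε A ∧ ∀ k ∈ t, T k ⊆ A ∨ Disjoint (T k) A := by
  have hn' : (2 : ℝ) ≤ n := by exact_mod_cast hn
  set Q := S.powerset.filter fun A => (A.card : ℝ) ≤ (1 - ε) * n ∧
    ∀ k ∈ t, T k ⊆ A ∨ Disjoint (T k) A with hQ
  have hne : Q.Nonempty := by
    refine ⟨∅, ?_⟩
    rw [hQ, Finset.mem_filter]
    refine ⟨Finset.mem_powerset.2 (Finset.empty_subset _), ?_, fun k _ => Or.inr ?_⟩
    · rw [Finset.card_empty, Nat.cast_zero]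
      nlinarith
    · exact Finset.disjoint_empty_right _
  obtain ⟨A, hA, hmax⟩ := Finset.exists_max_image Q Finset.card hne
  rw [hQ, Finset.mem_filter, Finset.mem_powerset] at hA
  obtain ⟨hAS, hA1, hA2⟩ := hA
  refine ⟨A, hAS, ⟨?_, hA1⟩, hA2⟩
  by_contra hlt
  rw [not_le] at hlt
  have h1 : A.card < S.card := by
    have : (A.card : ℝ) < S.card := by nlinarith
    exact_mod_cast this
  obtain ⟨v, hvS, hvA⟩ := Finset.exists_mem_notMem_of_card_lt_card h1
  obtain ⟨b, hvb, hbS, hb1, hbA, hb2⟩ : ∃ b : Finset (Fin n), v ∈ b ∧ b ⊆ S ∧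
      (b.card : ℝ) ≤ (1 - ε) * n ∧ Disjoint b A ∧ ∀ k ∈ t, T k ⊆ b ∨ Disjoint (T k) b := by
    by_cases hex : ∃ k ∈ t, v ∈ T k
    · obtain ⟨k, hk, hv⟩ := hex
      refine ⟨T k, hv, hT k hk, hc k hk, ?_, fun k' hk' => ?_⟩
      · exact (hA2 k hk).resolve_left fun h => hvA (h hv)
      · by_cases he : k' = k
        · left
          rw [he]
        · right
          exact hd k' hk' k hk he
    · push Not at hex
      refine ⟨{v}, Finset.mem_singleton_self v, Finset.singleton_subset_iff.2 hvS, ?_, ?_,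
        fun k hk => Or.inr ?_⟩
      · rw [Finset.card_singleton, Nat.cast_one]
        nlinarith
      · exact Finset.disjoint_singleton_left.2 hvA
      · exact Finset.disjoint_singleton_right.2 (hex k hk)
  by_cases hb : ε * n ≤ b.card
  · have h2 : b ∈ Q := by
      rw [hQ, Finset.mem_filter, Finset.mem_powerset]
      exact ⟨hbS, hb1, hb2⟩
    have h3 : (b.card : ℝ) ≤ A.card := by exact_mod_cast hmax b h2
    linarith
  · rw [not_le] at hb
    have h2 : (A ∪ b).card = A.card + b.card := Finset.card_union_of_disjoint hbA.symm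
    have h3 : A ∪ b ∈ Q := by
      rw [hQ, Finset.mem_filter, Finset.mem_powerset]
      refine ⟨Finset.union_subset hAS hbS, ?_, fun k hk => ?_⟩
      · rw [h2]
        push_cast
        nlinarith
      · rcases hA2 k hk with h | h
        · exact Or.inl (h.trans Finset.subset_union_left)
        · rcases hb2 k hk with h' | h'
          · exact Or.inl (h'.trans Finset.subset_union_right)
          · exact Or.inr (Finset.disjoint_union_right.2 ⟨h, h'⟩)
    have h4 := hmax _ h3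
    have h5 : 0 < b.card := Finset.card_pos.2 ⟨v, hvb⟩
    omega

/-- a balanced subset of a large set -/
theorem exists_bal' {n : ℕ} {ε : ℝ} (hε0 : 0 < ε) (hε : ε ≤ 1 / 3) (hn : 2 ≤ n)
    (S : Finset (Fin n)) (hS : (1 - ε) * n < S.card) : ∃ A ⊆ S, Bal ε A := by
  obtain ⟨A, h1, h2, -⟩ := exists_bal hε0 hε hn S hS (∅ : Finset Unit) (fun _ => ∅)
    (by simp) (by simp) (by simp)
  exact ⟨A, h1, h2⟩

theorem RkLe.mono {n : ℕ} {A : Finset (Fin n)} {V W : ℕ} {g : Cube n → ℝ} (h : RkLe A V g)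
    (hVW : V ≤ W) : RkLe A W g := by
  obtain ⟨a, b, ha, hb, hg⟩ := h
  refine ⟨fun k => if h : (k : ℕ) < V then a ⟨k, h⟩ else 0,
    fun k => if h : (k : ℕ) < V then b ⟨k, h⟩ else 0, fun k => ?_, fun k => ?_, fun x => ?_⟩
  · by_cases h : (k : ℕ) < V
    · simp only [h, dif_pos]
      exact ha _
    · simp only [h, dif_neg, not_false_eq_true]
      exact fun _ _ _ => rfl
  · by_cases h : (k : ℕ) < V
    · simp only [h, dif_pos]
      exact hb _
    · simp only [h, dif_neg, not_false_eq_true]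
      exact fun _ _ _ => rfl
  · rw [hg x]
    obtain ⟨m, rfl⟩ := Nat.exists_eq_add_of_le hVW
    rw [Fin.sum_univ_add]
    simp

/-- multiplication by a function of the other variables -/
theorem RkLe.mul_dep {n : ℕ} {A : Finset (Fin n)} {W : ℕ} {g d : Cube n → ℝ} (h : RkLe A W g)
    (hd : Dep Aᶜ d) : RkLe A W fun x => d x * g x := by
  obtain ⟨a, b, ha, hb, hg⟩ := h
  refine ⟨a, fun k x => d x * b k x, ha, fun k x y hxy => ?_, fun x => ?_⟩
  · simp only
    rw [hd x y hxy, hb k x y hxy]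
  · change d x * g x = ∑ k, a k x * (d x * b k x)
    rw [hg x, Finset.mul_sum]
    refine Finset.sum_congr rfl fun k _ => ?_
    ring

theorem RkLe.one_of {n : ℕ} {A : Finset (Fin n)} {W : ℕ} (hW : 1 ≤ W) {g a b : Cube n → ℝ}
    (ha : Dep A a) (hb : Dep Aᶜ b) (h : ∀ x, g x = a x * b x) : RkLe A W g := by
  refine RkLe.mono (V := 1) ⟨fun _ => a, fun _ => b, fun _ => ha, fun _ => hb, fun x => ?_⟩ hW
  rw [h x]
  simp

end Pool.Agent.VD
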