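import Pool.Agent.VD.Flt

/-!
# VD, chains of critical gates bound the derivatives
-/

set_option autoImplicit false

namespace Pool.Agent.VD

open Finset Matrix
open scoped Classical

namespace Prog

variable {n : ℕ} {ε : ℝ} {W s : ℕ} (P : Prog n ε W s)

theorem lv_F (x : Cube n) (l : Fin s × Bool) : lv (P.F x) l = 0 ∨ lv (P.F x) l = 1 := by
  rw [P.F_eq, lv_rv]
  by_cases h : P.f l.1 x = l.2
  · right; rw [if_pos h]
  · left; rw [if_neg h]

theorem abs_lv_F (x : Cube n) (l : Fin s × Bool) : |lv (P.F x) l| ≤ 1 := by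
  rcases P.lv_F x l with h | h <;> rw [h] <;> simp

theorem abs_prod_le {ι : Type} (t : Finset ι) (g : ι → ℝ) (h : ∀ l ∈ t, |g l| ≤ 1) :
    |∏ l ∈ t, g l| ≤ 1 := by
  rw [Finset.abs_prod]
  exact Finset.prod_le_one (fun l _ => abs_nonneg _) h

theorem abs_sg (b : Bool) : |sg b| = 1 := by
  unfold sg
  cases b <;> simp

theorem abs_wt (x : Cube n) (i : Fin s) (l : Fin s × Bool) : |P.wt x i l| ≤ 1 := by
  unfold wt
  rcases P.kind i with _ | _ | _
  · simp
  · simp only
    rw [abs_mul, abs_sg, one_mul]
    exact abs_prod_le _ _ fun l' _ => P.abs_lv_F x l'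
  · simp only
    rw [abs_sg]

theorem abs_M (x : Cube n) (i j : Fin s) :
    |P.M x i j| ≤ ∑ b : Bool, if (j, b) ∈ P.L i then 1 else 0 := by
  have h0 : (0 : ℝ) ≤ ∑ b : Bool, if (j, b) ∈ P.L i then (1 : ℝ) else 0 :=
    Finset.sum_nonneg fun b _ => by split <;> norm_num
  unfold M
  by_cases h : P.Large i ∧ P.Large j
  · rw [if_pos h]
    refine (Finset.abs_sum_le_sum_abs _ _).trans ?_
    have e : ∑ b : Bool, (if (j, b) ∈ P.L i then (1 : ℝ) else 0) =
        ∑ l ∈ P.L i, if l.1 = j then (1 : ℝ) else 0 := by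
      have e1 : ∑ l ∈ P.L i, (if l.1 = j then (1 : ℝ) else 0) =
          ∑ l : Fin s × Bool, if l ∈ P.L i then (if l.1 = j then (1 : ℝ) else 0) else 0 := by
        rw [Finset.sum_ite_mem, Finset.univ_inter]
      rw [e1, Fintype.sum_prod_type]
      rw [Finset.sum_eq_single j]
      · simp
      · intro a _ ha
        refine Finset.sum_eq_zero fun b _ => ?_
        simp [ha]
      · intro h1
        exact absurd (Finset.mem_univ j) h1
    rw [e]
    refine Finset.sum_le_sum fun l _ => ?_
    by_cases h1 : l.1 = j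
    · rw [if_pos h1, if_pos h1]
      exact P.abs_wt x i l
    · rw [if_neg h1, if_neg h1, abs_zero]
  · rw [if_neg h, abs_zero]
    exact h0

theorem sum_abs_M (x : Cube n) (j : Fin s) : ∑ i, |P.M x i j| ≤ P.fanout j := by
  refine (Finset.sum_le_sum fun i _ => P.abs_M x i j).trans ?_
  unfold fanout
  rw [Finset.card_filter]
  push_cast
  rw [Fintype.sum_prod_type]

/-- chains bound the derivatives -/
theorem chain_bound (hε : ε ≤ 1 / 3) (hn : 1 ≤ n) (x : Cube n) (r j : Fin s) (hj : P.Large j) :
    ∃ c : List (Fin s), P.IsChain c ∧ (c = [] ∨ ∃ t, c = j :: t) ∧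
      |P.D x r j| ≤ ((c.map P.fanout).prod : ℕ) := by
  induction j using WellFoundedGT.induction with
  | ind j ih =>
    have hnil : P.IsChain [] := ⟨fun k hk => by simp at hk, List.isChain_nil⟩
    by_cases hc : P.Critical j
    · by_cases hr : r = j
      · refine ⟨[], hnil, Or.inl rfl, ?_⟩
        rw [hr, P.D_diag]
        simp
      · set Q := Finset.univ.filter fun i => P.M x i j ≠ 0 with hQ
        have hD : P.D x r j = ∑ i ∈ Q, P.D x r i * P.M x i j := by
          rw [P.D_bwd, if_neg hr, zero_add, hQ, Finset.sum_filter]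
          refine Finset.sum_congr rfl fun i _ => ?_
          by_cases h0 : P.M x i j = 0
          · rw [h0, mul_zero, if_neg (fun h => h rfl)]
          · rw [if_pos h0]
        rcases Q.eq_empty_or_nonempty with hE | hNE
        · refine ⟨[], hnil, Or.inl rfl, ?_⟩
          rw [hD, hE]
          simp
        · obtain ⟨i₀, hi₀, hmax⟩ := Finset.exists_max_image Q (fun i => |P.D x r i|) hNE
          rw [hQ, Finset.mem_filter] at hi₀
          obtain ⟨hL, -, b, hb⟩ := P.M_ne x hi₀.2
          obtain ⟨c, hc1, hc2, hc3⟩ := ih i₀ (P.M_lt x hi₀.2).1 hL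
          refine ⟨j :: c, ⟨?_, ?_⟩, Or.inr ⟨c, rfl⟩, ?_⟩
          · intro k hk
            rcases List.mem_cons.1 hk with h | h
            · rw [h]
              exact hc
            · exact hc1.1 k h
          · rcases hc2 with h | ⟨t, h⟩
            · rw [h]
              exact List.isChain_singleton _
            · have h1 := hc1.2
              rw [h] at h1 ⊢
              exact List.isChain_cons_cons.2 ⟨⟨b, hb⟩, h1⟩
          · rw [List.map_cons, List.prod_cons, Nat.cast_mul, hD]
            calc |∑ i ∈ Q, P.D x r i * P.M x i j|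
                ≤ ∑ i ∈ Q, |P.D x r i * P.M x i j| := Finset.abs_sum_le_sum_abs _ _
              _ ≤ ∑ i ∈ Q, |P.D x r i₀| * |P.M x i j| := by
                  refine Finset.sum_le_sum fun i hi => ?_
                  rw [abs_mul]
                  exact mul_le_mul_of_nonneg_right (hmax i hi) (abs_nonneg _)
              _ = |P.D x r i₀| * ∑ i ∈ Q, |P.M x i j| := by rw [Finset.mul_sum]
              _ ≤ |P.D x r i₀| * P.fanout j := by
                  refine mul_le_mul_of_nonneg_left ?_ (abs_nonneg _)
                  refine le_trans ?_ (P.sum_abs_M x j)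
                  exact Finset.sum_le_sum_of_subset_of_nonneg (Finset.subset_univ _)
                    fun i _ _ => abs_nonneg _
              _ ≤ (((c.map P.fanout).prod : ℕ) : ℝ) * P.fanout j :=
                  mul_le_mul_of_nonneg_right hc3 (Nat.cast_nonneg _)
              _ = _ := mul_comm _ _
    · refine ⟨[], hnil, Or.inl rfl, ?_⟩
      have := P.abs_D_le_one hε hn hj hc x r
      simpa using this

theorem abs_D_le (hε : ε ≤ 1 / 3) (hn : 1 ≤ n) {B : ℕ}
    (hB : ∀ c, P.IsChain c → (c.map P.fanout).prod ≤ B) (x : Cube n) (r j : Fin s)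
    (hj : P.Large j) : |P.D x r j| ≤ B := by
  obtain ⟨c, hc, -, h⟩ := P.chain_bound hε hn x r j hj
  exact h.trans (by exact_mod_cast hB c hc)

end Prog

end Pool.Agent.VD
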