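import Pool.Agent.VD.Disc

/-!
# VD / Cnf: parity constraints on groups of edges, as CNF formulas
-/

set_option autoImplicit false

namespace Pool.Agent.VD

open Finset

variable {n : ℕ}

/-- the CNF formula of a predicate of few variables -/
theorem cnf_local (T : Finset (Fin n)) (P : Cube n → Prop)
    (hP : ∀ x y, (∀ i ∈ T, x i = y i) → (P x ↔ P y)) :
    ∃ φ : CNF n, φ.length ≤ 2 ^ T.card ∧ (∀ K ∈ φ, K.length ≤ T.card) ∧ ∀ x, Sat φ x ↔ P x := by
  classical
  let S : Finset (Finset (Fin n)) := T.powerset.filter fun U => ¬ P fun i => decide (i ∈ U)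
  refine ⟨S.toList.map fun U => T.toList.map fun v => (v, decide (v ∉ U)), ?_, ?_, ?_⟩
  · rw [List.length_map, length_toList, ← card_powerset]
    exact card_le_card (filter_subset _ _)
  · intro K hK
    obtain ⟨U, -, rfl⟩ := List.mem_map.1 hK
    rw [List.length_map, length_toList]
  · intro x
    have hx : P x ↔ P fun i => decide (i ∈ T.filter fun j => x j = true) := by
      refine hP _ _ fun i hi => ?_
      by_cases h : x i = true
      · simp [h, hi]
      · simp only [Bool.not_eq_true] at h
        simp [h]
    constructor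
    · intro h
      by_contra hPx
      rw [hx] at hPx
      obtain ⟨l, hl, hxl⟩ := h _ (List.mem_map.2 ⟨T.filter fun j => x j = true,
        mem_toList.2 (mem_filter.2 ⟨mem_powerset.2 (filter_subset _ _), hPx⟩), rfl⟩)
      obtain ⟨v, hv, rfl⟩ := List.mem_map.1 hl
      rw [mem_toList] at hv
      simp only [mem_filter, hv, true_and] at hxl
      cases hxv : x v
      · rw [hxv] at hxl; simp at hxl
      · rw [hxv] at hxl; simp at hxl
    · intro hPx K hK
      obtain ⟨U, hU, rfl⟩ := List.mem_map.1 hK
      rw [mem_toList, mem_filter, mem_powerset] at hU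
      by_contra hcon
      apply hU.2
      refine (hP _ _ fun i hi => ?_).1 hPx
      by_contra hne
      apply hcon
      refine ⟨(i, decide (i ∉ U)), List.mem_map.2 ⟨i, mem_toList.2 hi, rfl⟩, ?_⟩
      show x i = decide (i ∉ U)
      by_cases h : i ∈ U
      · cases hxi : x i
        · simp [h]
        · rw [hxi] at hne; simp [h] at hne
      · cases hxi : x i
        · rw [hxi] at hne; simp [h] at hne
        · simp [h]

/-- groups of at most `D` elements -/
theorem cnf_groups {α : Type} [DecidableEq α] (E : Finset α) (D : ℕ) (hD : 0 < D) :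
    ∃ g : α → Fin (E.card / D + 1), ∀ r, (E.filter fun e => g e = r).card ≤ D := by
  classical
  have hlt : ∀ k : ℕ, k < E.card → k / D < E.card / D + 1 := by
    intro k hk
    exact Nat.lt_succ_of_le (Nat.div_le_div_right hk.le)
  refine ⟨fun e => if h : e ∈ E then ⟨(E.equivFin ⟨e, h⟩).1 / D, hlt _ (E.equivFin ⟨e, h⟩).2⟩
    else 0, fun r => ?_⟩
  refine (card_le_card_of_injOn (t := Finset.Ico (r.1 * D) (r.1 * D + D))
    (fun e => if h : e ∈ E then (E.equivFin ⟨e, h⟩).1 else 0) ?_ ?_).trans_eq (by
      rw [Nat.card_Ico]; omega)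
  · intro e he
    rw [mem_coe, mem_filter] at he
    obtain ⟨h1, h2⟩ := he
    simp only [dif_pos h1] at h2
    have h3 := congrArg Fin.val h2
    simp only at h3
    rw [mem_coe, Finset.mem_Ico]
    simp only [dif_pos h1]
    have h4 := Nat.div_add_mod (E.equivFin ⟨e, h1⟩).1 D
    have h5 := Nat.mod_lt (E.equivFin ⟨e, h1⟩).1 hD
    rw [h3] at h4
    rw [Nat.mul_comm r.1 D]
    omega
  · intro e he e' he' hee
    rw [mem_coe, mem_filter] at he he'
    simp only [dif_pos he.1, dif_pos he'.1] at hee
    have h1 := E.equivFin.injective (Fin.ext hee)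
    exact congrArg Subtype.val h1

theorem chi_mul_self_or (b : Bool) : chi b = 1 ∨ chi b = -1 := by
  cases b <;> simp [chi]

theorem prod_chi_or {α : Type} (s : Finset α) (f : α → Bool) :
    ∏ e ∈ s, chi (f e) = 1 ∨ ∏ e ∈ s, chi (f e) = -1 := by
  classical
  induction s using Finset.induction_on with
  | empty => left; simp
  | insert a s ha ih =>
      rw [prod_insert ha]
      rcases chi_mul_self_or (f a) with h | h <;> rcases ih with h' | h' <;> rw [h, h'] <;> norm_num

/-- **the formulas** -/
theorem thm_Cnf (E : Finset (Fin n × Fin n)) (D : ℕ) (hD : 0 < D) :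
    ∃ φ : CNF n, φ.length ≤ (E.card / D + 1) * 2 ^ (2 * D) ∧ (∀ K ∈ φ, K.length ≤ 2 * D) ∧
      2 ^ n ≤ 2 ^ (E.card / D + 1) * models φ ∧
      ∃ ω : ℝ, |ω| = 1 ∧ ∀ x, Sat φ x → sgn E x = ω := by
  classical
  obtain ⟨g, hg⟩ := cnf_groups E D hD
  let par : Cube n → Fin (E.card / D + 1) → ℝ := fun x r =>
    ∏ e ∈ E.filter (fun e => g e = r), chi (x e.1 && x e.2)
  have hpar : ∀ x r, par x r = 1 ∨ par x r = -1 := fun x r =>
    prod_chi_or _ fun e : Fin n × Fin n => x e.1 && x e.2
  let val : Cube n → Fin (E.card / D + 1) → Bool := fun x r => decide (par x r = -1)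
  have hval : ∀ x r, par x r = chi (val x r) := by
    intro x r
    rcases hpar x r with h | h
    · have : val x r = false := by
        show decide (par x r = -1) = false
        rw [h]; norm_num
      rw [this, h]; rfl
    · have : val x r = true := by
        show decide (par x r = -1) = true
        rw [h]; norm_num
      rw [this, h]; rfl
  -- pigeonhole
  obtain ⟨b, -, hb⟩ := Finset.exists_max_image (univ : Finset (Fin (E.card / D + 1) → Bool))
    (fun b => (univ.filter fun x : Cube n => val x = b).card) univ_nonempty
  have hpig := card_le_mul_card_image_of_maps_to (s := (univ : Finset (Cube n)))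
    (t := (univ : Finset (Fin (E.card / D + 1) → Bool))) (f := val) (fun _ _ => mem_univ _)
    (univ.filter fun x : Cube n => val x = b).card (fun b' _ => hb b' (mem_univ _))
  rw [card_univ, card_univ, Fintype.card_fun, Fintype.card_fun, Fintype.card_fin,
    Fintype.card_bool, Fintype.card_fin] at hpig
  -- the formula
  have hloc : ∀ r : Fin (E.card / D + 1), ∃ φ : CNF n, φ.length ≤ 2 ^ (2 * D) ∧
      (∀ K ∈ φ, K.length ≤ 2 * D) ∧ ∀ x, Sat φ x ↔ val x r = b r := by
    intro r
    let T : Finset (Fin n) := (E.filter fun e => g e = r).image Prod.fst ∪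
      (E.filter fun e => g e = r).image Prod.snd
    have hT : T.card ≤ 2 * D := by
      have h1 := card_union_le ((E.filter fun e => g e = r).image Prod.fst)
        ((E.filter fun e => g e = r).image Prod.snd)
      have h2 := card_image_le (s := E.filter fun e => g e = r) (f := Prod.fst)
      have h3 := card_image_le (s := E.filter fun e => g e = r) (f := Prod.snd)
      have h4 := hg r
      have h5 : T.card ≤ _ := h1
      omega
    obtain ⟨φ, h1, h2, h3⟩ := cnf_local T (fun x => val x r = b r) (by
      intro x y hxy
      have : val x r = val y r := by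
        show decide (par x r = -1) = decide (par y r = -1)
        have : par x r = par y r := by
          refine Finset.prod_congr rfl fun e he => ?_
          rw [hxy e.1 (mem_union_left _ (mem_image_of_mem _ he)),
            hxy e.2 (mem_union_right _ (mem_image_of_mem _ he))]
        rw [this]
      rw [this])
    exact ⟨φ, h1.trans (Nat.pow_le_pow_right (by norm_num) hT), fun K hK => (h2 K hK).trans hT, h3⟩
  choose φ h1 h2 h3 using hloc
  have hsat : ∀ x, Sat ((List.finRange (E.card / D + 1)).flatMap φ) x ↔ val x = b := by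
    intro x
    constructor
    · intro h
      funext r
      refine (h3 r x).1 fun K hK => h K (List.mem_flatMap.2 ⟨r, List.mem_finRange r, hK⟩)
    · intro h K hK
      obtain ⟨r, -, hr⟩ := List.mem_flatMap.1 hK
      exact (h3 r x).2 (congrFun h r) K hr
  refine ⟨(List.finRange (E.card / D + 1)).flatMap φ, ?_, ?_, ?_, ∏ r, chi (b r), ?_, ?_⟩
  · rw [List.length_flatMap]
    have h4 := List.sum_le_card_nsmul ((List.finRange (E.card / D + 1)).map fun r =>
      (φ r).length) (2 ^ (2 * D)) (by
        intro k hk
        obtain ⟨r, -, rfl⟩ := List.mem_map.1 hk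
        exact h1 r)
    rw [List.length_map, List.length_finRange, smul_eq_mul] at h4
    exact h4
  · intro K hK
    obtain ⟨r, -, hr⟩ := List.mem_flatMap.1 hK
    exact h2 r K hr
  · have h4 : models ((List.finRange (E.card / D + 1)).flatMap φ) =
        (univ.filter fun x : Cube n => val x = b).card := by
      unfold models
      congr 1
      ext x
      simp only [mem_filter, mem_univ, true_and]
      exact hsat x
    rw [h4, Nat.mul_comm]
    exact hpig
  · rw [Finset.abs_prod]
    exact Finset.prod_eq_one fun r _ => abs_chi _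
  · intro x hx
    have h4 := (hsat x).1 hx
    unfold sgn
    rw [← Finset.prod_fiberwise_of_maps_to (s := E) (t := univ) (g := g) (fun _ _ => mem_univ _)]
    refine Finset.prod_congr rfl fun r _ => ?_
    rw [← h4]
    exact hval x r

end Pool.Agent.VD
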