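import Pool.Agent.VD.Rk

/-!
# Deterministic decomposable circuits with negation: definitions

Programs with decomposable products, deterministic sums and free negation of inputs; single faults
and critical gates; visible determinism. `Cube`, `RkLe` and `Bal` are in `Rk.lean`.
-/

set_option autoImplicit false

namespace Pool.Agent.VD

/-- The three kinds of large gates. -/
inductive Kind
  | leaf
  | prod
  | sum

/-- A program with `s` gates over `n` variables. A literal `(j, b)` stands for the gate `j` if
`b = true` and for the negation of the gate `j` if `b = false`. A gate is large if its scope has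
more than `(1 - ε) n` variables; a small gate may be any function of the variables in its scope. -/
structure Prog (n : ℕ) (ε : ℝ) (W s : ℕ) where
  /-- the kind of a large gate -/
  kind : Fin s → Kind
  /-- the scope of a gate -/
  S : Fin s → Finset (Fin n)
  /-- the function of a gate -/
  f : Fin s → Cube n → Bool
  /-- the inputs of a gate: a set of literals -/
  L : Fin s → Finset (Fin s × Bool)
  /-- the function of a gate depends only on its scope -/
  dep : ∀ i x y, (∀ v ∈ S i, x v = y v) → f i x = f i y
  /-- the inputs are earlier gates with smaller scopes, or their negations -/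
  input : ∀ i, ∀ l ∈ L i, l.1 < i ∧ S l.1 ⊆ S i
  /-- a large leaf has real rank at most `W` across some balanced set of variables -/
  leaf : ∀ i, (1 - ε) * n < (S i).card → kind i = .leaf →
    ∃ A ⊆ S i, Bal ε A ∧ RkLe A W fun x => if f i x then 1 else 0
  /-- a large product gate is the conjunction of its inputs -/
  prod : ∀ i, (1 - ε) * n < (S i).card → kind i = .prod →
    ∀ x, f i x = true ↔ ∀ l ∈ L i, f l.1 x = l.2
  /-- the inputs of a large product gate have disjoint scopes -/
  disj : ∀ i, (1 - ε) * n < (S i).card → kind i = .prod →
    ∀ l ∈ L i, ∀ l' ∈ L i, l ≠ l' → Disjoint (S l.1) (S l'.1)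
  /-- a large sum gate is the disjunction of its inputs -/
  sum : ∀ i, (1 - ε) * n < (S i).card → kind i = .sum →
    ∀ x, f i x = true ↔ ∃ l ∈ L i, f l.1 x = l.2
  /-- at most one input of a large sum gate is true -/
  det : ∀ i, (1 - ε) * n < (S i).card → kind i = .sum →
    ∀ x, ∀ l ∈ L i, ∀ l' ∈ L i, f l.1 x = l.2 → f l'.1 x = l'.2 → l = l'

namespace Prog

variable {n : ℕ} {ε : ℝ} {W s : ℕ} (P : Prog n ε W s)

/-- The gate `i` is large: its scope has more than `(1 - ε) n` variables. -/
def Large (i : Fin s) : Prop := (1 - ε) * n < (P.S i).card

/-- The size: the number of gates plus the number of inputs of gates. -/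
def size : ℕ := s + ∑ i, (P.L i).card

/-- The gate `j` or its negation is an input of `i`. -/
def Input (j i : Fin s) : Prop := ∃ b, (j, b) ∈ P.L i

/-- The number of occurrences of `j` and of its negation as inputs. -/
def fanout (j : Fin s) : ℕ :=
  (Finset.univ.filter fun p : Fin s × Bool => (j, p.2) ∈ P.L p.1).card

/-- Under the valuation `u` of the gates at most one input of the gate `i` is true. -/
def Excl (u : Fin s → Bool) (i : Fin s) : Prop :=
  ∀ l ∈ P.L i, ∀ l' ∈ P.L i, u l.1 = l.2 → u l'.1 = l'.2 → l = l'

/-- `u` is the computation of the program at `x` with a single fault: the value of the gate `j` is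
wrong, and all other gates are evaluated correctly from the values of their inputs. -/
def Fault (x : Cube n) (j : Fin s) (u : Fin s → Bool) : Prop :=
  u j ≠ P.f j x ∧ ∀ i ≠ j,
    (¬ P.Large i ∨ P.kind i = .leaf → u i = P.f i x) ∧
    (P.Large i → P.kind i = .prod → (u i = true ↔ ∀ l ∈ P.L i, u l.1 = l.2)) ∧
    (P.Large i → P.kind i = .sum → (u i = true ↔ ∃ l ∈ P.L i, u l.1 = l.2))

/-- A large gate `j` is critical if no kind of fault at `j` is always harmless: for every `x₀`
there is an `x` at which `j` and its inputs have the same values as at `x₀`, such that the fault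
at `j` makes two inputs of some large sum gate true. -/
def Critical (j : Fin s) : Prop :=
  P.Large j ∧ ∀ x₀, ∃ x, P.f j x = P.f j x₀ ∧ (∀ l ∈ P.L j, P.f l.1 x = P.f l.1 x₀) ∧
    ∃ u, P.Fault x j u ∧ ∃ i, P.Large i ∧ P.kind i = .sum ∧ ¬ P.Excl u i

/-- A chain of critical gates, each (or its negation) an input of the next. -/
def IsChain (c : List (Fin s)) : Prop := (∀ j ∈ c, P.Critical j) ∧ List.IsChain P.Input c

/-- Visible determinism: no large gate is constant, and the determinism of every large sum gate `i`
follows from the binary defining clauses of the large gates (`j → l` for products, `l → j` for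
sums, `l` an input of `j`), the values of the small gates and the determinism of the earlier
large sum gates. -/
def Visible : Prop :=
  (∀ i, P.Large i → ∀ b, ∃ x, P.f i x = b) ∧
  ∀ i, P.Large i → P.kind i = .sum → ∀ (x : Cube n) (u : Fin s → Bool),
    (∀ j, ¬ P.Large j → u j = P.f j x) →
    (∀ j, P.Large j → P.kind j = .prod → u j = true → ∀ l ∈ P.L j, u l.1 = l.2) →
    (∀ j, P.Large j → P.kind j = .sum → ∀ l ∈ P.L j, u l.1 = l.2 → u j = true) →
    (∀ j < i, P.Large j → P.kind j = .sum → P.Excl u j) → P.Excl u i

end Prog

end Pool.Agent.VD
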