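import Pool.Agent.VD.Mat

/-!
# VD, dependence of the derivatives on the variables
-/

set_option autoImplicit false

namespace Pool.Agent.VD

open Finset Matrix
open scoped Classical

namespace Prog

variable {n : ℕ} {ε : ℝ} {W s : ℕ} (P : Prog n ε W s)

theorem F_dep {x y : Cube n} {i : Fin s} (h : ∀ v ∈ P.S i, x v = y v) : P.F x i = P.F y i := by
  unfold F
  rw [P.dep i x y h]

theorem lv_dep {x y : Cube n} {l : Fin s × Bool} (h : ∀ v ∈ P.S l.1, x v = y v) :
    lv (P.F x) l = lv (P.F y) l := by
  unfold lv
  rw [P.F_dep h]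

/-- the matrix entries depend only on the variables outside the scope of the input -/
theorem M_dep {x y : Cube n} {i k : Fin s} (h : ∀ v, v ∉ P.S k → x v = y v) :
    P.M x i k = P.M y i k := by
  unfold M
  by_cases h1 : P.Large i ∧ P.Large k
  · rw [if_pos h1, if_pos h1]
    refine Finset.sum_congr rfl fun l hl => ?_
    by_cases h2 : l.1 = k
    · rw [if_pos h2, if_pos h2]
      unfold wt
      rcases hk : P.kind i with _ | _ | _
      · rfl
      · simp only
        rw [Finset.prod_congr rfl fun l' hl' => ?_]
        rw [Finset.mem_erase] at hl'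
        refine P.lv_dep fun v hv => h v ?_
        have hd := P.disj i h1.1 hk l' hl'.2 l hl hl'.1
        rw [h2] at hd
        exact Finset.disjoint_left.1 hd hv
      · rfl
    · rw [if_neg h2, if_neg h2]
  · rw [if_neg h1, if_neg h1]

theorem D_dep (i : Fin s) : ∀ j : Fin s,
    (∀ x, P.D x i j ≠ 0 → P.S j ⊆ P.S i ∧ j ≤ i) ∧
    ∀ x y : Cube n, (∀ v, v ∉ P.S j → x v = y v) → P.D x i j = P.D y i j := by
  induction i using WellFoundedLT.induction with
  | ind i ih =>
    intro j
    constructor
    · intro x hx
      rw [P.D_fwd] at hx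
      by_cases hij : i = j
      · rw [hij]
        exact ⟨Finset.Subset.refl _, le_refl _⟩
      · rw [if_neg hij, zero_add] at hx
        obtain ⟨k, -, hk⟩ := Finset.exists_ne_zero_of_sum_ne_zero hx
        have h1 := left_ne_zero_of_mul hk
        have h2 := right_ne_zero_of_mul hk
        obtain ⟨h3, h4⟩ := P.M_lt x h1
        obtain ⟨h5, h6⟩ := (ih k h3 j).1 x h2
        exact ⟨h5.trans h4, h6.trans h3.le⟩
    · intro x y h
      rw [P.D_fwd x, P.D_fwd y]
      congr 1
      refine Finset.sum_congr rfl fun k _ => ?_
      by_cases hki : P.M x i k = 0 ∧ P.M y i k = 0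
      · rw [hki.1, hki.2, zero_mul, zero_mul]
      · have hlt : k < i := by
          rw [not_and_or] at hki
          rcases hki with h1 | h1
          · exact (P.M_lt x h1).1
          · exact (P.M_lt y h1).1
        rw [(ih k hlt j).2 x y h]
        by_cases h0 : P.D y k j = 0
        · rw [h0, mul_zero, mul_zero]
        · have hS := ((ih k hlt j).1 y h0).1
          rw [P.M_dep (fun v hv => h v (fun hv' => hv (hS hv')))]

theorem D_diag (x : Cube n) (j : Fin s) : P.D x j j = 1 := by
  rw [P.D_fwd, if_pos rfl, Finset.sum_eq_zero, add_zero]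
  intro k _
  by_contra h
  have h1 := left_ne_zero_of_mul h
  have h2 := right_ne_zero_of_mul h
  exact absurd ((P.D_dep k j).1 x h2).2 (not_le.2 (P.M_lt x h1).1)

/-- the derivative with respect to a small gate is zero unless it is the gate itself -/
theorem D_small (x : Cube n) {r j : Fin s} (hj : ¬ P.Large j) (hrj : r ≠ j) : P.D x r j = 0 := by
  rw [P.D_bwd, if_neg hrj, zero_add]
  refine Finset.sum_eq_zero fun k _ => ?_
  have : P.M x k j = 0 := by
    by_contra h
    exact hj (P.M_ne x h).2.1
  rw [this, mul_zero]

end Prog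

end Pool.Agent.VD
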