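import Pool.Agent.VD.SSt
import Pool.Agent.NG.Exp

/-!
# [EX] the subdivided graph of three permutations is an expander
-/

set_option autoImplicit false

namespace Pool.Agent.VD

open Finset

namespace EX

variable {m : ℕ}

/-- the original vertices in `S` -/
private def S0 (S : Finset (Vt m)) : Finset (NG.Vx m) := univ.filter fun v => Sum.inl v ∈ S

/-- the pairs such that one of their three edges crosses `S` -/
private def X (σ : Fin 3 → Equiv.Perm (Fin m)) (S : Finset (Vt m)) : Finset (Fin 3 × Fin m) :=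
  univ.filter fun u => ∃ t : Fin 3, ¬ (pe (t, u) ∈ S ↔ qe σ (t, u) ∈ S)

private lemma pe0 (u : Fin 3 × Fin m) : pe ((0 : Fin 3), u) = Sum.inl (Sum.inl u.2) := rfl

private lemma pe1 (u : Fin 3 × Fin m) : pe ((1 : Fin 3), u) = Sum.inr (Sum.inl u) := rfl

private lemma pe2 (u : Fin 3 × Fin m) : pe ((2 : Fin 3), u) = Sum.inr (Sum.inr u) := rfl

private lemma qe0 (σ : Fin 3 → Equiv.Perm (Fin m)) (u : Fin 3 × Fin m) :
    qe σ ((0 : Fin 3), u) = Sum.inr (Sum.inl u) := rfl

private lemma qe1 (σ : Fin 3 → Equiv.Perm (Fin m)) (u : Fin 3 × Fin m) :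
    qe σ ((1 : Fin 3), u) = Sum.inr (Sum.inr u) := rfl

private lemma qe2 (σ : Fin 3 → Equiv.Perm (Fin m)) (u : Fin 3 × Fin m) :
    qe σ ((2 : Fin 3), u) = Sum.inl (Sum.inr (σ u.1 u.2)) := rfl

/-- outside `X` the four vertices of a pair are on the same side -/
private lemma not_X {σ : Fin 3 → Equiv.Perm (Fin m)} {S : Finset (Vt m)} {u : Fin 3 × Fin m}
    (h : u ∉ X σ S) :
    (Sum.inl (Sum.inl u.2) ∈ S ↔ Sum.inr (Sum.inl u) ∈ S) ∧
      (Sum.inr (Sum.inl u) ∈ S ↔ Sum.inr (Sum.inr u) ∈ S) ∧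
      (Sum.inr (Sum.inr u) ∈ S ↔ Sum.inl (Sum.inr (σ u.1 u.2)) ∈ S) := by
  have h' : ∀ t : Fin 3, (pe (t, u) ∈ S ↔ qe σ (t, u) ∈ S) := by
    intro t
    by_contra hc
    exact h (mem_filter.2 ⟨mem_univ _, t, hc⟩)
  exact ⟨h' 0, h' 1, h' 2⟩

private lemma X_compl (σ : Fin 3 → Equiv.Perm (Fin m)) (S : Finset (Vt m)) : X σ Sᶜ = X σ S := by
  ext u
  simp only [X, mem_filter, mem_univ, true_and, mem_compl]
  constructor
  · rintro ⟨t, ht⟩
    exact ⟨t, fun h => ht (not_congr h)⟩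
  · rintro ⟨t, ht⟩
    exact ⟨t, fun h => ht (not_iff_not.1 h)⟩

private lemma X_card (σ : Fin 3 → Equiv.Perm (Fin m)) (S : Finset (Vt m)) :
    (X σ S).card ≤ (univ.filter fun e : Ed m => ¬ (pe e ∈ S ↔ qe σ e ∈ S)).card := by
  have h : X σ S ⊆ (univ.filter fun e : Ed m => ¬ (pe e ∈ S ↔ qe σ e ∈ S)).image Prod.snd := by
    intro u hu
    obtain ⟨t, ht⟩ := (mem_filter.1 hu).2
    exact mem_image.2 ⟨(t, u), mem_filter.2 ⟨mem_univ _, ht⟩, rfl⟩
  exact (card_le_card h).trans card_image_le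

/-- the size of a set of vertices of a disjoint union -/
private lemma card_sum {α β : Type} [Fintype α] [Fintype β] [DecidableEq α] [DecidableEq β]
    (S : Finset (α ⊕ β)) :
    S.card = (univ.filter fun a : α => Sum.inl a ∈ S).card +
      (univ.filter fun b : β => Sum.inr b ∈ S).card := by
  have h : S = (univ.filter fun a : α => Sum.inl a ∈ S).disjSum
      (univ.filter fun b : β => Sum.inr b ∈ S) := by
    ext v
    rcases v with a | b
    · simp
    · simp
  conv_lhs => rw [h]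
  exact card_disjSum _ _

/-- `|S| ≤ 4 |S₀| + 2 |X|` -/
private lemma card_S (σ : Fin 3 → Equiv.Perm (Fin m)) (S : Finset (Vt m)) :
    S.card ≤ 4 * (S0 S).card + 2 * (X σ S).card := by
  -- left and right original vertices
  have h1 := card_sum (S0 S)
  have h2 : S.card = (S0 S).card +
      (univ.filter fun b : (Fin 3 × Fin m) ⊕ (Fin 3 × Fin m) => Sum.inr b ∈ S).card := by
    rw [card_sum S]
    congr!
  have h3 := card_sum (univ.filter fun b : (Fin 3 × Fin m) ⊕ (Fin 3 × Fin m) => Sum.inr b ∈ S)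
  have h4 : (univ.filter fun u : Fin 3 × Fin m =>
      Sum.inl u ∈ (univ.filter fun b : (Fin 3 × Fin m) ⊕ (Fin 3 × Fin m) => Sum.inr b ∈ S)).card ≤
      (X σ S).card + 3 * (univ.filter fun a : Fin m => Sum.inl a ∈ S0 S).card := by
    have hs : (univ.filter fun u : Fin 3 × Fin m =>
        Sum.inl u ∈ (univ.filter fun b : (Fin 3 × Fin m) ⊕ (Fin 3 × Fin m) => Sum.inr b ∈ S)) ⊆
        X σ S ∪ (univ : Finset (Fin 3)) ×ˢ (univ.filter fun a : Fin m => Sum.inl a ∈ S0 S) := by
      intro u hu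
      have hu' : Sum.inr (Sum.inl u) ∈ S := by simpa using hu
      by_cases hX : u ∈ X σ S
      · exact mem_union_left _ hX
      · refine mem_union_right _ (mem_product.2 ⟨mem_univ _, mem_filter.2 ⟨mem_univ _, ?_⟩⟩)
        exact mem_filter.2 ⟨mem_univ _, (not_X hX).1.2 hu'⟩
    refine (card_le_card hs).trans ((card_union_le _ _).trans ?_)
    rw [card_product]
    simp
  have h5 : (univ.filter fun u : Fin 3 × Fin m =>
      Sum.inr u ∈ (univ.filter fun b : (Fin 3 × Fin m) ⊕ (Fin 3 × Fin m) => Sum.inr b ∈ S)).card ≤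
      (X σ S).card + 3 * (univ.filter fun a : Fin m => Sum.inr a ∈ S0 S).card := by
    have hs : (univ.filter fun u : Fin 3 × Fin m =>
        Sum.inr u ∈ (univ.filter fun b : (Fin 3 × Fin m) ⊕ (Fin 3 × Fin m) => Sum.inr b ∈ S)) ⊆
        X σ S ∪ ((univ : Finset (Fin 3)) ×ˢ
          (univ.filter fun a : Fin m => Sum.inr a ∈ S0 S)).image
            fun w => (w.1, (σ w.1).symm w.2) := by
      intro u hu
      have hu' : Sum.inr (Sum.inr u) ∈ S := by simpa using hu
      by_cases hX : u ∈ X σ S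
      · exact mem_union_left _ hX
      · refine mem_union_right _ (mem_image.2 ⟨(u.1, σ u.1 u.2), ?_, ?_⟩)
        · refine mem_product.2 ⟨mem_univ _, mem_filter.2 ⟨mem_univ _, ?_⟩⟩
          exact mem_filter.2 ⟨mem_univ _, (not_X hX).2.2.1 hu'⟩
        · simp
    refine (card_le_card hs).trans ((card_union_le _ _).trans ?_)
    refine Nat.add_le_add_left (card_image_le.trans ?_) _
    rw [card_product]
    simp
  omega

private lemma S0_compl (S : Finset (Vt m)) : (S0 Sᶜ).card + (S0 S).card = 2 * m := by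
  have h : S0 Sᶜ = (S0 S)ᶜ := by
    ext v
    simp [S0]
  rw [h]
  have h2 := card_compl_add_card (S0 S)
  rw [h2]
  simp only [Fintype.card_sum, Fintype.card_fin]
  omega

/-- change a set into a balanced one -/
private lemma adjust (hm : 1 ≤ m) (T : Finset (NG.Vx m)) (x : ℕ) (h1 : 8 * m ≤ 12 * T.card + 6 * x)
    (h2 : 12 * T.card ≤ 16 * m + 6 * x) :
    ∃ T' : Finset (NG.Vx m), 2 * m ≤ 3 * T'.card ∧ 3 * T'.card ≤ 4 * m ∧
      2 * (symmDiff T T').card ≤ x + 2 := by
  have hU : Fintype.card (NG.Vx m) = 2 * m := by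
    simp only [Fintype.card_sum, Fintype.card_fin]
    omega
  rcases lt_or_ge (3 * T.card) (2 * m) with h | h
  · obtain ⟨T', hT, hT', hc⟩ := exists_subsuperset_card_eq (subset_univ T)
      (show T.card ≤ (2 * m + 2) / 3 by omega)
      (show (2 * m + 2) / 3 ≤ (univ : Finset (NG.Vx m)).card by
        rw [card_univ, hU]; omega)
    refine ⟨T', by omega, by omega, ?_⟩
    have hd : symmDiff T T' = T' \ T := by
      rw [symmDiff_def, sup_eq_union, sdiff_eq_empty_iff_subset.2 hT, empty_union]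
    rw [hd, card_sdiff_of_subset hT]
    omega
  · rcases lt_or_ge (4 * m) (3 * T.card) with h' | h'
    · obtain ⟨T', hT', hc⟩ := exists_subset_card_eq (show 4 * m / 3 ≤ T.card by omega)
      refine ⟨T', by omega, by omega, ?_⟩
      have hd : symmDiff T T' = T \ T' := by
        rw [symmDiff_def, sup_eq_union, sdiff_eq_empty_iff_subset.2 hT', union_empty]
      rw [hd, card_sdiff_of_subset hT']
      omega
    · exact ⟨T, h, h', by simp⟩

/-- the crossing numbers of `T` and `T'` -/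
private lemma P_card (σ : Fin 3 → Equiv.Perm (Fin m)) (S : Finset (Vt m)) (T' : Finset (NG.Vx m))
    (c : Fin 3) (P : Finset (Fin m)) (hP : ∀ i ∈ P, NG.Crossing σ c T' i) :
    P.card ≤ (X σ S).card + (symmDiff (S0 S) T').card := by
  classical
  have hs : P ⊆ (X σ S).image Prod.snd ∪ (symmDiff (S0 S) T').image
      (Sum.elim id fun j => (σ c).symm j) := by
    intro i hi
    by_cases h1 : Sum.inl i ∈ symmDiff (S0 S) T'
    · exact mem_union_right _ (mem_image.2 ⟨Sum.inl i, h1, rfl⟩)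
    by_cases h2 : Sum.inr (σ c i) ∈ symmDiff (S0 S) T'
    · exact mem_union_right _ (mem_image.2 ⟨Sum.inr (σ c i), h2, by simp⟩)
    refine mem_union_left _ (mem_image.2 ⟨(c, i), ?_, rfl⟩)
    by_contra hX
    have h3 := not_X hX
    have h4 : (Sum.inl i ∈ S0 S ↔ Sum.inr (σ c i) ∈ S0 S) := by
      simp only [S0, mem_filter, mem_univ, true_and]
      exact h3.1.trans (h3.2.1.trans h3.2.2)
    have h5 : (Sum.inl i ∈ S0 S ↔ Sum.inl i ∈ T') := by
      rw [mem_symmDiff] at h1
      tauto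
    have h6 : (Sum.inr (σ c i) ∈ S0 S ↔ Sum.inr (σ c i) ∈ T') := by
      rw [mem_symmDiff] at h2
      tauto
    exact hP i hi (h5.symm.trans (h4.trans h6))
  exact (card_le_card hs).trans ((card_union_le _ _).trans
    (Nat.add_le_add card_image_le card_image_le))

end EX

theorem thm_EX : St_EX := by
  obtain ⟨r, m₀, h⟩ := NG.thm_Exp
  refine ⟨24 * r, max m₀ (2 * r + 1), fun m hm => ?_⟩
  have hm1 : m₀ ≤ m := (le_max_left _ _).trans hm
  have hm2 : 2 * r + 1 ≤ m := (le_max_right _ _).trans hm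
  obtain ⟨σ, hσ⟩ := h m hm1
  refine ⟨σ, fun S hS1 hS2 => ?_⟩
  have a1 := EX.card_S σ S
  have a2 := EX.card_S σ Sᶜ
  rw [EX.X_compl] at a2
  have a3 := EX.S0_compl S
  have a4 : Sᶜ.card + S.card = 8 * m := by
    rw [card_compl_add_card]
    simp only [Fintype.card_sum, Fintype.card_prod, Fintype.card_fin]
    omega
  have a5 := EX.X_card σ S
  obtain ⟨T, hT1, hT2, hT3⟩ := EX.adjust (by omega) (EX.S0 S) (EX.X σ S).card (by omega) (by omega)
  obtain ⟨c, P, hP1, hP2⟩ := hσ T hT1 hT2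
  have a6 := EX.P_card σ S T c P fun i hi => (hP2 i hi).1
  have a7 : 2 * P.card ≤ 3 * (EX.X σ S).card + 2 := by omega
  have a8 : 2 * m ≤ 3 * (r * (EX.X σ S).card) + 2 * r := by nlinarith
  have a9 : r * (EX.X σ S).card ≤
      r * (univ.filter fun e : Ed m => ¬ (pe e ∈ S ↔ qe σ e ∈ S)).card := Nat.mul_le_mul_left _ a5
  rw [mul_assoc]
  omega

end Pool.Agent.VD
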