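import Pool.Agent.VD.SSt

/-!
# [VD-FN] the function `NaeG` of the subdivided graph is a disjoint union of `3 m` products of `m`
functions of at most 8 variables
-/

set_option autoImplicit false

namespace Pool.Agent.VD

open Finset

private theorem FN_nae (a b c : Prop) :
    ¬ ((a ↔ b) ∧ (b ↔ c)) ↔ (a ∧ ¬ b) ∨ (b ∧ ¬ c) ∨ (c ∧ ¬ a) := by
  tauto

private theorem FN_abs {V : Type} (m : ℕ)
    (sc0 : Fin 3 → Fin m → Finset V) (one two : Fin 3 → Fin m → (V → Bool) → Prop)
    (z : Fin 3 → (V → Bool) → Prop)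
    (h1 : ∀ t x, z t x ↔ ∀ i, one t i x)
    (h2 : ∀ t x, z (t + 1) x ↔ ∀ i, two t i x)
    (hl1 : ∀ t i x y, (∀ v ∈ sc0 t i, x v = y v) → (one t i x ↔ one t i y))
    (hl2 : ∀ t i x y, (∀ v ∈ sc0 t i, x v = y v) → (two t i x ↔ two t i y))
    (hc : ∀ t i, (sc0 t i).card ≤ 8)
    (hd : ∀ t i i', i ≠ i' → Disjoint (sc0 t i) (sc0 t i'))
    (hw : ∀ t k, ∃ x, (∀ i, one t i x) ∧ (∀ i, i ≠ k → two t i x) ∧ ¬ two t k x)
    (ht : ∃ x, ∀ t, z t x) :
    ∃ (sc : Fin (3 * m) → Fin m → Finset V) (g : Fin (3 * m) → Fin m → (V → Bool) → Bool),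
      (∀ k i x y, (∀ v ∈ sc k i, x v = y v) → g k i x = g k i y) ∧
      (∀ k i, (sc k i).card ≤ 8) ∧
      (∀ k i i', i ≠ i' → Disjoint (sc k i) (sc k i')) ∧
      (∀ x k k', (∀ i, g k i x = true) → (∀ i, g k' i x = true) → k = k') ∧
      (∀ k, ∃ x, ∀ i, g k i x = true) ∧
      (∃ x, ∀ k, ∃ i, g k i x = false) ∧
      ∀ x, (∃ k, ∀ i, g k i x = true) ↔ ¬ ((z 0 x ↔ z 1 x) ∧ (z 1 x ↔ z 2 x)) := by
  classical
  set e : Fin 3 × Fin m ≃ Fin (3 * m) := finProdFinEquiv with he
  set g : Fin (3 * m) → Fin m → (V → Bool) → Bool := fun κ i x =>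
    decide (one (e.symm κ).1 i x ∧ (i < (e.symm κ).2 → two (e.symm κ).1 i x) ∧
      (i = (e.symm κ).2 → ¬ two (e.symm κ).1 i x)) with hgdef
  have hg : ∀ κ x, (∀ i, g κ i x = true) ↔
      z (e.symm κ).1 x ∧ (∀ i < (e.symm κ).2, two (e.symm κ).1 i x) ∧
        ¬ two (e.symm κ).1 (e.symm κ).2 x := by
    intro κ x
    rw [h1]
    simp only [hgdef, decide_eq_true_eq]
    constructor
    · intro h
      exact ⟨fun i => (h i).1, fun i hi => (h i).2.1 hi, (h _).2.2 rfl⟩
    · rintro ⟨ha, hb, hc'⟩ i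
      exact ⟨ha i, fun hi => hb i hi, fun hi => by rw [hi]; exact hc'⟩
  have hex : ∀ t x, z t x → ¬ z (t + 1) x → ∃ κ, ∀ i, g κ i x = true := by
    intro t x hz hnz
    have hne : (univ.filter fun i => ¬ two t i x).Nonempty := by
      by_contra hcon
      rw [Finset.not_nonempty_iff_eq_empty, Finset.filter_eq_empty_iff] at hcon
      apply hnz
      rw [h2]
      intro i
      by_contra hi
      exact hcon (mem_univ i) hi
    obtain ⟨k, hk, hmin⟩ := Finset.exists_min_image _ (fun i : Fin m => i) hne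
    refine ⟨e (t, k), (hg _ _).2 ?_⟩
    rw [Equiv.symm_apply_apply]
    refine ⟨hz, ?_, (Finset.mem_filter.1 hk).2⟩
    intro i hi
    by_contra hcon
    have := hmin i (Finset.mem_filter.2 ⟨mem_univ i, hcon⟩)
    exact absurd this (not_le.2 hi)
  have hnz : ∀ κ x, (∀ i, g κ i x = true) → ¬ z ((e.symm κ).1 + 1) x := by
    intro κ x h hz
    rw [hg] at h
    rw [h2] at hz
    exact h.2.2 (hz _)
  refine ⟨fun κ i => sc0 (e.symm κ).1 i, g, ?_, ?_, ?_, ?_, ?_, ?_, ?_⟩
  · intro κ i x y h
    simp only [hgdef]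
    rw [decide_eq_decide, hl1 _ _ _ _ h, hl2 _ _ _ _ h]
  · intro κ i
    exact hc _ _
  · intro κ i i' h
    exact hd _ _ _ h
  · intro x κ κ' h h'
    have hz := ((hg κ x).1 h)
    have hz' := ((hg κ' x).1 h')
    have hn := hnz κ x h
    have hn' := hnz κ' x h'
    apply e.symm.injective
    generalize e.symm κ = a at *
    generalize e.symm κ' = b at *
    obtain ⟨t, k⟩ := a
    obtain ⟨t', k'⟩ := b
    simp only at hz hz' hn hn'
    have htt : t = t' := by
      by_contra hne
      have : t' = t + 1 ∨ t = t' + 1 := by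
        revert hne
        clear * -
        revert t t'
        decide
      rcases this with h | h
      · rw [← h] at hn
        exact hn hz'.1
      · rw [← h] at hn'
        exact hn' hz.1
    subst htt
    have hkk : k = k' := by
      rcases lt_trichotomy k k' with h | h | h
      · exact absurd (hz'.2.1 k h) hz.2.2
      · exact h
      · exact absurd (hz.2.1 k' h) hz'.2.2
    rw [hkk]
  · intro κ
    obtain ⟨x, hx1, hx2, hx3⟩ := hw (e.symm κ).1 (e.symm κ).2
    refine ⟨x, (hg κ x).2 ⟨(h1 _ _).2 hx1, ?_, hx3⟩⟩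
    intro i hi
    exact hx2 i (ne_of_lt hi)
  · obtain ⟨x, hx⟩ := ht
    refine ⟨x, fun κ => ?_⟩
    by_contra hcon
    push Not at hcon
    have : ∀ i, g κ i x = true := fun i => by
      simpa using hcon i
    exact hnz κ x this (hx _)
  · intro x
    rw [FN_nae]
    constructor
    · rintro ⟨κ, hκ⟩
      have h1' := ((hg κ x).1 hκ).1
      have h2' := hnz κ x hκ
      generalize (e.symm κ).1 = t at *
      fin_cases t
      · left; exact ⟨h1', h2'⟩
      · right; left; exact ⟨h1', h2'⟩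
      · right; right; exact ⟨h1', h2'⟩
    · rintro (h | h | h)
      · exact hex 0 x h.1 h.2
      · exact hex 1 x h.1 h.2
      · exact hex 2 x h.1 h.2

/-- the eight vertices of the scope -/
private def FN_vert {m : ℕ} (σ : Fin 3 → Equiv.Perm (Fin m)) (t : Fin 3) (i : Fin m) :
    Bool ⊕ (Fin 3 ⊕ Fin 3) → Vt m
  | Sum.inl true => Sum.inl (Sum.inl i)
  | Sum.inl false => Sum.inl (Sum.inr i)
  | Sum.inr (Sum.inl c) => Sum.inr (Sum.inl (c, if t = 1 then (σ c).symm i else i))
  | Sum.inr (Sum.inr c) => Sum.inr (Sum.inr (c, if t = 0 then i else (σ c).symm i))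

/-- the component of a vertex -/
private def FN_idx {m : ℕ} (σ : Fin 3 → Equiv.Perm (Fin m)) (t : Fin 3) : Vt m → Fin m
  | Sum.inl (Sum.inl i) => i
  | Sum.inl (Sum.inr i) => i
  | Sum.inr (Sum.inl (c, k)) => if t = 1 then σ c k else k
  | Sum.inr (Sum.inr (c, k)) => if t = 0 then k else σ c k

private theorem FN_idx_vert {m : ℕ} (σ : Fin 3 → Equiv.Perm (Fin m)) (t : Fin 3) (i : Fin m)
    (j : Bool ⊕ (Fin 3 ⊕ Fin 3)) : FN_idx σ t (FN_vert σ t i j) = i := by
  rcases j with (_ | _) | (c | c)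
  · rfl
  · rfl
  · simp only [FN_vert, FN_idx]
    split_ifs <;> simp
  · simp only [FN_vert, FN_idx]
    split_ifs <;> simp

private def FN_one {m : ℕ} (σ : Fin 3 → Equiv.Perm (Fin m)) (t : Fin 3) (i : Fin m)
    (x : Vt m → Bool) : Prop :=
  if t = 0 then ∀ c, x (Sum.inl (Sum.inl i)) = true ∨ x (Sum.inr (Sum.inl (c, i))) = true else
    if t = 1 then ∀ c, x (Sum.inr (Sum.inl (c, (σ c).symm i))) = true ∨
      x (Sum.inr (Sum.inr (c, (σ c).symm i))) = true else
    ∀ c, x (Sum.inr (Sum.inr (c, (σ c).symm i))) = true ∨ x (Sum.inl (Sum.inr i)) = true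

private def FN_two {m : ℕ} (σ : Fin 3 → Equiv.Perm (Fin m)) (t : Fin 3) (i : Fin m)
    (x : Vt m → Bool) : Prop :=
  if t = 0 then ∀ c, x (Sum.inr (Sum.inl (c, i))) = true ∨ x (Sum.inr (Sum.inr (c, i))) = true else
    if t = 1 then ∀ c, x (Sum.inr (Sum.inr (c, (σ c).symm i))) = true ∨
      x (Sum.inl (Sum.inr i)) = true else
    ∀ c, x (Sum.inl (Sum.inl i)) = true ∨ x (Sum.inr (Sum.inl (c, i))) = true

private theorem FN_cov0 {m : ℕ} (σ : Fin 3 → Equiv.Perm (Fin m)) (x : Vt m → Bool) :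
    CovG pe (qe σ) Prod.fst 0 x ↔ ∀ c j, x (Sum.inl (Sum.inl j)) = true ∨
      x (Sum.inr (Sum.inl (c, j))) = true := by
  constructor
  · intro h c j
    exact h (0, (c, j)) rfl
  · rintro h ⟨t, c, j⟩ ht
    have ht' : t = 0 := ht
    subst ht'
    exact h c j

private theorem FN_cov1 {m : ℕ} (σ : Fin 3 → Equiv.Perm (Fin m)) (x : Vt m → Bool) :
    CovG pe (qe σ) Prod.fst 1 x ↔ ∀ c j, x (Sum.inr (Sum.inl (c, j))) = true ∨
      x (Sum.inr (Sum.inr (c, j))) = true := by
  constructor
  · intro h c j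
    exact h (1, (c, j)) rfl
  · rintro h ⟨t, c, j⟩ ht
    have ht' : t = 1 := ht
    subst ht'
    exact h c j

private theorem FN_cov2 {m : ℕ} (σ : Fin 3 → Equiv.Perm (Fin m)) (x : Vt m → Bool) :
    CovG pe (qe σ) Prod.fst 2 x ↔ ∀ c j, x (Sum.inr (Sum.inr (c, j))) = true ∨
      x (Sum.inl (Sum.inr (σ c j))) = true := by
  constructor
  · intro h c j
    exact h (2, (c, j)) rfl
  · rintro h ⟨t, c, j⟩ ht
    have ht' : t = 2 := ht
    subst ht'
    exact h c j

private theorem FN_mem {m : ℕ} (σ : Fin 3 → Equiv.Perm (Fin m)) (t : Fin 3) (i : Fin m)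
    {x y : Vt m → Bool}
    (h : ∀ v ∈ univ.image (FN_vert σ t i), x v = y v) (j : Bool ⊕ (Fin 3 ⊕ Fin 3)) :
    x (FN_vert σ t i j) = y (FN_vert σ t i j) :=
  h _ (mem_image_of_mem _ (mem_univ j))

/-- **[FN]** -/
theorem thm_FN : St_FN := by
  intro m σ hm
  classical
  refine FN_abs m (fun t i => univ.image (FN_vert σ t i)) (FN_one σ) (FN_two σ)
    (fun t x => CovG pe (qe σ) Prod.fst t x) ?_ ?_ ?_ ?_ ?_ ?_ ?_ ?_
  · intro t x
    fin_cases t
    · show CovG pe (qe σ) Prod.fst 0 x ↔ ∀ i, FN_one σ 0 i x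
      rw [FN_cov0]
      simp only [FN_one, if_true]
      exact forall_comm
    · show CovG pe (qe σ) Prod.fst 1 x ↔ ∀ i, FN_one σ 1 i x
      rw [FN_cov1]
      simp only [FN_one, if_true, if_neg (show (1 : Fin 3) ≠ 0 by decide)]
      constructor
      · intro h i c
        exact h c _
      · intro h c j
        have := h (σ c j) c
        rwa [Equiv.symm_apply_apply] at this
    · show CovG pe (qe σ) Prod.fst 2 x ↔ ∀ i, FN_one σ 2 i x
      rw [FN_cov2]
      simp only [FN_one, if_neg (show (2 : Fin 3) ≠ 0 by decide),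
        if_neg (show (2 : Fin 3) ≠ 1 by decide)]
      constructor
      · intro h i c
        have := h c ((σ c).symm i)
        rwa [Equiv.apply_symm_apply] at this
      · intro h c j
        have := h (σ c j) c
        rwa [Equiv.symm_apply_apply] at this
  · intro t x
    fin_cases t
    · show CovG pe (qe σ) Prod.fst 1 x ↔ ∀ i, FN_two σ 0 i x
      rw [FN_cov1]
      simp only [FN_two, if_true]
      exact forall_comm
    · show CovG pe (qe σ) Prod.fst 2 x ↔ ∀ i, FN_two σ 1 i x
      rw [FN_cov2]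
      simp only [FN_two, if_true, if_neg (show (1 : Fin 3) ≠ 0 by decide)]
      constructor
      · intro h i c
        have := h c ((σ c).symm i)
        rwa [Equiv.apply_symm_apply] at this
      · intro h c j
        have := h (σ c j) c
        rwa [Equiv.symm_apply_apply] at this
    · show CovG pe (qe σ) Prod.fst 0 x ↔ ∀ i, FN_two σ 2 i x
      rw [FN_cov0]
      simp only [FN_two, if_neg (show (2 : Fin 3) ≠ 0 by decide),
        if_neg (show (2 : Fin 3) ≠ 1 by decide)]
      exact forall_comm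
  · intro t i x y h
    have hL := FN_mem σ t i h (Sum.inl true)
    have hR := FN_mem σ t i h (Sum.inl false)
    have hA := fun c => FN_mem σ t i h (Sum.inr (Sum.inl c))
    have hB := fun c => FN_mem σ t i h (Sum.inr (Sum.inr c))
    simp only [FN_vert] at hL hR hA hB
    fin_cases t
    · simp at hA hB
      simp [FN_one, hL, hA]
    · simp at hA hB
      simp [FN_one, hA, hB]
    · simp at hA hB
      simp [FN_one, hR, hB]
  · intro t i x y h
    have hL := FN_mem σ t i h (Sum.inl true)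
    have hR := FN_mem σ t i h (Sum.inl false)
    have hA := fun c => FN_mem σ t i h (Sum.inr (Sum.inl c))
    have hB := fun c => FN_mem σ t i h (Sum.inr (Sum.inr c))
    simp only [FN_vert] at hL hR hA hB
    fin_cases t
    · simp at hA hB
      simp [FN_two, hA, hB]
    · simp at hA hB
      simp [FN_two, hR, hB]
    · simp at hA hB
      simp [FN_two, hL, hA]
  · intro t i
    refine le_trans card_image_le ?_
    simp
  · intro t i i' hne
    rw [Finset.disjoint_left]
    intro v hv hv'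
    rw [mem_image] at hv hv'
    obtain ⟨j, _, hj⟩ := hv
    obtain ⟨j', _, hj'⟩ := hv'
    apply hne
    rw [← FN_idx_vert σ t i j, ← FN_idx_vert σ t i' j', hj, hj']
  · intro t k
    fin_cases t
    · refine ⟨fun v => decide (¬ (v = Sum.inr (Sum.inl (0, k)) ∨ v = Sum.inr (Sum.inr (0, k)))),
        ?_, ?_, ?_⟩
      · intro i
        simp [FN_one]
      · intro i hi
        simp [FN_two, hi]
      · simp only [FN_two]
        intro h
        have := h 0
        simp at this
    · refine ⟨fun v => decide (¬ (v = Sum.inr (Sum.inr (0, (σ 0).symm k)) ∨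
          v = Sum.inl (Sum.inr k))), ?_, ?_, ?_⟩
      · intro i
        simp [FN_one]
      · intro i hi
        simp [FN_two, hi]
      · simp only [FN_two]
        intro h
        have := h 0
        simp at this
    · refine ⟨fun v => decide (¬ (v = Sum.inl (Sum.inl k) ∨
          v = Sum.inr (Sum.inl (0, k)))), ?_, ?_, ?_⟩
      · intro i
        simp [FN_one]
      · intro i hi
        simp [FN_two, hi]
      · simp only [FN_two]
        intro h
        have := h 0
        simp at this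
  · refine ⟨fun _ => true, fun t e _ => Or.inl rfl⟩

end Pool.Agent.VD
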