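import Pool.Agent.VD.Gra
import Pool.Agent.VD.Cnf

/-!
# VD / Main: the hard formulas
-/

set_option autoImplicit false

namespace Pool.Agent.VD

open Finset

variable {n : ℕ}

/-- the correlation of a good approximation with the character -/
theorem main_corr (φ : CNF n) (E : Finset (Fin n × Fin n)) (ω : ℝ) (hω : |ω| = 1)
    (hφ : ∀ x, Sat φ x → sgn E x = ω) (f : Cube n → ℝ) (hf : ∀ x, f x = 0 ∨ f x = 1)
    (h : 2 * (univ.filter fun x => ¬ (f x = 1 ↔ Sat φ x)).card ≤ models φ) :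
    (models φ : ℝ) / 2 ≤ |∑ x, sgn E x * f x| := by
  classical
  have h1 : ∀ x, ((if Sat φ x then 1 else 0 : ℝ) - if ¬ (f x = 1 ↔ Sat φ x) then 1 else 0) ≤
      ω * (sgn E x * f x) := by
    intro x
    have habs : |ω * sgn E x| = 1 := by rw [abs_mul, hω, abs_sgn, one_mul]
    have hge : -1 ≤ ω * sgn E x := (abs_le.1 habs.le).1
    have hωω : ω * ω = 1 := by rw [← abs_mul_abs_self, hω, one_mul]
    by_cases hs : Sat φ x
    · rw [if_pos hs, hφ x hs]
      rcases hf x with h0 | h0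
      · rw [if_pos (by rw [h0]; simp [hs]), h0]; simp
      · rw [if_neg (by rw [h0]; simp [hs]), h0, mul_one, hωω]; simp
    · rw [if_neg hs]
      rcases hf x with h0 | h0
      · rw [if_neg (by rw [h0]; simp [hs]), h0]; simp
      · rw [if_pos (by rw [h0]; simp [hs]), h0, mul_one]; linarith
  have h2 := Finset.sum_le_sum fun x (_ : x ∈ (univ : Finset (Cube n))) => h1 x
  rw [Finset.sum_sub_distrib, ← Finset.sum_filter, ← Finset.sum_filter, Finset.sum_const,
    Finset.sum_const, nsmul_eq_mul, nsmul_eq_mul, mul_one, mul_one, ← Finset.mul_sum] at h2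
  have h3 : ω * ∑ x, sgn E x * f x ≤ |∑ x, sgn E x * f x| := by
    refine (le_abs_self _).trans ?_
    rw [abs_mul, hω, one_mul]
  have h4 : (2 : ℝ) * ((univ.filter fun x => ¬ (f x = 1 ↔ Sat φ x)).card : ℝ) ≤ models φ := by
    exact_mod_cast h
  have h5 : ((univ.filter fun x => Sat φ x).card : ℝ) = models φ := rfl
  rw [h5] at h2
  linarith

/-- the correlation of one term -/
theorem main_term (E J : Finset (Fin n × Fin n)) (A : Finset (Fin n)) (hE : ∀ e ∈ E, e.1 ≠ e.2)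
    (hor : ∀ e ∈ E, (e.2, e.1) ∉ E) (hJ : Mat E J A) (c : ℝ) (hc : c * n ≤ (J.card : ℝ))
    (W : ℕ) (B : ℝ) (hB0 : 0 ≤ B) (T : Cube n → ℝ) (hT : RkLe A W T) (hB : ∀ x, |T x| ≤ B) :
    |∑ x, sgn E x * T x| ≤ W * B * (2 : ℝ) ^ (n - c * n / 2 : ℝ) := by
  have h1 := thm_Disc E J A hE hor hJ W B T hT hB
  have h2 : (2 : ℝ) ^ (c * n) ≤ (2 : ℝ) ^ J.card := by
    rw [← Real.rpow_natCast]
    exact Real.rpow_le_rpow_of_exponent_le (by norm_num) hc
  have h3 : (∑ x, sgn E x * T x) ^ 2 * (2 : ℝ) ^ (c * n) ≤ W * B ^ 2 * 4 ^ n :=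
    (mul_le_mul_of_nonneg_left h2 (sq_nonneg _)).trans h1
  have h4 : ((2 : ℝ) ^ (n - c * n / 2 : ℝ)) ^ 2 * (2 : ℝ) ^ (c * n) = 4 ^ n := by
    rw [← Real.rpow_natCast ((2 : ℝ) ^ (n - c * n / 2 : ℝ)) 2, ← Real.rpow_mul (by norm_num),
      ← Real.rpow_add (by norm_num)]
    have h5 : (n - c * n / 2 : ℝ) * ((2 : ℕ) : ℝ) + c * n = ((2 * n : ℕ) : ℝ) := by
      push_cast; ring
    rw [h5, Real.rpow_natCast, pow_mul]
    norm_num
  have hpos : (0 : ℝ) < (2 : ℝ) ^ (c * n) := Real.rpow_pos_of_pos (by norm_num) _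
  have h5 : (W : ℝ) * B ^ 2 ≤ (W * B) ^ 2 := by
    rw [mul_pow]
    refine mul_le_mul_of_nonneg_right ?_ (sq_nonneg _)
    have : W ≤ W ^ 2 := Nat.le_self_pow (by norm_num) W
    exact_mod_cast this
  have h6 : (∑ x, sgn E x * T x) ^ 2 ≤ (W * B * (2 : ℝ) ^ (n - c * n / 2 : ℝ)) ^ 2 := by
    refine le_of_mul_le_mul_right ?_ hpos
    refine h3.trans ?_
    rw [mul_pow (W * B) _ 2, mul_assoc ((W * B) ^ 2), h4]
    exact mul_le_mul_of_nonneg_right h5 (by positivity)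
  have h7 : 0 ≤ W * B * (2 : ℝ) ^ (n - c * n / 2 : ℝ) := by positivity
  exact abs_le_of_sq_le_sq h6 h7

/-- **The hard formulas** (`thm_Hard`, modules Disc, Gra, Cnf, Main): sums of few bounded functions
of small rank across balanced sets are far from some CNF formula of linear size. -/
def St_Hard : Prop :=
  ∀ ε : ℝ, 0 < ε → ε ≤ 1 / 3 → ∃ c : ℝ, 0 < c ∧ ∃ C n₀ : ℕ, ∀ n : ℕ, ∃ φ : CNF n,
    φ.length ≤ C * n ∧ (∀ K ∈ φ, K.length ≤ C) ∧ 0 < models φ ∧
    ∀ (f : Cube n → ℝ), (∀ x, f x = 0 ∨ f x = 1) →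
      (2 * (univ.filter fun x => ¬ (f x = 1 ↔ Sat φ x)).card ≤ models φ) →
      ∀ (N W : ℕ) (B : ℝ) (T : Fin N → Cube n → ℝ) (A : Fin N → Finset (Fin n)), 0 ≤ B →
        (∀ i, Bal ε (A i)) → (∀ i x, |T i x| ≤ B) → (∀ i, RkLe (A i) W (T i)) →
        (∀ x, f x = ∑ i, T i x) → n₀ ≤ n → (2 : ℝ) ^ (c * n) ≤ N * W * B

theorem thm_Hard : St_Hard := by
  classical
  obtain ⟨Δ, hG⟩ := thm_Gra
  intro ε hε hε3
  obtain ⟨c, hc, n₁, hG⟩ := hG ε hε hε3
  set D : ℕ := ⌈8 * Δ / c⌉₊ + 1 with hD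
  have hDpos : 0 < D := by omega
  have hDle : 8 * Δ / c ≤ (D : ℝ) := by
    rw [hD]
    push_cast
    exact (Nat.le_ceil _).trans (by linarith)
  refine ⟨c / 4, by positivity, (Δ + 1) * 2 ^ (2 * D) + 2 * D, n₁ + ⌈16 / c⌉₊ + 1, fun n => ?_⟩
  by_cases hn : n₁ + ⌈16 / c⌉₊ + 1 ≤ n
  · obtain ⟨E, hE, hor, hEc, hJ⟩ := hG n (by omega)
    obtain ⟨φ, h1, h2, h3, ω, hω, h4⟩ := thm_Cnf E D hDpos
    have hmod : 0 < models φ := by
      rcases Nat.eq_zero_or_pos (models φ) with h0 | h0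
      · rw [h0, Nat.mul_zero] at h3
        have h5 : 0 < 2 ^ n := Nat.two_pow_pos n
        omega
      · exact h0
    refine ⟨φ, ?_, ?_, hmod, ?_⟩
    · have h5 : E.card / D ≤ E.card := Nat.div_le_self _ _
      have h6 : E.card / D + 1 ≤ (Δ + 1) * n := by
        rw [Nat.add_mul, Nat.one_mul]; omega
      calc φ.length ≤ (E.card / D + 1) * 2 ^ (2 * D) := h1
        _ ≤ ((Δ + 1) * n) * 2 ^ (2 * D) := Nat.mul_le_mul_right _ h6
        _ = ((Δ + 1) * 2 ^ (2 * D)) * n := by ring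
        _ ≤ ((Δ + 1) * 2 ^ (2 * D) + 2 * D) * n := Nat.mul_le_mul_right _ (Nat.le_add_right _ _)
    · intro K hK
      exact (h2 K hK).trans (Nat.le_add_left _ _)
    · intro f hf hfφ N W B T A hB hA hTB hrk hfT _
      have hcorr := main_corr φ E ω hω h4 f hf hfφ
      have hn16 : (16 : ℝ) ≤ c * n := by
        have h5 : 16 / c ≤ (n : ℝ) := by
          have h6 : ((⌈16 / c⌉₊ : ℕ) : ℝ) ≤ n := by exact_mod_cast (by omega : ⌈16 / c⌉₊ ≤ n)
          exact (Nat.le_ceil _).trans h6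
        rw [div_le_iff₀ hc] at h5
        linarith
      -- the number of groups
      have hR : ((E.card / D + 1 : ℕ) : ℝ) + 1 ≤ c * n / 4 := by
        have h5 : ((E.card / D : ℕ) : ℝ) ≤ (E.card : ℝ) / D := Nat.cast_div_le
        have h6 : (E.card : ℝ) / D ≤ c * n / 8 := by
          rw [div_le_iff₀ (by exact_mod_cast hDpos)]
          have h7 : (E.card : ℝ) ≤ Δ * n := by exact_mod_cast hEc
          rw [div_le_iff₀ hc] at hDle
          have h8 := mul_le_mul_of_nonneg_right hDle (Nat.cast_nonneg (α := ℝ) n)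
          linarith
        push_cast
        linarith
      -- the upper bound
      have hup : |∑ x, sgn E x * f x| ≤ N * (W * B * (2 : ℝ) ^ (n - c * n / 2 : ℝ)) := by
        have h5 : ∑ x, sgn E x * f x = ∑ i, ∑ x, sgn E x * T i x := by
          rw [Finset.sum_comm]
          refine Finset.sum_congr rfl fun x _ => ?_
          rw [hfT, Finset.mul_sum]
        rw [h5]
        refine (Finset.abs_sum_le_sum_abs _ _).trans ?_
        have h6 : ∀ i ∈ (univ : Finset (Fin N)), |∑ x, sgn E x * T i x| ≤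
            W * B * (2 : ℝ) ^ (n - c * n / 2 : ℝ) := by
          intro i _
          obtain ⟨J, hJ1, hJ2⟩ := hJ (A i) (hA i)
          exact main_term E J (A i) hE hor hJ1 c hJ2 W B hB (T i) (hrk i) (hTB i)
        have h7 := Finset.sum_le_card_nsmul _ _ _ h6
        rw [card_univ, Fintype.card_fin, nsmul_eq_mul] at h7
        exact h7
      -- the lower bound
      have hlow : (2 : ℝ) ^ (n : ℝ) ≤ (2 : ℝ) ^ ((E.card / D + 1 : ℕ) : ℝ) * models φ := by
        rw [Real.rpow_natCast, Real.rpow_natCast]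
        exact_mod_cast h3
      have h5 : (2 : ℝ) ^ (n : ℝ) ≤ (2 : ℝ) ^ (((E.card / D + 1 : ℕ) : ℝ) + 1) *
          (N * (W * B * (2 : ℝ) ^ (n - c * n / 2 : ℝ))) := by
        have h6 : (models φ : ℝ) ≤ 2 * (N * (W * B * (2 : ℝ) ^ (n - c * n / 2 : ℝ))) := by
          have := hcorr.trans hup
          linarith
        have h7 := mul_le_mul_of_nonneg_left h6
          (Real.rpow_pos_of_pos (show (0 : ℝ) < 2 by norm_num) ((E.card / D + 1 : ℕ) : ℝ)).le
        rw [Real.rpow_add (by norm_num), Real.rpow_one]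
        refine hlow.trans (h7.trans (le_of_eq ?_))
        ring
      have h6 : (2 : ℝ) ^ (((E.card / D + 1 : ℕ) : ℝ) + 1) ≤ (2 : ℝ) ^ (c * n / 4) :=
        Real.rpow_le_rpow_of_exponent_le (by norm_num) hR
      have h7 : (2 : ℝ) ^ (n : ℝ) ≤ (2 : ℝ) ^ (c * n / 4) *
          (N * (W * B * (2 : ℝ) ^ (n - c * n / 2 : ℝ))) :=
        h5.trans (mul_le_mul_of_nonneg_right h6 (by positivity))
      have h8 : (2 : ℝ) ^ (n : ℝ) = (2 : ℝ) ^ (c / 4 * n) *
          ((2 : ℝ) ^ (c * n / 4) * (2 : ℝ) ^ (n - c * n / 2 : ℝ)) := by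
        rw [← Real.rpow_add (by norm_num), ← Real.rpow_add (by norm_num)]
        congr 1
        ring
      have h9 : (0 : ℝ) < (2 : ℝ) ^ (c * n / 4) * (2 : ℝ) ^ (n - c * n / 2 : ℝ) :=
        mul_pos (Real.rpow_pos_of_pos (by norm_num) _) (Real.rpow_pos_of_pos (by norm_num) _)
      refine le_of_mul_le_mul_right ?_ h9
      rw [← h8]
      refine h7.trans (le_of_eq ?_)
      ring
  · refine ⟨[], Nat.zero_le _, ?_, ?_, ?_⟩
    · intro K hK
      exact absurd hK List.not_mem_nil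
    · unfold models
      rw [Finset.card_pos]
      refine ⟨fun _ => true, mem_filter.2 ⟨mem_univ _, ?_⟩⟩
      intro K hK
      exact absurd hK List.not_mem_nil
    · intro f hf hfφ N W B T A hB hA hTB hrk hfT hn'
      exact absurd hn' hn

end Pool.Agent.VD
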