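import Pool.Agent.VD.St

/-!
# VD, programs with visible determinism have no critical gates
-/

set_option autoImplicit false

namespace Pool.Agent.VD

theorem thm_Visible : St_Visible := by
  intro n ε W s P hV j hc
  obtain ⟨hj, hc⟩ := hc
  have hx₀ : ∃ x₀, (P.kind j = .prod → P.f j x₀ = true) ∧ (P.kind j = .sum → P.f j x₀ = false) := by
    rcases hk : P.kind j with _ | _ | _
    · obtain ⟨x₀, -⟩ := hV.1 j hj true
      exact ⟨x₀, fun h => by simp at h, fun h => by simp at h⟩
    · obtain ⟨x₀, h⟩ := hV.1 j hj true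
      exact ⟨x₀, fun _ => h, fun h => by simp at h⟩
    · obtain ⟨x₀, h⟩ := hV.1 j hj false
      exact ⟨x₀, fun h => by simp at h, fun _ => h⟩
  obtain ⟨x₀, hp, hs⟩ := hx₀
  obtain ⟨x, hx, -, u, hu, i, hi, hik, hE⟩ := hc x₀
  have key : ∀ i, P.Large i → P.kind i = .sum → P.Excl u i := by
    intro i
    induction i using WellFoundedLT.induction with
    | ind i ih =>
      intro hi hk
      refine hV.2 i hi hk x u (fun k hk' => ?_) (fun k hk' hkp hu' => ?_)
        (fun k hk' hks l hl hlu => ?_) (fun k hk' => ih k hk')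
      · exact (hu.2 k fun e => hk' (by rw [e]; exact hj)).1 (Or.inl hk')
      · by_cases hkj : k = j
        · exfalso
          rw [hkj] at hkp hu'
          exact hu.1 (by rw [hu', hx, hp hkp])
        · exact ((hu.2 k hkj).2.1 hk' hkp).1 hu'
      · by_cases hkj : k = j
        · rw [hkj] at hks ⊢
          have h1 := hu.1
          rw [hx, hs hks] at h1
          simpa using h1
        · exact ((hu.2 k hkj).2.2 hk' hks).2 ⟨l, hl, hlu⟩
  exact hE (key i hi hik)

end Pool.Agent.VD
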