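import Pool.Agent.VD.Upp
import Pool.Agent.VD.Vis
import Pool.Agent.VD.Main

/-!
# VD, final assembly
-/

set_option autoImplicit false

namespace Pool.Agent.VD

theorem thm_Final (hH : St_Hard) : St_Final := by
  intro ε hε0 hε
  obtain ⟨c, hc, C, n₀, h⟩ := hH ε hε0 hε
  set m : ℕ := max n₀ 2 with hm
  have hm2 : (2 : ℝ) ≤ m := by
    have : 2 ≤ m := le_max_right _ _
    exact_mod_cast this
  refine ⟨min c (1 / m), C, lt_min hc (by positivity), fun n => ?_⟩
  obtain ⟨φ, h1, h2, h3, h4⟩ := h n
  refine ⟨φ, h1, h2, h3, fun W s P r hW hfar => ?_⟩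
  have key : ∀ B : ℕ, (∀ c, P.IsChain c → (c.map P.fanout).prod ≤ B) →
      (2 : ℝ) ^ (min c (1 / m) * n) ≤ 2 * P.size * W * B := by
    intro B hB
    have hB1 : 1 ≤ B := by
      have := hB [] ⟨fun k hk => by simp at hk, List.isChain_nil⟩
      simpa using this
    have hsz : 1 ≤ P.size := by
      unfold Prog.size
      have := r.pos
      omega
    have hprod : (1 : ℝ) ≤ P.size * W * B := by
      have : 1 ≤ P.size * W * B := Nat.mul_pos (Nat.mul_pos hsz hW) hB1
      exact_mod_cast this
    by_cases hn : m ≤ n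
    · have hn2 : 2 ≤ n := (le_max_right _ _).trans hn
      have hn0 : n₀ ≤ n := (le_max_left _ _).trans hn
      obtain ⟨T, A, hA, hT, hR, hsum⟩ := thm_Upper ε hε0 hε n W s hn2 hW P B hB r
      have h5 := h4 (fun x => if P.f r x then 1 else 0)
        (fun x => by by_cases hx : P.f r x <;> simp [hx])
        (by
          refine le_trans (le_of_eq ?_) hfar
          congr 2
          ext x
          simp)
        P.size W B T A (Nat.cast_nonneg _) hA hT hR hsum hn0
      have h6 : (2 : ℝ) ^ (min c (1 / m) * n) ≤ (2 : ℝ) ^ (c * n) :=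
        Real.rpow_le_rpow_of_exponent_le (by norm_num)
          (mul_le_mul_of_nonneg_right (min_le_left _ _) (Nat.cast_nonneg _))
      refine h6.trans (h5.trans ?_)
      nlinarith
    · have hn' : (n : ℝ) ≤ m := by exact_mod_cast (not_le.1 hn).le
      have h6 : min c (1 / m) * n ≤ 1 := by
        have h7 : min c (1 / (m : ℝ)) * n ≤ 1 / m * m :=
          mul_le_mul (min_le_right _ _) hn' (Nat.cast_nonneg _) (by positivity)
        have h8 : 1 / (m : ℝ) * m = 1 := by
          rw [one_div, inv_mul_cancel₀]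
          linarith
        linarith
      have h7 : (2 : ℝ) ^ (min c (1 / m) * n) ≤ (2 : ℝ) ^ (1 : ℝ) :=
        Real.rpow_le_rpow_of_exponent_le (by norm_num) h6
      rw [Real.rpow_one] at h7
      refine h7.trans ?_
      nlinarith
  refine ⟨fun hV => ?_, key⟩
  have h5 := key 1 (fun c hc => by
    rcases c with _ | ⟨j, t⟩
    · simp
    · exact absurd (hc.1 j (by simp)) (thm_Visible n ε W s P hV j))
  rw [Nat.cast_one, mul_one] at h5
  exact h5

end Pool.Agent.VD
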