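import Pool.Agent.VD.SSt
import Pool.Agent.NG.Rect
import Pool.Agent.NG.Mom
import Pool.Agent.NG.Cover
import Pool.Agent.NG.Rel

/-!
The lower bound for DNNFs of `¬ NaeG`, for simple graphs of degrees at most 3 in which every
balanced set is crossed by linearly many edges.
-/

set_option autoImplicit false

namespace Pool.Agent.VD

open Finset

namespace LB

section

variable {V ι : Type} [Fintype V] [DecidableEq V] [Fintype ι] [DecidableEq ι] (p q : ι → V)

/-- the outer neighbours of the ends of the edge `e` -/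
def Nb (e : ι) : Finset V :=
  univ.filter fun v => v ≠ p e ∧ v ≠ q e ∧ ∃ e', (p e' = v ∧ (q e' = p e ∨ q e' = q e)) ∨
    (q e' = v ∧ (p e' = p e ∨ p e' = q e))

/-- the edges at `v` -/
def inc (v : V) : Finset ι := univ.filter fun e => p e = v ∨ q e = v

/-- the ends of `e` and their neighbours -/
def Bl (e : ι) : Finset V := {p e, q e} ∪ Nb p q e

variable {p q}

omit [DecidableEq ι] in
theorem mem_Nb {e : ι} {v : V} : v ∈ Nb p q e ↔ v ≠ p e ∧ v ≠ q e ∧
    ∃ e', (p e' = v ∧ (q e' = p e ∨ q e' = q e)) ∨ (q e' = v ∧ (p e' = p e ∨ p e' = q e)) := by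
  simp only [Nb, mem_filter, mem_univ, true_and]

omit [Fintype V] [DecidableEq ι] in
theorem mem_inc {e : ι} {v : V} : e ∈ inc p q v ↔ p e = v ∨ q e = v := by
  simp only [inc, mem_filter, mem_univ, true_and]

omit [DecidableEq ι] in
theorem mem_Bl {e : ι} {v : V} : v ∈ Bl p q e ↔ (v = p e ∨ v = q e) ∨ v ∈ Nb p q e := by
  simp only [Bl, mem_union, mem_insert, mem_singleton]

theorem card_Nb_le (hdeg : ∀ v, (inc p q v).card ≤ 3) (e : ι) : (Nb p q e).card ≤ 4 := by
  have h1 : Nb p q e ⊆
      (((inc p q (p e)).erase e).image fun e' => if p e' = p e then q e' else p e') ∪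
      (((inc p q (q e)).erase e).image fun e' => if p e' = q e then q e' else p e') := by
    intro v hv
    obtain ⟨hvp, hvq, e', h⟩ := mem_Nb.1 hv
    rw [mem_union]
    rcases h with ⟨h, h' | h'⟩ | ⟨h, h' | h'⟩
    · left
      refine mem_image.2 ⟨e', mem_erase.2 ⟨?_, mem_inc.2 (Or.inr h')⟩, ?_⟩
      · rintro rfl; exact hvp h.symm
      · rw [if_neg (fun h2 => hvp (h.symm.trans h2))]; exact h
    · right
      refine mem_image.2 ⟨e', mem_erase.2 ⟨?_, mem_inc.2 (Or.inr h')⟩, ?_⟩
      · rintro rfl; exact hvp h.symm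
      · rw [if_neg (fun h2 => hvq (h.symm.trans h2))]; exact h
    · left
      refine mem_image.2 ⟨e', mem_erase.2 ⟨?_, mem_inc.2 (Or.inl h')⟩, ?_⟩
      · rintro rfl; exact hvq h.symm
      · rw [if_pos h']; exact h
    · right
      refine mem_image.2 ⟨e', mem_erase.2 ⟨?_, mem_inc.2 (Or.inl h')⟩, ?_⟩
      · rintro rfl; exact hvq h.symm
      · rw [if_pos h']; exact h
  have h2 : ((inc p q (p e)).erase e).card ≤ 2 := by
    have := hdeg (p e)
    rw [card_erase_of_mem (mem_inc.2 (Or.inl rfl))]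
    omega
  have h3 : ((inc p q (q e)).erase e).card ≤ 2 := by
    have := hdeg (q e)
    rw [card_erase_of_mem (mem_inc.2 (Or.inr rfl))]
    omega
  refine (card_le_card h1).trans ((card_union_le _ _).trans ?_)
  have h4 := card_image_le (s := (inc p q (p e)).erase e)
    (f := fun e' => if p e' = p e then q e' else p e')
  have h5 := card_image_le (s := (inc p q (q e)).erase e)
    (f := fun e' => if p e' = q e then q e' else p e')
  omega

theorem card_Bl_le (hdeg : ∀ v, (inc p q v).card ≤ 3) (e : ι) : (Bl p q e).card ≤ 6 := by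
  unfold Bl
  have h1 := card_union_le ({p e, q e} : Finset V) (Nb p q e)
  have h2 : ({p e, q e} : Finset V).card ≤ 2 := card_le_two
  have h3 := card_Nb_le hdeg e
  omega

theorem card_meet_le (hdeg : ∀ v, (inc p q v).card ≤ 3) (e : ι) :
    (univ.filter fun f => ¬ Disjoint (Bl p q f) (Bl p q e)).card ≤ 108 := by
  have h1 : (univ.filter fun f => ¬ Disjoint (Bl p q f) (Bl p q e)) ⊆
      (Bl p q e).biUnion fun v => (inc p q v).biUnion fun e' =>
        inc p q (p e') ∪ inc p q (q e') := by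
    intro f hf
    rw [mem_filter, Finset.not_disjoint_iff] at hf
    obtain ⟨_, v, hvf, hve⟩ := hf
    refine mem_biUnion.2 ⟨v, hve, ?_⟩
    rcases mem_Bl.1 hvf with (h | h) | h
    · exact mem_biUnion.2 ⟨f, mem_inc.2 (Or.inl h.symm), mem_union_left _ (mem_inc.2 (Or.inl rfl))⟩
    · exact mem_biUnion.2 ⟨f, mem_inc.2 (Or.inr h.symm), mem_union_left _ (mem_inc.2 (Or.inl rfl))⟩
    · obtain ⟨_, _, e', h⟩ := mem_Nb.1 h
      rcases h with ⟨h, h' | h'⟩ | ⟨h, h' | h'⟩
      · exact mem_biUnion.2 ⟨e', mem_inc.2 (Or.inl h),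
          mem_union_right _ (mem_inc.2 (Or.inl h'.symm))⟩
      · exact mem_biUnion.2 ⟨e', mem_inc.2 (Or.inl h),
          mem_union_right _ (mem_inc.2 (Or.inr h'.symm))⟩
      · exact mem_biUnion.2 ⟨e', mem_inc.2 (Or.inr h),
          mem_union_left _ (mem_inc.2 (Or.inl h'.symm))⟩
      · exact mem_biUnion.2 ⟨e', mem_inc.2 (Or.inr h),
          mem_union_left _ (mem_inc.2 (Or.inr h'.symm))⟩
  have h2 : ∀ v, ((inc p q v).biUnion fun e' => inc p q (p e') ∪ inc p q (q e')).card ≤ 18 := by
    intro v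
    refine (card_biUnion_le_card_mul _ _ 6 ?_).trans ?_
    · intro e' _
      have := card_union_le (inc p q (p e')) (inc p q (q e'))
      have := hdeg (p e')
      have := hdeg (q e')
      omega
    · have := hdeg v
      omega
  refine (card_le_card h1).trans ((card_biUnion_le_card_mul _ _ 18 fun v _ => h2 v).trans ?_)
  have := card_Bl_le hdeg e
  omega

theorem exists_Q (hdeg : ∀ v, (inc p q v).card ≤ 3) (F : Finset ι) :
    ∃ Q ⊆ F, F.card ≤ 108 * Q.card ∧
      ∀ i ∈ Q, ∀ j ∈ Q, i ≠ j → Disjoint (Bl p q i) (Bl p q j) := by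
  induction F using Finset.strongInduction with
  | H F ih =>
    rcases F.eq_empty_or_nonempty with rfl | ⟨e, he⟩
    · exact ⟨∅, by simp⟩
    · have hself : ¬ Disjoint (Bl p q e) (Bl p q e) := by
        rw [Finset.not_disjoint_iff]
        exact ⟨p e, mem_Bl.2 (Or.inl (Or.inl rfl)), mem_Bl.2 (Or.inl (Or.inl rfl))⟩
      have hF' : (F.filter fun f => Disjoint (Bl p q f) (Bl p q e)) ⊂ F :=
        filter_ssubset.2 ⟨e, he, hself⟩
      obtain ⟨Q', hQ', hc, hd⟩ := ih _ hF'
      have hmem : ∀ f ∈ Q', Disjoint (Bl p q f) (Bl p q e) := fun f hf =>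
        (mem_filter.1 (hQ' hf)).2
      have heQ : e ∉ Q' := fun h => hself (hmem e h)
      refine ⟨insert e Q', insert_subset he (hQ'.trans (filter_subset _ _)), ?_, ?_⟩
      · rw [card_insert_of_notMem heQ]
        have h1 := card_filter_add_card_filter_not (s := F)
          (fun f => Disjoint (Bl p q f) (Bl p q e))
        have h2 : (F.filter fun f => ¬ Disjoint (Bl p q f) (Bl p q e)).card ≤ 108 :=
          (card_le_card (filter_subset_filter _ (subset_univ F))).trans (card_meet_le hdeg e)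
        omega
      · intro i hi j hj hij
        rcases mem_insert.1 hi with hi' | hi' <;> rcases mem_insert.1 hj with hj' | hj'
        · exact absurd (hi'.trans hj'.symm) hij
        · rw [hi']; exact (hmem j hj').symm
        · rw [hj']; exact hmem i hi'
        · exact hd i hi' j hj' hij

omit [DecidableEq ι] in
/-- the edges outside `T` are still covered if only ends of edges in `T` with `true` outer
neighbours change -/
theorem cov_of_agree {x z : V → Bool} {T : Finset ι}
    (hsimp : ∀ e e', e ≠ e' → ¬ ((p e' = p e ∨ p e' = q e) ∧ (q e' = p e ∨ q e' = q e)))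
    (hx : ∀ e, x (p e) = true ∨ x (q e) = true)
    (hT : ∀ i ∈ T, ∀ v ∈ Nb p q i, x v = true)
    (hd : ∀ i ∈ T, ∀ j ∈ T, p i ∉ Nb p q j ∧ q i ∉ Nb p q j)
    (hagree : ∀ v, (∀ i ∈ T, v ≠ p i ∧ v ≠ q i) → z v = x v) (e : ι) (he : e ∉ T) :
    z (p e) = true ∨ z (q e) = true := by
  have hz : ∀ t ∈ T, ∀ v ∈ Nb p q t, z v = true := by
    intro t ht v hv
    rw [hagree v ?_]
    · exact hT t ht v hv
    · intro i hi
      constructor
      · rintro rfl; exact (hd i hi t ht).1 hv
      · rintro rfl; exact (hd i hi t ht).2 hv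
  by_cases h1 : ∃ t ∈ T, p e = p t ∨ p e = q t
  · obtain ⟨t, ht, h⟩ := h1
    right
    have hte : t ≠ e := by rintro rfl; exact he ht
    have h2 := hsimp t e hte
    apply hz t ht
    rw [mem_Nb]
    refine ⟨fun h3 => h2 ⟨h, Or.inl h3⟩, fun h3 => h2 ⟨h, Or.inr h3⟩, e, Or.inr ⟨rfl, h⟩⟩
  · by_cases h2 : ∃ t ∈ T, q e = p t ∨ q e = q t
    · obtain ⟨t, ht, h⟩ := h2
      left
      have hte : t ≠ e := by rintro rfl; exact he ht
      have h2 := hsimp t e hte
      apply hz t ht
      rw [mem_Nb]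
      refine ⟨fun h3 => h2 ⟨Or.inl h3, h⟩, fun h3 => h2 ⟨Or.inr h3, h⟩, e, Or.inl ⟨rfl, h⟩⟩
    · push Not at h1 h2
      rw [hagree _ h1, hagree _ h2]
      exact hx e

omit [Fintype V] [DecidableEq V] [Fintype ι] [DecidableEq ι] in
theorem nae_of {γ : ι → Fin 3} {c : Fin 3} {z : V → Bool}
    (h1 : ∀ d, d ≠ c → CovG p q γ d z) (h2 : ¬ CovG p q γ c z) : NaeG p q γ z := by
  unfold NaeG
  fin_cases c
  · have := h1 1 (by decide)
    simp only [Fin.zero_eta, Fin.isValue] at h2
    tauto
  · have := h1 0 (by decide)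
    simp only [Fin.mk_one, Fin.isValue] at h2
    tauto
  · have := h1 1 (by decide)
    simp only [Fin.reduceFinMk, Fin.isValue] at h2
    tauto

omit [Fintype V] [DecidableEq V] [Fintype ι] [DecidableEq ι] in
theorem not_nae_of_cov {γ : ι → Fin 3} {x : V → Bool}
    (h : ∀ e, x (p e) = true ∨ x (q e) = true) : ¬ NaeG p q γ x := by
  unfold NaeG
  have h' : ∀ c, CovG p q γ c x := fun c e _ => h e
  have := h' 0
  have := h' 1
  have := h' 2
  tauto

/-- the bound for one class -/
theorem class_bound (h3 : NG.St_Rect) (h4 : NG.St_Mom) {γ : ι → Fin 3} {c : Fin 3}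
    (hpq : ∀ e, p e ≠ q e)
    (hsimp : ∀ e e', e ≠ e' → ¬ ((p e' = p e ∨ p e' = q e) ∧ (q e' = p e ∨ q e' = q e)))
    (hdeg : ∀ v, (inc p q v).card ≤ 3)
    (A Y : Finset (V → Bool))
    (hA : ∀ x, x ∈ A ↔ ∀ e, x (p e) = true ∨ x (q e) = true) (hYA : Y ⊆ A)
    (S : Finset V) (Q : Finset ι) (hγ : ∀ i ∈ Q, γ i = c)
    (hcross : ∀ i ∈ Q, ¬ (p i ∈ S ↔ q i ∈ S))
    (hdis : ∀ i ∈ Q, ∀ j ∈ Q, i ≠ j → Disjoint (Bl p q i) (Bl p q j))
    (hmix : ∀ x ∈ Y, ∀ y ∈ Y, ¬ NaeG p q γ (NG.mix S x y)) :
    (Y.card : ℝ) ≤ (47 / 48 : ℝ) ^ Q.card * A.card := by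
  let p' : ι → V := fun i => if p i ∈ S then p i else q i
  let q' : ι → V := fun i => if p i ∈ S then q i else p i
  have hpq' : ∀ i, (p' i = p i ∧ q' i = q i ∧ p i ∈ S) ∨
      (p' i = q i ∧ q' i = p i ∧ p i ∉ S) := by
    intro i
    simp only [p', q']
    split_ifs with h <;> simp [h]
  have hpS : ∀ i ∈ Q, p' i ∈ S := by
    intro i hi
    have h5 := hcross i hi
    rcases hpq' i with h | h
    · rw [h.1]; exact h.2.2
    · rw [h.1]
      by_contra hcon
      exact h5 ⟨fun h6 => absurd h6 h.2.2, fun h6 => absurd h6 hcon⟩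
  have hqS : ∀ i ∈ Q, q' i ∉ S := by
    intro i hi
    have h5 := hcross i hi
    rcases hpq' i with h | h
    · rw [h.2.1]
      intro hcon
      exact h5 ⟨fun _ => hcon, fun _ => h.2.2⟩
    · rw [h.2.1]; exact h.2.2
  have hpB : ∀ i, p i ∈ Bl p q i := fun i => mem_Bl.2 (Or.inl (Or.inl rfl))
  have hqB : ∀ i, q i ∈ Bl p q i := fun i => mem_Bl.2 (Or.inl (Or.inr rfl))
  have hpB' : ∀ i, p' i ∈ Bl p q i := by
    intro i
    rcases hpq' i with h | h
    · rw [h.1]; exact hpB i
    · rw [h.1]; exact hqB i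
  have hqB' : ∀ i, q' i ∈ Bl p q i := by
    intro i
    rcases hpq' i with h | h
    · rw [h.2.1]; exact hqB i
    · rw [h.2.1]; exact hpB i
  have hNB : ∀ i v, v ∈ Nb p q i → v ∈ Bl p q i := fun i v hv => mem_Bl.2 (Or.inr hv)
  -- the ends of the edges in `Q` are no outer neighbours
  have heo : ∀ i ∈ Q, ∀ j ∈ Q, p i ∉ Nb p q j ∧ q i ∉ Nb p q j := by
    intro i hi j hj
    by_cases hij : i = j
    · subst hij
      exact ⟨fun h => (mem_Nb.1 h).1 rfl, fun h => (mem_Nb.1 h).2.1 rfl⟩
    · have h5 := Finset.disjoint_left.1 (hdis i hi j hj hij)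
      exact ⟨fun h => h5 (hpB i) (hNB j _ h), fun h => h5 (hqB i) (hNB j _ h)⟩
  have heo' : ∀ i ∈ Q, ∀ j ∈ Q, p' i ∉ Nb p q j ∧ q' i ∉ Nb p q j := by
    intro i hi j hj
    have h5 := heo i hi j hj
    rcases hpq' i with h | h
    · rw [h.1, h.2.1]; exact h5
    · rw [h.1, h.2.1]; exact ⟨h5.2, h5.1⟩
  have hends : ∀ i v, v ≠ p' i ∧ v ≠ q' i ↔ v ≠ p i ∧ v ≠ q i := by
    intro i v
    rcases hpq' i with h | h
    · rw [h.1, h.2.1]
    · rw [h.1, h.2.1]; exact and_comm
  have hne : ∀ {s t : Finset V} {u v : V}, Disjoint s t → u ∈ s → v ∈ t → u ≠ v := by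
    intro s t u v h hu hv huv
    exact Finset.disjoint_left.1 h hu (huv ▸ hv)
  have hpqne : ∀ i, p' i ≠ q' i := by
    intro i
    rcases hpq' i with h | h
    · rw [h.1, h.2.1]; exact hpq i
    · rw [h.1, h.2.1]; exact (hpq i).symm
  have hR := h3 V ι Q p' q' (fun i => Nb p q i) A Y
    (fun i _ => hpqne i)
    (by
      intro i hi j hj hij
      have h5 := hdis i hi j hj hij
      exact ⟨hne h5 (hpB' i) (hpB' j), hne h5 (hpB' i) (hqB' j), hne h5 (hqB' i) (hqB' j)⟩)
    heo'
    (by
      intro x hx i hi hN a b hab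
      rw [hA] at hx ⊢
      set z := Function.update (Function.update x (p' i) a) (q' i) b with hz
      have hagree : ∀ v, v ≠ p' i ∧ v ≠ q' i → z v = x v := by
        intro v hv
        rw [hz, Function.update_of_ne hv.2, Function.update_of_ne hv.1]
      have hzp : z (p' i) = a := by
        rw [hz, Function.update_of_ne (hpqne i), Function.update_self]
      have hzq : z (q' i) = b := by
        rw [hz, Function.update_self]
      intro k
      by_cases hk : k = i
      · subst hk
        rcases hpq' k with h | h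
        · rw [h.1] at hzp; rw [h.2.1] at hzq
          rw [hzp, hzq]; exact hab
        · rw [h.1] at hzp; rw [h.2.1] at hzq
          rw [hzp, hzq]; exact hab.symm
      · refine cov_of_agree (T := {i}) hsimp hx ?_ ?_ ?_ k ?_
        · intro j hj v hv
          rw [Finset.mem_singleton] at hj
          subst hj
          exact hN v hv
        · intro j hj l hl
          rw [Finset.mem_singleton] at hj hl
          subst hj; subst hl
          exact heo _ hi _ hi
        · intro v hv
          exact hagree v ((hends i v).2 (hv i (Finset.mem_singleton_self i)))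
        · rw [Finset.mem_singleton]; exact hk)
    hYA
    (by
      intro x hx y hy T hTQ hagree hN i hi ⟨hxp, hyq⟩
      apply hmix x hx y hy
      have hxA := (hA x).1 (hYA hx)
      have hz : ∀ v, (∀ t ∈ T, v ≠ p t ∧ v ≠ q t) → NG.mix S x y v = x v := by
        intro v hv
        have h6 : x v = y v := hagree v fun t ht => (hends t v).2 (hv t ht)
        unfold NG.mix
        split_ifs with h
        · rfl
        · exact h6.symm
      apply nae_of (c := c)
      · intro d hd e he
        apply cov_of_agree (T := T) hsimp hxA (fun t ht v hv => hN t ht v hv)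
          (fun t ht t' ht' => heo t (hTQ ht) t' (hTQ ht')) hz
        intro heT
        exact hd (he.symm.trans (hγ e (hTQ heT)))
      · intro hcov
        have hzp : NG.mix S x y (p' i) = false := by
          unfold NG.mix
          rw [if_pos (hpS i (hTQ hi))]; exact hxp
        have hzq : NG.mix S x y (q' i) = false := by
          unfold NG.mix
          rw [if_neg (hqS i (hTQ hi))]; exact hyq
        have h6 := hcov i (hγ i (hTQ hi))
        rcases hpq' i with h | h
        · rw [h.1] at hzp; rw [h.2.1] at hzq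
          rw [hzp, hzq] at h6
          simp at h6
        · rw [h.1] at hzp; rw [h.2.1] at hzq
          rw [hzp, hzq] at h6
          simp at h6)
  refine hR.trans ?_
  apply h4 V ι Q (fun i => Nb p q i) A
  · intro i _
    exact card_Nb_le hdeg i
  · intro i hi j hj hij
    exact Finset.disjoint_of_subset_left (fun v hv => hNB i v hv)
        (Finset.disjoint_of_subset_right (fun v hv => hNB j v hv) (hdis i hi j hj hij))
  · intro x hx i _
    rw [hA] at hx ⊢
    intro k
    rcases hx k with h | h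
    · left
      simp only [h, ite_self]
    · right
      simp only [h, ite_self]

end

end LB

open LB in
theorem thm_LB : St_LB := by
  classical
  intro r
  have h3 := NG.thm_Rect
  have h4 := NG.thm_Mom
  have h5 := NG.thm_Cover
  set R : ℝ := 324 * (r + 1) with hR
  have hRpos : 0 < R := by positivity
  set δ : ℝ := Real.logb 2 (48 / 47) / R with hδ
  have hlog : 0 < Real.logb 2 (48 / 47) := Real.logb_pos (by norm_num) (by norm_num)
  have hδpos : 0 < δ := div_pos hlog hRpos
  refine ⟨δ / 2, max 2 ⌈2 / δ⌉₊, by positivity, ?_⟩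
  intro V ι _ _ _ _ p q γ hcard hpq hsimp hdeg hexp G hG hleaf hiff
  set n := Fintype.card V with hn
  have hn2 : 2 ≤ n := le_trans (le_max_left _ _) hcard
  have hnδ : 2 / δ ≤ n := by
    have : ⌈2 / δ⌉₊ ≤ n := le_trans (le_max_right _ _) hcard
    exact (Nat.le_ceil _).trans (by exact_mod_cast this)
  -- the circuit over `V ⊕ Empty`
  let ee : V ≃ V ⊕ Empty := (Equiv.sumEmpty V Empty).symm
  have hee : ∀ v, ee v = Sum.inl v := fun v => rfl
  have hval : ∀ (x : V → Bool) (z : Empty → Bool),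
      (G.rel ee (fun _ => none)).eval (Sum.elim x z) = G.eval x := by
    intro x z
    rw [NG.Circuit.rel_eval]
    rfl
  obtain ⟨g, S, hS, hmix⟩ : ∃ (g : (V → Bool) → Fin (2 * G.size))
      (S : Fin (2 * G.size) → Finset V),
      (∀ j, n ≤ 3 * (S j).card ∧ 3 * (S j).card ≤ 2 * n) ∧
      ∀ x y, (∃ z, (G.rel ee (fun _ => none)).eval (Sum.elim x z) = true) →
        (∃ z, (G.rel ee (fun _ => none)).eval (Sum.elim y z) = true) →
        g x = g y → ∃ z : Empty → Bool,
          (G.rel ee (fun _ => none)).eval (Sum.elim (NG.mix (S (g x)) x y) z) = true :=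
    h5 V Empty (G.rel ee (fun _ => none)) hn2
    (NG.Circuit.rel_isDNNF hG ee _) (by
      intro i hi T' f' hf
      obtain ⟨T, f, hT, rfl, _⟩ := NG.Circuit.rel_gate_leaf hf
      refine le_trans (le_of_eq ?_) (hleaf i hi T f hT)
      congr 2
      ext v
      simp only [mem_filter, mem_univ, true_and, mem_map_equiv]
      rfl)
  set A : Finset (V → Bool) := univ.filter fun x => ∀ e, x (p e) = true ∨ x (q e) = true with hAdef
  have hA : ∀ x, x ∈ A ↔ ∀ e, x (p e) = true ∨ x (q e) = true := by intro x; rw [hAdef]; simp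
  have hAne : 0 < A.card := by
    apply Finset.card_pos.2
    exact ⟨fun _ => true, (hA _).2 (fun e => Or.inl rfl)⟩
  have hmodel : ∀ x ∈ A, ∃ z : Empty → Bool,
      (G.rel ee (fun _ => none)).eval (Sum.elim x z) = true := by
    intro x hx
    refine ⟨fun e => e.elim, ?_⟩
    rw [hval]
    exact (hiff x).2 (not_nae_of_cov ((hA x).1 hx))
  -- each class is small
  have hclass : ∀ j : Fin (2 * G.size), ((A.filter fun x => g x = j).card : ℝ) ≤
      (2 : ℝ) ^ (-(δ * n)) * A.card := by
    intro j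
    have hSj := hS j
    have hC := hexp (S j) hSj.1 hSj.2
    -- the most frequent group
    obtain ⟨c, hc⟩ : ∃ c : Fin 3, (univ.filter fun e => ¬ (p e ∈ S j ↔ q e ∈ S j)).card ≤
        3 * (univ.filter fun e => γ e = c ∧ ¬ (p e ∈ S j ↔ q e ∈ S j)).card := by
      by_contra hcon
      rw [not_exists] at hcon
      have h6 : (univ.filter fun e => ¬ (p e ∈ S j ↔ q e ∈ S j)).card =
          ∑ c : Fin 3, ((univ.filter fun e => ¬ (p e ∈ S j ↔ q e ∈ S j)).filter
            fun e => γ e = c).card :=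
        Finset.card_eq_sum_card_fiberwise (fun x _ => Finset.mem_coe.2 (mem_univ _))
      have h7 : ∀ c : Fin 3, ((univ.filter fun e => ¬ (p e ∈ S j ↔ q e ∈ S j)).filter
            fun e => γ e = c) = univ.filter fun e => γ e = c ∧ ¬ (p e ∈ S j ↔ q e ∈ S j) := by
        intro c
        ext e
        simp only [mem_filter, mem_univ, true_and]
        exact and_comm
      rw [Fin.sum_univ_three, h7, h7, h7] at h6
      have a0 := not_le.1 (hcon 0)
      have a1 := not_le.1 (hcon 1)
      have a2 := not_le.1 (hcon 2)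
      omega
    obtain ⟨Q, hQF, hcard, hdis⟩ := exists_Q (p := p) (q := q) hdeg
      (univ.filter fun e => γ e = c ∧ ¬ (p e ∈ S j ↔ q e ∈ S j))
    have hQ : ∀ i ∈ Q, γ i = c ∧ ¬ (p i ∈ S j ↔ q i ∈ S j) := fun i hi =>
      (mem_filter.1 (hQF hi)).2
    have hb := class_bound (c := c) h3 h4 hpq hsimp hdeg A (A.filter fun x => g x = j) hA
      (filter_subset _ _) (S j) Q (fun i hi => (hQ i hi).1) (fun i hi => (hQ i hi).2) hdis (by
        intro x hx y hy
        have hx' := mem_filter.1 hx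
        have hy' := mem_filter.1 hy
        obtain ⟨z, hz⟩ := hmix x y (hmodel x hx'.1) (hmodel y hy'.1) (hx'.2.trans hy'.2.symm)
        rw [hval, hx'.2] at hz
        exact (hiff _).1 hz)
    refine hb.trans ?_
    apply mul_le_mul_of_nonneg_right _ (Nat.cast_nonneg _)
    -- numerics
    have hQm : (n : ℝ) ≤ R * Q.card := by
      have h6 : n ≤ (r + 1) * (324 * Q.card) := by
        calc n ≤ r * (univ.filter fun e => ¬ (p e ∈ S j ↔ q e ∈ S j)).card := hC
          _ ≤ (r + 1) * (univ.filter fun e => ¬ (p e ∈ S j ↔ q e ∈ S j)).card :=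
            Nat.mul_le_mul_right _ (Nat.le_succ _)
          _ ≤ (r + 1) * (324 * Q.card) := Nat.mul_le_mul_left _ (by omega)
      have h7 : (n : ℝ) ≤ (r + 1) * (324 * Q.card) := by exact_mod_cast h6
      rw [hR]; linarith
    have e1 : (47 / 48 : ℝ) = (2 : ℝ) ^ (-Real.logb 2 (48 / 47)) := by
      rw [Real.rpow_neg (by norm_num), Real.rpow_logb (by norm_num) (by norm_num) (by norm_num)]
      norm_num
    rw [e1, ← Real.rpow_natCast, ← Real.rpow_mul (by norm_num)]
    apply Real.rpow_le_rpow_of_exponent_le (by norm_num)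
    have h8 : δ * n ≤ Real.logb 2 (48 / 47) * Q.card := by
      rw [hδ, div_mul_eq_mul_div, div_le_iff₀ hRpos, mul_assoc]
      apply mul_le_mul_of_nonneg_left _ hlog.le
      linarith
    linarith
  -- sum over the classes
  have hsum : (A.card : ℝ) ≤ (2 * G.size) * ((2 : ℝ) ^ (-(δ * n)) * A.card) := by
    have h6 : A.card = ∑ j : Fin (2 * G.size), (A.filter fun x => g x = j).card :=
      Finset.card_eq_sum_card_fiberwise (fun x _ => Finset.mem_coe.2 (mem_univ _))
    calc (A.card : ℝ) = ∑ j : Fin (2 * G.size), ((A.filter fun x => g x = j).card : ℝ) := by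
          rw [h6]; push_cast; rfl
      _ ≤ ∑ _j : Fin (2 * G.size), (2 : ℝ) ^ (-(δ * n)) * A.card :=
          Finset.sum_le_sum (fun j _ => hclass j)
      _ = (2 * G.size) * ((2 : ℝ) ^ (-(δ * n)) * A.card) := by
          rw [Finset.sum_const, Finset.card_univ, Fintype.card_fin, nsmul_eq_mul]
          push_cast; ring
  have hApos : (0 : ℝ) < A.card := by exact_mod_cast hAne
  have h9 : 1 ≤ 2 * G.size * (2 : ℝ) ^ (-(δ * n)) := by
    by_contra hcon
    push Not at hcon
    have : (2 * G.size) * ((2 : ℝ) ^ (-(δ * n)) * A.card) < A.card := by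
      calc (2 * G.size) * ((2 : ℝ) ^ (-(δ * n)) * A.card) =
          (2 * G.size * (2 : ℝ) ^ (-(δ * n))) * A.card := by ring
        _ < 1 * A.card := mul_lt_mul_of_pos_right hcon hApos
        _ = A.card := one_mul _
    linarith
  have hpow : (0 : ℝ) < (2 : ℝ) ^ (δ * n) := Real.rpow_pos_of_pos (by norm_num) _
  rw [Real.rpow_neg (by norm_num), ← div_eq_mul_inv, le_div_iff₀ hpow, one_mul] at h9
  have h10 : (2 : ℝ) ^ (δ * n) ≤ 2 * G.size := h9
  have h11 : 1 ≤ δ * n / 2 := by
    rw [div_le_iff₀ hδpos] at hnδ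
    linarith
  have h12 : (2 : ℝ) ^ (δ / 2 * (n : ℝ)) * 2 ≤ (2 : ℝ) ^ (δ * n) := by
    calc (2 : ℝ) ^ (δ / 2 * (n : ℝ)) * 2
        = (2 : ℝ) ^ (δ / 2 * (n : ℝ)) * (2 : ℝ) ^ (1 : ℝ) := by rw [Real.rpow_one]
      _ = (2 : ℝ) ^ (δ / 2 * (n : ℝ) + 1) := by rw [Real.rpow_add (by norm_num)]
      _ ≤ (2 : ℝ) ^ (δ * n) := by
          apply Real.rpow_le_rpow_of_exponent_le (by norm_num)
          linarith
  linarith

end Pool.Agent.VD
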