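import Pool.Agent.VD.Fin
import Pool.Agent.VD.AS
import Pool.Agent.VD.LB
import Pool.Agent.VD.EX
import Pool.Agent.VD.FN

/-!
# VD, both halves of the result
-/

set_option autoImplicit false

namespace Pool.Agent.VD

theorem thm_Both : St_Final ∧ St_Sep :=
  ⟨thm_Final thm_Hard, thm_Sep thm_LB thm_EX thm_FN⟩

end Pool.Agent.VD
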