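import Pool.Agent.VD.Dp

/-!
# VD, faults: the derivative with respect to a gate which is not critical is at most one
-/

set_option autoImplicit false

namespace Pool.Agent.VD

open Finset Matrix
open scoped Classical

namespace Prog

variable {n : ℕ} {ε : ℝ} {W s : ℕ} (P : Prog n ε W s)

/-- the local condition of a fault -/
def Loc (x : Cube n) (j : Fin s) (u : Fin s → Bool) (i : Fin s) : Prop :=
  (i = j → u i ≠ P.f j x) ∧ (i ≠ j →
    (¬ P.Large i ∨ P.kind i = .leaf → u i = P.f i x) ∧
    (P.Large i → P.kind i = .prod → (u i = true ↔ ∀ l ∈ P.L i, u l.1 = l.2)) ∧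
    (P.Large i → P.kind i = .sum → (u i = true ↔ ∃ l ∈ P.L i, u l.1 = l.2)))

theorem fault_iff (x : Cube n) (j : Fin s) (u : Fin s → Bool) :
    P.Fault x j u ↔ ∀ i, P.Loc x j u i := by
  constructor
  · rintro ⟨h1, h2⟩ i
    exact ⟨fun h => by rw [h]; exact h1, fun h => h2 i h⟩
  · intro h
    exact ⟨(h j).1 rfl, fun i hi => (h i).2 hi⟩

theorem loc_congr {x : Cube n} {j : Fin s} {u u' : Fin s → Bool} {i : Fin s}
    (h : ∀ k ≤ i, u k = u' k) (hl : P.Loc x j u i) : P.Loc x j u' i := by
  have e : ∀ l ∈ P.L i, (u l.1 = l.2 ↔ u' l.1 = l.2) := by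
    intro l hl'
    rw [h l.1 (P.input i l hl').1.le]
  have e1 : (∀ l ∈ P.L i, u l.1 = l.2) ↔ ∀ l ∈ P.L i, u' l.1 = l.2 :=
    forall₂_congr e
  have e2 : (∃ l ∈ P.L i, u l.1 = l.2) ↔ ∃ l ∈ P.L i, u' l.1 = l.2 :=
    exists_congr fun l => and_congr_right fun hl' => e l hl'
  unfold Loc at hl ⊢
  rw [h i le_rfl, e1, e2] at hl
  exact hl

theorem exists_fault (x : Cube n) (j : Fin s) : ∃ u, P.Fault x j u := by
  have key : ∀ t : ℕ, t ≤ s → ∃ u : Fin s → Bool, ∀ i : Fin s, (i : ℕ) < t → P.Loc x j u i := by
    intro t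
    induction t with
    | zero => exact fun _ => ⟨fun _ => true, fun i hi => absurd hi (Nat.not_lt_zero _)⟩
    | succ t ih =>
      intro ht
      obtain ⟨u, hu⟩ := ih (by omega)
      set g : Fin s := ⟨t, ht⟩ with hg
      set w : Bool := if g = j then !(P.f j x) else
        if ¬ P.Large g ∨ P.kind g = .leaf then P.f g x else
          if P.kind g = .prod then decide (∀ l ∈ P.L g, u l.1 = l.2) else
            decide (∃ l ∈ P.L g, u l.1 = l.2) with hw
      have hlt : ∀ k : Fin s, k < g → Function.update u g w k = u k := by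
        intro k hk
        exact Function.update_of_ne (ne_of_lt hk) _ _
      refine ⟨Function.update u g w, fun i hi => ?_⟩
      rcases Nat.lt_succ_iff_lt_or_eq.1 hi with hi' | hi'
      · refine P.loc_congr (fun k hk => ?_) (hu i hi')
        symm
        refine hlt k ?_
        rw [Fin.lt_def, hg]
        exact lt_of_le_of_lt hk hi'
      · have hig : i = g := Fin.ext hi'
        have e1 : (∀ l ∈ P.L g, Function.update u g w l.1 = l.2) ↔ ∀ l ∈ P.L g, u l.1 = l.2 :=
          forall₂_congr fun l hl => by rw [hlt l.1 (P.input g l hl).1]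
        have e2 : (∃ l ∈ P.L g, Function.update u g w l.1 = l.2) ↔
            ∃ l ∈ P.L g, u l.1 = l.2 :=
          exists_congr fun l => and_congr_right fun hl => by rw [hlt l.1 (P.input g l hl).1]
        rw [hig]
        unfold Loc
        rw [Function.update_self, e1, e2]
        refine ⟨fun h => ?_, fun h => ⟨fun h1 => ?_, fun h1 h2 => ?_, fun h1 h2 => ?_⟩⟩
        · rw [hw, if_pos h]
          exact Bool.not_ne_self _
        · rw [hw, if_neg h, if_pos h1]
        · have h3 : ¬ (¬ P.Large g ∨ P.kind g = .leaf) := by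
            rw [h2]
            simp [h1]
          rw [hw, if_neg h, if_neg h3, if_pos h2, decide_eq_true_iff]
        · have h3 : ¬ (¬ P.Large g ∨ P.kind g = .leaf) := by
            rw [h2]
            simp [h1]
          have h4 : ¬ P.kind g = .prod := by
            rw [h2]
            simp
          rw [hw, if_neg h, if_neg h3, if_neg h4, decide_eq_true_iff]
  obtain ⟨u, hu⟩ := key s le_rfl
  exact ⟨u, (P.fault_iff x j u).2 fun i => hu i i.2⟩

/-- the gates before the fault are correct -/
theorem fault_lt {x : Cube n} {j : Fin s} {u : Fin s → Bool} (h : P.Fault x j u) (i : Fin s)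
    (hi : i < j) : u i = P.f i x := by
  induction i using WellFoundedLT.induction with
  | ind i ih =>
    have hin : ∀ l ∈ P.L i, u l.1 = P.f l.1 x := fun l hl =>
      ih l.1 (P.input i l hl).1 ((P.input i l hl).1.trans hi)
    obtain ⟨h1, h2, h3⟩ := h.2 i (ne_of_lt hi)
    by_cases hk : ¬ P.Large i ∨ P.kind i = .leaf
    · exact h1 hk
    · push Not at hk
      obtain ⟨hL, hk⟩ := hk
      rcases hkk : P.kind i with _ | _ | _
      · exact absurd hkk hk
      · rw [Bool.eq_iff_iff, h2 hL hkk, P.prod i hL hkk x]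
        exact forall₂_congr fun l hl => by rw [hin l hl]
      · rw [Bool.eq_iff_iff, h3 hL hkk, P.sum i hL hkk x]
        exact exists_congr fun l => and_congr_right fun hl => by rw [hin l hl]

/-- the linear system of a harmless fault -/
theorem fault_sys (hε : ε ≤ 1 / 3) (hn : 1 ≤ n) {x : Cube n} {j : Fin s} {u : Fin s → Bool}
    (hj : P.Large j) (h : P.Fault x j u)
    (hex : ∀ i, P.Large i → P.kind i = .sum → P.Excl u i) (i : Fin s) :
    rv u i = P.cc x i + ∑ k, P.M x i k * rv u k +
      if i = j then rv u j - P.F x j else 0 := by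
  have hsm : ∀ k, ¬ P.Large k → rv u k = P.F x k := by
    intro k hk
    have hkj : k ≠ j := fun e => hk (by rw [e]; exact hj)
    have h1 := (h.2 k hkj).1 (Or.inl hk)
    unfold rv F
    rw [h1]
  by_cases hij : i = j
  · rw [hij, if_pos rfl]
    have h1 := P.F_sys hε hn x j
    have h2 : ∑ k, P.M x j k * rv u k = ∑ k, P.M x j k * P.F x k := by
      refine Finset.sum_congr rfl fun k _ => ?_
      by_cases h0 : P.M x j k = 0
      · rw [h0, zero_mul, zero_mul]
      · have h3 := P.fault_lt h k (P.M_lt x h0).1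
        unfold rv F
        rw [h3]
    rw [h2, ← h1]
    ring
  · rw [if_neg hij, add_zero]
    obtain ⟨h1, h2, h3⟩ := h.2 i hij
    by_cases hk : ¬ P.Large i ∨ P.kind i = .leaf
    · rw [P.cc_leaf x hk, Finset.sum_eq_zero fun k _ => by rw [P.M_leaf x hk, zero_mul],
        add_zero]
      unfold rv F
      rw [h1 hk]
    · push Not at hk
      obtain ⟨hL, hk⟩ := hk
      rcases hkk : P.kind i with _ | _ | _
      · exact absurd hkk hk
      · rw [← P.prod_eval hε hn x _ hsm hL hkk]
        by_cases ht : u i = true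
        · unfold rv
          rw [if_pos ht]
          symm
          refine Finset.prod_eq_one fun l hl => ?_
          have := lv_rv u l
          rw [if_pos ((h2 hL hkk).1 ht l hl)] at this
          exact this
        · have h4 : ¬ ∀ l ∈ P.L i, u l.1 = l.2 := fun h4 => ht ((h2 hL hkk).2 h4)
          push Not at h4
          obtain ⟨l, hl, hl'⟩ := h4
          unfold rv
          rw [if_neg ht]
          symm
          refine Finset.prod_eq_zero hl ?_
          have := lv_rv u l
          rw [if_neg hl'] at this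
          exact this
      · rw [← P.sum_eval x _ hsm hL hkk]
        have hE := hex i hL hkk
        by_cases ht : u i = true
        · obtain ⟨l₀, hl₀, h4⟩ := (h3 hL hkk).1 ht
          rw [Finset.sum_eq_single_of_mem l₀ hl₀]
          · rw [lv_rv, if_pos h4]
            unfold rv
            rw [if_pos ht]
          · intro l hl hne
            rw [lv_rv, if_neg (fun h5 => hne (hE l hl l₀ hl₀ h5 h4))]
        · have h4 : ¬ ∃ l ∈ P.L i, u l.1 = l.2 := fun h4 => ht ((h3 hL hkk).2 h4)
          push Not at h4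
          rw [Finset.sum_eq_zero]
          · unfold rv
            rw [if_neg ht]
          · intro l hl
            rw [lv_rv, if_neg (h4 l hl)]

theorem abs_D_le_one (hε : ε ≤ 1 / 3) (hn : 1 ≤ n) {j : Fin s} (hj : P.Large j)
    (hc : ¬ P.Critical j) (x : Cube n) (r : Fin s) : |P.D x r j| ≤ 1 := by
  unfold Critical at hc
  push Not at hc
  obtain ⟨x₀, hx₀⟩ := hc hj
  set x' : Cube n := fun v => if v ∈ P.S j then x₀ v else x v with hx'
  have hin : ∀ v ∈ P.S j, x' v = x₀ v := fun v hv => by rw [hx']; exact if_pos hv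
  have hout : ∀ v, v ∉ P.S j → x v = x' v := fun v hv => by rw [hx']; exact (if_neg hv).symm
  rw [(P.D_dep r j).2 x x' hout]
  obtain ⟨u, hu⟩ := P.exists_fault x' j
  have hex := hx₀ x' (P.dep j x' x₀ hin)
    (fun l hl => P.dep l.1 x' x₀ fun v hv => hin v ((P.input j l hl).2 hv)) u hu
  have h1 := P.solve x' (rv u) j (rv u j - P.F x' j)
    (P.fault_sys hε hn hj hu hex) r
  rw [← P.F_expand hε hn x' r] at h1
  have h2 : |P.D x' r j| * |rv u j - P.F x' j| = |rv u r - P.F x' r| := by
    rw [← abs_mul]
    congr 1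
    linarith
  have h3 : |rv u j - P.F x' j| = 1 := by
    have h4 := hu.1
    unfold rv F
    cases h5 : u j <;> cases h6 : P.f j x' <;> simp [h5, h6] at h4 ⊢
  have h4 : |rv u r - P.F x' r| ≤ 1 := by
    unfold rv F
    cases u r <;> cases P.f r x' <;> simp
  rw [h3, mul_one] at h2
  rw [h2]
  exact h4

end Prog

end Pool.Agent.VD
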