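import Pool.Agent.VD.Disc
import Pool.Agent.WD.IndM
import Pool.Agent.WD.Gra

/-!
# VD / Gra: graphs of bounded degree with large induced matchings across all balanced sets
-/

set_option autoImplicit false

namespace Pool.Agent.VD

open Finset
open Pool.Agent.Dichotomy (exists_expander Exp bd mem_bd)
open Pool.Agent.WD (Ind indm_N indm_N_card indm_N_mem gra_cross gra_compl)

/-- greedy choice of an induced matching -/
theorem gra_indm {K : Type} [Fintype K] [DecidableEq K] (E : Finset (K × K)) (Δ : ℕ)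
    (hE : ∀ v, (E.filter fun e => e.1 = v ∨ e.2 = v).card ≤ Δ) (X : Finset (K × K))
    (hX : X ⊆ E) : ∃ J ⊆ X, Ind E J ∧ X.card ≤ (2 * Δ + 2) * Δ * J.card := by
  classical
  have hne : (X.powerset.filter fun J => Ind E J).Nonempty := by
    refine ⟨∅, mem_filter.2 ⟨empty_mem_powerset _, empty_subset _, ?_⟩⟩
    intro e he
    exact absurd he (notMem_empty _)
  obtain ⟨J, hJ, hmax⟩ := Finset.exists_max_image _ (fun J => J.card) hne
  rw [mem_filter, mem_powerset] at hJ
  refine ⟨J, hJ.1, hJ.2, ?_⟩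
  have hcov : X ⊆ J.biUnion fun e => (indm_N E e).biUnion fun v =>
      E.filter fun e' => e'.1 = v ∨ e'.2 = v := by
    intro e' he'
    by_contra hcon
    have hno : ∀ e ∈ J, ∀ u v, (u = e.1 ∨ u = e.2) → (v = e'.1 ∨ v = e'.2) →
        u ≠ v ∧ (u, v) ∉ E ∧ (v, u) ∉ E := by
      intro e he u v hu hv
      by_contra hc
      refine hcon (mem_biUnion.2 ⟨e, he, mem_biUnion.2 ⟨v, ?_, ?_⟩⟩)
      · refine indm_N_mem hu ?_
        by_contra hd
        rw [not_or, not_or] at hd
        exact hc hd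
      · refine mem_filter.2 ⟨hX he', ?_⟩
        rcases hv with hv | hv
        · exact Or.inl hv.symm
        · exact Or.inr hv.symm
    have hnot : e' ∉ J := fun h => (hno e' h e'.1 e'.1 (Or.inl rfl) (Or.inl rfl)).1 rfl
    have hins : insert e' J ∈ X.powerset.filter fun J => Ind E J := by
      refine mem_filter.2 ⟨mem_powerset.2 (insert_subset he' hJ.1),
        insert_subset (hX he') hJ.2.1, ?_⟩
      intro e1 he1 e2 he2 hne' u v hu hv
      rw [mem_insert] at he1 he2
      rcases he1 with rfl | he1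
      · rcases he2 with rfl | he2
        · exact absurd rfl hne'
        · obtain ⟨h1, h2, h3⟩ := hno e2 he2 v u hv hu
          exact ⟨fun h => h1 h.symm, h3, h2⟩
      · rcases he2 with rfl | he2
        · exact hno e1 he1 u v hu hv
        · exact hJ.2.2 e1 he1 e2 he2 hne' u v hu hv
    have := hmax _ hins
    rw [card_insert_of_notMem hnot] at this
    omega
  calc X.card ≤ _ := card_le_card hcov
    _ ≤ J.card * ((2 * Δ + 2) * Δ) := by
        refine card_biUnion_le_card_mul _ _ _ fun e _ => ?_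
        refine (card_biUnion_le_card_mul _ _ Δ fun v _ => hE v).trans ?_
        exact Nat.mul_le_mul_right _ (indm_N_card hE e)
    _ = (2 * Δ + 2) * Δ * J.card := Nat.mul_comm _ _

/-- a map with fibres of at most two elements onto a set of `N` elements, `N ≤ n ≤ 2 N` -/
theorem gra_blow {V : Type} [Fintype V] [DecidableEq V] {n : ℕ} (hV : Fintype.card V ≤ n)
    (hn : n ≤ 2 * Fintype.card V) (hpos : 0 < Fintype.card V) :
    ∃ π : Fin n → V, Function.Surjective π ∧ ∀ v, (univ.filter fun i => π i = v).card ≤ 2 := by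
  let e := Fintype.equivFin V
  refine ⟨fun i => e.symm ⟨i.1 % Fintype.card V, Nat.mod_lt _ hpos⟩, ?_, ?_⟩
  · intro v
    refine ⟨⟨(e v).1, lt_of_lt_of_le (e v).2 hV⟩, ?_⟩
    rw [Equiv.symm_apply_eq]
    apply Fin.ext
    exact Nat.mod_eq_of_lt (e v).2
  · intro v
    refine (card_le_card_of_injOn (t := range 2) (fun i : Fin n => i.1 / Fintype.card V)
      ?_ ?_).trans_eq (card_range 2)
    · intro i _
      rw [mem_coe, mem_range]
      exact Nat.div_lt_of_lt_mul (by have := i.2; rw [Nat.mul_comm]; omega)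
    · intro i hi j hj hij
      rw [mem_coe, mem_filter] at hi hj
      have h1 := congrArg Fin.val (e.symm.injective (hi.2.trans hj.2.symm))
      simp only at h1 hij
      apply Fin.ext
      rw [← Nat.div_add_mod i.1 (Fintype.card V), ← Nat.div_add_mod j.1 (Fintype.card V), h1, hij]

/-- the statement -/
def St_Gra : Prop :=
  ∃ Δ : ℕ, ∀ ε : ℝ, 0 < ε → ε ≤ 1 / 3 → ∃ c : ℝ, 0 < c ∧ ∃ n₀ : ℕ, ∀ n ≥ n₀,
    ∃ E : Finset (Fin n × Fin n), (∀ e ∈ E, e.1 ≠ e.2) ∧ (∀ e ∈ E, (e.2, e.1) ∉ E) ∧
      E.card ≤ Δ * n ∧ ∀ A : Finset (Fin n), Bal ε A → ∃ J, Mat E J A ∧ c * n ≤ (J.card : ℝ)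

theorem gra_deg {V : Type} [Fintype V] [DecidableEq V] {n : ℕ} (G : SimpleGraph V)
    (D : ℕ) (hdeg : ∀ v, (G.neighborSet v).ncard ≤ D) (π : Fin n → V)
    (hπ : ∀ v, (univ.filter fun i => π i = v).card ≤ 2) (E : Finset (Fin n × Fin n))
    (hE : ∀ e ∈ E, G.Adj (π e.1) (π e.2)) (v : Fin n) :
    (E.filter fun e => e.1 = v ∨ e.2 = v).card ≤ 4 * D := by
  classical
  have h1 : ∀ u : V, (univ.filter fun w : Fin n => G.Adj u (π w)).card ≤ 2 * D := by
    intro u
    have h2 := card_le_mul_card_image_of_maps_to (s := univ.filter fun w : Fin n => G.Adj u (π w))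
      (t := univ.filter fun t => G.Adj u t) (f := π) (fun w hw => by
        rw [mem_filter] at hw ⊢
        exact ⟨mem_univ _, hw.2⟩) 2 (fun b _ => by
        refine (card_le_card ?_).trans (hπ b)
        intro w hw
        rw [mem_filter] at hw ⊢
        exact ⟨mem_univ _, hw.2⟩)
    refine h2.trans (Nat.mul_le_mul_left _ ?_)
    refine le_trans (le_of_eq ?_) (hdeg u)
    rw [← Set.ncard_coe_finset]
    congr 1
    ext t
    simp
  have h2 : (E.filter fun e => e.1 = v ∨ e.2 = v) ⊆
      (univ.filter fun w : Fin n => G.Adj (π v) (π w)).image (fun w => (v, w)) ∪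
      (univ.filter fun w : Fin n => G.Adj (π v) (π w)).image (fun w => (w, v)) := by
    intro e he
    rw [mem_filter] at he
    rcases he.2 with h | h
    · refine mem_union_left _ (mem_image.2 ⟨e.2, mem_filter.2 ⟨mem_univ _, ?_⟩, Prod.ext h.symm rfl⟩)
      rw [← h]
      exact hE e he.1
    · refine mem_union_right _ (mem_image.2 ⟨e.1, mem_filter.2 ⟨mem_univ _, ?_⟩,
        Prod.ext rfl h.symm⟩)
      rw [← h]
      exact (hE e he.1).symm
  have h3 := (card_le_card h2).trans (card_union_le _ _)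
  have h4 := card_image_le (s := univ.filter fun w : Fin n => G.Adj (π v) (π w))
    (f := fun w => (v, w))
  have h5 := card_image_le (s := univ.filter fun w : Fin n => G.Adj (π v) (π w))
    (f := fun w => (w, v))
  have h6 := h1 (π v)
  omega

theorem thm_Gra : St_Gra := by
  classical
  refine ⟨4 * 12768, fun ε hε hε3 => ?_⟩
  set Δ0 : ℕ := 4 * (96 * 12768) with hΔ0
  have hΔpos : (0 : ℝ) < ((2 * Δ0 + 2) * Δ0 : ℕ) := by
    rw [hΔ0]; norm_num
  refine ⟨ε / (5 * ((2 * Δ0 + 2) * Δ0 : ℕ)), by positivity, 96, fun n hn => ?_⟩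
  obtain ⟨V, i1, i2, G, E0, col, hEG, hGE, hcol, hEc, hdeg, hexp, hV, hV', -⟩ :=
    exists_expander rfl (n / 2) (by omega)
  have hN1 : Fintype.card V ≤ n := by omega
  have hN2 : n ≤ 2 * Fintype.card V := by omega
  obtain ⟨π, hsurj, hfib⟩ := gra_blow hN1 hN2 (by omega)
  obtain ⟨E, hE⟩ : ∃ E : Finset (Fin n × Fin n), ∀ e, e ∈ E ↔ (π e.1, π e.2) ∈ E0 :=
    ⟨univ.filter fun e => (π e.1, π e.2) ∈ E0, fun e => by simp⟩
  refine ⟨E, ?_, ?_, ?_, ?_⟩
  · intro e he h
    have h1 := hcol _ ((hE e).1 he)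
    simp only at h1
    rw [h, h1.2] at h1
    exact absurd h1.1 (by simp)
  · intro e he h
    have h1 := hcol _ ((hE e).1 he)
    have h2 := hcol _ ((hE _).1 h)
    simp only at h1 h2
    rw [h1.2] at h2
    exact absurd h2.1 (by simp)
  · have h1 := card_le_mul_card_image_of_maps_to (s := E) (t := E0)
      (f := fun e => (π e.1, π e.2)) (fun e he => (hE e).1 he) 4 (fun b _ => by
        have h2 : (E.filter fun e => (π e.1, π e.2) = b) ⊆
            (univ.filter fun i => π i = b.1) ×ˢ (univ.filter fun i => π i = b.2) := by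
          intro e he
          rw [mem_filter] at he
          rw [mem_product, mem_filter, mem_filter]
          exact ⟨⟨mem_univ _, congrArg Prod.fst he.2⟩, mem_univ _, congrArg Prod.snd he.2⟩
        refine (card_le_card h2).trans ?_
        rw [card_product]
        exact Nat.mul_le_mul (hfib _) (hfib _))
    have h3 : 4 * E0.card ≤ 4 * (12768 * (n / 2)) := Nat.mul_le_mul_left _ hEc
    have h4 : n / 2 ≤ n := Nat.div_le_self n 2
    have h5 : 4 * (12768 * (n / 2)) ≤ 4 * 12768 * n := by
      rw [← Nat.mul_assoc]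
      exact Nat.mul_le_mul_left _ h4
    exact (h1.trans h3).trans h5
  · intro A hA
    obtain ⟨X, hX⟩ : ∃ X : Finset (Fin n × Fin n), ∀ e, e ∈ X ↔ e ∈ E ∧
        ((e.1 ∈ A ∧ e.2 ∉ A) ∨ (e.1 ∉ A ∧ e.2 ∈ A)) :=
      ⟨E.filter fun e => (e.1 ∈ A ∧ e.2 ∉ A) ∨ (e.1 ∉ A ∧ e.2 ∈ A), fun e => by
        rw [mem_filter]⟩
    obtain ⟨J, hJX, hJ, hJc⟩ := gra_indm E Δ0 (gra_deg G _ hdeg π hfib E
      (fun e he => hEG _ ((hE e).1 he))) X (fun e he => ((hX e).1 he).1)
    refine ⟨J, ⟨hJ.1, fun e he => ((hX e).1 (hJX he)).2, hJ.2⟩, ?_⟩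
    -- the projections
    have hcover : (A.image π)ᶜ ⊆ Aᶜ.image π := by
      intro v hv
      obtain ⟨i, rfl⟩ := hsurj v
      refine mem_image.2 ⟨i, ?_, rfl⟩
      rw [mem_compl] at hv ⊢
      exact fun h => hv (mem_image_of_mem π h)
    have hA1 : A.card ≤ 2 * (A.image π).card := by
      refine card_le_mul_card_image _ 2 fun b _ => (card_le_card ?_).trans (hfib b)
      exact filter_subset_filter _ (subset_univ _)
    have hA2 : Aᶜ.card ≤ 2 * (Aᶜ.image π).card := by
      refine card_le_mul_card_image _ 2 fun b _ => (card_le_card ?_).trans (hfib b)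
      exact filter_subset_filter _ (subset_univ _)
    have hc1 := card_compl (Aᶜ.image π)
    have hc2 := card_le_univ (A.image π)
    have hc3 := card_le_univ (Aᶜ.image π)
    have hc4 := card_le_card hcover
    have hc5 := card_compl (A.image π)
    have hc6 := card_compl A
    have hc7 := card_le_univ A
    rw [Fintype.card_fin] at hc6 hc7
    have hsub : (Aᶜ.image π)ᶜ ⊆ A.image π := by
      intro v hv
      by_contra h
      exact (mem_compl.1 hv) (hcover (mem_compl.2 h))
    obtain ⟨S, hS1, hS2, hSc⟩ := exists_subsuperset_card_eq hsub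
      (n := max ((Aᶜ.image π)ᶜ.card) (min (A.image π).card (Fintype.card V / 2)))
      (le_max_left _ _) (max_le (card_le_card hsub) (min_le_left _ _))
    -- the crossing edges of `S`
    have hcr : (E0.filter fun e => (e.1 ∈ S ∧ e.2 ∉ S) ∨ (e.1 ∉ S ∧ e.2 ∈ S)).card ≤ X.card := by
      refine (card_le_card (t := X.image fun e => (π e.1, π e.2)) ?_).trans card_image_le
      intro e he
      rw [mem_filter] at he
      have k1 : ∀ v ∈ S, ∃ i ∈ A, π i = v := fun v hv => mem_image.1 (hS2 hv)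
      have k2 : ∀ v, v ∉ S → ∃ i, i ∉ A ∧ π i = v := by
        intro v hv
        have : v ∈ Aᶜ.image π := by
          by_contra h
          exact hv (hS1 (mem_compl.2 h))
        obtain ⟨i, hi, hiv⟩ := mem_image.1 this
        exact ⟨i, mem_compl.1 hi, hiv⟩
      rcases he.2 with ⟨h1, h2⟩ | ⟨h1, h2⟩
      · obtain ⟨a, ha, ha'⟩ := k1 _ h1
        obtain ⟨b, hb, hb'⟩ := k2 _ h2
        refine mem_image.2 ⟨(a, b), (hX _).2 ⟨(hE _).2 ?_, Or.inl ⟨ha, hb⟩⟩, ?_⟩
        · show (π a, π b) ∈ E0
          rw [ha', hb']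
          exact he.1
        · show (π a, π b) = e
          rw [ha', hb']
      · obtain ⟨a, ha, ha'⟩ := k1 _ h2
        obtain ⟨b, hb, hb'⟩ := k2 _ h1
        refine mem_image.2 ⟨(b, a), (hX _).2 ⟨(hE _).2 ?_, Or.inr ⟨hb, ha⟩⟩, ?_⟩
        · show (π b, π a) ∈ E0
          rw [ha', hb']
          exact he.1
        · show (π b, π a) = e
          rw [ha', hb']
    have hcS := card_compl S
    have hcS' := card_le_univ S
    have hmin : 2 * min (min (A.image π).card (Aᶜ.image π).card) (Fintype.card V / 2) ≤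
        5 * X.card := by
      rcases le_total (2 * S.card) (Fintype.card V) with h3 | h3
      · have h4 := hexp S h3
        have h5 := gra_cross G E0 hGE S
        omega
      · have h4 := hexp Sᶜ (by omega)
        have h5 := gra_cross G E0 hGE Sᶜ
        rw [gra_compl] at h5
        omega
    have hεn : ε * n ≤ 5 * (X.card : ℝ) := by
      obtain ⟨hb1, hb2⟩ := hA
      have h1 : ε * n ≤ 2 * ((min (min (A.image π).card (Aᶜ.image π).card)
          (Fintype.card V / 2) : ℕ) : ℝ) := by
        rcases min_choice (min (A.image π).card (Aᶜ.image π).card) (Fintype.card V / 2) with h | h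
        · rw [h]
          rcases min_choice (A.image π).card (Aᶜ.image π).card with h' | h'
          · rw [h']
            have : (A.card : ℝ) ≤ 2 * ((A.image π).card : ℝ) := by exact_mod_cast hA1
            linarith
          · rw [h']
            have h6 : (Aᶜ.card : ℝ) ≤ 2 * ((Aᶜ.image π).card : ℝ) := by exact_mod_cast hA2
            have h7 : (Aᶜ.card : ℝ) + A.card = n := by
              have : Aᶜ.card + A.card = n := by omega
              exact_mod_cast this
            linarith
        · rw [h]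
          have h6 : n ≤ 3 * (2 * (Fintype.card V / 2)) := by omega
          have h7 : (n : ℝ) ≤ 3 * (2 * ((Fintype.card V / 2 : ℕ) : ℝ)) := by exact_mod_cast h6
          have h8 : ε * n ≤ 1 / 3 * n := mul_le_mul_of_nonneg_right hε3 (Nat.cast_nonneg n)
          linarith
      have h2 : (2 : ℝ) * ((min (min (A.image π).card (Aᶜ.image π).card)
          (Fintype.card V / 2) : ℕ) : ℝ) ≤ 5 * X.card := by exact_mod_cast hmin
      exact h1.trans h2
    have hJc' : (X.card : ℝ) ≤ ((2 * Δ0 + 2) * Δ0 : ℕ) * (J.card : ℝ) := by exact_mod_cast hJc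
    rw [div_mul_eq_mul_div, div_le_iff₀ (by positivity)]
    calc ε * n ≤ 5 * (X.card : ℝ) := hεn
      _ ≤ 5 * (((2 * Δ0 + 2) * Δ0 : ℕ) * (J.card : ℝ)) := by linarith
      _ = (J.card : ℝ) * (5 * ((2 * Δ0 + 2) * Δ0 : ℕ)) := by ring

end Pool.Agent.VD
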