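import Pool.Agent.VD.St

/-!
# VD, the linear system of a program
-/

set_option autoImplicit false

namespace Pool.Agent.VD

open Finset Matrix
open scoped Classical

namespace Prog

variable {n : ℕ} {ε : ℝ} {W s : ℕ} (P : Prog n ε W s)

/-- the real value of a literal -/
noncomputable def lv (U : Fin s → ℝ) (l : Fin s × Bool) : ℝ := if l.2 then U l.1 else 1 - U l.1

/-- the real values of a valuation -/
noncomputable def rv (u : Fin s → Bool) : Fin s → ℝ := fun i => if u i then 1 else 0

/-- the sign of a literal -/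
noncomputable def sg (b : Bool) : ℝ := if b then 1 else -1

/-- the true values -/
noncomputable def F (x : Cube n) : Fin s → ℝ := fun i => if P.f i x then 1 else 0

/-- the constant part of a literal -/
noncomputable def cst (x : Cube n) (l : Fin s × Bool) : ℝ :=
  if P.Large l.1 then (if l.2 then 0 else 1) else lv (P.F x) l

/-- the coefficient of an occurrence -/
noncomputable def wt (x : Cube n) (i : Fin s) (l : Fin s × Bool) : ℝ :=
  match P.kind i with
  | .leaf => 0
  | .prod => sg l.2 * ∏ l' ∈ (P.L i).erase l, lv (P.F x) l'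
  | .sum => sg l.2

/-- the matrix of the linear system -/
noncomputable def M (x : Cube n) : Matrix (Fin s) (Fin s) ℝ := fun i k =>
  if P.Large i ∧ P.Large k then ∑ l ∈ P.L i, if l.1 = k then P.wt x i l else 0 else 0

/-- the constants of the linear system -/
noncomputable def cc (x : Cube n) (i : Fin s) : ℝ :=
  if P.Large i then
    match P.kind i with
    | .leaf => P.F x i
    | .prod => ∏ l ∈ P.L i, P.cst x l
    | .sum => ∑ l ∈ P.L i, P.cst x l
  else P.F x i

theorem lv_rv (u : Fin s → Bool) (l : Fin s × Bool) :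
    lv (rv u) l = if u l.1 = l.2 then 1 else 0 := by
  unfold lv rv
  rcases l with ⟨j, b⟩
  cases b <;> cases u j <;> simp

theorem F_eq (x : Cube n) : P.F x = rv (fun i => P.f i x) := rfl

theorem lv_split (x : Cube n) (U : Fin s → ℝ) (hU : ∀ j, ¬ P.Large j → U j = P.F x j)
    (l : Fin s × Bool) :
    lv U l = P.cst x l + if P.Large l.1 then sg l.2 * U l.1 else 0 := by
  unfold cst
  by_cases h : P.Large l.1
  · rw [if_pos h, if_pos h]
    unfold lv sg
    cases l.2 <;> simp; ring
  · rw [if_neg h, if_neg h, add_zero]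
    unfold lv
    rw [hU _ h]

theorem row_sum (x : Cube n) (U : Fin s → ℝ) {i : Fin s} (hi : P.Large i) :
    ∑ k, P.M x i k * U k = ∑ l ∈ P.L i, if P.Large l.1 then P.wt x i l * U l.1 else 0 := by
  have e : ∀ k, P.M x i k * U k =
      ∑ l ∈ P.L i, if l.1 = k then (if P.Large l.1 then P.wt x i l * U l.1 else 0) else 0 := by
    intro k
    unfold M
    by_cases hk : P.Large k
    · rw [if_pos ⟨hi, hk⟩, Finset.sum_mul]
      refine Finset.sum_congr rfl fun l _ => ?_
      by_cases hl : l.1 = k
      · rw [if_pos hl, if_pos hl, hl, if_pos hk]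
      · rw [if_neg hl, if_neg hl, zero_mul]
    · rw [if_neg (fun h => hk h.2), zero_mul]
      symm
      refine Finset.sum_eq_zero fun l _ => ?_
      by_cases hl : l.1 = k
      · rw [if_pos hl, hl, if_neg hk]
      · rw [if_neg hl]
  rw [Finset.sum_congr rfl fun k _ => e k, Finset.sum_comm]
  refine Finset.sum_congr rfl fun l _ => ?_
  rw [Finset.sum_ite_eq]
  simp

/-- a product gate has at most one large input -/
theorem unique_large (hε : ε ≤ 1 / 3) (hn : 1 ≤ n) {i : Fin s} (hi : P.Large i)
    (hk : P.kind i = .prod) {l l' : Fin s × Bool} (hl : l ∈ P.L i) (hl' : l' ∈ P.L i)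
    (h1 : P.Large l.1) (h2 : P.Large l'.1) : l = l' := by
  by_contra hne
  have hd := P.disj i hi hk l hl l' hl' hne
  have hc : (P.S l.1 ∪ P.S l'.1).card ≤ n := by
    have := Finset.card_le_univ (P.S l.1 ∪ P.S l'.1)
    rwa [Fintype.card_fin] at this
  rw [Finset.card_union_of_disjoint hd] at hc
  unfold Large at h1 h2
  have hc' : ((P.S l.1).card : ℝ) + (P.S l'.1).card ≤ n := by exact_mod_cast hc
  have hn' : (1 : ℝ) ≤ n := by exact_mod_cast hn
  nlinarith

/-- evaluation of product gates -/
theorem prod_eval (hε : ε ≤ 1 / 3) (hn : 1 ≤ n) (x : Cube n) (U : Fin s → ℝ)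
    (hU : ∀ j, ¬ P.Large j → U j = P.F x j) {i : Fin s} (hi : P.Large i)
    (hk : P.kind i = .prod) :
    ∏ l ∈ P.L i, lv U l = P.cc x i + ∑ k, P.M x i k * U k := by
  rw [P.row_sum x U hi]
  have hcc : P.cc x i = ∏ l ∈ P.L i, P.cst x l := by
    unfold cc
    rw [if_pos hi, hk]
  have hwt : ∀ l, P.wt x i l = sg l.2 * ∏ l' ∈ (P.L i).erase l, lv (P.F x) l' := by
    intro l
    unfold wt
    rw [hk]
  have hsm : ∀ l, ¬ P.Large l.1 → lv U l = P.cst x l := by
    intro l hl
    rw [P.lv_split x U hU, if_neg hl, add_zero]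
  have hsm' : ∀ l, ¬ P.Large l.1 → lv (P.F x) l = P.cst x l := by
    intro l hl
    unfold cst
    rw [if_neg hl]
  rw [hcc]
  by_cases hex : ∃ l₀ ∈ P.L i, P.Large l₀.1
  · obtain ⟨l₀, hl₀, hL₀⟩ := hex
    have hoth : ∀ l ∈ (P.L i).erase l₀, ¬ P.Large l.1 := by
      intro l hl hL
      rw [Finset.mem_erase] at hl
      exact hl.1 (P.unique_large hε hn hi hk hl.2 hl₀ hL hL₀)
    rw [← Finset.mul_prod_erase _ _ hl₀, ← Finset.mul_prod_erase (P.L i) (P.cst x) hl₀,
      ← Finset.add_sum_erase _ _ hl₀, if_pos hL₀, hwt,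
      Finset.prod_congr rfl (fun l hl => hsm l (hoth l hl)),
      Finset.prod_congr rfl (fun l hl => hsm' l (hoth l hl)),
      Finset.sum_eq_zero (s := (P.L i).erase l₀) (fun l hl => if_neg (hoth l hl)),
      P.lv_split x U hU, if_pos hL₀]
    ring
  · push Not at hex
    rw [Finset.prod_congr rfl fun l hl => hsm l (hex l hl),
      Finset.sum_eq_zero fun l hl => if_neg (hex l hl), add_zero]

/-- evaluation of sum gates -/
theorem sum_eval (x : Cube n) (U : Fin s → ℝ)
    (hU : ∀ j, ¬ P.Large j → U j = P.F x j) {i : Fin s} (hi : P.Large i)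
    (hk : P.kind i = .sum) :
    ∑ l ∈ P.L i, lv U l = P.cc x i + ∑ k, P.M x i k * U k := by
  rw [P.row_sum x U hi]
  have hcc : P.cc x i = ∑ l ∈ P.L i, P.cst x l := by
    unfold cc
    rw [if_pos hi, hk]
  have hwt : ∀ l, P.wt x i l = sg l.2 := by
    intro l
    unfold wt
    rw [hk]
  rw [hcc, ← Finset.sum_add_distrib]
  refine Finset.sum_congr rfl fun l _ => ?_
  rw [P.lv_split x U hU, hwt]

theorem M_leaf (x : Cube n) {i : Fin s} (hk : ¬ P.Large i ∨ P.kind i = .leaf) (k : Fin s) :
    P.M x i k = 0 := by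
  unfold M
  by_cases hi : P.Large i
  · have hk' : P.kind i = .leaf := hk.resolve_left (not_not.2 hi)
    by_cases h : P.Large i ∧ P.Large k
    · rw [if_pos h]
      refine Finset.sum_eq_zero fun l _ => ?_
      have : P.wt x i l = 0 := by
        unfold wt
        rw [hk']
      rw [this, ite_self]
    · rw [if_neg h]
  · rw [if_neg (fun h => hi h.1)]

theorem cc_leaf (x : Cube n) {i : Fin s} (hk : ¬ P.Large i ∨ P.kind i = .leaf) :
    P.cc x i = P.F x i := by
  unfold cc
  by_cases hi : P.Large i
  · rw [if_pos hi, hk.resolve_left (not_not.2 hi)]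
  · rw [if_neg hi]

theorem M_ne (x : Cube n) {i k : Fin s} (h : P.M x i k ≠ 0) :
    P.Large i ∧ P.Large k ∧ ∃ b, (k, b) ∈ P.L i := by
  unfold M at h
  by_cases h1 : P.Large i ∧ P.Large k
  · refine ⟨h1.1, h1.2, ?_⟩
    rw [if_pos h1] at h
    obtain ⟨l, hl, hl'⟩ := Finset.exists_ne_zero_of_sum_ne_zero h
    by_cases h2 : l.1 = k
    · refine ⟨l.2, ?_⟩
      rw [← h2]
      exact hl
    · rw [if_neg h2] at hl'
      exact absurd rfl hl'
  · rw [if_neg h1] at h
    exact absurd rfl h

theorem M_lt (x : Cube n) {i k : Fin s} (h : P.M x i k ≠ 0) : k < i ∧ P.S k ⊆ P.S i := by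
  obtain ⟨-, -, b, hb⟩ := P.M_ne x h
  exact P.input i _ hb

theorem det_one (x : Cube n) : (1 - P.M x).det = 1 := by
  have h1 : (1 - P.M x).BlockTriangular OrderDual.toDual := by
    intro i j hij
    have hij' : i < j := hij
    rw [Matrix.sub_apply, Matrix.one_apply_ne (ne_of_lt hij'), zero_sub, neg_eq_zero]
    by_contra h
    exact absurd (P.M_lt x h).1 (not_lt.2 hij'.le)
  rw [Matrix.det_of_isLowerTriangular _ h1]
  refine Finset.prod_eq_one fun i _ => ?_
  rw [Matrix.sub_apply, Matrix.one_apply_eq]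
  have : P.M x i i = 0 := by
    by_contra h
    exact absurd (P.M_lt x h).1 (lt_irrefl _)
  rw [this, sub_zero]

/-- the derivatives -/
noncomputable def D (x : Cube n) : Matrix (Fin s) (Fin s) ℝ := (1 - P.M x)⁻¹

theorem D_mul (x : Cube n) : P.D x * (1 - P.M x) = 1 :=
  Matrix.nonsing_inv_mul _ (by rw [P.det_one x]; exact isUnit_one)

theorem mul_D (x : Cube n) : (1 - P.M x) * P.D x = 1 :=
  Matrix.mul_nonsing_inv _ (by rw [P.det_one x]; exact isUnit_one)

theorem D_fwd (x : Cube n) (i j : Fin s) :
    P.D x i j = (if i = j then 1 else 0) + ∑ k, P.M x i k * P.D x k j := by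
  have h := P.mul_D x
  rw [sub_mul, one_mul, sub_eq_iff_eq_add] at h
  have h2 := congrFun (congrFun h i) j
  rw [Matrix.add_apply, Matrix.one_apply, Matrix.mul_apply] at h2
  exact h2

theorem D_bwd (x : Cube n) (i j : Fin s) :
    P.D x i j = (if i = j then 1 else 0) + ∑ k, P.D x i k * P.M x k j := by
  have h := P.D_mul x
  rw [mul_sub, mul_one, sub_eq_iff_eq_add] at h
  have h2 := congrFun (congrFun h i) j
  rw [Matrix.add_apply, Matrix.one_apply, Matrix.mul_apply] at h2
  exact h2

/-- solution of the linear system with a defect at `j` -/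
theorem solve (x : Cube n) (U : Fin s → ℝ) (j : Fin s) (δ : ℝ)
    (h : ∀ i, U i = P.cc x i + ∑ k, P.M x i k * U k + if i = j then δ else 0) (r : Fin s) :
    U r = ∑ i, P.D x r i * P.cc x i + P.D x r j * δ := by
  have h1 : (1 - P.M x).mulVec U = P.cc x + fun i => if i = j then δ else 0 := by
    funext i
    rw [Matrix.sub_mulVec, Matrix.one_mulVec]
    have h2 := h i
    simp only [Pi.sub_apply, Pi.add_apply, Matrix.mulVec, dotProduct]
    linarith
  have h2 : U = (P.D x).mulVec ((1 - P.M x).mulVec U) := by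
    rw [Matrix.mulVec_mulVec, P.D_mul, Matrix.one_mulVec]
  rw [h1, Matrix.mulVec_add] at h2
  have h3 := congrFun h2 r
  rw [h3]
  simp only [Pi.add_apply, Matrix.mulVec, dotProduct, mul_ite, mul_zero, Finset.sum_ite_eq',
    Finset.mem_univ, if_true]

/-- the true values satisfy the linear system -/
theorem F_sys (hε : ε ≤ 1 / 3) (hn : 1 ≤ n) (x : Cube n) (i : Fin s) :
    P.F x i = P.cc x i + ∑ k, P.M x i k * P.F x k := by
  by_cases hk : ¬ P.Large i ∨ P.kind i = .leaf
  · rw [P.cc_leaf x hk, Finset.sum_eq_zero fun k _ => by rw [P.M_leaf x hk, zero_mul], add_zero]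
  · push Not at hk
    obtain ⟨hi, hk⟩ := hk
    rcases h : P.kind i with _ | _ | _
    · exact absurd h hk
    · rw [← P.prod_eval hε hn x (P.F x) (fun _ _ => rfl) hi h]
      have hp := P.prod i hi h x
      by_cases ht : P.f i x = true
      · have h1 := hp.1 ht
        unfold F
        rw [if_pos ht]
        symm
        refine Finset.prod_eq_one fun l hl => ?_
        have := lv_rv (fun i => P.f i x) l
        rw [if_pos (h1 l hl)] at this
        exact this
      · have h1 : ¬ ∀ l ∈ P.L i, P.f l.1 x = l.2 := fun h1 => ht (hp.2 h1)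
        push Not at h1
        obtain ⟨l, hl, hl'⟩ := h1
        unfold F
        rw [if_neg ht]
        symm
        refine Finset.prod_eq_zero hl ?_
        have := lv_rv (fun i => P.f i x) l
        rw [if_neg hl'] at this
        exact this
    · rw [← P.sum_eval x (P.F x) (fun _ _ => rfl) hi h]
      have hp := P.sum i hi h x
      have hd := P.det i hi h x
      by_cases ht : P.f i x = true
      · obtain ⟨l₀, hl₀, h1⟩ := hp.1 ht
        rw [Finset.sum_eq_single_of_mem l₀ hl₀]
        · have := lv_rv (fun i => P.f i x) l₀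
          rw [if_pos h1] at this
          rw [P.F_eq, this]
          unfold rv
          rw [if_pos ht]
        · intro l hl hne
          have := lv_rv (fun i => P.f i x) l
          rw [if_neg (fun h2 => hne (hd l hl l₀ hl₀ h2 h1))] at this
          exact this
      · have h1 : ¬ ∃ l ∈ P.L i, P.f l.1 x = l.2 := fun h1 => ht (hp.2 h1)
        push Not at h1
        rw [Finset.sum_eq_zero]
        · unfold F
          rw [if_neg ht]
        · intro l hl
          have := lv_rv (fun i => P.f i x) l
          rw [if_neg (h1 l hl)] at this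
          exact this

theorem F_expand (hε : ε ≤ 1 / 3) (hn : 1 ≤ n) (x : Cube n) (r : Fin s) :
    P.F x r = ∑ i, P.D x r i * P.cc x i := by
  have h := P.solve x (P.F x) r 0 (fun i => by
    rw [ite_self, add_zero]
    exact P.F_sys hε hn x i) r
  rw [mul_zero, add_zero] at h
  exact h

end Prog

end Pool.Agent.VD
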