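import Pool.Agent.VD.Rk
import Pool.Agent.VD.GK

/-!
# Deterministic decomposable circuits with negation: negation patterns and frozen negations

Circuits with decomposable products, deterministic sums and free negation of inputs; the sets of
negated gates on paths; faults when some negations are frozen. `Cube`, `RkLe`, `Bal` are in
`Rk.lean`.
-/

set_option autoImplicit false

namespace Pool.Agent.VD

/-- A gate with the scope `S` and the function `f` is large if `S` has more than `(1 - ε) n`
variables and `f` is not constant. -/
def IsLarge {n : ℕ} (ε : ℝ) (S : Finset (Fin n)) (f : Cube n → Bool) : Prop :=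
  (1 - ε) * n < S.card ∧ ∃ x y, f x ≠ f y

/-- A circuit with `s` gates over `n` variables. A literal `(j, b)` stands for the gate `j` if
`b = true` and for the negation of the gate `j` if `b = false`. A small gate (one which is not
large) may be any function of the variables in its scope. -/
structure Circuit (n : ℕ) (ε : ℝ) (W s : ℕ) where
  /-- the kind of a large gate -/
  kind : Fin s → GateKind
  /-- the scope of a gate -/
  S : Fin s → Finset (Fin n)
  /-- the function of a gate -/
  f : Fin s → Cube n → Bool
  /-- the inputs of a gate: a set of literals -/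
  L : Fin s → Finset (Fin s × Bool)
  /-- the function of a gate depends only on its scope -/
  dep : ∀ i x y, (∀ v ∈ S i, x v = y v) → f i x = f i y
  /-- the inputs are earlier gates with smaller scopes, or their negations -/
  input : ∀ i, ∀ l ∈ L i, l.1 < i ∧ S l.1 ⊆ S i
  /-- a large leaf has real rank at most `W` across some balanced set of variables -/
  leaf : ∀ i, IsLarge ε (S i) (f i) → kind i = .leaf →
    ∃ A ⊆ S i, Bal ε A ∧ RkLe A W fun x => if f i x then 1 else 0
  /-- a large product gate is the conjunction of its inputs -/
  prod : ∀ i, IsLarge ε (S i) (f i) → kind i = .prod →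
    ∀ x, f i x = true ↔ ∀ l ∈ L i, f l.1 x = l.2
  /-- the inputs of a large product gate have disjoint scopes -/
  disj : ∀ i, IsLarge ε (S i) (f i) → kind i = .prod →
    ∀ l ∈ L i, ∀ l' ∈ L i, l ≠ l' → Disjoint (S l.1) (S l'.1)
  /-- a large sum gate is the disjunction of its inputs -/
  sum : ∀ i, IsLarge ε (S i) (f i) → kind i = .sum →
    ∀ x, f i x = true ↔ ∃ l ∈ L i, f l.1 x = l.2
  /-- at most one input of a large sum gate is true -/
  det : ∀ i, IsLarge ε (S i) (f i) → kind i = .sum →
    ∀ x, ∀ l ∈ L i, ∀ l' ∈ L i, f l.1 x = l.2 → f l'.1 x = l'.2 → l = l'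

namespace Circuit

variable {n : ℕ} {ε : ℝ} {W s : ℕ} (P : Circuit n ε W s)

/-- The gate `i` is large. -/
def Large (i : Fin s) : Prop := IsLarge ε (P.S i) (P.f i)

/-- The size: the number of gates plus the number of inputs of gates. -/
def size : ℕ := s + ∑ i, (P.L i).card

/-- `Neg X x r j Y`: some path of large gates from the gate `j` up to the gate `r` which is open at
`x` passes through the negations of exactly those gates of `X` which are in `Y`. A path is open at
`x` if the other inputs of its product gates are true at `x`. -/
inductive Neg (X : Finset (Fin s)) (x : Cube n) (r : Fin s) : Fin s → Finset (Fin s) → Prop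
  | refl : Neg X x r r ∅
  | step (i : Fin s) (Y : Finset (Fin s)) (l : Fin s × Bool) : Neg X x r i Y → P.Large i →
      l ∈ P.L i → (P.kind i = .prod → ∀ l' ∈ P.L i, l' ≠ l → P.f l'.1 x = l'.2) →
      Neg X x r l.1 (if l.2 = false ∧ l.1 ∈ X then insert l.1 Y else Y)

open Classical in
/-- The number of negation patterns at `x` of paths from `j` to `r`, as far as gates of `X` are
concerned. -/
noncomputable def patterns (X : Finset (Fin s)) (x : Cube n) (r j : Fin s) : ℕ :=
  (Finset.univ.filter fun Y => P.Neg X x r j Y).card

/-- The truth of the literal `l` when the gates have the values `u`, the negations of the gates in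
`X` are frozen at their values at `x`, and the value of the literal `p` is wrong if it is frozen. -/
def Lit (X : Finset (Fin s)) (x : Cube n) (p : Fin s × Bool) (u : Fin s → Bool)
    (l : Fin s × Bool) : Prop :=
  if l.2 = false ∧ l.1 ∈ X then (P.f l.1 x = l.2 ↔ l ≠ p) else u l.1 = l.2

/-- `u` is the computation of the circuit at `x` with a single fault at the place `p`, which is a
gate `(j, true)` or the negation `(j, false)` of a gate of `X`: the value of the place is wrong,
the other negations of gates of `X` keep their values at `x`, and the other large products and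
sums are evaluated correctly from the values of their inputs. -/
def Fault (X : Finset (Fin s)) (x : Cube n) (p : Fin s × Bool) (u : Fin s → Bool) : Prop :=
  ∀ i, (p = (i, true) → u i ≠ P.f i x) ∧ (p ≠ (i, true) →
    (¬ P.Large i ∨ P.kind i = .leaf → u i = P.f i x) ∧
    (P.Large i → P.kind i = .prod → (u i = true ↔ ∀ l ∈ P.L i, P.Lit X x p u l)) ∧
    (P.Large i → P.kind i = .sum → (u i = true ↔ ∃ l ∈ P.L i, P.Lit X x p u l)))

/-- A place `p` (a large gate, or the negation of a large gate of `X`) is critical if no kind of
fault at `p` is always harmless: for every `x₀` there is an `x` at which the gate of `p` and its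
inputs have the same values as at `x₀`, such that the fault at `p` makes two inputs of some large
sum gate true. -/
def Critical (X : Finset (Fin s)) (p : Fin s × Bool) : Prop :=
  P.Large p.1 ∧ (p.2 = false → p.1 ∈ X) ∧
  ∀ x₀, ∃ x, P.f p.1 x = P.f p.1 x₀ ∧ (∀ l ∈ P.L p.1, P.f l.1 x = P.f l.1 x₀) ∧
    ∃ u, P.Fault X x p u ∧ ∃ i, P.Large i ∧ P.kind i = .sum ∧
      ∃ l ∈ P.L i, ∃ l' ∈ P.L i, l ≠ l' ∧ P.Lit X x p u l ∧ P.Lit X x p u l'

end Circuit

/-- **The theorem** (`result`). For every `ε` in `(0, 1 / 3]` there are `c > 0` and `C` such that
for every `n` there is a satisfiable CNF formula `φ` with `n` variables and at most `C n` clauses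
of at most `C` literals with the following property. Let a gate `r` of a circuit agree with `φ`
except at `#φ / 2` points at most, and let `X` be a set of gates which contains all large gates
whose negation is an input of a large gate, or such that no place is critical. Then
`2 ^ (c n) ≤ 2 size W K` if for each large gate `j` the root mean square over all `x` of the number
of negation patterns at `x` from `j` to `r` is at most `K`. -/
def St_ND : Prop :=
  ∀ ε : ℝ, 0 < ε → ε ≤ 1 / 3 → ∃ (c : ℝ) (C : ℕ), 0 < c ∧ ∀ n : ℕ, ∃ φ : CNF n,
    φ.length ≤ C * n ∧ (∀ K ∈ φ, K.length ≤ C) ∧ 0 < models φ ∧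
    ∀ (W s : ℕ) (P : Circuit n ε W s) (r : Fin s), 1 ≤ W →
      2 * (Finset.univ.filter fun x => ¬ (P.f r x = true ↔ Sat φ x)).card ≤ models φ →
      ∀ X : Finset (Fin s),
        (∀ i j, P.Large i → P.Large j → (j, false) ∈ P.L i → j ∈ X) ∨
          (∀ p, ¬ P.Critical X p) →
        ∀ K : ℝ, 1 ≤ K →
          (∀ j, P.Large j → ∑ x, (P.patterns X x r j : ℝ) ^ 2 ≤ K ^ 2 * 2 ^ n) →
          (2 : ℝ) ^ (c * n) ≤ 2 * P.size * W * K

end Pool.Agent.VD
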