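import Pool.Agent.VD.NCnv
import Pool.Agent.VD.NHard

/-!
# VD, negation patterns: final assembly
-/

set_option autoImplicit false

namespace Pool.Agent.VD

theorem thm_ND : St_ND := by
  intro ε hε0 hε
  obtain ⟨c, hc, C, n₀, h⟩ := thm_Hard2 ε hε0 hε
  set m : ℕ := max n₀ 2 with hm
  have hm2 : (2 : ℝ) ≤ m := by
    have : 2 ≤ m := le_max_right _ _
    exact_mod_cast this
  refine ⟨min c (1 / m), C, lt_min hc (by positivity), fun n => ?_⟩
  obtain ⟨φ, h1, h2, h3, -, h4⟩ := h n
  refine ⟨φ, h1, h2, h3, fun W s P r hW hfar X hX K hK hpat => ?_⟩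
  have hcr : ∀ p, ¬ P.Critical X p := by
    rcases hX with hX | hX
    · exact P.not_critical X hX
    · exact hX
  have hsz : 1 ≤ P.size := by
    unfold Circuit.size
    have := r.pos
    omega
  have hprod : (1 : ℝ) ≤ P.size * W * K := by
    have h5 : (1 : ℝ) ≤ P.size * W := by
      have : 1 ≤ P.size * W := Nat.mul_pos hsz hW
      exact_mod_cast this
    nlinarith
  by_cases hn : m ≤ n
  · have hn2 : 2 ≤ n := (le_max_right _ _).trans hn
    have hn0 : n₀ ≤ n := (le_max_left _ _).trans hn
    have hn1 : 1 ≤ n := by omega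
    have hDB : ∀ i, (P.toProg hε).Large i →
        ∑ x, (P.toProg hε).D x r i ^ 2 ≤ K ^ 2 * 2 ^ n := by
      intro i hi
      refine (Finset.sum_le_sum fun x _ => ?_).trans (hpat i ((P.toProg_large hε i).1 hi))
      have h5 : |(P.toProg hε).D x r i| ≤ (P.patterns X x r i : ℝ) := by
        refine ((P.toProg hε).abs_D_pats X hε hn1 (fun j hj => ?_) (fun a ha haX => ?_) x i hi
          r).trans ?_
        · exact P.harm_of_not_critical hε X (j, true) ((P.toProg_large hε j).1 hj)
            (fun h => absurd h (by simp)) (hcr _)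
        · exact P.harm_of_not_critical hε X (a, false) ((P.toProg_large hε a).1 ha)
            (fun _ => haX) (hcr _)
        · exact_mod_cast P.pats_le hε X x r i
      rw [← sq_abs]
      exact pow_le_pow_left₀ (abs_nonneg _) h5 2
    obtain ⟨T, A, hA, hT, hR, hsum⟩ := upper_of_D hε0 hε hn2 hW (P.toProg hε) K hK r hDB
    have h5 := h4 (fun x => if P.f r x then 1 else 0)
      (by
        refine le_trans (le_of_eq ?_) (show (2 : ℝ) *
          (Finset.univ.filter fun x => ¬ (P.f r x = true ↔ Sat φ x)).card ≤ models φ by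
            exact_mod_cast hfar)
        congr 1
        rw [Finset.card_filter]
        push_cast
        refine Finset.sum_congr rfl fun x _ => ?_
        by_cases hx : P.f r x = true <;> by_cases hs : Sat φ x <;> simp [hx, hs])
      (P.toProg hε).size W (fun _ => K) T A (fun _ => by linarith) hA hT hR hsum hn0
    rw [Finset.sum_const, Finset.card_univ, Fintype.card_fin, nsmul_eq_mul] at h5
    have h6 : (2 : ℝ) ^ (min c (1 / m) * n) ≤ (2 : ℝ) ^ (c * n) :=
      Real.rpow_le_rpow_of_exponent_le (by norm_num)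
        (mul_le_mul_of_nonneg_right (min_le_left _ _) (Nat.cast_nonneg _))
    have h7 : ((P.toProg hε).size : ℝ) ≤ P.size := by exact_mod_cast P.toProg_size hε
    have h8 : (W : ℝ) * (((P.toProg hε).size : ℝ) * K) ≤ P.size * W * K := by
      calc (W : ℝ) * (((P.toProg hε).size : ℝ) * K) ≤ W * (P.size * K) := by gcongr
        _ = P.size * W * K := by ring
    refine h6.trans (h5.trans ?_)
    nlinarith
  · have hn' : (n : ℝ) ≤ m := by exact_mod_cast (not_le.1 hn).le
    have h6 : min c (1 / m) * n ≤ 1 := by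
      have h7 : min c (1 / (m : ℝ)) * n ≤ 1 / m * m :=
        mul_le_mul (min_le_right _ _) hn' (Nat.cast_nonneg _) (by positivity)
      have h8 : 1 / (m : ℝ) * m = 1 := by
        rw [one_div, inv_mul_cancel₀]
        linarith
      linarith
    have h7 : (2 : ℝ) ^ (min c (1 / m) * n) ≤ (2 : ℝ) ^ (1 : ℝ) :=
      Real.rpow_le_rpow_of_exponent_le (by norm_num) h6
    rw [Real.rpow_one] at h7
    refine h7.trans ?_
    nlinarith

end Pool.Agent.VD
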