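import Pool.Agent.VD.NMat

/-!
# VD, frozen negations: faults

If no fault at a place is harmful, the derivatives with respect to the place are at most one.
-/

set_option autoImplicit false

namespace Pool.Agent.VD

open Finset Matrix
open scoped Classical

namespace Prog

variable {n : ℕ} {ε : ℝ} {W s : ℕ} (P : Prog n ε W s)

/-- the truth of a literal under a fault with frozen negations -/
def LitX (X : Finset (Fin s)) (x : Cube n) (p : Fin s × Bool) (u : Fin s → Bool)
    (l : Fin s × Bool) : Prop :=
  if l.2 = false ∧ l.1 ∈ X then (P.f l.1 x = l.2 ↔ l ≠ p) else u l.1 = l.2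

/-- the local condition of a fault with frozen negations -/
def LocX (X : Finset (Fin s)) (x : Cube n) (p : Fin s × Bool) (u : Fin s → Bool) (i : Fin s) :
    Prop :=
  (p = (i, true) → u i ≠ P.f i x) ∧ (p ≠ (i, true) →
    (¬ P.Large i ∨ P.kind i = .leaf → u i = P.f i x) ∧
    (P.Large i → P.kind i = .prod → (u i = true ↔ ∀ l ∈ P.L i, P.LitX X x p u l)) ∧
    (P.Large i → P.kind i = .sum → (u i = true ↔ ∃ l ∈ P.L i, P.LitX X x p u l)))

/-- at most one input of the gate is true -/
def ExclX (X : Finset (Fin s)) (x : Cube n) (p : Fin s × Bool) (u : Fin s → Bool) (i : Fin s) :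
    Prop :=
  ∀ l ∈ P.L i, ∀ l' ∈ P.L i, P.LitX X x p u l → P.LitX X x p u l' → l = l'

/-- no fault at the place `p` is harmful for some values at the gate of `p` -/
def HarmX (X : Finset (Fin s)) (p : Fin s × Bool) (x₀ : Cube n) : Prop :=
  ∀ x, P.f p.1 x = P.f p.1 x₀ → (∀ l ∈ P.L p.1, P.f l.1 x = P.f l.1 x₀) →
    ∀ u, (∀ i, P.LocX X x p u i) → ∀ i, P.Large i → P.kind i = .sum → P.ExclX X x p u i

variable (X : Finset (Fin s))

theorem litX_congr {x : Cube n} {p : Fin s × Bool} {u u' : Fin s → Bool} {l : Fin s × Bool}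
    (h : u l.1 = u' l.1) : P.LitX X x p u l ↔ P.LitX X x p u' l := by
  unfold LitX
  rw [h]

theorem locX_congr {x : Cube n} {p : Fin s × Bool} {u u' : Fin s → Bool} {i : Fin s}
    (h : ∀ k ≤ i, u k = u' k) (hl : P.LocX X x p u i) : P.LocX X x p u' i := by
  have e : ∀ l ∈ P.L i, (P.LitX X x p u l ↔ P.LitX X x p u' l) := fun l hl' =>
    P.litX_congr X (h l.1 (P.input i l hl').1.le)
  have e1 : (∀ l ∈ P.L i, P.LitX X x p u l) ↔ ∀ l ∈ P.L i, P.LitX X x p u' l :=
    forall₂_congr e
  have e2 : (∃ l ∈ P.L i, P.LitX X x p u l) ↔ ∃ l ∈ P.L i, P.LitX X x p u' l :=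
    exists_congr fun l => and_congr_right fun hl' => e l hl'
  unfold LocX at hl ⊢
  rw [h i le_rfl, e1, e2] at hl
  exact hl

theorem exists_faultX (x : Cube n) (p : Fin s × Bool) : ∃ u, ∀ i, P.LocX X x p u i := by
  have key : ∀ t : ℕ, t ≤ s → ∃ u : Fin s → Bool, ∀ i : Fin s, (i : ℕ) < t →
      P.LocX X x p u i := by
    intro t
    induction t with
    | zero => exact fun _ => ⟨fun _ => true, fun i hi => absurd hi (Nat.not_lt_zero _)⟩
    | succ t ih =>
      intro ht
      obtain ⟨u, hu⟩ := ih (by omega)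
      set g : Fin s := ⟨t, ht⟩ with hg
      set w : Bool := if p = (g, true) then !(P.f g x) else
        if ¬ P.Large g ∨ P.kind g = .leaf then P.f g x else
          if P.kind g = .prod then decide (∀ l ∈ P.L g, P.LitX X x p u l) else
            decide (∃ l ∈ P.L g, P.LitX X x p u l) with hw
      have hlt : ∀ k : Fin s, k < g → Function.update u g w k = u k := by
        intro k hk
        exact Function.update_of_ne (ne_of_lt hk) _ _
      refine ⟨Function.update u g w, fun i hi => ?_⟩
      rcases Nat.lt_succ_iff_lt_or_eq.1 hi with hi' | hi'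
      · refine P.locX_congr X (fun k hk => ?_) (hu i hi')
        symm
        refine hlt k ?_
        rw [Fin.lt_def, hg]
        exact lt_of_le_of_lt hk hi'
      · have hig : i = g := Fin.ext hi'
        have e : ∀ l ∈ P.L g,
            (P.LitX X x p (Function.update u g w) l ↔ P.LitX X x p u l) := fun l hl =>
          P.litX_congr X (hlt l.1 (P.input g l hl).1)
        have e1 : (∀ l ∈ P.L g, P.LitX X x p (Function.update u g w) l) ↔
            ∀ l ∈ P.L g, P.LitX X x p u l := forall₂_congr e
        have e2 : (∃ l ∈ P.L g, P.LitX X x p (Function.update u g w) l) ↔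
            ∃ l ∈ P.L g, P.LitX X x p u l :=
          exists_congr fun l => and_congr_right fun hl => e l hl
        rw [hig]
        unfold LocX
        rw [Function.update_self, e1, e2]
        refine ⟨fun h => ?_, fun h => ⟨fun h1 => ?_, fun h1 h2 => ?_, fun h1 h2 => ?_⟩⟩
        · rw [hw, if_pos h]
          exact Bool.not_ne_self _
        · rw [hw, if_neg h, if_pos h1]
        · have h3 : ¬ (¬ P.Large g ∨ P.kind g = .leaf) := by
            rw [h2]
            simp [h1]
          rw [hw, if_neg h, if_neg h3, if_pos h2, decide_eq_true_iff]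
        · have h3 : ¬ (¬ P.Large g ∨ P.kind g = .leaf) := by
            rw [h2]
            simp [h1]
          have h4 : ¬ P.kind g = .prod := by
            rw [h2]
            simp
          rw [hw, if_neg h, if_neg h3, if_neg h4, decide_eq_true_iff]
  obtain ⟨u, hu⟩ := key s le_rfl
  exact ⟨u, fun i => hu i i.2⟩

/-- the gates before the fault are correct -/
theorem faultX_lt {x : Cube n} {j : Fin s} {u : Fin s → Bool}
    (h : ∀ i, P.LocX X x (j, true) u i) (i : Fin s) (hi : i < j) : u i = P.f i x := by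
  induction i using WellFoundedLT.induction with
  | ind i ih =>
    have hin : ∀ l ∈ P.L i, (P.LitX X x (j, true) u l ↔ P.f l.1 x = l.2) := by
      intro l hl
      unfold LitX
      by_cases h1 : l.2 = false ∧ l.1 ∈ X
      · rw [if_pos h1]
        have h2 : l ≠ (j, true) := by
          intro e
          rw [e] at h1
          exact absurd h1.1 (by simp)
        exact ⟨fun h3 => h3.2 h2, fun h3 => ⟨fun _ => h2, fun _ => h3⟩⟩
      · rw [if_neg h1, ih l.1 (P.input i l hl).1 ((P.input i l hl).1.trans hi)]
    have hne : ((j, true) : Fin s × Bool) ≠ (i, true) := by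
      intro e
      exact (ne_of_lt hi) (Prod.ext_iff.1 e).1.symm
    obtain ⟨h1, h2, h3⟩ := (h i).2 hne
    by_cases hk : ¬ P.Large i ∨ P.kind i = .leaf
    · exact h1 hk
    · push Not at hk
      obtain ⟨hL, hk⟩ := hk
      rcases hkk : P.kind i with _ | _ | _
      · exact absurd hkk hk
      · rw [Bool.eq_iff_iff, h2 hL hkk, P.prod i hL hkk x]
        exact forall₂_congr hin
      · rw [Bool.eq_iff_iff, h3 hL hkk, P.sum i hL hkk x]
        exact exists_congr fun l => and_congr_right fun hl => hin l hl

/-! ### the rows of the linear system -/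

theorem row_M0 (x : Cube n) (U : Fin s → ℝ) {i : Fin s} (hi : P.Large i) :
    ∑ k, P.M0 X x i k * U k =
      ∑ l ∈ P.L i, if P.Large l.1 ∧ ¬ Frz X l then P.wt x i l * U l.1 else 0 := by
  have e : ∀ k, P.M0 X x i k * U k = ∑ l ∈ P.L i,
      if l.1 = k then (if P.Large l.1 ∧ ¬ Frz X l then P.wt x i l * U l.1 else 0) else 0 := by
    intro k
    unfold M0
    by_cases hk : P.Large k
    · rw [if_pos ⟨hi, hk⟩, Finset.sum_mul]
      refine Finset.sum_congr rfl fun l _ => ?_
      by_cases hl : l.1 = k
      · rw [if_pos hl]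
        by_cases hf : Frz X l
        · rw [if_neg (fun h => h.2 hf), if_neg (fun h => h.2 hf), zero_mul]
        · rw [if_pos ⟨hl, hf⟩, if_pos ⟨by rw [hl]; exact hk, hf⟩, hl]
      · rw [if_neg hl, if_neg (fun h => hl h.1), zero_mul]
    · rw [if_neg (fun h => hk h.2), zero_mul]
      symm
      refine Finset.sum_eq_zero fun l _ => ?_
      by_cases hl : l.1 = k
      · rw [if_pos hl, if_neg (fun h => hk (by rw [← hl]; exact h.1))]
      · rw [if_neg hl]
  rw [Finset.sum_congr rfl fun k _ => e k, Finset.sum_comm]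
  refine Finset.sum_congr rfl fun l _ => ?_
  rw [Finset.sum_ite_eq]
  simp

theorem row_MX (x : Cube n) (v : Fin s → ℝ) {i : Fin s} (hi : P.Large i) :
    ∑ k, P.MX X x i k * v k =
      ∑ l ∈ P.L i, if P.Large l.1 ∧ Frz X l then P.wt x i l * v l.1 else 0 := by
  have e : ∀ k, P.MX X x i k * v k = ∑ l ∈ P.L i,
      if l.1 = k then (if P.Large l.1 ∧ Frz X l then P.wt x i l * v l.1 else 0) else 0 := by
    intro k
    unfold MX
    by_cases hk : P.Large k
    · rw [if_pos ⟨hi, hk⟩, Finset.sum_mul]
      refine Finset.sum_congr rfl fun l _ => ?_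
      by_cases hl : l.1 = k
      · rw [if_pos hl]
        by_cases hf : Frz X l
        · rw [if_pos ⟨hl, hf⟩, if_pos ⟨by rw [hl]; exact hk, hf⟩, hl]
        · rw [if_neg (fun h => hf h.2), if_neg (fun h => hf h.2), zero_mul]
      · rw [if_neg hl, if_neg (fun h => hl h.1), zero_mul]
    · rw [if_neg (fun h => hk h.2), zero_mul]
      symm
      refine Finset.sum_eq_zero fun l _ => ?_
      by_cases hl : l.1 = k
      · rw [if_pos hl, if_neg (fun h => hk (by rw [← hl]; exact h.1))]
      · rw [if_neg hl]
  rw [Finset.sum_congr rfl fun k _ => e k, Finset.sum_comm]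
  refine Finset.sum_congr rfl fun l _ => ?_
  rw [Finset.sum_ite_eq]
  simp

/-- the deviation of a literal: `U` are the values of the gates, `v` the errors of the frozen
negations -/
noncomputable def dv (x : Cube n) (U v : Fin s → ℝ) (l : Fin s × Bool) : ℝ :=
  if P.Large l.1 then (if Frz X l then v l.1 else sg l.2 * (U l.1 - P.F x l.1)) else 0

theorem row_dv (x : Cube n) (U v : Fin s → ℝ) {i : Fin s} (hi : P.Large i) :
    ∑ l ∈ P.L i, sg l.2 * P.wt x i l * P.dv X x U v l =
      ∑ k, P.M0 X x i k * (U k - P.F x k) - ∑ k, P.MX X x i k * v k := by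
  rw [P.row_M0 X x (fun k => U k - P.F x k) hi, P.row_MX X x v hi, ← Finset.sum_sub_distrib]
  refine Finset.sum_congr rfl fun l _ => ?_
  unfold dv
  by_cases hL : P.Large l.1
  · by_cases hf : Frz X l
    · rw [if_pos hL, if_pos hf, if_neg (fun h => h.2 hf), if_pos ⟨hL, hf⟩, hf.1]
      unfold sg
      simp
    · rw [if_pos hL, if_neg hf, if_pos ⟨hL, hf⟩, if_neg (fun h => hf h.2)]
      unfold sg
      cases l.2
      · simp only [Bool.false_eq_true, if_false]
        ring
      · simp only [if_true]
        ring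
  · rw [if_neg hL, if_neg (fun h => hL h.1), if_neg (fun h => hL h.1)]
    simp

/-- product gates with deviations -/
theorem prod_dv (hε : ε ≤ 1 / 3) (hn : 1 ≤ n) (x : Cube n) (U v : Fin s → ℝ) {i : Fin s}
    (hi : P.Large i) (hk : P.kind i = .prod) :
    ∏ l ∈ P.L i, (lv (P.F x) l + P.dv X x U v l) =
      P.F x i + (∑ k, P.M0 X x i k * (U k - P.F x k) - ∑ k, P.MX X x i k * v k) := by
  rw [← P.row_dv X x U v hi]
  have hF : ∏ l ∈ P.L i, lv (P.F x) l = P.F x i := by
    rw [P.prod_eval hε hn x (P.F x) (fun _ _ => rfl) hi hk]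
    exact (P.F_sys hε hn x i).symm
  rw [← hF]
  have hwt : ∀ l, sg l.2 * P.wt x i l = ∏ l' ∈ (P.L i).erase l, lv (P.F x) l' := by
    intro l
    unfold wt
    rw [hk]
    unfold sg
    cases l.2 <;> simp
  have hsm : ∀ l, ¬ P.Large l.1 → P.dv X x U v l = 0 := by
    intro l hl
    unfold dv
    rw [if_neg hl]
  by_cases hex : ∃ l₀ ∈ P.L i, P.Large l₀.1
  · obtain ⟨l₀, hl₀, hL₀⟩ := hex
    have hoth : ∀ l ∈ (P.L i).erase l₀, P.dv X x U v l = 0 := by
      intro l hl
      rw [Finset.mem_erase] at hl
      exact hsm l fun hL => hl.1 (P.unique_large hε hn hi hk hl.2 hl₀ hL hL₀)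
    rw [← Finset.mul_prod_erase _ _ hl₀, ← Finset.mul_prod_erase (P.L i) (lv (P.F x)) hl₀,
      ← Finset.add_sum_erase _ _ hl₀, hwt,
      Finset.prod_congr rfl (fun l hl => by rw [hoth l hl, add_zero]),
      Finset.sum_eq_zero (s := (P.L i).erase l₀) (fun l hl => by rw [hoth l hl, mul_zero])]
    ring
  · push Not at hex
    rw [Finset.prod_congr rfl fun l hl => by rw [hsm l (hex l hl), add_zero],
      Finset.sum_eq_zero fun l hl => by rw [hsm l (hex l hl), mul_zero], add_zero]

/-- sum gates with deviations -/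
theorem sum_dv (hε : ε ≤ 1 / 3) (hn : 1 ≤ n) (x : Cube n) (U v : Fin s → ℝ) {i : Fin s}
    (hi : P.Large i) (hk : P.kind i = .sum) :
    ∑ l ∈ P.L i, (lv (P.F x) l + P.dv X x U v l) =
      P.F x i + (∑ k, P.M0 X x i k * (U k - P.F x k) - ∑ k, P.MX X x i k * v k) := by
  rw [← P.row_dv X x U v hi, Finset.sum_add_distrib]
  have hF : ∑ l ∈ P.L i, lv (P.F x) l = P.F x i := by
    rw [P.sum_eval x (P.F x) (fun _ _ => rfl) hi hk]
    exact (P.F_sys hε hn x i).symm
  rw [hF]
  congr 1
  refine Finset.sum_congr rfl fun l _ => ?_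
  have hwt : sg l.2 * P.wt x i l = 1 := by
    unfold wt
    rw [hk]
    unfold sg
    cases l.2 <;> simp
  rw [hwt, one_mul]

theorem M0_leaf (x : Cube n) {i : Fin s} (hk : ¬ P.Large i ∨ P.kind i = .leaf) (k : Fin s) :
    P.M0 X x i k = 0 := by
  unfold M0
  by_cases hi : P.Large i
  · have hk' : P.kind i = .leaf := hk.resolve_left (not_not.2 hi)
    by_cases h : P.Large i ∧ P.Large k
    · rw [if_pos h]
      refine Finset.sum_eq_zero fun l _ => ?_
      have : P.wt x i l = 0 := by
        unfold wt
        rw [hk']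
      rw [this, ite_self]
    · rw [if_neg h]
  · rw [if_neg (fun h => hi h.1)]

theorem MX_leaf (x : Cube n) {i : Fin s} (hk : ¬ P.Large i ∨ P.kind i = .leaf) (k : Fin s) :
    P.MX X x i k = 0 := by
  unfold MX
  by_cases hi : P.Large i
  · have hk' : P.kind i = .leaf := hk.resolve_left (not_not.2 hi)
    by_cases h : P.Large i ∧ P.Large k
    · rw [if_pos h]
      refine Finset.sum_eq_zero fun l _ => ?_
      have : P.wt x i l = 0 := by
        unfold wt
        rw [hk']
      rw [this, ite_self]
    · rw [if_neg h]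
  · rw [if_neg (fun h => hi h.1)]

/-- the error of the frozen negation of the gate `a` under the fault at `p` -/
noncomputable def er (x : Cube n) (p : Fin s × Bool) (a : Fin s) : ℝ :=
  if p = (a, false) then 1 - 2 * (1 - P.F x a) else 0

/-- the real value of a literal under a fault -/
theorem lit_val {x : Cube n} {p : Fin s × Bool} {u : Fin s → Bool} (hp : P.Large p.1)
    (hs : ∀ i, ¬ P.Large i → u i = P.f i x) (l : Fin s × Bool) :
    (if P.LitX X x p u l then (1 : ℝ) else 0) =
      lv (P.F x) l + P.dv X x (rv u) (P.er x p) l := by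
  rcases l with ⟨a, b⟩
  unfold dv
  by_cases hf : Frz X (a, b)
  · obtain ⟨hb, ha⟩ := hf
    simp only at hb ha
    subst hb
    have hl : P.LitX X x p u (a, false) ↔ (P.f a x = false ↔ p ≠ (a, false)) := by
      unfold LitX
      rw [if_pos ⟨rfl, ha⟩]
      simp only [ne_eq]
      rw [eq_comm (a := p)]
    by_cases hpa : p = (a, false)
    · have hL : P.Large a := by
        rw [hpa] at hp
        exact hp
      rw [if_pos (show P.Large ((a, false) : Fin s × Bool).1 from hL),
        if_pos (show Frz X ((a, false) : Fin s × Bool) from ⟨rfl, ha⟩)]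
      rw [hpa] at hl ⊢
      unfold er lv F
      rw [if_pos rfl]
      cases hv : P.f a x
      · rw [if_neg (fun h => (hl.1 h).1 hv rfl)]
        norm_num
      · rw [if_pos (hl.2 ⟨fun h => by rw [hv] at h; exact absurd h (by simp),
          fun h => absurd rfl h⟩)]
        norm_num
    · have he : P.er x p a = 0 := by
        unfold er
        rw [if_neg hpa]
      simp only [he]
      have h2 : (if P.Large a then (if Frz X ((a, false) : Fin s × Bool) then (0 : ℝ) else
          sg false * (rv u a - P.F x a)) else 0) = 0 := by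
        rw [if_pos (show Frz X ((a, false) : Fin s × Bool) from ⟨rfl, ha⟩), ite_self]
      rw [h2, add_zero]
      unfold lv F
      simp only [hl, ne_eq, hpa, not_false_eq_true, iff_true]
      cases P.f a x <;> simp
  · have hl : P.LitX X x p u (a, b) ↔ u a = b := by
      unfold LitX
      exact Iff.of_eq (if_neg hf)
    rw [if_neg hf]
    by_cases hL : P.Large a
    · rw [if_pos (show P.Large ((a, b) : Fin s × Bool).1 from hL)]
      simp only [hl]
      unfold lv F rv sg
      cases b <;> cases u a <;> cases P.f a x <;> simp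
    · rw [if_neg (show ¬ P.Large ((a, b) : Fin s × Bool).1 from hL), add_zero]
      simp only [hl]
      rw [hs a hL]
      unfold lv F
      cases b <;> cases P.f a x <;> simp

/-- the linear system of a harmless fault -/
theorem faultX_sys (hε : ε ≤ 1 / 3) (hn : 1 ≤ n) {x : Cube n} {p : Fin s × Bool}
    {u : Fin s → Bool} (hp : P.Large p.1) (h : ∀ i, P.LocX X x p u i)
    (hex : ∀ i, P.Large i → P.kind i = .sum → P.ExclX X x p u i) (i : Fin s) :
    rv u i - P.F x i = ((if p = (i, true) then rv u i - P.F x i else 0) -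
      ∑ k, P.MX X x i k * P.er x p k) + ∑ k, P.M0 X x i k * (rv u k - P.F x k) := by
  have hsm : ∀ k, ¬ P.Large k → u k = P.f k x := by
    intro k hk
    have hkj : p ≠ (k, true) := fun e => hk (by rw [e] at hp; exact hp)
    exact ((h k).2 hkj).1 (Or.inl hk)
  by_cases hij : p = (i, true)
  · rw [if_pos hij]
    have h1 : ∑ k, P.MX X x i k * P.er x p k = 0 := by
      refine Finset.sum_eq_zero fun k _ => ?_
      unfold er
      rw [if_neg (fun e => by rw [hij] at e; exact absurd (Prod.ext_iff.1 e).2 (by simp)),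
        mul_zero]
    have h2 : ∑ k, P.M0 X x i k * (rv u k - P.F x k) = 0 := by
      refine Finset.sum_eq_zero fun k _ => ?_
      by_cases h0 : P.M0 X x i k = 0
      · rw [h0, zero_mul]
      · have h3 : u k = P.f k x := by
          rw [hij] at h
          exact P.faultX_lt X h k (P.M0_lt X x h0).1
        unfold rv F
        rw [h3, sub_self, mul_zero]
    rw [h1, h2]
    ring
  · rw [if_neg hij]
    obtain ⟨h1, h2, h3⟩ := (h i).2 hij
    by_cases hk : ¬ P.Large i ∨ P.kind i = .leaf
    · have h4 : rv u i - P.F x i = 0 := by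
        unfold rv F
        rw [h1 hk, sub_self]
      rw [h4, Finset.sum_eq_zero fun k _ => by rw [P.MX_leaf X x hk, zero_mul],
        Finset.sum_eq_zero fun k _ => by rw [P.M0_leaf X x hk, zero_mul]]
      simp
    · push Not at hk
      obtain ⟨hL, hk⟩ := hk
      rcases hkk : P.kind i with _ | _ | _
      · exact absurd hkk hk
      · have h4 := P.prod_dv X hε hn x (rv u) (P.er x p) hL hkk
        rw [Finset.prod_congr rfl fun l _ => (P.lit_val X hp hsm l).symm] at h4
        have h5 : ∏ l ∈ P.L i, (if P.LitX X x p u l then (1 : ℝ) else 0) = rv u i := by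
          by_cases ht : u i = true
          · unfold rv
            rw [if_pos ht]
            exact Finset.prod_eq_one fun l hl => if_pos ((h2 hL hkk).1 ht l hl)
          · have h4 : ¬ ∀ l ∈ P.L i, P.LitX X x p u l := fun h4 => ht ((h2 hL hkk).2 h4)
            push Not at h4
            obtain ⟨l, hl, hl'⟩ := h4
            unfold rv
            rw [if_neg ht]
            exact Finset.prod_eq_zero hl (if_neg hl')
        rw [h5] at h4
        linarith
      · have h4 := P.sum_dv X hε hn x (rv u) (P.er x p) hL hkk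
        rw [Finset.sum_congr rfl fun l _ => (P.lit_val X hp hsm l).symm] at h4
        have hE := hex i hL hkk
        have h5 : ∑ l ∈ P.L i, (if P.LitX X x p u l then (1 : ℝ) else 0) = rv u i := by
          by_cases ht : u i = true
          · obtain ⟨l₀, hl₀, h6⟩ := (h3 hL hkk).1 ht
            rw [Finset.sum_eq_single_of_mem l₀ hl₀]
            · rw [if_pos h6]
              unfold rv
              rw [if_pos ht]
            · intro l hl hne
              exact if_neg fun h7 => hne (hE l hl l₀ hl₀ h7 h6)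
          · have h4 : ¬ ∃ l ∈ P.L i, P.LitX X x p u l := fun h4 => ht ((h3 hL hkk).2 h4)
            push Not at h4
            unfold rv
            rw [if_neg ht]
            exact Finset.sum_eq_zero fun l hl => if_neg (h4 l hl)
        rw [h5] at h4
        linarith

theorem faultX_solve (hε : ε ≤ 1 / 3) (hn : 1 ≤ n) {x : Cube n} {p : Fin s × Bool}
    {u : Fin s → Bool} (hp : P.Large p.1) (h : ∀ i, P.LocX X x p u i)
    (hex : ∀ i, P.Large i → P.kind i = .sum → P.ExclX X x p u i) (r : Fin s) :
    rv u r - P.F x r = ∑ i, P.D0 X x r i * ((if p = (i, true) then rv u i - P.F x i else 0) -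
      ∑ k, P.MX X x i k * P.er x p k) :=
  tri_solve _ (P.M0_tri X x) (fun i => rv u i - P.F x i)
    (fun i => (if p = (i, true) then rv u i - P.F x i else 0) -
      ∑ k, P.MX X x i k * P.er x p k) (P.faultX_sys X hε hn hp h hex) r

theorem abs_dev (x : Cube n) (u : Fin s → Bool) (r : Fin s) : |rv u r - P.F x r| ≤ 1 := by
  unfold rv F
  cases u r <;> cases P.f r x <;> simp

/-- the derivative with respect to a gate -/
theorem abs_D0 (hε : ε ≤ 1 / 3) (hn : 1 ≤ n) {j : Fin s} (hj : P.Large j) {x₀ : Cube n}
    (hx₀ : P.HarmX X (j, true) x₀) (x : Cube n) (r : Fin s) : |P.D0 X x r j| ≤ 1 := by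
  set x' : Cube n := fun v => if v ∈ P.S j then x₀ v else x v with hx'
  have hin : ∀ v ∈ P.S j, x' v = x₀ v := fun v hv => by rw [hx']; exact if_pos hv
  have hout : ∀ v, v ∉ P.S j → x v = x' v := fun v hv => by rw [hx']; exact (if_neg hv).symm
  rw [(P.D0_dep X r j).2 x x' hout]
  obtain ⟨u, hu⟩ := P.exists_faultX X x' (j, true)
  have hex := hx₀ x' (P.dep j x' x₀ hin)
    (fun l hl => P.dep l.1 x' x₀ fun v hv => hin v ((P.input j l hl).2 hv)) u hu
  have h1 := P.faultX_solve X hε hn hj hu hex r
  have h2 : ∀ i, (if ((j, true) : Fin s × Bool) = (i, true) then rv u i - P.F x' i else 0) -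
      ∑ k, P.MX X x' i k * P.er x' (j, true) k =
      if i = j then rv u j - P.F x' j else 0 := by
    intro i
    rw [Finset.sum_eq_zero fun k _ => ?_, sub_zero]
    · by_cases hij : i = j
      · rw [hij, if_pos rfl, if_pos rfl]
      · rw [if_neg hij, if_neg fun e => hij (Prod.ext_iff.1 e).1.symm]
    · unfold er
      rw [if_neg (fun e => absurd (Prod.ext_iff.1 e).2 (by simp)), mul_zero]
  rw [Finset.sum_congr rfl fun i _ => by rw [h2 i]] at h1
  simp only [mul_ite, mul_zero, Finset.sum_ite_eq', Finset.mem_univ, if_true] at h1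
  have h3 : |rv u j - P.F x' j| = 1 := by
    have h4 := (hu j).1 rfl
    unfold rv F
    cases h5 : u j <;> cases h6 : P.f j x' <;> simp [h5, h6] at h4 ⊢
  have h4 := P.abs_dev x' u r
  rw [h1, abs_mul, h3, mul_one] at h4
  exact h4

/-- the derivative with respect to a frozen negation -/
theorem abs_GX (hε : ε ≤ 1 / 3) (hn : 1 ≤ n) {a : Fin s} (ha : P.Large a) {x₀ : Cube n}
    (hx₀ : P.HarmX X (a, false) x₀) (x : Cube n) (r : Fin s) : |P.GX X x r a| ≤ 1 := by
  set x' : Cube n := fun v => if v ∈ P.S a then x₀ v else x v with hx'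
  have hin : ∀ v ∈ P.S a, x' v = x₀ v := fun v hv => by rw [hx']; exact if_pos hv
  have hout : ∀ v, v ∉ P.S a → x v = x' v := fun v hv => by rw [hx']; exact (if_neg hv).symm
  rw [P.GX_dep X hout]
  obtain ⟨u, hu⟩ := P.exists_faultX X x' (a, false)
  have hex := hx₀ x' (P.dep a x' x₀ hin)
    (fun l hl => P.dep l.1 x' x₀ fun v hv => hin v ((P.input a l hl).2 hv)) u hu
  have h1 := P.faultX_solve X hε hn ha hu hex r
  have h2 : ∀ i, (if ((a, false) : Fin s × Bool) = (i, true) then rv u i - P.F x' i else 0) -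
      ∑ k, P.MX X x' i k * P.er x' (a, false) k =
      - (P.MX X x' i a * (1 - 2 * (1 - P.F x' a))) := by
    intro i
    rw [if_neg (fun e => absurd (Prod.ext_iff.1 e).2 (by simp)), zero_sub,
      Finset.sum_eq_single a]
    · unfold er
      rw [if_pos rfl]
    · intro k _ hk
      unfold er
      rw [if_neg (fun e => hk (Prod.ext_iff.1 e).1.symm), mul_zero]
    · intro h3
      exact absurd (Finset.mem_univ a) h3
  have h3 : rv u r - P.F x' r = - (P.GX X x' r a * (1 - 2 * (1 - P.F x' a))) := by
    rw [h1]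
    unfold GX
    rw [Matrix.mul_apply, Finset.sum_mul, ← Finset.sum_neg_distrib]
    refine Finset.sum_congr rfl fun i _ => ?_
    rw [h2 i]
    ring
  have h5 : |1 - 2 * (1 - P.F x' a)| = 1 := by
    unfold F
    cases P.f a x' <;> norm_num
  have h4 := P.abs_dev x' u r
  rw [h3, abs_neg, abs_mul, h5, mul_one] at h4
  exact h4

end Prog

end Pool.Agent.VD
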