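import Pool.Agent.VD.Chn

/-!
# VD, frozen negations: the linear system
-/

set_option autoImplicit false

namespace Pool.Agent.VD

open Finset Matrix
open scoped Classical

/-! ### triangular systems -/

theorem tri_det {s : ℕ} (M : Matrix (Fin s) (Fin s) ℝ) (h : ∀ i k, M i k ≠ 0 → k < i) :
    (1 - M).det = 1 := by
  have h1 : (1 - M).BlockTriangular OrderDual.toDual := by
    intro i j hij
    have hij' : i < j := hij
    rw [Matrix.sub_apply, Matrix.one_apply_ne (ne_of_lt hij'), zero_sub, neg_eq_zero]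
    by_contra h2
    exact absurd (h _ _ h2) (not_lt.2 hij'.le)
  rw [Matrix.det_of_isLowerTriangular _ h1]
  refine Finset.prod_eq_one fun i _ => ?_
  rw [Matrix.sub_apply, Matrix.one_apply_eq]
  have : M i i = 0 := by
    by_contra h2
    exact absurd (h _ _ h2) (lt_irrefl _)
  rw [this, sub_zero]

theorem tri_mul {s : ℕ} (M : Matrix (Fin s) (Fin s) ℝ) (h : ∀ i k, M i k ≠ 0 → k < i) :
    (1 - M)⁻¹ * (1 - M) = 1 :=
  Matrix.nonsing_inv_mul _ (by rw [tri_det M h]; exact isUnit_one)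

theorem tri_mul' {s : ℕ} (M : Matrix (Fin s) (Fin s) ℝ) (h : ∀ i k, M i k ≠ 0 → k < i) :
    (1 - M) * (1 - M)⁻¹ = 1 :=
  Matrix.mul_nonsing_inv _ (by rw [tri_det M h]; exact isUnit_one)

theorem tri_fwd {s : ℕ} (M : Matrix (Fin s) (Fin s) ℝ) (h : ∀ i k, M i k ≠ 0 → k < i)
    (i j : Fin s) :
    (1 - M)⁻¹ i j = (if i = j then 1 else 0) + ∑ k, M i k * (1 - M)⁻¹ k j := by
  have h1 := tri_mul' M h
  rw [sub_mul, one_mul, sub_eq_iff_eq_add] at h1
  have h2 := congrFun (congrFun h1 i) j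
  rw [Matrix.add_apply, Matrix.one_apply, Matrix.mul_apply] at h2
  exact h2

theorem tri_bwd {s : ℕ} (M : Matrix (Fin s) (Fin s) ℝ) (h : ∀ i k, M i k ≠ 0 → k < i)
    (i j : Fin s) :
    (1 - M)⁻¹ i j = (if i = j then 1 else 0) + ∑ k, (1 - M)⁻¹ i k * M k j := by
  have h1 := tri_mul M h
  rw [mul_sub, mul_one, sub_eq_iff_eq_add] at h1
  have h2 := congrFun (congrFun h1 i) j
  rw [Matrix.add_apply, Matrix.one_apply, Matrix.mul_apply] at h2
  exact h2

/-- solution of a triangular system -/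
theorem tri_solve {s : ℕ} (M : Matrix (Fin s) (Fin s) ℝ) (h : ∀ i k, M i k ≠ 0 → k < i)
    (U c : Fin s → ℝ) (hU : ∀ i, U i = c i + ∑ k, M i k * U k) (r : Fin s) :
    U r = ∑ i, (1 - M)⁻¹ r i * c i := by
  have h1 : (1 - M).mulVec U = c := by
    funext i
    rw [Matrix.sub_mulVec, Matrix.one_mulVec]
    have h2 := hU i
    simp only [Pi.sub_apply, Matrix.mulVec, dotProduct]
    linarith
  have h2 : U = ((1 - M)⁻¹).mulVec ((1 - M).mulVec U) := by
    rw [Matrix.mulVec_mulVec, tri_mul M h, Matrix.one_mulVec]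
  rw [h1] at h2
  have h3 := congrFun h2 r
  rw [h3]
  simp only [Matrix.mulVec, dotProduct]

namespace Prog

variable {n : ℕ} {ε : ℝ} {W s : ℕ} (P : Prog n ε W s)

/-- the literal is a frozen negation -/
def Frz (X : Finset (Fin s)) (l : Fin s × Bool) : Prop := l.2 = false ∧ l.1 ∈ X

/-- the part of the matrix without frozen negations -/
noncomputable def M0 (X : Finset (Fin s)) (x : Cube n) : Matrix (Fin s) (Fin s) ℝ := fun i k =>
  if P.Large i ∧ P.Large k then
    ∑ l ∈ P.L i, if l.1 = k ∧ ¬ Frz X l then P.wt x i l else 0 else 0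

/-- the part of the matrix of the frozen negations -/
noncomputable def MX (X : Finset (Fin s)) (x : Cube n) : Matrix (Fin s) (Fin s) ℝ := fun i k =>
  if P.Large i ∧ P.Large k then
    ∑ l ∈ P.L i, if l.1 = k ∧ Frz X l then P.wt x i l else 0 else 0

variable (X : Finset (Fin s))

theorem M_split (x : Cube n) : P.M x = P.M0 X x + P.MX X x := by
  funext i k
  rw [Matrix.add_apply]
  unfold M M0 MX
  by_cases h : P.Large i ∧ P.Large k
  · rw [if_pos h, if_pos h, if_pos h, ← Finset.sum_add_distrib]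
    refine Finset.sum_congr rfl fun l _ => ?_
    by_cases h1 : l.1 = k
    · by_cases h2 : Frz X l
      · rw [if_pos h1, if_neg (fun h3 => h3.2 h2), if_pos ⟨h1, h2⟩, zero_add]
      · rw [if_pos h1, if_pos ⟨h1, h2⟩, if_neg (fun h3 => h2 h3.2), add_zero]
    · rw [if_neg h1, if_neg (fun h3 => h1 h3.1), if_neg (fun h3 => h1 h3.1), add_zero]
  · rw [if_neg h, if_neg h, if_neg h, add_zero]

theorem M0_ne (x : Cube n) {i k : Fin s} (h : P.M0 X x i k ≠ 0) :
    P.Large i ∧ P.Large k ∧ ∃ l ∈ P.L i, l.1 = k ∧ ¬ Frz X l := by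
  unfold M0 at h
  by_cases h1 : P.Large i ∧ P.Large k
  · refine ⟨h1.1, h1.2, ?_⟩
    rw [if_pos h1] at h
    obtain ⟨l, hl, hl'⟩ := Finset.exists_ne_zero_of_sum_ne_zero h
    by_cases h2 : l.1 = k ∧ ¬ Frz X l
    · exact ⟨l, hl, h2⟩
    · rw [if_neg h2] at hl'
      exact absurd rfl hl'
  · rw [if_neg h1] at h
    exact absurd rfl h

theorem MX_ne (x : Cube n) {i k : Fin s} (h : P.MX X x i k ≠ 0) :
    P.Large i ∧ P.Large k ∧ (k, false) ∈ P.L i ∧ k ∈ X := by
  unfold MX at h
  by_cases h1 : P.Large i ∧ P.Large k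
  · refine ⟨h1.1, h1.2, ?_⟩
    rw [if_pos h1] at h
    obtain ⟨l, hl, hl'⟩ := Finset.exists_ne_zero_of_sum_ne_zero h
    by_cases h2 : l.1 = k ∧ Frz X l
    · obtain ⟨h3, h4, h5⟩ := h2
      have e : l = (k, false) := Prod.ext h3 h4
      rw [e] at hl
      rw [h3] at h5
      exact ⟨hl, h5⟩
    · rw [if_neg h2] at hl'
      exact absurd rfl hl'
  · rw [if_neg h1] at h
    exact absurd rfl h

theorem M0_lt (x : Cube n) {i k : Fin s} (h : P.M0 X x i k ≠ 0) : k < i ∧ P.S k ⊆ P.S i := by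
  obtain ⟨-, -, l, hl, hk, -⟩ := P.M0_ne X x h
  rw [← hk]
  exact P.input i l hl

theorem MX_lt (x : Cube n) {i k : Fin s} (h : P.MX X x i k ≠ 0) : k < i ∧ P.S k ⊆ P.S i := by
  obtain ⟨-, -, hl, -⟩ := P.MX_ne X x h
  exact P.input i _ hl

theorem M0_tri (x : Cube n) : ∀ i k, P.M0 X x i k ≠ 0 → k < i := fun _ _ h => (P.M0_lt X x h).1

/-- the derivatives of the program with frozen negations -/
noncomputable def D0 (x : Cube n) : Matrix (Fin s) (Fin s) ℝ := (1 - P.M0 X x)⁻¹

/-- the derivatives with respect to the frozen negations (with a sign) -/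
noncomputable def GX (x : Cube n) : Matrix (Fin s) (Fin s) ℝ := P.D0 X x * P.MX X x

theorem D0_fwd (x : Cube n) (i j : Fin s) :
    P.D0 X x i j = (if i = j then 1 else 0) + ∑ k, P.M0 X x i k * P.D0 X x k j :=
  tri_fwd _ (P.M0_tri X x) i j

theorem D0_bwd (x : Cube n) (i j : Fin s) :
    P.D0 X x i j = (if i = j then 1 else 0) + ∑ k, P.D0 X x i k * P.M0 X x k j :=
  tri_bwd _ (P.M0_tri X x) i j

/-- the first frozen negation on the way down from `r` -/
theorem D_split (x : Cube n) (r j : Fin s) :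
    P.D x r j = P.D0 X x r j + ∑ a, P.GX X x r a * P.D x a j := by
  have h1 : (1 - P.M0 X x) * P.D x = 1 + P.MX X x * P.D x := by
    have h2 := P.mul_D x
    rw [P.M_split X x] at h2
    calc (1 - P.M0 X x) * P.D x = (1 - (P.M0 X x + P.MX X x)) * P.D x + P.MX X x * P.D x := by
          noncomm_ring
      _ = 1 + P.MX X x * P.D x := by rw [h2]
  have h3 : P.D x = P.D0 X x + P.GX X x * P.D x := by
    have h4 := tri_mul _ (P.M0_tri X x)
    calc P.D x = (P.D0 X x * (1 - P.M0 X x)) * P.D x := by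
          unfold D0
          rw [h4, one_mul]
      _ = P.D0 X x * (1 + P.MX X x * P.D x) := by rw [Matrix.mul_assoc, h1]
      _ = P.D0 X x + P.GX X x * P.D x := by
          unfold GX
          rw [Matrix.mul_add, Matrix.mul_one, Matrix.mul_assoc]
  have h5 := congrFun (congrFun h3 r) j
  rw [Matrix.add_apply, Matrix.mul_apply] at h5
  exact h5

/-! ### dependence on the variables -/

theorem wt_dep {x y : Cube n} {i : Fin s} (hi : P.Large i) {l : Fin s × Bool} (hl : l ∈ P.L i)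
    (h : ∀ v, v ∉ P.S l.1 → x v = y v) : P.wt x i l = P.wt y i l := by
  unfold wt
  rcases hk : P.kind i with _ | _ | _
  · rfl
  · simp only
    rw [Finset.prod_congr rfl fun l' hl' => ?_]
    rw [Finset.mem_erase] at hl'
    refine P.lv_dep fun v hv => h v ?_
    exact Finset.disjoint_left.1 (P.disj i hi hk l' hl'.2 l hl hl'.1) hv
  · rfl

theorem M0_dep {x y : Cube n} {i k : Fin s} (h : ∀ v, v ∉ P.S k → x v = y v) :
    P.M0 X x i k = P.M0 X y i k := by
  unfold M0
  by_cases h1 : P.Large i ∧ P.Large k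
  · rw [if_pos h1, if_pos h1]
    refine Finset.sum_congr rfl fun l hl => ?_
    by_cases h2 : l.1 = k ∧ ¬ Frz X l
    · rw [if_pos h2, if_pos h2]
      exact P.wt_dep h1.1 hl (by rw [h2.1]; exact h)
    · rw [if_neg h2, if_neg h2]
  · rw [if_neg h1, if_neg h1]

theorem MX_dep {x y : Cube n} {i k : Fin s} (h : ∀ v, v ∉ P.S k → x v = y v) :
    P.MX X x i k = P.MX X y i k := by
  unfold MX
  by_cases h1 : P.Large i ∧ P.Large k
  · rw [if_pos h1, if_pos h1]
    refine Finset.sum_congr rfl fun l hl => ?_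
    by_cases h2 : l.1 = k ∧ Frz X l
    · rw [if_pos h2, if_pos h2]
      exact P.wt_dep h1.1 hl (by rw [h2.1]; exact h)
    · rw [if_neg h2, if_neg h2]
  · rw [if_neg h1, if_neg h1]

theorem D0_dep (i : Fin s) : ∀ j : Fin s,
    (∀ x, P.D0 X x i j ≠ 0 → P.S j ⊆ P.S i ∧ j ≤ i) ∧
    ∀ x y : Cube n, (∀ v, v ∉ P.S j → x v = y v) → P.D0 X x i j = P.D0 X y i j := by
  induction i using WellFoundedLT.induction with
  | ind i ih =>
    intro j
    constructor
    · intro x hx
      rw [P.D0_fwd] at hx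
      by_cases hij : i = j
      · rw [hij]
        exact ⟨Finset.Subset.refl _, le_refl _⟩
      · rw [if_neg hij, zero_add] at hx
        obtain ⟨k, -, hk⟩ := Finset.exists_ne_zero_of_sum_ne_zero hx
        have h1 := left_ne_zero_of_mul hk
        have h2 := right_ne_zero_of_mul hk
        obtain ⟨h3, h4⟩ := P.M0_lt X x h1
        obtain ⟨h5, h6⟩ := (ih k h3 j).1 x h2
        exact ⟨h5.trans h4, h6.trans h3.le⟩
    · intro x y h
      rw [P.D0_fwd X x, P.D0_fwd X y]
      congr 1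
      refine Finset.sum_congr rfl fun k _ => ?_
      by_cases hki : P.M0 X x i k = 0 ∧ P.M0 X y i k = 0
      · rw [hki.1, hki.2, zero_mul, zero_mul]
      · have hlt : k < i := by
          rw [not_and_or] at hki
          rcases hki with h1 | h1
          · exact (P.M0_lt X x h1).1
          · exact (P.M0_lt X y h1).1
        rw [(ih k hlt j).2 x y h]
        by_cases h0 : P.D0 X y k j = 0
        · rw [h0, mul_zero, mul_zero]
        · have hS := ((ih k hlt j).1 y h0).1
          rw [P.M0_dep X (fun v hv => h v (fun hv' => hv (hS hv')))]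

theorem GX_ne (x : Cube n) {r a : Fin s} (h : P.GX X x r a ≠ 0) :
    a < r ∧ ∃ i, P.D0 X x r i ≠ 0 ∧ P.MX X x i a ≠ 0 := by
  unfold GX at h
  rw [Matrix.mul_apply] at h
  obtain ⟨i, -, hi⟩ := Finset.exists_ne_zero_of_sum_ne_zero h
  have h1 := left_ne_zero_of_mul hi
  have h2 := right_ne_zero_of_mul hi
  exact ⟨lt_of_lt_of_le (P.MX_lt X x h2).1 ((P.D0_dep X r i).1 x h1).2, i, h1, h2⟩

theorem GX_dep {x y : Cube n} {r a : Fin s} (h : ∀ v, v ∉ P.S a → x v = y v) :
    P.GX X x r a = P.GX X y r a := by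
  unfold GX
  rw [Matrix.mul_apply, Matrix.mul_apply]
  refine Finset.sum_congr rfl fun i _ => ?_
  rw [P.MX_dep X h]
  by_cases h0 : P.MX X y i a = 0
  · rw [h0, mul_zero, mul_zero]
  · have hS := (P.MX_lt X y h0).2
    rw [(P.D0_dep X r i).2 x y fun v hv => h v fun hv' => hv (hS hv')]

end Prog

end Pool.Agent.VD
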