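import Pool.Agent.VD.SSt

/-!
# VD, the program for the negation of a disjoint union of products of small functions
-/

set_option autoImplicit false

namespace Pool.Agent.VD

open Finset

namespace PR

/-- the gates: factors, products, the sum, its negation -/
abbrev Gt (K R : ℕ) := Fin (K * R + (K + 2))

/-- the factor `(k, i)` -/
def fac {K R : ℕ} (k : Fin K) (i : Fin R) : Gt K R := Fin.castAdd (K + 2) (finProdFinEquiv (k, i))

/-- the product `k` -/
def prd {K : ℕ} (R : ℕ) (k : Fin K) : Gt K R := Fin.natAdd (K * R) (Fin.castAdd 2 k)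

/-- the sum -/
def smg (K R : ℕ) : Gt K R := Fin.natAdd (K * R) (Fin.natAdd K 0)

/-- the negation -/
def ntg (K R : ℕ) : Gt K R := Fin.natAdd (K * R) (Fin.natAdd K 1)

/-- a function on the gates -/
def mk {K R : ℕ} {α : Type} (a : Fin K → Fin R → α) (b : Fin K → α) (c d : α) : Gt K R → α :=
  Fin.addCases (fun j => a (finProdFinEquiv.symm j).1 (finProdFinEquiv.symm j).2)
    (Fin.addCases b fun e => if e = 0 then c else d)

section

variable {K R : ℕ} {α : Type} (a : Fin K → Fin R → α) (b : Fin K → α) (c d : α)

theorem mk_fac (k : Fin K) (i : Fin R) : mk a b c d (fac k i) = a k i := by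
  unfold mk fac
  rw [Fin.addCases_left, Equiv.symm_apply_apply]

theorem mk_prd (k : Fin K) : mk a b c d (prd R k) = b k := by
  unfold mk prd
  rw [Fin.addCases_right, Fin.addCases_left]

theorem mk_smg : mk a b c d (smg K R) = c := by
  unfold mk smg
  rw [Fin.addCases_right, Fin.addCases_right, if_pos rfl]

theorem mk_ntg : mk a b c d (ntg K R) = d := by
  unfold mk ntg
  rw [Fin.addCases_right, Fin.addCases_right, if_neg (by decide)]

end

theorem gcases {K R : ℕ} {C : Gt K R → Prop} (h1 : ∀ k i, C (fac k i)) (h2 : ∀ k, C (prd R k))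
    (h3 : C (smg K R)) (h4 : C (ntg K R)) (j : Gt K R) : C j := by
  revert j
  refine Fin.addCases (fun j => ?_) (Fin.addCases (fun k => h2 k) fun e => ?_)
  · have h := h1 (finProdFinEquiv.symm j).1 (finProdFinEquiv.symm j).2
    unfold fac at h
    rw [Prod.mk.eta, Equiv.apply_symm_apply] at h
    exact h
  · fin_cases e
    · exact h3
    · exact h4

theorem fac_inj {K R : ℕ} {k k' : Fin K} {i i' : Fin R} (h : fac k i = fac k' i') :
    k = k' ∧ i = i' := by
  unfold fac at h
  have := finProdFinEquiv.injective (Fin.castAdd_injective _ _ h)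
  rwa [Prod.mk.injEq] at this

theorem prd_inj {K R : ℕ} {k k' : Fin K} (h : prd R k = prd R k') : k = k' := by
  unfold prd at h
  rw [Fin.ext_iff] at h ⊢
  simpa using h

theorem fac_lt {K R : ℕ} (k : Fin K) (i : Fin R) (k' : Fin K) : fac k i < prd R k' := by
  rw [Fin.lt_def]
  unfold fac prd
  rw [Fin.val_castAdd, Fin.val_natAdd]
  exact lt_of_lt_of_le (finProdFinEquiv (k, i)).2 (Nat.le_add_right _ _)

theorem prd_lt {K R : ℕ} (k : Fin K) : prd R k < smg K R := by
  rw [Fin.lt_def]
  unfold prd smg
  rw [Fin.val_natAdd, Fin.val_natAdd, Fin.val_castAdd, Fin.val_natAdd]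
  have := k.2
  omega

theorem smg_lt (K R : ℕ) : smg K R < ntg K R := by
  rw [Fin.lt_def]
  unfold smg ntg
  simp

end PR

open PR

theorem thm_PR : St_PR := by
  classical
  intro n K R ε hε hn hK sc g hdep hcard hdisj hexcl hsat huns
  have hn' : (0 : ℝ) < n := by exact_mod_cast hn
  have hlu : (1 - ε) * n < ((univ : Finset (Fin n)).card : ℝ) := by
    rw [card_univ, Fintype.card_fin]
    nlinarith
  set kd : Gt K R → Kind := mk (fun _ _ => .leaf) (fun _ => .prod) .sum .prod with hkd
  set Sc : Gt K R → Finset (Fin n) := mk sc (fun _ => univ) univ univ with hSc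
  set fn : Gt K R → Cube n → Bool := mk g (fun k x => decide (∀ i, g k i x = true))
    (fun x => decide (∃ k, ∀ i, g k i x = true))
    (fun x => !(decide (∃ k, ∀ i, g k i x = true))) with hfn
  set Ln : Gt K R → Finset (Gt K R × Bool) := mk (fun _ _ => ∅)
    (fun k => univ.image fun i => (fac k i, true)) (univ.image fun k => (prd R k, true))
    {(smg K R, false)} with hLn
  have kf : ∀ k i, kd (fac k i) = .leaf := fun k i => mk_fac _ _ _ _ k i
  have kp : ∀ k, kd (prd R k) = .prod := fun k => mk_prd _ _ _ _ k
  have ks : kd (smg K R) = .sum := mk_smg _ _ _ _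
  have kn : kd (ntg K R) = .prod := mk_ntg _ _ _ _
  have sf : ∀ k i, Sc (fac k i) = sc k i := fun k i => mk_fac _ _ _ _ k i
  have sp : ∀ k, Sc (prd R k) = univ := fun k => mk_prd _ _ _ _ k
  have ss : Sc (smg K R) = univ := mk_smg _ _ _ _
  have sn : Sc (ntg K R) = univ := mk_ntg _ _ _ _
  have ff : ∀ k i, fn (fac k i) = g k i := fun k i => mk_fac _ _ _ _ k i
  have fp : ∀ k x, fn (prd R k) x = decide (∀ i, g k i x = true) := fun k x => by
    rw [hfn, mk_prd]
  have fs : ∀ x, fn (smg K R) x = decide (∃ k, ∀ i, g k i x = true) := fun x => by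
    rw [hfn, mk_smg]
  have fnn : ∀ x, fn (ntg K R) x = !(decide (∃ k, ∀ i, g k i x = true)) := fun x => by
    rw [hfn, mk_ntg]
  have lf : ∀ k i, Ln (fac k i) = ∅ := fun k i => mk_fac _ _ _ _ k i
  have lp : ∀ k l, l ∈ Ln (prd R k) ↔ ∃ i, l = (fac k i, true) := fun k l => by
    rw [hLn, mk_prd, mem_image]
    simp [eq_comm]
  have ls : ∀ l, l ∈ Ln (smg K R) ↔ ∃ k, l = (prd R k, true) := fun l => by
    rw [hLn, mk_smg, mem_image]
    simp [eq_comm]
  have ln : ∀ l, l ∈ Ln (ntg K R) ↔ l = (smg K R, false) := fun l => by
    rw [hLn, mk_ntg, mem_singleton]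
  have hnf : ∀ k i, ¬ (1 - ε) * n < ((Sc (fac k i)).card : ℝ) := fun k i => by
    rw [sf]
    exact not_lt.2 (hcard k i)
  let P : Prog n ε 1 (K * R + (K + 2)) :=
    { kind := kd
      S := Sc
      f := fn
      L := Ln
      dep := by
        refine gcases (fun k i x y h => ?_) (fun k x y h => ?_) (fun x y h => ?_)
          (fun x y h => ?_)
        · rw [ff]
          rw [sf] at h
          exact hdep k i x y h
        · rw [sp] at h
          rw [funext fun v => h v (mem_univ v)]
        · rw [ss] at h
          rw [funext fun v => h v (mem_univ v)]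
        · rw [sn] at h
          rw [funext fun v => h v (mem_univ v)]
      input := by
        refine gcases (fun k i l hl => ?_) (fun k l hl => ?_) (fun l hl => ?_) (fun l hl => ?_)
        · rw [lf] at hl
          exact absurd hl (notMem_empty _)
        · obtain ⟨i, rfl⟩ := (lp k l).1 hl
          refine ⟨fac_lt k i k, ?_⟩
          rw [sp]
          exact subset_univ _
        · obtain ⟨k, rfl⟩ := (ls l).1 hl
          refine ⟨prd_lt k, ?_⟩
          rw [ss]
          exact subset_univ _
        · rw [(ln l).1 hl]
          refine ⟨smg_lt K R, ?_⟩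
          rw [sn]
          exact subset_univ _
      leaf := by
        refine gcases (fun k i h => ?_) (fun k _ h => ?_) (fun _ h => ?_) (fun _ h => ?_)
        · exact absurd h (hnf k i)
        · rw [kp] at h
          exact absurd h (by simp)
        · rw [ks] at h
          exact absurd h (by simp)
        · rw [kn] at h
          exact absurd h (by simp)
      prod := by
        refine gcases (fun k i h => ?_) (fun k _ _ x => ?_) (fun _ h => ?_) (fun _ _ x => ?_)
        · exact absurd h (hnf k i)
        · rw [fp, decide_eq_true_iff]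
          constructor
          · intro h l hl
            obtain ⟨i, rfl⟩ := (lp k l).1 hl
            rw [ff]
            exact h i
          · intro h i
            have := h _ ((lp k _).2 ⟨i, rfl⟩)
            rw [ff] at this
            exact this
        · rw [ks] at h
          exact absurd h (by simp)
        · constructor
          · intro h l hl
            rw [(ln l).1 hl, fs]
            rw [fnn] at h
            simpa using h
          · intro h
            have := h _ ((ln _).2 rfl)
            rw [fs] at this
            rw [fnn, this]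
            rfl
      disj := by
        refine gcases (fun k i h => ?_) (fun k _ _ l hl l' hl' hne => ?_) (fun _ h => ?_)
          (fun _ _ l hl l' hl' hne => ?_)
        · exact absurd h (hnf k i)
        · obtain ⟨i, rfl⟩ := (lp k l).1 hl
          obtain ⟨i', rfl⟩ := (lp k l').1 hl'
          rw [sf, sf]
          refine hdisj k i i' fun e => hne ?_
          rw [e]
        · rw [ks] at h
          exact absurd h (by simp)
        · exact absurd (((ln l).1 hl).trans ((ln l').1 hl').symm) hne
      sum := by
        refine gcases (fun k i h => ?_) (fun k _ h => ?_) (fun _ _ x => ?_) (fun _ h => ?_)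
        · exact absurd h (hnf k i)
        · rw [kp] at h
          exact absurd h (by simp)
        · rw [fs, decide_eq_true_iff]
          constructor
          · rintro ⟨k, hk⟩
            refine ⟨_, (ls _).2 ⟨k, rfl⟩, ?_⟩
            rw [fp, decide_eq_true_iff]
            exact hk
          · rintro ⟨l, hl, hlx⟩
            obtain ⟨k, rfl⟩ := (ls l).1 hl
            rw [fp, decide_eq_true_iff] at hlx
            exact ⟨k, hlx⟩
        · rw [kn] at h
          exact absurd h (by simp)
      det := by
        refine gcases (fun k i h => ?_) (fun k _ h => ?_) (fun _ _ x l hl l' hl' h1 h2 => ?_)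
          (fun _ h => ?_)
        · exact absurd h (hnf k i)
        · rw [kp] at h
          exact absurd h (by simp)
        · obtain ⟨k, rfl⟩ := (ls l).1 hl
          obtain ⟨k', rfl⟩ := (ls l').1 hl'
          rw [fp, decide_eq_true_iff] at h1 h2
          rw [hexcl x k k' h1 h2]
        · rw [kn] at h
          exact absurd h (by simp) }
  refine ⟨P, ntg K R, ⟨?_, ?_⟩, ?_, ?_, ?_⟩
  · -- no large gate is constant
    obtain ⟨x₀, hx₀⟩ := huns
    have hx₀' : ∀ k, ¬ ∀ i, g k i x₀ = true := by
      intro k h
      obtain ⟨i, hi⟩ := hx₀ k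
      rw [h i] at hi
      exact absurd hi (by simp)
    have hx₀'' : ¬ ∃ k, ∀ i, g k i x₀ = true := by
      rintro ⟨k, hk⟩
      exact hx₀' k hk
    refine gcases (fun k i h => absurd h (hnf k i)) (fun k _ b => ?_) (fun _ b => ?_)
      (fun _ b => ?_)
    · cases b
      · refine ⟨x₀, ?_⟩
        change fn (prd R k) x₀ = false
        rw [fp, decide_eq_false_iff_not]
        exact hx₀' k
      · obtain ⟨x, hx⟩ := hsat k
        refine ⟨x, ?_⟩
        change fn (prd R k) x = true
        rw [fp, decide_eq_true_iff]
        exact hx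
    · cases b
      · refine ⟨x₀, ?_⟩
        change fn (smg K R) x₀ = false
        rw [fs, decide_eq_false_iff_not]
        exact hx₀''
      · obtain ⟨x, hx⟩ := hsat ⟨0, hK⟩
        refine ⟨x, ?_⟩
        change fn (smg K R) x = true
        rw [fs, decide_eq_true_iff]
        exact ⟨_, hx⟩
    · cases b
      · obtain ⟨x, hx⟩ := hsat ⟨0, hK⟩
        refine ⟨x, ?_⟩
        change fn (ntg K R) x = false
        rw [fnn, decide_eq_true (⟨_, hx⟩ : ∃ k, ∀ i, g k i x = true)]
        rfl
      · refine ⟨x₀, ?_⟩
        change fn (ntg K R) x₀ = true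
        rw [fnn, decide_eq_false hx₀'']
        rfl
  · -- visible determinism
    refine gcases (fun k i h => absurd h (hnf k i)) (fun k _ h => ?_) (fun _ _ x u h1 h2 _ _ => ?_)
      (fun _ h => ?_)
    · change kd (prd R k) = .sum at h
      rw [kp] at h
      exact absurd h (by simp)
    · intro l hl l' hl' hu hu'
      obtain ⟨k, rfl⟩ := (ls l).1 hl
      obtain ⟨k', rfl⟩ := (ls l').1 hl'
      have key : ∀ k, u (prd R k) = true → ∀ i, g k i x = true := by
        intro k hk i
        have hL : P.Large (prd R k) := by
          change (1 - ε) * n < ((Sc (prd R k)).card : ℝ)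
          rw [sp]
          exact hlu
        have h3 := h2 (prd R k) hL (kp k) hk _ ((lp k _).2 ⟨i, rfl⟩)
        have h4 := h1 (fac k i) (hnf k i)
        change u (fac k i) = fn (fac k i) x at h4
        rw [ff] at h4
        rw [← h4]
        exact h3
      rw [hexcl x k k' (key k hu) (key k' hu')]
    · change kd (ntg K R) = .sum at h
      rw [kn] at h
      exact absurd h (by simp)
  · -- the size
    have e1 : ∀ k i, (Ln (fac k i)).card = 0 := fun k i => by rw [lf, card_empty]
    have e2 : ∀ k, (Ln (prd R k)).card = R := fun k => by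
      rw [hLn, mk_prd, card_image_of_injective, card_univ, Fintype.card_fin]
      intro i i' h
      simp only [Prod.mk.injEq, and_true] at h
      exact (fac_inj h).2
    have e3 : (Ln (smg K R)).card = K := by
      rw [hLn, mk_smg, card_image_of_injective, card_univ, Fintype.card_fin]
      intro k k' h
      simp only [Prod.mk.injEq, and_true] at h
      exact prd_inj h
    have e4 : (Ln (ntg K R)).card = 1 := by
      rw [hLn, mk_ntg, card_singleton]
    change K * R + (K + 2) + ∑ j, (Ln j).card = _
    rw [Fin.sum_univ_add, Fin.sum_univ_add, Fin.sum_univ_two]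
    have s1 : ∑ j : Fin (K * R), (Ln (Fin.castAdd (K + 2) j)).card = 0 := by
      refine sum_eq_zero fun j _ => ?_
      have h := e1 (finProdFinEquiv.symm j).1 (finProdFinEquiv.symm j).2
      unfold fac at h
      rw [Prod.mk.eta, Equiv.apply_symm_apply] at h
      exact h
    have s2 : ∑ k : Fin K, (Ln (Fin.natAdd (K * R) (Fin.castAdd 2 k))).card = K * R := by
      have h : ∀ k : Fin K, (Ln (Fin.natAdd (K * R) (Fin.castAdd 2 k))).card = R := fun k => e2 k
      rw [sum_congr rfl fun k _ => h k, sum_const, card_univ, Fintype.card_fin, smul_eq_mul]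
    have s3 : (Ln (Fin.natAdd (K * R) (Fin.natAdd K 0))).card = K := e3
    have s4 : (Ln (Fin.natAdd (K * R) (Fin.natAdd K 1))).card = 1 := e4
    rw [s1, s2, s3, s4]
    ring
  · -- the small gates
    refine gcases (fun k i _ => ⟨k, i, sf k i⟩) (fun k h => ?_) (fun h => ?_) (fun h => ?_)
    · exact absurd (by change (1 - ε) * n < ((Sc (prd R k)).card : ℝ); rw [sp]; exact hlu) h
    · exact absurd (by change (1 - ε) * n < ((Sc (smg K R)).card : ℝ); rw [ss]; exact hlu) h
    · exact absurd (by change (1 - ε) * n < ((Sc (ntg K R)).card : ℝ); rw [sn]; exact hlu) h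
  · intro x
    change fn (ntg K R) x = true ↔ _
    rw [fnn]
    by_cases h : ∃ k, ∀ i, g k i x = true
    · rw [decide_eq_true h]
      simp only [Bool.not_true, Bool.false_eq_true, h, not_true_eq_false]
    · rw [decide_eq_false h]
      simp only [Bool.not_false, h, not_false_eq_true]

end Pool.Agent.VD
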