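import Mathlib

/-!
# VD, basic definitions: real functions on the cube, rank across a set of variables, CNF formulas
-/

set_option autoImplicit false

namespace Pool.Agent.VD

open Finset

/-- the cube `{0,1} ^ n` -/
abbrev Cube (n : ℕ) : Type := Fin n → Bool

/-- `f` depends only on the variables in `A` -/
def Dep {n : ℕ} (A : Finset (Fin n)) (f : Cube n → ℝ) : Prop :=
  ∀ x y, (∀ i ∈ A, x i = y i) → f x = f y

/-- `T` has real rank at most `W` across `A`: it is a sum of `W` products of a function of the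
variables in `A` and a function of the other variables -/
def RkLe {n : ℕ} (A : Finset (Fin n)) (W : ℕ) (T : Cube n → ℝ) : Prop :=
  ∃ u v : Fin W → Cube n → ℝ, (∀ k, Dep A (u k)) ∧ (∀ k, Dep Aᶜ (v k)) ∧
    ∀ x, T x = ∑ k, u k x * v k x

/-- `ε n ≤ |A| ≤ (1 - ε) n` -/
def Bal {n : ℕ} (ε : ℝ) (A : Finset (Fin n)) : Prop :=
  ε * n ≤ (A.card : ℝ) ∧ (A.card : ℝ) ≤ (1 - ε) * n

/-- CNF formulas: lists of clauses, lists of literals (the variable `i` has the value `b`) -/
abbrev CNF (n : ℕ) : Type := List (List (Fin n × Bool))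

/-- `x` satisfies `φ` -/
def Sat {n : ℕ} (φ : CNF n) (x : Cube n) : Prop := ∀ K ∈ φ, ∃ l ∈ K, x l.1 = l.2

instance {n : ℕ} (φ : CNF n) (x : Cube n) : Decidable (Sat φ x) := by
  unfold Sat
  infer_instance

/-- the number of models of `φ` -/
def models {n : ℕ} (φ : CNF n) : ℕ := (univ.filter fun x => Sat φ x).card

end Pool.Agent.VD
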