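import Pool.Agent.NG.St
import Pool.Agent.VD.Defs

/-!
# VD, second part: a visible program whose function needs exponentially large DNNFs

Definitions and frozen statements of the modules LB, EX, FN, PR, AS.
-/

set_option autoImplicit false

namespace Pool.Agent.VD

open Finset

section Graph

variable {V ι : Type} (p q : ι → V) (γ : ι → Fin 3)

/-- all edges of group `t` are covered by `x`; the edge `e` has the ends `p e`, `q e` and belongs to
the group `γ e` -/
def CovG (t : Fin 3) (x : V → Bool) : Prop := ∀ e, γ e = t → x (p e) = true ∨ x (q e) = true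

/-- not all the three `CovG t x` are equal -/
def NaeG (x : V → Bool) : Prop :=
  ¬ ((CovG p q γ 0 x ↔ CovG p q γ 1 x) ∧ (CovG p q γ 1 x ↔ CovG p q γ 2 x))

end Graph

/-- **[LB]** lower bound for DNNFs for `¬ NaeG`, for simple graphs of degrees at most 3 in which
every balanced set is crossed by linearly many edges.

PROOF (copy of `NG/Low.lean`, which is the same proof for another graph; read it first).
`ends e = {p e, q e}`, `N e` = the ends outside `ends e` of the edges `e' ≠ e` which share an end
with `e`; `|N e| ≤ 4` by the degree bound. Let `A` = all `x` with `∀ e, x (p e) ∨ x (q e)` and apply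
`NG.thm_Cover` with `Z = Empty` (relabel `G` along `V ≃ V ⊕ Empty`, see `NG/Rel.lean`, or use
`Equiv.sumEmpty`): classes `g x : Fin (2 * G.size)` and balanced sets `S j`. For one class `j`:
the crossing edges of `S j` of the most frequent group `t` (a third of all), among them a set `Q`
with pairwise disjoint `ends e ∪ N e` (greedy: every such set meets at most 100 others, so
`|crossing of group t| ≤ 101 * |Q|`: take `Q` of maximal cardinality among the subsets with
pairwise disjoint sets). `NG.thm_Rect` with `Q`, `p'`/`q'` = the end inside/outside `S j`, `N`, `A`,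
`Y = {x ∈ A | g x = j}`: if `x ∈ A` is true on `N e` then the two ends of `e` can be changed to any
pair which is not `(false, false)`; if `x, y ∈ Y` agree outside the ends of the edges in `T ⊆ Q`,
`N e` is true for `e ∈ T`, and `mix S x y` violates an edge of `T`, then it violates only edges in
`T` (an edge `e' ∉ T` meeting `ends e`, `e ∈ T`, has its other end in `N e`), hence only edges of
group `t`, so `NaeG` holds for `mix S x y`, a contradiction. With `NG.thm_Mom`:
`|Y| ≤ (47/48)^|Q| |A|`; sum over the `2 * G.size` classes. -/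
def St_LB : Prop :=
  ∀ r : ℕ, ∃ (c : ℝ) (k₀ : ℕ), 0 < c ∧
    ∀ (V ι : Type) [Fintype V] [DecidableEq V] [Fintype ι] [DecidableEq ι] (p q : ι → V)
      (γ : ι → Fin 3), k₀ ≤ Fintype.card V →
      (∀ e, p e ≠ q e) →
      (∀ e e', e ≠ e' → ¬ ((p e' = p e ∨ p e' = q e) ∧ (q e' = p e ∨ q e' = q e))) →
      (∀ v, (univ.filter fun e => p e = v ∨ q e = v).card ≤ 3) →
      (∀ S : Finset V, Fintype.card V ≤ 3 * S.card → 3 * S.card ≤ 2 * Fintype.card V →
        Fintype.card V ≤ r * (univ.filter fun e => ¬ (p e ∈ S ↔ q e ∈ S)).card) →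
      ∀ G : NG.Circuit V, G.IsDNNF →
        (∀ i ≤ G.top, ∀ T f, G.gate i = .leaf T f → 3 * T.card ≤ 2 * Fintype.card V) →
        (∀ x, G.eval x = true ↔ ¬ NaeG p q γ x) →
        (2 : ℝ) ^ (c * Fintype.card V) ≤ G.size

/-- The vertices of the subdivided graph: left and right ones, and two inner vertices for every
edge `(c, i)` of the graph of the three permutations. -/
abbrev Vt (m : ℕ) := (Fin m ⊕ Fin m) ⊕ ((Fin 3 × Fin m) ⊕ (Fin 3 × Fin m))

/-- The edges: `(t, (c, i))` is the part number `t` of the edge `(c, i)`. -/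
abbrev Ed (m : ℕ) := Fin 3 × (Fin 3 × Fin m)

/-- first end -/
def pe {m : ℕ} (e : Ed m) : Vt m :=
  if e.1 = 0 then Sum.inl (Sum.inl e.2.2) else
    if e.1 = 1 then Sum.inr (Sum.inl e.2) else Sum.inr (Sum.inr e.2)

/-- second end -/
def qe {m : ℕ} (σ : Fin 3 → Equiv.Perm (Fin m)) (e : Ed m) : Vt m :=
  if e.1 = 0 then Sum.inr (Sum.inl e.2) else
    if e.1 = 1 then Sum.inr (Sum.inr e.2) else Sum.inl (Sum.inr (σ e.2.1 e.2.2))

/-- **[EX]** the subdivided graph is an expander.

PROOF, from `NG.thm_Exp` (three permutations `σ`, constant `r₁`). Let `S` be balanced,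
`8 m ≤ 3 |S| ≤ 16 m`, `S₀` the set of the original vertices (`Fin m ⊕ Fin m`) in `S`, `X` the number
of the pairs `(c, i)` such that one of the three edges `(t, (c, i))` crosses `S`. If `(c, i)` is not
such a pair then the four vertices `inl i`, `a (c, i)`, `b (c, i)`, `inr (σ c i)` are all in `S` or
all outside. The number `I` of the pairs with all four in `S` satisfies `2 I ≤ 3 |S₀|` (at most
three pairs for every left vertex in `S`, and for every right one), so
`|S| ≤ |S₀| + 2 I + 2 X ≤ 4 |S₀| + 2 X`; the same for the complements. Hence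
`8 m ≤ 12 |S₀| + 6 X` and `8 m ≤ 12 (2 m - |S₀|) + 6 X`. Change `S₀` in at most `X / 2 + 1` vertices
into a set `S₁` with `2 m ≤ 3 |S₁| ≤ 4 m` (add or remove vertices). `NG.thm_Exp` for `S₁` gives a
colour `c` and `m ≤ r₁ |P|` numbers `i` with `(c, i)` crossing `S₁`; at most `|S₀ Δ S₁|` of them do
not cross `S₀` (for a fixed colour every vertex is on one edge), the others are counted in `X`:
`X ≥ m / r₁ - X / 2 - 1`. So `X ≥ m / (3 r₁)` for large `m`, and there are at least `X` crossing
edges. -/
def St_EX : Prop :=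
  ∃ r m₀ : ℕ, ∀ m ≥ m₀, ∃ σ : Fin 3 → Equiv.Perm (Fin m), ∀ S : Finset (Vt m),
    8 * m ≤ 3 * S.card → 3 * S.card ≤ 16 * m →
      8 * m ≤ r * (univ.filter fun e : Ed m => ¬ (pe e ∈ S ↔ qe σ e ∈ S)).card

/-- **[FN]** the function `NaeG` of the subdivided graph is a disjoint union of `3 m` products of
`m` functions of at most 8 variables.

PROOF. `z t = CovG pe (qe σ) Prod.fst t`. For `t : Fin 3` and `i : Fin m` let `one t i x` be the part
of `z t x`, and `two t i x` the part of `z (t + 1) x`, at the component number `i`: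
* `t = 0` (component of the left vertex `i`, variables `inl i`, `a (c, i)`, `b (c, i)`, `c : Fin 3`):
  `one` = `∀ c, inl i ∨ a (c, i)`, `two` = `∀ c, a (c, i) ∨ b (c, i)`;
* `t = 1` (component of the right vertex `i`, variables `inr i`, `b (c, k)`, `a (c, k)` with
  `k = (σ c).symm i`): `one` = `∀ c, a (c, k) ∨ b (c, k)`, `two` = `∀ c, b (c, k) ∨ inr i`;
* `t = 2` (variables `inr i`, `b (c, k)`, `k = (σ c).symm i`, and `inl i`, `a (c, i)`):
  `one` = `∀ c, b (c, k) ∨ inr i`, `two` = `∀ c, inl i ∨ a (c, i)`.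
The scopes have at most 8 elements and are disjoint for different `i` (same `t`).
`z t x ↔ ∀ i, one t i x` and `z (t + 1) x ↔ ∀ i, two t i x`. The product number `(t, k)`
(use `finProdFinEquiv : Fin 3 × Fin m ≃ Fin (3 * m)`) has the factors: `one t i ∧ two t i` for
`i < k`, `one t k ∧ ¬ two t k` for `i = k`, `one t i` for `i > k`; it says `z t`, `¬ z (t + 1)`, and
the first component where `z (t + 1)` fails is `k`. `NaeG x ↔ ∃ t, z t x ∧ ¬ z (t + 1) x`; two
different products are never both true (same `t`: first component; different `t`: one of them says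
`z t'` and the other `¬ z t'`). Witness for the product `(t, k)`: all variables `true` except the
ends of one edge of group `t + 1` at the component `k` (`t = 0`: `a (0, k)`, `b (0, k)`; `t = 1`:
`b (0, (σ 0).symm k)`, `inr k`; `t = 2`: `inl k`, `a (0, k)`). If all variables are `true` then
`NaeG` is false. -/
def St_FN : Prop :=
  ∀ (m : ℕ) (σ : Fin 3 → Equiv.Perm (Fin m)), 0 < m →
    ∃ (sc : Fin (3 * m) → Fin m → Finset (Vt m)) (g : Fin (3 * m) → Fin m → (Vt m → Bool) → Bool),
      (∀ k i x y, (∀ v ∈ sc k i, x v = y v) → g k i x = g k i y) ∧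
      (∀ k i, (sc k i).card ≤ 8) ∧
      (∀ k i i', i ≠ i' → Disjoint (sc k i) (sc k i')) ∧
      (∀ x k k', (∀ i, g k i x = true) → (∀ i, g k' i x = true) → k = k') ∧
      (∀ k, ∃ x, ∀ i, g k i x = true) ∧
      (∃ x, ∀ k, ∃ i, g k i x = false) ∧
      ∀ x, (∃ k, ∀ i, g k i x = true) ↔ NaeG pe (qe σ) Prod.fst x

/-- **[PR]** the program for the negation of a disjoint union of `K` products of `R` small
functions.

PROOF. `s = K * R + (K + 2)` gates: the factors (small; scope `sc k i`, no inputs), the products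
(scope `univ`, inputs `(factor (k, i), true)`), the sum (scope `univ`, inputs `(product k, true)`),
and a product gate with the single input `(sum, false)`. All but the factors are large. Visible: if
`u` has the true values at the factors and satisfies the binary clauses of the product gates then
two true products contradict the exclusivity of the products at `x`. -/
def St_PR : Prop :=
  ∀ (n K R : ℕ) (ε : ℝ), 0 < ε → 0 < n → 0 < K →
    ∀ (sc : Fin K → Fin R → Finset (Fin n)) (g : Fin K → Fin R → Cube n → Bool),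
      (∀ k i x y, (∀ v ∈ sc k i, x v = y v) → g k i x = g k i y) →
      (∀ k i, ((sc k i).card : ℝ) ≤ (1 - ε) * n) →
      (∀ k i i', i ≠ i' → Disjoint (sc k i) (sc k i')) →
      (∀ x k k', (∀ i, g k i x = true) → (∀ i, g k' i x = true) → k = k') →
      (∀ k, ∃ x, ∀ i, g k i x = true) →
      (∃ x, ∀ k, ∃ i, g k i x = false) →
      ∃ (P : Prog n ε 1 (K * R + (K + 2))) (r : Fin (K * R + (K + 2))), P.Visible ∧
        P.size = 2 * (K * R) + 2 * K + 3 ∧
        (∀ j, ¬ P.Large j → ∃ k i, P.S j = sc k i) ∧
        ∀ x, P.f r x = true ↔ ¬ ∃ k, ∀ i, g k i x = true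

/-- **[AS]** assembly. -/
def St_Sep : Prop :=
  ∃ (c : ℝ) (m₀ : ℕ), 0 < c ∧ ∀ m ≥ m₀, ∀ ε : ℝ, 0 < ε → ε ≤ 1 / 3 →
    ∃ (s : ℕ) (P : Prog (8 * m) ε 1 s) (r : Fin s), P.Visible ∧ P.size ≤ (8 * m) ^ 2 ∧
      (∀ j, ¬ P.Large j → (P.S j).card ≤ 8) ∧
      ∀ G : NG.Circuit (Fin (8 * m)), G.IsDNNF →
        (∀ i ≤ G.top, ∀ T f, G.gate i = .leaf T f → 3 * T.card ≤ 2 * (8 * m)) →
        (∀ x, G.eval x = P.f r x) → (2 : ℝ) ^ (c * (8 * m : ℕ)) ≤ G.size

end Pool.Agent.VD
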