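import Pool.Agent.VD.Defs

/-!
# VD, statements

`St_Hard` (discrepancy, counting, formulas) is in `Main.lean`.
-/

set_option autoImplicit false

namespace Pool.Agent.VD

/-- **Faults and expansion** (`thm_Upper`): every gate of a program is a sum of `P.size` functions
bounded by the products of the fan-outs along chains of critical gates, of rank at most `W` across
balanced sets. -/
def St_Upper : Prop :=
  ∀ (ε : ℝ), 0 < ε → ε ≤ 1 / 3 → ∀ (n W s : ℕ), 2 ≤ n → 1 ≤ W →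
    ∀ (P : Prog n ε W s) (B : ℕ), (∀ c, P.IsChain c → (c.map P.fanout).prod ≤ B) →
      ∀ r : Fin s, ∃ (T : Fin P.size → Cube n → ℝ) (A : Fin P.size → Finset (Fin n)),
        (∀ i, Bal ε (A i)) ∧ (∀ i x, |T i x| ≤ B) ∧ (∀ i, RkLe (A i) W (T i)) ∧
        ∀ x, (if P.f r x then (1 : ℝ) else 0) = ∑ i, T i x

/-- Programs with visible determinism have no critical gates. -/
def St_Visible : Prop :=
  ∀ (n : ℕ) (ε : ℝ) (W s : ℕ) (P : Prog n ε W s), P.Visible → ∀ j, ¬ P.Critical j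

/-- **The theorem** (`result`). -/
def St_Final : Prop :=
  ∀ ε : ℝ, 0 < ε → ε ≤ 1 / 3 → ∃ (c : ℝ) (C : ℕ), 0 < c ∧ ∀ n : ℕ, ∃ φ : CNF n,
    φ.length ≤ C * n ∧ (∀ K ∈ φ, K.length ≤ C) ∧ 0 < models φ ∧
    ∀ (W s : ℕ) (P : Prog n ε W s) (r : Fin s), 1 ≤ W →
      2 * (Finset.univ.filter fun x => ¬ (P.f r x = true ↔ Sat φ x)).card ≤ models φ →
      (P.Visible → (2 : ℝ) ^ (c * n) ≤ 2 * P.size * W) ∧
      ∀ B : ℕ, (∀ c, P.IsChain c → (c.map P.fanout).prod ≤ B) →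
        (2 : ℝ) ^ (c * n) ≤ 2 * P.size * W * B

end Pool.Agent.VD
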