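import Pool.Agent.VD.Chn
import Pool.Agent.VD.Blk

/-!
# VD, the expansion of a program
-/

set_option autoImplicit false

namespace Pool.Agent.VD

open Finset Matrix
open scoped Classical

theorem pad {n : ℕ} {ε : ℝ} {W B N : ℕ} {ι : Type} [Fintype ι] (hc : Fintype.card ι ≤ N)
    (T : ι → Cube n → ℝ) (h0 : ∃ A : Finset (Fin n), Bal ε A)
    (hT : ∀ i, (∀ x, |T i x| ≤ B) ∧ ∃ A : Finset (Fin n), Bal ε A ∧ RkLe A W (T i))
    (g : Cube n → ℝ) (hg : ∀ x, g x = ∑ i, T i x) :
    ∃ (T' : Fin N → Cube n → ℝ) (A : Fin N → Finset (Fin n)),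
      (∀ i, Bal ε (A i)) ∧ (∀ i x, |T' i x| ≤ B) ∧ (∀ i, RkLe (A i) W (T' i)) ∧
      ∀ x, g x = ∑ i, T' i x := by
  obtain ⟨A₀, hA₀⟩ := h0
  have e := (Fintype.equivFin ι).symm
  choose A hA1 hA2 using fun i => (hT i).2
  refine ⟨fun k => if h : (k : ℕ) < Fintype.card ι then T (e ⟨k, h⟩) else fun _ => 0,
    fun k => if h : (k : ℕ) < Fintype.card ι then A (e ⟨k, h⟩) else A₀,
    fun k => ?_, fun k x => ?_, fun k => ?_, fun x => ?_⟩
  · by_cases h : (k : ℕ) < Fintype.card ι
    · simp only [h, dif_pos]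
      exact hA1 _
    · simp only [h, dif_neg, not_false_eq_true]
      exact hA₀
  · by_cases h : (k : ℕ) < Fintype.card ι
    · simp only [h, dif_pos]
      exact (hT _).1 x
    · simp only [h, dif_neg, not_false_eq_true]
      rw [abs_zero]
      exact Nat.cast_nonneg _
  · by_cases h : (k : ℕ) < Fintype.card ι
    · simp only [h, dif_pos]
      exact hA2 _
    · simp only [h, dif_neg, not_false_eq_true]
      refine ⟨fun _ _ => 0, fun _ _ => 0, fun _ _ _ _ => rfl, fun _ _ _ _ => rfl, fun x => ?_⟩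
      simp
  · rw [hg x, ← e.sum_comp]
    obtain ⟨m, rfl⟩ := Nat.exists_eq_add_of_le hc
    rw [Fin.sum_univ_add]
    simp

namespace Prog

variable {n : ℕ} {ε : ℝ} {W s : ℕ} (P : Prog n ε W s)

/-- products of small literals with disjoint scopes have rank one across a balanced set -/
theorem rk_prod (hε0 : 0 < ε) (hε : ε ≤ 1 / 3) (hn : 2 ≤ n) (hW : 1 ≤ W) (S : Finset (Fin n))
    (hS : (1 - ε) * n < S.card) (t : Finset (Fin s × Bool)) (ht : ∀ l ∈ t, P.S l.1 ⊆ S)
    (hs : ∀ l ∈ t, ¬ P.Large l.1)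
    (hd : ∀ l ∈ t, ∀ l' ∈ t, l ≠ l' → Disjoint (P.S l.1) (P.S l'.1)) :
    ∃ A ⊆ S, Bal ε A ∧ RkLe A W fun x => ∏ l ∈ t, lv (P.F x) l := by
  obtain ⟨A, hA, hb, hsat⟩ := exists_bal hε0 hε hn S hS t (fun l => P.S l.1) ht
    (fun l hl => not_lt.1 (hs l hl)) hd
  refine ⟨A, hA, hb, RkLe.one_of hW
    (a := fun x => ∏ l ∈ t.filter fun l => P.S l.1 ⊆ A, lv (P.F x) l)
    (b := fun x => ∏ l ∈ t.filter fun l => ¬ P.S l.1 ⊆ A, lv (P.F x) l) ?_ ?_ ?_⟩
  · intro x y hxy
    refine Finset.prod_congr rfl fun l hl => ?_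
    rw [Finset.mem_filter] at hl
    exact P.lv_dep fun v hv => hxy v (hl.2 hv)
  · intro x y hxy
    refine Finset.prod_congr rfl fun l hl => ?_
    rw [Finset.mem_filter] at hl
    refine P.lv_dep fun v hv => hxy v ?_
    rw [Finset.mem_compl]
    intro hv'
    exact Finset.disjoint_left.1 ((hsat l hl.1).resolve_left hl.2) hv hv'
  · intro x
    rw [Finset.prod_filter_mul_prod_filter_not]

theorem dep_D {r i : Fin s} {A : Finset (Fin n)} (hA : A ⊆ P.S i) :
    Dep Aᶜ fun x => P.D x r i := by
  intro x y hxy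
  exact (P.D_dep r i).2 x y fun v hv => hxy v (Finset.mem_compl.2 fun h => hv (hA h))

theorem abs_cst (x : Cube n) (l : Fin s × Bool) : |P.cst x l| ≤ 1 := by
  unfold cst
  by_cases h : P.Large l.1
  · rw [if_pos h]
    cases l.2 <;> simp
  · rw [if_neg h]
    exact P.abs_lv_F x l

theorem abs_F (x : Cube n) (i : Fin s) : |P.F x i| ≤ 1 := by
  unfold F
  cases P.f i x <;> simp

/-- the terms of the leaves and of the product gates -/
theorem term_gate (hε0 : 0 < ε) (hε : ε ≤ 1 / 3) (hn : 2 ≤ n) (hW : 1 ≤ W) (r : Fin s)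
    {i : Fin s} (hi : P.Large i) (hk : P.kind i ≠ .sum) :
    (∀ x, |P.cc x i| ≤ 1) ∧
      ∃ A : Finset (Fin n), Bal ε A ∧ RkLe A W fun x => P.D x r i * P.cc x i := by
  rcases hkk : P.kind i with _ | _ | _
  · have h1 : ∀ x, P.cc x i = P.F x i := fun x => P.cc_leaf x (Or.inr hkk)
    refine ⟨fun x => by rw [h1]; exact P.abs_F x i, ?_⟩
    obtain ⟨A, hA, hb, hr⟩ := P.leaf i hi hkk
    refine ⟨A, hb, ?_⟩
    have h2 : (fun x => P.D x r i * P.cc x i) =
        fun x => (P.D x r i) * (if P.f i x then (1 : ℝ) else 0) := by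
      funext x
      rw [h1]
      rfl
    rw [h2]
    exact hr.mul_dep (P.dep_D hA)
  · have h1 : ∀ x, P.cc x i = ∏ l ∈ P.L i, P.cst x l := by
      intro x
      unfold cc
      rw [if_pos hi, hkk]
    refine ⟨fun x => by rw [h1]; exact abs_prod_le _ _ fun l _ => P.abs_cst x l, ?_⟩
    by_cases hex : ∃ l₀ ∈ P.L i, P.Large l₀.1
    · obtain ⟨l₀, hl₀, hL₀⟩ := hex
      obtain ⟨A, hA, hb⟩ := exists_bal' hε0 hε hn (P.S l₀.1) hL₀
      refine ⟨A, hb, RkLe.one_of hW (a := fun _ => 1) (b := fun x => P.D x r i * P.cc x i)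
        (fun _ _ _ => rfl) ?_ (fun x => by rw [one_mul])⟩
      intro x y hxy
      have h2 : P.D x r i = P.D y r i :=
        P.dep_D (hA.trans (P.input i l₀ hl₀).2) x y hxy
      have h3 : P.cc x i = P.cc y i := by
        rw [h1, h1]
        refine Finset.prod_congr rfl fun l hl => ?_
        unfold cst
        by_cases hL : P.Large l.1
        · rw [if_pos hL, if_pos hL]
        · rw [if_neg hL, if_neg hL]
          have hne : l ≠ l₀ := fun e => hL (by rw [e]; exact hL₀)
          refine P.lv_dep fun v hv => hxy v ?_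
          rw [Finset.mem_compl]
          intro hv'
          exact Finset.disjoint_left.1 (P.disj i hi hkk l hl l₀ hl₀ hne) hv (hA hv')
      simp only [h2, h3]
    · push Not at hex
      obtain ⟨A, hA, hb, hr⟩ := P.rk_prod hε0 hε hn hW (P.S i) hi (P.L i)
        (fun l hl => (P.input i l hl).2) hex (P.disj i hi hkk)
      refine ⟨A, hb, ?_⟩
      have h2 : (fun x => P.D x r i * P.cc x i) =
          fun x => (P.D x r i) * (∏ l ∈ P.L i, lv (P.F x) l) := by
        funext x
        rw [h1]
        congr 1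
        refine Finset.prod_congr rfl fun l hl => ?_
        unfold cst
        rw [if_neg (hex l hl)]
      rw [h2]
      exact hr.mul_dep (P.dep_D hA)
  · exact absurd hkk hk

/-- the terms of the inputs of the sum gates -/
theorem term_lit (hε0 : 0 < ε) (hε : ε ≤ 1 / 3) (hn : 2 ≤ n) (hW : 1 ≤ W) (r : Fin s)
    {i : Fin s} (hi : P.Large i) {l : Fin s × Bool} (hl : l ∈ P.L i) :
    ∃ A : Finset (Fin n), Bal ε A ∧ RkLe A W fun x => P.D x r i * P.cst x l := by
  by_cases hL : P.Large l.1
  · obtain ⟨A, hA, hb⟩ := exists_bal' hε0 hε hn (P.S i) hi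
    refine ⟨A, hb, RkLe.one_of hW (a := fun _ => 1) (b := fun x => P.D x r i * P.cst x l)
      (fun _ _ _ => rfl) ?_ (fun x => by rw [one_mul])⟩
    intro x y hxy
    have h2 : P.D x r i = P.D y r i := P.dep_D hA x y hxy
    have h3 : P.cst x l = P.cst y l := by
      unfold cst
      rw [if_pos hL, if_pos hL]
    simp only [h2, h3]
  · obtain ⟨A, hA, hb, hr⟩ := P.rk_prod hε0 hε hn hW (P.S i) hi {l}
      (fun l' hl' => by
        rw [Finset.mem_singleton] at hl'
        rw [hl']
        exact (P.input i l hl).2)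
      (fun l' hl' => by
        rw [Finset.mem_singleton] at hl'
        rw [hl']
        exact hL)
      (fun l' hl' l'' hl'' hne => by
        rw [Finset.mem_singleton] at hl' hl''
        exact absurd (hl'.trans hl''.symm) hne)
    refine ⟨A, hb, ?_⟩
    have h2 : (fun x => P.D x r i * P.cst x l) =
        fun x => (P.D x r i) * (∏ l' ∈ {l}, lv (P.F x) l') := by
      funext x
      rw [Finset.prod_singleton]
      unfold cst
      rw [if_neg hL]
    rw [h2]
    exact hr.mul_dep (P.dep_D hA)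

end Prog

theorem thm_Upper : St_Upper := by
  intro ε hε0 hε n W s hn hW P B hB r
  have hn1 : 1 ≤ n := by omega
  have huniv : (1 - ε) * n < (Finset.univ : Finset (Fin n)).card := by
    rw [Finset.card_univ, Fintype.card_fin]
    have : (2 : ℝ) ≤ n := by exact_mod_cast hn
    nlinarith
  have h0 : ∃ A : Finset (Fin n), Bal ε A := by
    obtain ⟨A, -, h⟩ := exists_bal' hε0 hε hn _ huniv
    exact ⟨A, h⟩
  have hB1 : (1 : ℝ) ≤ B := by
    have := hB [] ⟨fun k hk => by simp at hk, List.isChain_nil⟩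
    rw [List.map_nil, List.prod_nil] at this
    exact_mod_cast this
  have hB0 : (0 : ℝ) ≤ B := by linarith
  by_cases hr : P.Large r
  · have hDB : ∀ x i, P.Large i → |P.D x r i| ≤ B := fun x i hi =>
      P.abs_D_le hε hn1 hB x r i hi
    refine pad (ι := Fin s ⊕ (Σ i : Fin s, {l // l ∈ P.L i})) (N := P.size) ?_
      (Sum.elim (fun i x => if P.Large i ∧ P.kind i ≠ .sum then P.D x r i * P.cc x i else 0)
        (fun p x => if P.Large p.1 ∧ P.kind p.1 = .sum then P.D x r p.1 * P.cst x p.2.1 else 0))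
      h0 ?_ _ ?_
    · rw [Fintype.card_sum, Fintype.card_sigma, Fintype.card_fin]
      unfold Prog.size
      simp
    · rintro (i | ⟨i, l, hl⟩)
      · by_cases h : P.Large i ∧ P.kind i ≠ .sum
        · simp only [Sum.elim_inl, h, if_true, ne_eq, not_false_eq_true, and_self]
          obtain ⟨h1, h2⟩ := P.term_gate hε0 hε hn hW r h.1 h.2
          refine ⟨fun x => ?_, h2⟩
          rw [abs_mul]
          calc _ ≤ (B : ℝ) * 1 := mul_le_mul (hDB x i h.1) (h1 x) (abs_nonneg _) hB0
            _ = B := mul_one _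
        · simp only [Sum.elim_inl, h, if_false]
          refine ⟨fun x => by rw [abs_zero]; exact hB0, ?_⟩
          obtain ⟨A, hA⟩ := h0
          exact ⟨A, hA, fun _ _ => 0, fun _ _ => 0, fun _ _ _ _ => rfl, fun _ _ _ _ => rfl,
            fun x => by simp⟩
      · by_cases h : P.Large i ∧ P.kind i = .sum
        · simp only [Sum.elim_inr, h, if_true, and_self]
          refine ⟨fun x => ?_, P.term_lit hε0 hε hn hW r h.1 hl⟩
          rw [abs_mul]
          calc _ ≤ (B : ℝ) * 1 := mul_le_mul (hDB x i h.1) (P.abs_cst x l) (abs_nonneg _) hB0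
            _ = B := mul_one _
        · simp only [Sum.elim_inr, h, if_false]
          refine ⟨fun x => by rw [abs_zero]; exact hB0, ?_⟩
          obtain ⟨A, hA⟩ := h0
          exact ⟨A, hA, fun _ _ => 0, fun _ _ => 0, fun _ _ _ _ => rfl, fun _ _ _ _ => rfl,
            fun x => by simp⟩
    · intro x
      have h1 := P.F_expand hε hn1 x r
      rw [Fintype.sum_sum_type, Fintype.sum_sigma, ← Finset.sum_add_distrib]
      refine h1.trans (Finset.sum_congr rfl fun i _ => ?_)
      simp only [Sum.elim_inl, Sum.elim_inr]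
      by_cases hi : P.Large i
      · by_cases hk : P.kind i = .sum
        · rw [if_neg (fun h => h.2 hk), zero_add]
          have h2 : P.cc x i = ∑ l ∈ P.L i, P.cst x l := by
            unfold Prog.cc
            rw [if_pos hi, hk]
          rw [h2, Finset.mul_sum, ← Finset.sum_coe_sort]
          refine Finset.sum_congr rfl fun l _ => ?_
          rw [if_pos ⟨hi, hk⟩]
        · rw [if_pos ⟨hi, hk⟩, Finset.sum_eq_zero, add_zero]
          intro l _
          rw [if_neg (fun h => hk h.2)]
      · have hne : r ≠ i := fun e => hi (by rw [← e]; exact hr)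
        rw [P.D_small x hi hne, zero_mul, if_neg (fun h => hi h.1), Finset.sum_eq_zero, add_zero]
        intro l _
        rw [if_neg (fun h => hi h.1)]
  · obtain ⟨A, -, hb, hrk⟩ := P.rk_prod hε0 hε hn hW Finset.univ huniv {(r, true)}
      (fun _ _ => Finset.subset_univ _)
      (fun l hl => by
        rw [Finset.mem_singleton] at hl
        rw [hl]
        exact hr)
      (fun l' hl' l'' hl'' hne => by
        rw [Finset.mem_singleton] at hl' hl''
        exact absurd (hl'.trans hl''.symm) hne)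
    refine pad (ι := Unit) (N := P.size) ?_ (fun _ x => if P.f r x then (1 : ℝ) else 0) h0 ?_ _ ?_
    · rw [Fintype.card_unit]
      unfold Prog.size
      have := r.pos
      omega
    · intro _
      refine ⟨fun x => ?_, A, hb, ?_⟩
      · refine le_trans ?_ hB1
        exact P.abs_F x r
      · have h2 : (fun x => if P.f r x then (1 : ℝ) else 0) =
            fun x => (∏ l' ∈ {((r, true) : Fin s × Bool)}, Prog.lv (P.F x) l') := by
          funext x
          rw [Finset.prod_singleton]
          rfl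
        rw [h2]
        exact hrk
    · intro x
      simp

end Pool.Agent.VD
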